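import Pool.Agent.TWB.Model

/-!
# Obstructions: the properties that are used
-/

namespace Pool.Agent.TWB

open Finset

variable {V : Type*} [Fintype V] [DecidableEq V]

/- MODULE oba (M) -/
/-- PROOF. Transfer `H` to `Fin m` with an equivalence `e : W ≃ Fin m` (`SimpleGraph.comap e.symm`
or `SimpleGraph.map`); minors, isomorphisms and partial k-trees transfer. -/
theorem part_of_minor {k : ℕ} {G : SimpleGraph V} (h : Pool.Agent.TW4.IsObstruction k G)
    {W : Type*} [Finite W] (H : SimpleGraph W) (hm : Pool.Agent.TW4.IsMinor H G)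
    (hi : IsEmpty (H ≃g G)) : Pool.Agent.TW4.IsPartialKTree k H := by
  classical
  obtain ⟨m, ⟨e⟩⟩ := Finite.exists_equiv_fin W
  obtain ⟨f, hf, hadj⟩ := hm
  have hm' : Pool.Agent.TW4.IsMinor (H.comap e.symm) G := by
    refine ⟨fun v => (f v).map e, ?_, ?_⟩
    · intro i
      have h1 : {v | (f v).map e = some i} = {v | f v = some (e.symm i)} := by
        ext v
        change (f v).map e = some i ↔ f v = some (e.symm i)
        rw [Option.map_eq_some_iff]
        constructor
        · rintro ⟨a, ha, rfl⟩
          rw [ha, Equiv.symm_apply_apply]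
        · intro hv
          exact ⟨e.symm i, hv, Equiv.apply_symm_apply _ _⟩
      rw [h1]
      exact hf (e.symm i)
    · intro i j hij
      obtain ⟨v, v', hv, hv', hvv⟩ := hadj _ _ hij
      refine ⟨v, v', ?_, ?_, hvv⟩
      · change (f v).map e = some i
        rw [hv, Option.map_some, Equiv.apply_symm_apply]
      · change (f v').map e = some j
        rw [hv', Option.map_some, Equiv.apply_symm_apply]
  have hi' : IsEmpty (H.comap e.symm ≃g G) :=
    ⟨fun φ => hi.false ((SimpleGraph.Iso.comap e.symm H).symm.trans φ)⟩
  obtain ⟨n, T, g, hT, hg, hG⟩ := h.2 m _ hm' hi'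
  refine ⟨n, T, g ∘ e, hT, hg.comp e.injective, fun a b hab => hG _ _ ?_⟩
  change H.Adj (e.symm (e a)) (e.symm (e b))
  rwa [Equiv.symm_apply_apply, Equiv.symm_apply_apply]

omit [Fintype V] [DecidableEq V] in
private theorem oba_single (G : SimpleGraph V) (w : V) :
    (G.induce {v | some v = some w}).Connected := by
  have : Subsingleton ({v | some v = some w} : Set V) :=
    ⟨fun a b => Subtype.ext ((Option.some.inj a.2).trans (Option.some.inj b.2).symm)⟩
  have : Nonempty ({v | some v = some w} : Set V) := ⟨⟨w, rfl⟩⟩
  exact SimpleGraph.Connected.of_subsingleton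

/-- PROOF. `Dl G x y` is a minor of `G` (`f v = some v`), and it is not isomorphic to `G`, since it has
fewer edges (the edge set of `Dl G x y` is a proper subset of that of `G`, `V` is finite). Use
`tw_of_partial`. -/
theorem obs_del {k : ℕ} {G : SimpleGraph V} (h : Pool.Agent.TW4.IsObstruction k G) (x y : V)
    (hxy : G.Adj x y) : TW k (Dl G x y) := by
  refine tw_of_partial (part_of_minor h (Dl G x y) ⟨fun v => some v, fun w => oba_single G w, ?_⟩ ?_)
  · intro w w' hww
    exact ⟨w, w', rfl, rfl, hww.1⟩
  · refine ⟨fun φ => ?_⟩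
    have h1 : (Dl G x y).edgeSet ⊂ G.edgeSet := by
      refine ⟨?_, ?_⟩
      · exact SimpleGraph.edgeSet_mono fun a b hab => hab.1
      · intro hsub
        have h2 : s(x, y) ∈ (Dl G x y).edgeSet := hsub hxy
        have h3 : (Dl G x y).Adj x y := h2
        exact h3.2.1 ⟨rfl, rfl⟩
    have h2 := Set.ncard_lt_ncard h1 (Set.toFinite _)
    have h3 : (Dl G x y).edgeSet.ncard = G.edgeSet.ncard := Nat.card_congr φ.mapEdgeSet
    omega

/- END oba -/

/- MODULE obb (M) -/
omit [Fintype V] [DecidableEq V] in
private theorem obb_single (G : SimpleGraph V) (w : V) : (G.induce ({w} : Set V)).Connected := by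
  have : Nonempty ({w} : Set V) := ⟨⟨w, rfl⟩⟩
  refine ⟨?_⟩
  rintro ⟨a, ha⟩ ⟨b, hb⟩
  have ha' : a = w := ha
  have hb' : b = w := hb
  subst ha'
  subst hb'
  exact SimpleGraph.Reachable.refl _

omit [Fintype V] [DecidableEq V] in
private theorem obb_pair {G : SimpleGraph V} {x y : V} (h : G.Adj x y) :
    (G.induce ({x, y} : Set V)).Connected := by
  have : Nonempty ({x, y} : Set V) := ⟨⟨x, by simp⟩⟩
  have hxy : (G.induce ({x, y} : Set V)).Reachable ⟨x, by simp⟩ ⟨y, by simp⟩ :=
    SimpleGraph.Adj.reachable (by simpa using h)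
  refine ⟨?_⟩
  rintro ⟨a, ha⟩ ⟨b, hb⟩
  rcases ha with rfl | ha
  · rcases hb with rfl | hb
    · exact SimpleGraph.Reachable.refl _
    · have hb' : b = y := hb
      subst hb'
      exact hxy
  · have ha' : a = y := ha
    subst ha'
    rcases hb with rfl | hb
    · exact hxy.symm
    · have hb' : b = a := hb
      subst hb'
      exact SimpleGraph.Reachable.refl _

/-- PROOF. The graph induced by `Ctr G x y` on `{v | v ≠ y}` (as a `Finset` `univ.erase y`) is a minor of
`G` (`f y = some x`, `f v = some v` otherwise; the branch set `{x, y}` is connected), and it is not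
isomorphic to `G`, since it has fewer vertices. Use `part_of_minor` and `tw_of_induce`. -/
theorem obs_ctr {k : ℕ} {G : SimpleGraph V} (h : Pool.Agent.TW4.IsObstruction k G) (x y : V)
    (hxy : G.Adj x y) : TW k (Ctr G x y) := by
  refine tw_of_induce (univ.erase y) (fun a b hab => by simpa using hab.2.1) ?_
  refine part_of_minor h _ ?_ ?_
  · have hx : x ∈ ((univ.erase y : Finset V) : Set V) := by simpa using hxy.ne
    have hmem : ∀ v : V, v ≠ y → v ∈ ((univ.erase y : Finset V) : Set V) := by
      intro v hv; simpa using hv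
    refine ⟨fun v => if hv : v = y then some ⟨x, hx⟩ else some ⟨v, hmem v hv⟩, ?_, ?_⟩
    · rintro ⟨w, hw⟩
      have hwy : w ≠ y := by simpa using hw
      by_cases hwx : w = x
      · subst hwx
        have hset : {v | (if hv : v = y then some (⟨w, hx⟩ :
            ((univ.erase y : Finset V) : Set V)) else some ⟨v, hmem v hv⟩) =
            some ⟨w, hw⟩} = {w, y} := by
          ext v
          by_cases hv : v = y
          · subst hv; simp
          · simp [hv]
        rw [hset]
        exact obb_pair hxy
      · have hset : {v | (if hv : v = y then some (⟨x, hx⟩ :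
            ((univ.erase y : Finset V) : Set V)) else some ⟨v, hmem v hv⟩) =
            some ⟨w, hw⟩} = {w} := by
          ext v
          by_cases hv : v = y
          · subst hv
            simp [Ne.symm hwx, Ne.symm hwy]
          · simp [hv]
        rw [hset]
        exact obb_single G w
    · rintro ⟨a, ha⟩ ⟨b, hb⟩ hab
      have hay : a ≠ y := by simpa using ha
      have hby : b ≠ y := by simpa using hb
      have hab' : (Ctr G x y).Adj a b := hab
      rcases hab'.2.2.2 with h1 | ⟨rfl, h1⟩ | ⟨rfl, h1⟩
      · exact ⟨a, b, by simp [hay], by simp [hby], h1⟩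
      · exact ⟨y, b, by simp, by simp [hby], h1⟩
      · exact ⟨a, y, by simp [hay], by simp, h1.symm⟩
  · refine ⟨fun e => ?_⟩
    have h1 := Nat.card_congr e.toEquiv
    rw [Nat.card_eq_fintype_card (α := V)] at h1
    have h2 : Nat.card ((univ.erase y : Finset V) : Set V) = (univ.erase y : Finset V).card := by
      simp
    rw [h2, Finset.card_erase_of_mem (Finset.mem_univ y), Finset.card_univ] at h1
    have h3 : 0 < Fintype.card V := Fintype.card_pos_iff.2 ⟨y⟩
    omega

/-- PROOF. If `v` is isolated, the graph induced on `univ.erase v` is a minor of `G` that is not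
isomorphic to `G` (fewer vertices), so it is a partial k-tree; `tw_of_induce` gives `TW k G` and
`partial_of_tw` a contradiction. -/
theorem obs_iso {k : ℕ} {G : SimpleGraph V} (h : Pool.Agent.TW4.IsObstruction k G) (v : V) :
    ∃ w, G.Adj v w := by
  by_contra hcon
  push Not at hcon
  refine h.1 (partial_of_tw ?_)
  refine tw_of_induce (univ.erase v) (fun a b hab => ?_) ?_
  · have : a ≠ v := by
      rintro rfl
      exact hcon b hab
    simpa using this
  refine part_of_minor h _ ?_ ?_
  · have hmem : ∀ u : V, u ≠ v → u ∈ ((univ.erase v : Finset V) : Set V) := by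
      intro u hu; simpa using hu
    refine ⟨fun u => if hu : u = v then none else some ⟨u, hmem u hu⟩, ?_, ?_⟩
    · rintro ⟨w, hw⟩
      have hwv : w ≠ v := by simpa using hw
      have hset : {u | (if hu : u = v then none else some (⟨u, hmem u hu⟩ :
          ((univ.erase v : Finset V) : Set V))) = some ⟨w, hw⟩} = {w} := by
        ext u
        by_cases hu : u = v
        · subst hu
          simp [Ne.symm hwv]
        · simp [hu]
      rw [hset]
      exact obb_single G w
    · rintro ⟨a, ha⟩ ⟨b, hb⟩ hab
      have hav : a ≠ v := by simpa using ha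
      have hbv : b ≠ v := by simpa using hb
      exact ⟨a, b, by simp [hav], by simp [hbv], hab⟩
  · refine ⟨fun e => ?_⟩
    have h1 := Nat.card_congr e.toEquiv
    rw [Nat.card_eq_fintype_card (α := V)] at h1
    have h2 : Nat.card ((univ.erase v : Finset V) : Set V) = (univ.erase v : Finset V).card := by
      simp
    rw [h2, Finset.card_erase_of_mem (Finset.mem_univ v), Finset.card_univ] at h1
    have h3 : 0 < Fintype.card V := Fintype.card_pos_iff.2 ⟨v⟩
    omega

/-- PROOF. The four previous statements and `partial_of_tw`. -/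
theorem obs_of_isObstruction {k : ℕ} {G : SimpleGraph V}
    (h : Pool.Agent.TW4.IsObstruction k G) : Obs k G :=
  ⟨fun h' => h.1 (partial_of_tw h'), obs_del h, obs_ctr h, obs_iso h⟩

/- END obb -/

end Pool.Agent.TWB
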