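import Pool.Agent.TWB.Defs

/-!
# Connected vertex sets
-/

namespace Pool.Agent.TWB

open Finset

variable {V : Type*} [DecidableEq V]

/- MODULE cna (M) -/
/-- PROOF. From the definition. -/
theorem Cn.mono_adj {G G' : SimpleGraph V} {T : Finset V} (h : Cn G T)
    (hle : ∀ u ∈ T, ∀ w ∈ T, G.Adj u w → G'.Adj u w) : Cn G' T :=
  ⟨h.1, fun X hX hne hcl => h.2 X hX hne fun u hu w hw huw => hcl u hu w hw
    (hle u (hX hu) w hw huw)⟩

/-- PROOF. a nonempty subset of `{v}` is `{v}` -/
theorem cn_single (G : SimpleGraph V) (v : V) : Cn G {v} :=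
  ⟨Finset.singleton_nonempty v, fun X hX hne _ =>
    (Finset.subset_singleton_iff.1 hX).resolve_left hne.ne_empty⟩

/-- A connected set `T` that meets a set `K` which is closed under adjacency inside `T` lies in `K`.
PROOF. Apply the definition to `T ∩ K`. -/
theorem Cn.sub_of_closed {G : SimpleGraph V} {T K : Finset V} (h : Cn G T)
    (hK : ∀ u ∈ T, u ∈ K → ∀ w ∈ T, G.Adj u w → w ∈ K) (hne : (T ∩ K).Nonempty) : T ⊆ K := by
  have h1 : T ∩ K = T := h.2 (T ∩ K) Finset.inter_subset_left hne fun u hu w hw huw =>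
    Finset.mem_inter.2 ⟨hw, hK u (Finset.mem_inter.1 hu).1 (Finset.mem_inter.1 hu).2 w hw huw⟩
  exact Finset.inter_eq_left.1 h1

/-- PROOF. Otherwise `sub_of_closed` gives `T ⊆ K`. -/
theorem Cn.exit {G : SimpleGraph V} {T K : Finset V} (h : Cn G T) {u w : V} (hu : u ∈ T)
    (huK : u ∈ K) (hw : w ∈ T) (hwK : w ∉ K) :
    ∃ a ∈ T, a ∈ K ∧ ∃ b ∈ T, b ∉ K ∧ G.Adj a b := by
  by_contra hcon
  push Not at hcon
  refine hwK (h.sub_of_closed (K := K) (fun a ha haK b hb hab => ?_)
    ⟨u, Finset.mem_inter.2 ⟨hu, huK⟩⟩ hw)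
  by_contra hbK
  exact hcon a ha haK b hb hbK hab

/-- PROOF. A closed nonempty `X ⊆ S ∪ T` meets `S` or `T`, hence contains it, hence meets and contains
the other one. -/
theorem Cn.union {G : SimpleGraph V} {S T : Finset V} (hS : Cn G S) (hT : Cn G T)
    (h : (S ∩ T).Nonempty) : Cn G (S ∪ T) := by
  obtain ⟨z, hz⟩ := h
  obtain ⟨hzS, hzT⟩ := Finset.mem_inter.1 hz
  refine ⟨⟨z, Finset.mem_union_left _ hzS⟩, fun X hX hne hcl => ?_⟩
  have h1 : (S ∩ X).Nonempty → S ⊆ X := fun h => hS.sub_of_closed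
    (fun u _ huX w hw huw => hcl u huX w (Finset.mem_union_left _ hw) huw) h
  have h2 : (T ∩ X).Nonempty → T ⊆ X := fun h => hT.sub_of_closed
    (fun u _ huX w hw huw => hcl u huX w (Finset.mem_union_right _ hw) huw) h
  obtain ⟨x, hx⟩ := hne
  refine Finset.Subset.antisymm hX ?_
  rcases Finset.mem_union.1 (hX hx) with hxS | hxT
  · have h3 := h1 ⟨x, Finset.mem_inter.2 ⟨hxS, hx⟩⟩
    exact Finset.union_subset h3 (h2 ⟨z, Finset.mem_inter.2 ⟨hzT, h3 hzS⟩⟩)
  · have h3 := h2 ⟨x, Finset.mem_inter.2 ⟨hxT, hx⟩⟩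
    exact Finset.union_subset (h1 ⟨z, Finset.mem_inter.2 ⟨hzS, h3 hzT⟩⟩) h3

/-- PROOF. like `Cn.union` -/
theorem Cn.union_adj {G : SimpleGraph V} {S T : Finset V} (hS : Cn G S) (hT : Cn G T)
    (h : ∃ s ∈ S, ∃ t ∈ T, G.Adj s t) : Cn G (S ∪ T) := by
  obtain ⟨s, hs, t, ht, hst⟩ := h
  refine ⟨⟨s, Finset.mem_union_left _ hs⟩, fun X hX hne hcl => ?_⟩
  have h1 : (S ∩ X).Nonempty → S ⊆ X := fun h => hS.sub_of_closed
    (fun u _ huX w hw huw => hcl u huX w (Finset.mem_union_left _ hw) huw) h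
  have h2 : (T ∩ X).Nonempty → T ⊆ X := fun h => hT.sub_of_closed
    (fun u _ huX w hw huw => hcl u huX w (Finset.mem_union_right _ hw) huw) h
  obtain ⟨x, hx⟩ := hne
  refine Finset.Subset.antisymm hX ?_
  rcases Finset.mem_union.1 (hX hx) with hxS | hxT
  · have h3 := h1 ⟨x, Finset.mem_inter.2 ⟨hxS, hx⟩⟩
    have h4 := hcl s (h3 hs) t (Finset.mem_union_right _ ht) hst
    exact Finset.union_subset h3 (h2 ⟨t, Finset.mem_inter.2 ⟨ht, h4⟩⟩)
  · have h3 := h2 ⟨x, Finset.mem_inter.2 ⟨hxT, hx⟩⟩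
    have h4 := hcl t (h3 ht) s (Finset.mem_union_left _ hs) hst.symm
    exact Finset.union_subset (h1 ⟨s, Finset.mem_inter.2 ⟨hs, h4⟩⟩) h3

/-- A connected set that meets `P` and `Q`, where no edge of it joins `P \ Q` and `Q \ P`, meets
`P ∩ Q`. PROOF. Otherwise `T ∩ P` is closed in `T`, so `T ⊆ P`. -/
theorem Cn.meet {G : SimpleGraph V} {T P Q : Finset V} (h : Cn G T)
    (hPQ : ∀ u ∈ T, u ∈ P ∨ u ∈ Q)
    (hsep : ∀ u ∈ T, u ∉ Q → ∀ w ∈ T, w ∉ P → ¬ G.Adj u w)
    (hP : (T ∩ P).Nonempty) (hQ : (T ∩ Q).Nonempty) : ∃ u ∈ T, u ∈ P ∧ u ∈ Q := by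
  by_contra hcon
  push Not at hcon
  have h1 : T ⊆ P := by
    refine h.sub_of_closed (fun u hu huP w hw huw => ?_) hP
    by_contra hwP
    exact hsep u hu (hcon u hu huP) w hw hwP huw
  obtain ⟨z, hz⟩ := hQ
  obtain ⟨hzT, hzQ⟩ := Finset.mem_inter.1 hz
  exact hcon z hzT (h1 hzT) hzQ

/- END cna -/

/- MODULE cnb (M) -/
/-- Restricting a connected set to one side of a separation that it crosses in a single vertex.
PROOF. Let `X ⊆ T ∩ P` be nonempty and closed in `T ∩ P`. If `y ∈ X` then `X ∪ (T \ P)` is closed in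
`T` (an edge from `T \ P` to `T ∩ P` ends in `T ∩ P ∩ Q = {y}`), so it is `T` and `X = T ∩ P`.
If `y ∉ X` then `X` is closed in `T` (an edge from `X` to `T \ P` would start in `P ∩ Q`, i.e. in `y`),
so `X = T ∋ y`, a contradiction. -/
theorem Cn.restrict {G : SimpleGraph V} {T P Q : Finset V} (h : Cn G T)
    (hPQ : ∀ u ∈ T, u ∈ P ∨ u ∈ Q)
    (hsep : ∀ u ∈ T, u ∉ Q → ∀ w ∈ T, w ∉ P → ¬ G.Adj u w)
    {y : V} (hy : y ∈ T) (hyP : y ∈ P) (hyQ : y ∈ Q)
    (huniq : ∀ u ∈ T, u ∈ P → u ∈ Q → u = y) : Cn G (T ∩ P) := by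
  refine ⟨⟨y, mem_inter.2 ⟨hy, hyP⟩⟩, fun X hX hne hcl => ?_⟩
  by_cases hyX : y ∈ X
  · have h1 : X ∪ (T \ P) = T := by
      refine h.2 _ ?_ (hne.mono subset_union_left) ?_
      · intro u hu
        rcases mem_union.1 hu with h' | h'
        · exact (mem_inter.1 (hX h')).1
        · exact (mem_sdiff.1 h').1
      · intro u hu w hw huw
        by_cases hwP : w ∈ P
        · rcases mem_union.1 hu with h' | h'
          · exact mem_union_left _ (hcl u h' w (mem_inter.2 ⟨hw, hwP⟩) huw)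
          · have hwy : w = y := by
              refine huniq w hw hwP ?_
              by_contra hwQ
              exact hsep w hw hwQ u (mem_sdiff.1 h').1 (mem_sdiff.1 h').2 huw.symm
            rw [hwy]
            exact mem_union_left _ hyX
        · exact mem_union_right _ (mem_sdiff.2 ⟨hw, hwP⟩)
    refine Subset.antisymm hX ?_
    intro u hu
    have h2 : u ∈ X ∪ (T \ P) := by
      rw [h1]
      exact (mem_inter.1 hu).1
    rcases mem_union.1 h2 with h' | h'
    · exact h'
    · exact absurd (mem_inter.1 hu).2 (mem_sdiff.1 h').2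
  · exfalso
    have h1 : X = T := by
      refine h.2 X (fun u hu => (mem_inter.1 (hX hu)).1) hne ?_
      intro u hu w hw huw
      by_cases hwP : w ∈ P
      · exact hcl u hu w (mem_inter.2 ⟨hw, hwP⟩) huw
      · exfalso
        have huT := (mem_inter.1 (hX hu)).1
        have huP := (mem_inter.1 (hX hu)).2
        have huy : u = y := by
          refine huniq u huT huP ?_
          by_contra huQ
          exact hsep u huT huQ w hw hwP huw
        exact hyX (huy ▸ hu)
    exact hyX (h1 ▸ hy)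

/-- components: PROOF. Let `K` be the set of the `u ∈ U` reachable from `v` inside `U`
(`Relation.ReflTransGen (fun a b => b ∈ U ∧ G.Adj a b) v u`), or: a connected subset of `U`
containing `v` with the greatest number of elements (`cn_single`, `Cn.union_adj`). -/
theorem exists_comp (G : SimpleGraph V) {U : Finset V} {v : V} (hv : v ∈ U) :
    ∃ K ⊆ U, v ∈ K ∧ Cn G K ∧ ∀ u ∈ K, ∀ w ∈ U, G.Adj u w → w ∈ K := by
  classical
  have hne : (U.powerset.filter (fun K => v ∈ K ∧ Cn G K)).Nonempty :=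
    ⟨{v}, mem_filter.2 ⟨mem_powerset.2 (singleton_subset_iff.2 hv), mem_singleton_self v,
      cn_single G v⟩⟩
  obtain ⟨K, hK, hmax⟩ := exists_max_image _ card hne
  rw [mem_filter, mem_powerset] at hK
  refine ⟨K, hK.1, hK.2.1, hK.2.2, ?_⟩
  intro u hu w hw huw
  by_contra hwK
  have h1 : Cn G (K ∪ {w}) := hK.2.2.union_adj (cn_single G w) ⟨u, hu, w, mem_singleton_self w, huw⟩
  have h2 := hmax (K ∪ {w}) (mem_filter.2 ⟨mem_powerset.2 (union_subset hK.1
    (singleton_subset_iff.2 hw)), mem_union_left _ hK.2.1, h1⟩)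
  rw [card_union_of_disjoint (disjoint_singleton_right.2 hwK), card_singleton] at h2
  omega

/-- PROOF. Let `X ⊆ T.erase y` be nonempty and closed for `Ctr G x y`. Put `X' = insert y X` if
`x ∈ X`, else `X' = X`; it is closed in `T` for `G`. So `X' = T`, which contains `x` and `y`, hence
`x ∈ X` and `X = T.erase y`. -/
theorem cn_ctr {G : SimpleGraph V} {T : Finset V} {x y : V} (h : Cn G T) (hx : x ∈ T)
    (hy : y ∈ T) (hxy : x ≠ y) : Cn (Ctr G x y) (T.erase y) := by
  refine ⟨⟨x, mem_erase.2 ⟨hxy, hx⟩⟩, fun X hX hne hcl => ?_⟩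
  have hyX : y ∉ X := fun h' => (mem_erase.1 (hX h')).1 rfl
  by_cases hxX : x ∈ X
  · have h1 : insert y X = T := by
      refine h.2 _ ?_ (insert_nonempty _ _) ?_
      · intro u hu
        rcases mem_insert.1 hu with h' | h'
        · exact h' ▸ hy
        · exact (mem_erase.1 (hX h')).2
      · intro u hu w hw huw
        by_cases hwy : w = y
        · rw [hwy]
          exact mem_insert_self _ _
        · refine mem_insert_of_mem ?_
          rcases mem_insert.1 hu with h' | h'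
          · by_cases hwx : w = x
            · rw [hwx]
              exact hxX
            · refine hcl x hxX w (mem_erase.2 ⟨hwy, hw⟩) ⟨fun h'' => hwx h''.symm, hxy, hwy, ?_⟩
              exact Or.inr (Or.inl ⟨rfl, h' ▸ huw⟩)
          · exact hcl u h' w (mem_erase.2 ⟨hwy, hw⟩)
              ⟨huw.ne, fun h'' => hyX (h'' ▸ h'), hwy, Or.inl huw⟩
    rw [← h1, erase_insert hyX]
  · exfalso
    have h1 : X = T := by
      refine h.2 X (fun u hu => (mem_erase.1 (hX hu)).2) hne ?_
      intro u hu w hw huw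
      by_cases hwy : w = y
      · exfalso
        refine hxX (hcl u hu x (mem_erase.2 ⟨hxy, hx⟩)
          ⟨fun h'' => hxX (h'' ▸ hu), fun h'' => hyX (h'' ▸ hu), hxy, ?_⟩)
        exact Or.inr (Or.inr ⟨rfl, (hwy ▸ huw).symm⟩)
      · exact hcl u hu w (mem_erase.2 ⟨hwy, hw⟩)
          ⟨huw.ne, fun h'' => hyX (h'' ▸ hu), hwy, Or.inl huw⟩
    exact hxX (h1 ▸ hx)

/-- PROOF. `Cn.mono_adj` (`T.erase y = T`) -/
theorem cn_ctr' {G : SimpleGraph V} {T : Finset V} {x y : V} (h : Cn G T)
    (hy : y ∉ T) : Cn (Ctr G x y) (T.erase y) := by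
  rw [erase_eq_of_notMem hy]
  refine h.mono_adj ?_
  intro u hu w hw huw
  exact ⟨huw.ne, fun h' => hy (h' ▸ hu), fun h' => hy (h' ▸ hw), Or.inl huw⟩

/-- PROOF. Induction on the list: `Cn.union_adj` with a single vertex. -/
theorem cn_list {G : SimpleGraph V} {l : List V} (hl : l ≠ []) (h : l.IsChain G.Adj) :
    Cn G l.toFinset := by
  induction l with
  | nil => exact absurd rfl hl
  | cons a t ih =>
    cases t with
    | nil => simpa using cn_single G a
    | cons b t =>
      rw [List.isChain_cons_cons] at h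
      have h1 := ih (by simp) h.2
      have h2 : (a :: b :: t).toFinset = {a} ∪ (b :: t).toFinset := by
        rw [List.toFinset_cons, insert_eq]
      rw [h2]
      exact (cn_single G a).union_adj h1 ⟨a, mem_singleton_self a, b, by simp, h.1⟩

/- END cnb -/

/- MODULE cnc (S) -/
/-- PROOF. `→`: `SimpleGraph.connected_iff` / `Preconnected`: the set of the vertices of `T` reachable
from `u` in the induced graph is closed. -/
theorem Cn.induce {G : SimpleGraph V} {T : Finset V} (h : Cn G T) :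
    (G.induce (T : Set V)).Connected := by
  classical
  have : Nonempty (T : Set V) := by
    obtain ⟨z, hz⟩ := h.1
    exact ⟨⟨z, hz⟩⟩
  refine ⟨fun u v => ?_⟩
  let K : Finset V := T.filter fun w => ∃ hw : w ∈ (T : Set V), (G.induce (T : Set V)).Reachable u ⟨w, hw⟩
  have h1 : T ⊆ K := by
    refine h.sub_of_closed (fun a ha haK b hb hab => ?_)
      ⟨u.1, Finset.mem_inter.2 ⟨u.2, Finset.mem_filter.2 ⟨u.2, u.2, SimpleGraph.Reachable.refl _⟩⟩⟩
    obtain ⟨_, ha', hr⟩ := Finset.mem_filter.1 haK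
    refine Finset.mem_filter.2 ⟨hb, hb, hr.trans (SimpleGraph.Adj.reachable ?_)⟩
    exact hab
  obtain ⟨_, _, hr⟩ := Finset.mem_filter.1 (h1 v.2)
  exact hr

/-- union of consecutive sets. PROOF. Induction on `b`; `Cn.union`. -/
theorem cn_MM {G : SimpleGraph V} {M : ℕ → Finset V} {a b : ℕ} (hab : a < b)
    (h : ∀ i, a ≤ i → i < b → Cn G (M i))
    (h' : ∀ i, a ≤ i → i + 1 < b → (M i ∩ M (i + 1)).Nonempty) : Cn G (MM M a b) := by
  induction b with
  | zero => omega
  | succ b ih =>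
    rcases Nat.lt_or_ge a b with hlt | hge
    · have h1 : MM M a (b + 1) = MM M a b ∪ M b := by
        ext u
        rw [Finset.mem_union, mem_MM, mem_MM]
        constructor
        · rintro ⟨i, h1, h2, h3⟩
          rcases Nat.lt_succ_iff_lt_or_eq.1 h2 with h4 | h4
          · exact Or.inl ⟨i, h1, h4, h3⟩
          · subst h4
            exact Or.inr h3
        · rintro (⟨i, h1, h2, h3⟩ | h3)
          · exact ⟨i, h1, by omega, h3⟩
          · exact ⟨b, by omega, by omega, h3⟩
      rw [h1]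
      refine Cn.union (ih hlt (fun i hi hi' => h i hi (by omega))
        fun i hi hi' => h' i hi (by omega)) (h b (by omega) (by omega)) ?_
      obtain ⟨z, hz⟩ := h' (b - 1) (by omega) (by omega)
      rw [Nat.sub_add_cancel (by omega)] at hz
      obtain ⟨h2, h3⟩ := Finset.mem_inter.1 hz
      exact ⟨z, Finset.mem_inter.2 ⟨mem_MM.2 ⟨b - 1, by omega, by omega, h2⟩, h3⟩⟩
    · have hab' : a = b := by omega
      subst hab'
      have h1 : MM M a (a + 1) = M a := by
        ext u
        rw [mem_MM]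
        constructor
        · rintro ⟨i, h1, h2, h3⟩
          have : i = a := by omega
          subst this
          exact h3
        · exact fun h3 => ⟨a, le_rfl, by omega, h3⟩
      rw [h1]
      exact h a le_rfl (by omega)

/- END cnc -/

end Pool.Agent.TWB
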