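import Pool.Agent.TWB.Strip

/-!
# Crossings of a strip by a scheme (text, section 8, (A) and (CR))
-/

namespace Pool.Agent.TWB

open Finset

variable {V : Type*} [Fintype V] [DecidableEq V]

/- MODULE cra (M) -/
/-- A set `X` hits at most `2|X|` blocks. PROOF. Each vertex lies in at most two blocks
(`Strip.block_block`, `Strip.cut_block`). If all blocks of `[a, b)` meet `X`, choose for each of them an
element of `X`; the fibres have at most two elements, so `b - a ≤ 2|X|`. -/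
theorem exists_free {G : SimpleGraph V} {m : ℕ} {M C : ℕ → Finset V} {Z J : Finset V}
    {R : V → Finset V} (h : Strip G m M C Z J R) (X : Finset V) {a b : ℕ} (hb : b ≤ m)
    (hX : 2 * X.card < b - a) : ∃ i, a ≤ i ∧ i < b ∧ Disjoint (M i) X := by
  by_contra hcon
  push Not at hcon
  have h1 : ∀ i, ∃ x, i ∈ Ico a b → x ∈ M i ∧ x ∈ X := by
    intro i
    by_cases hi : i ∈ Ico a b
    · rw [mem_Ico] at hi
      have h2 := hcon i hi.1 hi.2
      rw [Finset.not_disjoint_iff] at h2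
      obtain ⟨x, hx1, hx2⟩ := h2
      exact ⟨x, fun _ => ⟨hx1, hx2⟩⟩
    · by_cases hXe : X.Nonempty
      · obtain ⟨x, hx⟩ := hXe
        exact ⟨x, fun h' => absurd h' hi⟩
      · rw [Finset.not_nonempty_iff_eq_empty] at hXe
        subst hXe
        have h2 := hcon a le_rfl (by simp at hX; omega)
        exact absurd (disjoint_empty_right _) h2
  choose f hf using h1
  have h3 : (Ico a b).card ≤ 2 * X.card := by
    refine card_le_mul_card_image_of_maps_to (f := f) (fun i hi => (hf i hi).2) 2 ?_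
    intro x hx
    by_contra h4
    push Not at h4
    rw [two_lt_card] at h4
    obtain ⟨i, hi, j, hj, l, hl, hij, hil, hjl⟩ := h4
    have key : ∀ i j, i ∈ filter (fun i => f i = x) (Ico a b) →
        j ∈ filter (fun i => f i = x) (Ico a b) → i < j → j = i + 1 := by
      intro i j hi hj hlt
      rw [mem_filter] at hi hj
      have h5 := (hf i hi.1).1
      have h6 := (hf j hj.1).1
      rw [hi.2] at h5
      rw [hj.2] at h6
      rw [mem_Ico] at hj
      exact (h.block_block hlt (lt_of_lt_of_le hj.1.2 hb) h5 h6).1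
    rcases Nat.lt_or_gt_of_ne hij with h7 | h7 <;> rcases Nat.lt_or_gt_of_ne hil with h8 | h8 <;>
      rcases Nat.lt_or_gt_of_ne hjl with h9 | h9
    · have := key _ _ hi hj h7; have := key _ _ hi hl h8; omega
    · have := key _ _ hi hj h7; have := key _ _ hi hl h8; omega
    · omega
    · have := key _ _ hl hi h8; have := key _ _ hl hj h9; omega
    · have := key _ _ hj hi h7; have := key _ _ hj hl h9; omega
    · omega
    · have := key _ _ hj hi h7; have := key _ _ hj hl h9; omega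
    · have := key _ _ hj hi h7; have := key _ _ hl hi h8; omega
  rw [Nat.card_Ico] at h3
  omega

/- END cra -/

/- MODULE crb (L) -/
/-- (A). PROOF. `Z ⊆ X`: let `z ∈ Z`; it has neighbours in `M i2 ⊆ D`, so `z ∈ D` or `z ∈ X`; if `z ∈ D`, its
neighbour in `M i1` is in `D` or `X`, both impossible. For a rail `a ∈ J`: `R a ∩ MM M i1 (i2 + 1)` is connected
(`rail_MM`), meets `M i2 ⊆ D` and `M i1`, which is disjoint from `D`; by `Cn.exit` it has a vertex in `X`
(an edge from `D` to the outside), and this vertex is in no free block, so in `MM M (i1 + 1) i2 ⊆ MM M 0 i2`. In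
the same way `R a` has a vertex of `X` in `MM M (i2 + 1) m`. `link_tw` for the graph `Γ` and `X`
(`TW k (Γ ⊔ KG X)`), the set `univ \ Inn M C m`, `S = C 0 ∪ C m ∪ Z`: for the vertex of `R a` in `C 0`:
`T = R a ∩ MM M 0 i2`; for the vertex of `R a` in `C m`: `T = R a ∩ MM M (i2 + 1) m`; `T z = {z}`. The vertices of
`MM M 0 i2` outside `Inn M C m` are in `C 0` (`C m` is disjoint from it, `cut_MM_disj`). Disjointness: rails,
`MM_disj`, `Z_MM`. (`0 < i2` and `i2 + 1 < m`.) This contradicts `SW`. -/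
theorem claimA {k : ℕ} {Γ : SimpleGraph V} {m : ℕ} {M C : ℕ → Finset V} {Z J : Finset V}
    {R : V → Finset V} (h : GStrip Γ m M C Z J R) (hsw : SW k Γ m M C Z) {X D : Finset V}
    (hX : TW k (Γ ⊔ KG X)) (hD : ∀ u ∈ D, ∀ w, Γ.Adj u w → w ∈ D ∨ w ∈ X) {i1 i2 i3 : ℕ}
    (h12 : i1 < i2) (h23 : i2 < i3) (h3 : i3 < m) (f1 : Disjoint (M i1) X)
    (f2 : Disjoint (M i2) X) (f3 : Disjoint (M i3) X) (d1 : Disjoint (M i1) D)
    (d2 : M i2 ⊆ D) (d3 : Disjoint (M i3) D) : False := by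
  have hs := h.toStrip
  have hZX : Z ⊆ X := by
    intro z hz
    obtain ⟨u, hu, hzu⟩ := h.zb z hz i2 (by omega)
    rcases hD u (d2 hu) z hzu.symm with h1 | h1
    · obtain ⟨u1, hu1, hzu1⟩ := h.zb z hz i1 (by omega)
      rcases hD z h1 u1 hzu1 with h2 | h2
      · exact absurd h2 (Finset.disjoint_left.1 d1 hu1)
      · exact absurd h2 (Finset.disjoint_left.1 f1 hu1)
    · exact h1
  have hrl : ∀ a ∈ J, ((R a ∩ MM M 0 i2) ∩ X).Nonempty := by
    intro a ha
    have hc := hs.rail_MM ha (b := i1) (c := i2 + 1) (by omega) (by omega)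
    obtain ⟨u2, hu2⟩ := (h.rc a ha i2 (by omega)).1
    obtain ⟨u1, hu1⟩ := (h.rc a ha i1 (by omega)).1
    rw [mem_inter] at hu1 hu2
    obtain ⟨p, hp, hpD, q, hq, hqD, hpq⟩ := hc.exit (K := D) (u := u2) (w := u1)
      (mem_inter.2 ⟨hu2.1, mem_MM.2 ⟨i2, by omega, by omega, hu2.2⟩⟩) (d2 hu2.2)
      (mem_inter.2 ⟨hu1.1, mem_MM.2 ⟨i1, by omega, by omega, hu1.2⟩⟩)
      (Finset.disjoint_left.1 d1 hu1.2)
    have hqX : q ∈ X := (hD p hpD q hpq).resolve_left hqD
    rw [mem_inter, mem_MM] at hq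
    obtain ⟨hqR, i, hi1, hi2, hqi⟩ := hq
    have hne2 : i ≠ i2 := by
      rintro rfl
      exact Finset.disjoint_left.1 f2 hqi hqX
    exact ⟨q, mem_inter.2 ⟨mem_inter.2 ⟨hqR, mem_MM.2 ⟨i, by omega, by omega, hqi⟩⟩, hqX⟩⟩
  have hrr : ∀ a ∈ J, ((R a ∩ MM M (i2 + 1) m) ∩ X).Nonempty := by
    intro a ha
    have hc := hs.rail_MM ha (b := i2) (c := i3 + 1) (by omega) (by omega)
    obtain ⟨u2, hu2⟩ := (h.rc a ha i2 (by omega)).1
    obtain ⟨u3, hu3⟩ := (h.rc a ha i3 (by omega)).1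
    rw [mem_inter] at hu3 hu2
    obtain ⟨p, hp, hpD, q, hq, hqD, hpq⟩ := hc.exit (K := D) (u := u2) (w := u3)
      (mem_inter.2 ⟨hu2.1, mem_MM.2 ⟨i2, by omega, by omega, hu2.2⟩⟩) (d2 hu2.2)
      (mem_inter.2 ⟨hu3.1, mem_MM.2 ⟨i3, by omega, by omega, hu3.2⟩⟩)
      (Finset.disjoint_left.1 d3 hu3.2)
    have hqX : q ∈ X := (hD p hpD q hpq).resolve_left hqD
    rw [mem_inter, mem_MM] at hq
    obtain ⟨hqR, i, hi1, hi2, hqi⟩ := hq
    have hne2 : i ≠ i2 := by
      rintro rfl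
      exact Finset.disjoint_left.1 f2 hqi hqX
    exact ⟨q, mem_inter.2 ⟨mem_inter.2 ⟨hqR, mem_MM.2 ⟨i, by omega, by omega, hqi⟩⟩, hqX⟩⟩
  have hex : ∀ s, ∃ a, s ∈ C 0 ∪ C m → a ∈ J ∧ s ∈ R a := by
    intro s
    by_cases hsC : s ∈ C 0 ∪ C m
    · rcases mem_union.1 hsC with h1 | h1
      · obtain ⟨a, ha, hsa⟩ := hs.cover (Nat.zero_le m) h1
        exact ⟨a, fun _ => ⟨ha, hsa⟩⟩
      · obtain ⟨a, ha, hsa⟩ := hs.cover le_rfl h1
        exact ⟨a, fun _ => ⟨ha, hsa⟩⟩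
    · exact ⟨s, fun h' => absurd h' hsC⟩
  choose rl hrl' using hex
  have hMM : ∀ a c, c ≤ m → MM M a c ⊆ MM M 0 m := by
    intro a c hc u hu
    rw [mem_MM] at hu ⊢
    obtain ⟨i, hi1, hi2, hi3⟩ := hu
    exact ⟨i, Nat.zero_le i, by omega, hi3⟩
  have hZm : Disjoint Z (MM M 0 m) := hs.Z_MM le_rfl
  have huq : ∀ i ≤ m, ∀ a ∈ J, ∀ u w, u ∈ R a → u ∈ C i → w ∈ R a → w ∈ C i → u = w := by
    intro i hi a ha u w hu hu' hw hw'
    obtain ⟨v, _, _, hv⟩ := hs.rail_cut hi ha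
    rw [hv u hu hu', hv w hw hw']
  have hcm : Disjoint (C m) (MM M 0 i2) := hs.cut_MM_disj (by omega) le_rfl (Or.inr (by omega))
  have hc0 : Disjoint (C 0) (MM M (i2 + 1) m) :=
    hs.cut_MM_disj le_rfl (Nat.zero_le m) (Or.inl (by omega))
  have hdis : Disjoint (MM M 0 i2) (MM M (i2 + 1) m) := hs.MM_disj (by omega) le_rfl
  let T : V → Finset V := fun s => if s ∈ Z then {s} else if s ∈ C 0 then R (rl s) ∩ MM M 0 i2
    else R (rl s) ∩ MM M (i2 + 1) m
  have hT1 : ∀ s ∈ Z, T s = {s} := fun s hsZ => by simp only [T, if_pos hsZ]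
  have hT2 : ∀ s, s ∉ Z → s ∈ C 0 → T s = R (rl s) ∩ MM M 0 i2 := fun s hsZ hs0 => by
    simp only [T, if_neg hsZ, if_pos hs0]
  have hT3 : ∀ s, s ∉ Z → s ∉ C 0 → T s = R (rl s) ∩ MM M (i2 + 1) m := fun s hsZ hs0 => by
    simp only [T, if_neg hsZ, if_neg hs0]
  have hcase : ∀ s ∈ C 0 ∪ C m ∪ Z, s ∈ Z ∨ (s ∉ Z ∧ s ∈ C 0) ∨ (s ∉ Z ∧ s ∉ C 0 ∧ s ∈ C m) := by
    intro s hs'
    by_cases h1 : s ∈ Z
    · exact Or.inl h1
    · by_cases h2 : s ∈ C 0
      · exact Or.inr (Or.inl ⟨h1, h2⟩)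
      · refine Or.inr (Or.inr ⟨h1, h2, ?_⟩)
        rcases mem_union.1 hs' with h3 | h3
        · exact (mem_union.1 h3).resolve_left h2
        · exact absurd h3 h1
  apply hsw
  refine link_tw hX ?_ T ?_ ?_
  · intro s hs'
    rw [mem_sdiff]
    refine ⟨mem_univ s, ?_⟩
    unfold Inn
    rw [mem_sdiff]
    rintro ⟨h1, h2⟩
    rcases mem_union.1 hs' with h3 | h3
    · exact h2 h3
    · exact Finset.disjoint_left.1 hZm h3 h1
  · intro s hs'
    rcases hcase s hs' with h1 | ⟨h1, h2⟩ | ⟨h1, h2, h3⟩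
    · rw [hT1 s h1]
      refine ⟨mem_singleton_self s, cn_single Γ s, ⟨s, mem_inter.2 ⟨mem_singleton_self s, hZX h1⟩⟩,
        ?_⟩
      intro u hu _
      exact mem_singleton.1 hu
    · rw [hT2 s h1 h2]
      obtain ⟨hJ, hR⟩ := hrl' s (mem_union_left _ h2)
      refine ⟨mem_inter.2 ⟨hR, hs.cut_MM (a := 0) (c := i2) (by omega) (by omega) le_rfl
        (Nat.zero_le _) h2⟩, hs.rail_MM hJ (by omega) (by omega), hrl _ hJ, ?_⟩
      intro u hu huA
      rw [mem_inter] at hu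
      have hu0 : u ∈ C 0 := by
        by_contra hu0
        refine (mem_sdiff.1 huA).2 ?_
        unfold Inn
        rw [mem_sdiff, mem_union]
        refine ⟨hMM 0 i2 (by omega) hu.2, ?_⟩
        rintro (h4 | h4)
        · exact hu0 h4
        · exact Finset.disjoint_left.1 hcm h4 hu.2
      exact huq 0 (Nat.zero_le m) _ hJ u s hu.1 hu0 hR h2
    · rw [hT3 s h1 h2]
      obtain ⟨hJ, hR⟩ := hrl' s (mem_union_right _ h3)
      refine ⟨mem_inter.2 ⟨hR, hs.cut_MM (a := i2 + 1) (c := m) (by omega) le_rfl (by omega)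
        le_rfl h3⟩, hs.rail_MM hJ (by omega) le_rfl, hrr _ hJ, ?_⟩
      intro u hu huA
      rw [mem_inter] at hu
      have hu0 : u ∈ C m := by
        by_contra hu0
        refine (mem_sdiff.1 huA).2 ?_
        unfold Inn
        rw [mem_sdiff, mem_union]
        refine ⟨hMM (i2 + 1) m le_rfl hu.2, ?_⟩
        rintro (h4 | h4)
        · exact Finset.disjoint_left.1 hc0 h4 hu.2
        · exact hu0 h4
      exact huq m le_rfl _ hJ u s hu.1 hu0 hR h3
  · -- disjointness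
    have hTM : ∀ s ∈ C 0 ∪ C m ∪ Z, s ∉ Z → T s ⊆ MM M 0 m := by
      intro s hs' hsZ
      rcases hcase s hs' with h1 | ⟨h1, h2⟩ | ⟨h1, h2, h3⟩
      · exact absurd h1 hsZ
      · rw [hT2 s h1 h2]
        exact inter_subset_right.trans (hMM 0 i2 (by omega))
      · rw [hT3 s h1 h2]
        exact inter_subset_right.trans (hMM (i2 + 1) m le_rfl)
    intro s hs' t ht' hst
    rcases hcase s hs' with h1 | ⟨h1, h2⟩ | ⟨h1, h2, h3⟩
    · rcases hcase t ht' with g1 | ⟨g1, g2⟩ | ⟨g1, g2, g3⟩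
      · rw [hT1 s h1, hT1 t g1]
        exact disjoint_singleton.2 hst
      · rw [hT1 s h1, disjoint_singleton_left]
        exact fun h4 => Finset.disjoint_left.1 hZm h1 (hTM t ht' g1 h4)
      · rw [hT1 s h1, disjoint_singleton_left]
        exact fun h4 => Finset.disjoint_left.1 hZm h1 (hTM t ht' g1 h4)
    · rcases hcase t ht' with g1 | ⟨g1, g2⟩ | ⟨g1, g2, g3⟩
      · rw [hT1 t g1, disjoint_singleton_right]
        exact fun h4 => Finset.disjoint_left.1 hZm g1 (hTM s hs' h1 h4)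
      · rw [hT2 s h1 h2, hT2 t g1 g2]
        obtain ⟨hJ, hR⟩ := hrl' s (mem_union_left _ h2)
        obtain ⟨hJ', hR'⟩ := hrl' t (mem_union_left _ g2)
        have hne : rl s ≠ rl t := by
          intro he
          rw [← he] at hR'
          exact hst (huq 0 (Nat.zero_le m) _ hJ s t hR h2 hR' g2)
        exact (h.rd _ hJ _ hJ' hne).mono inter_subset_left inter_subset_left
      · rw [hT2 s h1 h2, hT3 t g1 g2]
        exact hdis.mono inter_subset_right inter_subset_right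
    · rcases hcase t ht' with g1 | ⟨g1, g2⟩ | ⟨g1, g2, g3⟩
      · rw [hT1 t g1, disjoint_singleton_right]
        exact fun h4 => Finset.disjoint_left.1 hZm g1 (hTM s hs' h1 h4)
      · rw [hT3 s h1 h2, hT2 t g1 g2]
        exact (hdis.mono inter_subset_right inter_subset_right).symm
      · rw [hT3 s h1 h2, hT3 t g1 g2]
        obtain ⟨hJ, hR⟩ := hrl' s (mem_union_right _ h3)
        obtain ⟨hJ', hR'⟩ := hrl' t (mem_union_right _ g3)
        have hne : rl s ≠ rl t := by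
          intro he
          rw [← he] at hR'
          exact hst (huq m le_rfl _ hJ s t hR h3 hR' g3)
        exact (h.rd _ hJ _ hJ' hne).mono inter_subset_left inter_subset_left

/- END crb -/

/- MODULE crc (M) -/
/-- A connected free block lies inside or outside. PROOF. `Cn.sub_of_closed` with `h.bc`. -/
theorem GStrip.in_or_out {Γ : SimpleGraph V} {m : ℕ} {M C : ℕ → Finset V} {Z J : Finset V}
    {R : V → Finset V} (h : GStrip Γ m M C Z J R) {X D : Finset V}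
    (hD : ∀ u ∈ D, ∀ w, Γ.Adj u w → w ∈ D ∨ w ∈ X) {i : ℕ} (hi : i < m)
    (hf : Disjoint (M i) X) : M i ⊆ D ∨ Disjoint (M i) D := by
  by_cases hne : (M i ∩ D).Nonempty
  · left
    refine (h.bc i hi).sub_of_closed (fun u _ huD w hwM hadj => ?_) hne
    rcases hD u huD w hadj with h1 | h1
    · exact h1
    · exact absurd h1 (Finset.disjoint_left.mp hf hwM)
  · right
    rw [Finset.not_nonempty_iff_eq_empty] at hne
    exact Finset.disjoint_iff_inter_eq_empty.mpr hne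

/-- If the free blocks `i < j` are on different sides of `D` then every free block left of `i` is on the
side of `i` and every free block right of `j` is on the side of `j`. Here `Lf`, `Rt` are the two sides.
PROOF. `claimA` with `D := Rt` or `D := Lf` (both have outer neighbours in `X` only) and `in_or_out`. For
`i' < i < j`: if `M i' ⊆ Rt` then `M i` is disjoint from `Rt`, so `M i ⊆ Lf` and `M i'`, `M j` are disjoint from
`Lf`: `claimA` for `D = Lf`, `i', i, j`. -/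
theorem GStrip.left_side {k : ℕ} {Γ : SimpleGraph V} {m : ℕ} {M C : ℕ → Finset V}
    {Z J : Finset V} {R : V → Finset V} (h : GStrip Γ m M C Z J R) (hsw : SW k Γ m M C Z)
    {X Lf Rt : Finset V} (hX : TW k (Γ ⊔ KG X)) (hU : Lf ∪ X ∪ Rt = univ)
    (hL : ∀ u ∈ Lf, ∀ w, Γ.Adj u w → w ∈ Lf ∨ w ∈ X)
    (hR : ∀ u ∈ Rt, ∀ w, Γ.Adj u w → w ∈ Rt ∨ w ∈ X) (hLR : Disjoint Lf Rt) {i j i' : ℕ}
    (hij : i < j) (hj : j < m) (f1 : Disjoint (M i) X) (f2 : Disjoint (M j) X) (hi : M i ⊆ Lf)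
    (hj' : M j ⊆ Rt) (hi' : i' < i) (f3 : Disjoint (M i') X) : M i' ⊆ Lf := by
  have _ := hU
  have _ := hR
  rcases h.in_or_out hL (lt_trans hi' (lt_trans hij hj)) f3 with h1 | h1
  · exact h1
  · exact (claimA h hsw hX hL hi' hij hj f3 f1 f2 h1 hi
      (hLR.symm.mono_left hj')).elim

/-- the same on the right -/
theorem GStrip.right_side {k : ℕ} {Γ : SimpleGraph V} {m : ℕ} {M C : ℕ → Finset V}
    {Z J : Finset V} {R : V → Finset V} (h : GStrip Γ m M C Z J R) (hsw : SW k Γ m M C Z)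
    {X Lf Rt : Finset V} (hX : TW k (Γ ⊔ KG X)) (hU : Lf ∪ X ∪ Rt = univ)
    (hL : ∀ u ∈ Lf, ∀ w, Γ.Adj u w → w ∈ Lf ∨ w ∈ X)
    (hR : ∀ u ∈ Rt, ∀ w, Γ.Adj u w → w ∈ Rt ∨ w ∈ X) (hLR : Disjoint Lf Rt) {i j j' : ℕ}
    (hij : i < j) (f1 : Disjoint (M i) X) (f2 : Disjoint (M j) X) (hi : M i ⊆ Lf)
    (hj : M j ⊆ Rt) (hj' : j < j') (hm : j' < m) (f3 : Disjoint (M j') X) : M j' ⊆ Rt := by
  have _ := hU
  have _ := hL
  rcases h.in_or_out hR hm f3 with h1 | h1
  · exact h1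
  · exact (claimA h hsw hX hR hij hj' hm f1 f2 f3
      (hLR.mono_left hi) hj h1).elim

/-- PROOF. `z ∈ Z` has a neighbour in `M i ⊆ Lf` and one in `M j ⊆ Rt`. -/
theorem GStrip.Z_sub {Γ : SimpleGraph V} {m : ℕ} {M C : ℕ → Finset V}
    {Z J : Finset V} {R : V → Finset V} (h : GStrip Γ m M C Z J R)
    {X Lf Rt : Finset V} (hL : ∀ u ∈ Lf, ∀ w, Γ.Adj u w → w ∈ Lf ∨ w ∈ X)
    (hR : ∀ u ∈ Rt, ∀ w, Γ.Adj u w → w ∈ Rt ∨ w ∈ X) (hLR : Disjoint Lf Rt) {i j : ℕ}
    (him : i < m) (hjm : j < m) (hi : M i ⊆ Lf) (hj : M j ⊆ Rt) : Z ⊆ X := by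
  intro z hz
  obtain ⟨u, hu, hzu⟩ := h.zb z hz i him
  obtain ⟨u', hu', hzu'⟩ := h.zb z hz j hjm
  rcases hL u (hi hu) z hzu.symm with h1 | h1
  · rcases hR u' (hj hu') z hzu'.symm with h2 | h2
    · exact absurd h2 (Finset.disjoint_left.mp hLR h1)
    · exact h2
  · exact h1

/- END crc -/

/- MODULE crd (L) -/
private def crd_Big {k : ℕ} {Γ : SimpleGraph V} (S : Sch Γ k) (M : ℕ → Finset V) (q : ℕ)
    (v : V) : Prop :=
  ∃ i j, q ≤ i + (2 * k + 3) ∧ i < q ∧ q < j ∧ j ≤ q + (2 * k + 3) ∧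
      Disjoint (M i) (S.L v) ∧ Disjoint (M j) (S.L v) ∧ M i ⊆ S.D v ∧ M j ⊆ S.D v

private theorem crd_exists_big {k : ℕ} {Γ : SimpleGraph V} (S : Sch Γ k) {m : ℕ}
    {M C : ℕ → Finset V} {Z J : Finset V} {R : V → Finset V} (h : GStrip Γ m M C Z J R)
    {q : ℕ} (h1 : 2 * k + 3 ≤ q) (h2 : q + (2 * k + 3) < m) : ∃ v, crd_Big S M q v := by
  have hcn : Cn Γ (MM M 0 m) := by
    refine cn_MM (by omega) (fun i _ hi => h.bc i hi) (fun i _ hi => ?_)
    obtain ⟨u, hu⟩ := h.toStrip.cut_ne (i := i + 1) (by omega)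
    exact ⟨u, Finset.mem_inter.mpr ⟨h.cr i (by omega) hu, h.cl (i + 1) hi hu⟩⟩
  obtain ⟨u, hu⟩ := hcn.1
  obtain ⟨ρ, hρ, hL⟩ := S.exists_root u
  have hsub : MM M 0 m ⊆ S.D ρ := by
    refine hcn.sub_of_closed (fun a _ ha w _ hadj => ?_)
      ⟨u, Finset.mem_inter.mpr ⟨hu, hρ⟩⟩
    rcases S.D_adj ha hadj with h3 | h3
    · exact h3
    · rw [hL] at h3
      exact absurd h3 (Finset.notMem_empty _)
  have hM : ∀ i < m, M i ⊆ S.D ρ := fun i hi w hw =>
    hsub (mem_MM.mpr ⟨i, Nat.zero_le _, hi, hw⟩)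
  refine ⟨ρ, q - 1, q + 1, by omega, by omega, by omega, by omega, ?_, ?_,
    hM _ (by omega), hM _ (by omega)⟩
  · rw [hL]; exact Finset.disjoint_empty_right _
  · rw [hL]; exact Finset.disjoint_empty_right _

/-- (CR) with `w = 2 * k + 3`. PROOF. Call `v` big if there are free (disjoint from `S.L v`) blocks
`i ∈ [q - w, q)` and `j ∈ (q, q + w]` with `M i, M j ⊆ S.D v`. There is a big node: the union of all blocks is
connected (`cn_MM`, `h.bc`, cuts nonempty), take the root `ρ` (`S.exists_root`) above one of its vertices; `L ρ = ∅`, so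
`D ρ` is closed under adjacency and contains all blocks; all are free. Let `v` be a big node with least
`p`. By `exists_free` for `X = insert v (S.L v)` (at most `k + 1` elements, `2 (k + 1) < w`) there are
`i ∈ [q - w, q)`, `j ∈ (q, q + w]` disjoint from `insert v (S.L v)`. Let `i1`, `j1` be the blocks from bigness. If
`M i` is not in `D v`, it is disjoint (`in_or_out`, `S.D_adj`), and `v, i, j1` is a crossing. If `M j` is not in
`D v`: `v, i1, j`. So both are in `D v \ {v}`. By `S.exists_child` a vertex of `M i` is in `D u`, `u ≠ v`,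
`u ∈ D v`, `L u ⊆ insert v (L v)`; `M i` is disjoint from `L u`, so `M i ⊆ D u` (`in_or_out`). In the same way
`M j ⊆ D u'`. If `M j ⊆ D u` then `u` is big and `p u < p v`, a contradiction. Otherwise `M j` is disjoint from
`D u` and `u, i, j` is a crossing. -/
theorem exists_crossing {k : ℕ} {Γ : SimpleGraph V} (S : Sch Γ k) {m : ℕ}
    {M C : ℕ → Finset V} {Z J : Finset V} {R : V → Finset V} (h : GStrip Γ m M C Z J R)
    {q : ℕ} (h1 : 2 * k + 3 ≤ q) (h2 : q + (2 * k + 3) < m) :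
    ∃ v i j, q ≤ i + (2 * k + 3) ∧ i < q ∧ q < j ∧ j ≤ q + (2 * k + 3) ∧
      Disjoint (M i) (S.L v) ∧ Disjoint (M j) (S.L v) ∧
      ((M i ⊆ S.D v ∧ Disjoint (M j) (S.D v)) ∨ (Disjoint (M i) (S.D v) ∧ M j ⊆ S.D v)) := by
  classical
  -- the set of the big nodes is not empty
  obtain ⟨v₀, hv₀⟩ := crd_exists_big S h h1 h2
  obtain ⟨v, hv, hmin⟩ := Finset.exists_min_image
    (univ.filter fun v => crd_Big S M q v) S.p ⟨v₀, by simpa using hv₀⟩
  have hbig : crd_Big S M q v := by simpa using hv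
  obtain ⟨i1, j1, a1, a2, a3, a4, a5, a6, a7, a8⟩ := hbig
  have hDv : ∀ v, ∀ u ∈ S.D v, ∀ w, Γ.Adj u w → w ∈ S.D v ∨ w ∈ S.L v :=
    fun v u hu w hw => S.D_adj hu hw
  have hcard : (insert v (S.L v)).card ≤ k + 1 :=
    le_trans (Finset.card_insert_le _ _) (Nat.succ_le_succ (S.card v))
  obtain ⟨i, b1, b2, b3⟩ := exists_free h.toStrip (insert v (S.L v)) (a := q - (2 * k + 3))
    (b := q) (by omega) (by omega)
  obtain ⟨j, c1, c2, c3⟩ := exists_free h.toStrip (insert v (S.L v)) (a := q + 1)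
    (b := q + (2 * k + 3) + 1) (by omega) (by omega)
  have b4 : Disjoint (M i) (S.L v) := b3.mono_right (Finset.subset_insert _ _)
  have c4 : Disjoint (M j) (S.L v) := c3.mono_right (Finset.subset_insert _ _)
  by_cases hi : M i ⊆ S.D v
  · by_cases hj : M j ⊆ S.D v
    · obtain ⟨x, hx⟩ := (h.bc i (by omega)).1
      have hxv : x ≠ v := by
        rintro rfl
        exact Finset.disjoint_left.mp b3 hx (Finset.mem_insert_self _ _)
      obtain ⟨u, d1, d2, d3, d4, d5⟩ := S.exists_child (hi hx) hxv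
      have e1 : Disjoint (M i) (S.L u) := b3.mono_right d5
      have e2 : Disjoint (M j) (S.L u) := c3.mono_right d5
      have e3 : M i ⊆ S.D u := by
        rcases h.in_or_out (hDv u) (by omega) e1 with h3 | h3
        · exact h3
        · exact absurd d3 (Finset.disjoint_left.mp h3 hx)
      rcases h.in_or_out (hDv u) (by omega) e2 with h3 | h3
      · exfalso
        have hub : crd_Big S M q u :=
          ⟨i, j, by omega, b2, by omega, by omega, e1, e2, e3, h3⟩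
        have := hmin u (by simpa using hub)
        have h4 := S.D_lt d1 d2
        omega
      · exact ⟨u, i, j, by omega, b2, by omega, by omega, e1, e2, Or.inl ⟨e3, h3⟩⟩
    · rcases h.in_or_out (hDv v) (by omega) c4 with h3 | h3
      · exact absurd h3 hj
      · exact ⟨v, i, j, by omega, b2, by omega, by omega, b4, c4, Or.inl ⟨hi, h3⟩⟩
  · rcases h.in_or_out (hDv v) (by omega) b4 with h3 | h3
    · exact absurd h3 hi
    · exact ⟨v, i, j1, by omega, b2, a3, a4, b4, a6, Or.inr ⟨h3, a8⟩⟩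

/-- One cut of the strip: the sides `Lf`, `Rt` of `X`, the free blocks `i < j`. -/
structure Cut (k : ℕ) (Γ : SimpleGraph V) (M : ℕ → Finset V) (Z X Lf Rt : Finset V)
    (i j : ℕ) : Prop where
  un : Lf ∪ X ∪ Rt = univ
  lr : Disjoint Lf Rt
  lx : Disjoint Lf X
  rx : Disjoint Rt X
  nl : ∀ u ∈ Lf, ∀ w, Γ.Adj u w → w ∈ Lf ∨ w ∈ X
  nr : ∀ u ∈ Rt, ∀ w, Γ.Adj u w → w ∈ Rt ∨ w ∈ X
  zx : Z ⊆ X
  ij : i < j
  fi : Disjoint (M i) X
  fj : Disjoint (M j) X
  li : M i ⊆ Lf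
  rj : M j ⊆ Rt
  card : X.card ≤ k

/-- Two nested cuts near the two ends of the strip, with the positions of the text (`j0 = 8k + 7`,
`j1 = 12k + 9`, `m = 20k + 17`). -/
structure TwoCuts (k : ℕ) (Γ : SimpleGraph V) (M : ℕ → Finset V)
    (Z X1 L1 R1 X2 L2 R2 : Finset V) (i1 j1 i2 j2 a c : ℕ) : Prop where
  c1 : Cut k Γ M Z X1 L1 R1 i1 j1
  c2 : Cut k Γ M Z X2 L2 R2 i2 j2
  tw : TW k (Γ ⊔ KG X1 ⊔ KG X2)
  n1 : Disjoint R2 X1
  n2 : Disjoint R2 L1
  n3 : Disjoint L1 X2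
  ai : a < i1
  jm : j1 ≤ 8 * k + 7
  im : 12 * k + 9 ≤ i2
  jc : j2 < c
  cm : c < 20 * k + 17
  fa : Disjoint (M a) X2
  la : M a ⊆ L2
  fc : Disjoint (M c) X1
  rc : M c ⊆ R1

/- END crd -/

/- MODULE cre (L) -/
private theorem cre_cut {k : ℕ} {Γ : SimpleGraph V} (S : Sch Γ k) {m : ℕ}
    {M C : ℕ → Finset V} {Z J : Finset V} {R : V → Finset V} (h : GStrip Γ m M C Z J R)
    {v : V} {i j : ℕ} (hij : i < j) (hj : j < m) (fi : Disjoint (M i) (S.L v))
    (fj : Disjoint (M j) (S.L v))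
    (hc : (M i ⊆ S.D v ∧ Disjoint (M j) (S.D v)) ∨ (Disjoint (M i) (S.D v) ∧ M j ⊆ S.D v)) :
    ∃ Lf Rt, Cut k Γ M Z (S.L v) Lf Rt i j ∧
      ((Lf = S.D v ∧ Rt = univ \ (S.D v ∪ S.L v)) ∨
        (Rt = S.D v ∧ Lf = univ \ (S.D v ∪ S.L v))) := by
  have hD : ∀ u ∈ S.D v, ∀ w, Γ.Adj u w → w ∈ S.D v ∨ w ∈ S.L v :=
    fun u hu w hw => S.D_adj hu hw
  have hE : ∀ u ∈ univ \ (S.D v ∪ S.L v), ∀ w, Γ.Adj u w →
      w ∈ univ \ (S.D v ∪ S.L v) ∨ w ∈ S.L v := by
    intro u hu w hw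
    simp only [Finset.mem_sdiff, Finset.mem_univ, true_and, Finset.mem_union, not_or] at hu ⊢
    by_cases h1 : w ∈ S.L v
    · exact Or.inr h1
    · refine Or.inl ⟨fun h2 => ?_, h1⟩
      rcases hD w h2 u hw.symm with h3 | h3
      · exact hu.1 h3
      · exact hu.2 h3
  have hDL := S.disj_DL v
  have hDE : Disjoint (S.D v) (univ \ (S.D v ∪ S.L v)) := by
    rw [Finset.disjoint_left]
    intro a ha hb
    simp [ha] at hb
  have hEL : Disjoint (univ \ (S.D v ∪ S.L v)) (S.L v) := by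
    rw [Finset.disjoint_left]
    intro a ha hb
    simp [hb] at ha
  have hsub : ∀ a, Disjoint (M a) (S.L v) → Disjoint (M a) (S.D v) →
      M a ⊆ univ \ (S.D v ∪ S.L v) := by
    intro a h1 h2 u hu
    simp only [Finset.mem_sdiff, Finset.mem_univ, true_and, Finset.mem_union, not_or]
    exact ⟨Finset.disjoint_left.mp h2 hu, Finset.disjoint_left.mp h1 hu⟩
  rcases hc with ⟨h1, h2⟩ | ⟨h1, h2⟩
  · have h3 := hsub j fj h2
    refine ⟨S.D v, univ \ (S.D v ∪ S.L v), ⟨?_, hDE, hDL, hEL, hD, hE,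
      h.Z_sub hD hE hDE (lt_trans hij hj) hj h1 h3, hij, fi, fj, h1, h3, S.card v⟩,
      Or.inl ⟨rfl, rfl⟩⟩
    ext a
    simp only [Finset.mem_union, Finset.mem_sdiff, Finset.mem_univ, true_and, iff_true]
    tauto
  · have h3 := hsub i fi h1
    refine ⟨univ \ (S.D v ∪ S.L v), S.D v, ⟨?_, hDE.symm, hEL, hDL, hE, hD,
      h.Z_sub hE hD hDE.symm (lt_trans hij hj) hj h3 h2, hij, fi, fj, h3, h2, S.card v⟩,
      Or.inr ⟨rfl, rfl⟩⟩
    ext a
    simp only [Finset.mem_union, Finset.mem_sdiff, Finset.mem_univ, true_and, iff_true]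
    tauto

/-- PROOF. `exists_crossing` for `q1 = 6k + 4` and `q2 = 14k + 12` (with the same scheme `S`) gives `v1, i1, j1` and
`v2, i2, j2`. Put `X1 = S.L v1`, and (`L1`, `R1`) = (`D v1`, rest) or (rest, `D v1`) with rest
`univ \ (D v1 ∪ L v1)`, according to the crossing; the same for 2. This gives `Cut` (`nl`, `nr` from `S.D_adj`; `zx`:
`GStrip.Z_sub`; `lx`, `rx`: `S.disj_DL`). `tw`: `tw_bags`. `exists_free` for `X = X1 ∪ X2` (at most `2k` elements)
gives free blocks `a ∈ [0, 4k + 1)`, `b ∈ [8k + 7, 12k + 9)` and `c ∈ [16k + 16, 20k + 17)`; `i1 ≥ 4k + 1`,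
`j1 ≤ 8k + 7`, `i2 ≥ 12k + 9`, `j2 ≤ 16k + 15`. By `left_side`/`right_side` (if `b = j1` or `b` … equality is also
possible) `M a ⊆ L1, L2`, `M b ⊆ R1`, `M b ⊆ L2`, `M c ⊆ R1, R2`. Laminarity (`S.laminar v1 v2`), four cases.
(1) `L1 = D v1`, `L2 = D v2`: they share `M a`, and `M b ⊆ D v2` is disjoint from `D v1`, so `D v1 ⊆ D v2`,
`v1 ∈ D v2`, `L v1 ⊆ D v2 ∪ L v2` (`S.L_sub_of_mem`), which is disjoint from `R2`: `n1`; `n2`: `L1 ⊆ L2`; `n3`:
`L1 ⊆ D v2` is disjoint from `L v2`. (2) `R1 = D v1`, `R2 = D v2`: they share `M c`, `M b ⊆ D v1`, disjoint from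
`D v2`: `D v2 ⊆ D v1`, symmetric. (3) `L1 = D v1`, `R2 = D v2`: not nested (`M a`, `M c`), so disjoint, and
`S.disj_L_D` gives `n1`, `n3`. (4) `R1 = D v1`, `L2 = D v2`: they share `M b`, but `M c ⊆ D v1` is disjoint from
`D v2` and `M a ⊆ D v2` is disjoint from `D v1`, a contradiction. (All blocks are nonempty.) -/
theorem exists_twoCuts {k : ℕ} {Γ : SimpleGraph V} (hT : TW k Γ) {M C : ℕ → Finset V}
    {Z J : Finset V} {R : V → Finset V} (h : GStrip Γ (20 * k + 17) M C Z J R)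
    (hsw : SW k Γ (20 * k + 17) M C Z) :
    ∃ X1 L1 R1 X2 L2 R2 i1 j1 i2 j2 a c,
      TwoCuts k Γ M Z X1 L1 R1 X2 L2 R2 i1 j1 i2 j2 a c := by
  obtain ⟨S⟩ := hT
  obtain ⟨v1, i1, j1, p1, p2, p3, p4, p5, p6, p7⟩ :=
    exists_crossing S h (q := 6 * k + 4) (by omega) (by omega)
  obtain ⟨v2, i2, j2, q1, q2, q3, q4, q5, q6, q7⟩ :=
    exists_crossing S h (q := 14 * k + 12) (by omega) (by omega)
  obtain ⟨L1, R1, c1, s1⟩ := cre_cut S h (by omega) (by omega) p5 p6 p7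
  obtain ⟨L2, R2, c2, s2⟩ := cre_cut S h (by omega) (by omega) q5 q6 q7
  have hcard : (S.L v1 ∪ S.L v2).card ≤ 2 * k := by
    have h1 := Finset.card_union_le (S.L v1) (S.L v2)
    have h2 := S.card v1
    have h3 := S.card v2
    omega
  obtain ⟨a, a1, a2, a3⟩ := exists_free h.toStrip (S.L v1 ∪ S.L v2) (a := 0)
    (b := 4 * k + 1) (by omega) (by omega)
  obtain ⟨b, b1, b2, b3⟩ := exists_free h.toStrip (S.L v1 ∪ S.L v2) (a := 8 * k + 7)
    (b := 12 * k + 9) (by omega) (by omega)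
  obtain ⟨c, d1, d2, d3⟩ := exists_free h.toStrip (S.L v1 ∪ S.L v2) (a := 16 * k + 16)
    (b := 20 * k + 17) (by omega) (by omega)
  rw [Finset.disjoint_union_right] at a3 b3 d3
  have t1 : TW k (Γ ⊔ KG (S.L v1)) := tw_bag S v1 _ (Finset.subset_insert _ _)
  have t2 : TW k (Γ ⊔ KG (S.L v2)) := tw_bag S v2 _ (Finset.subset_insert _ _)
  have ma1 : M a ⊆ L1 := h.left_side hsw t1 c1.un c1.nl c1.nr c1.lr c1.ij (by omega) c1.fi
    c1.fj c1.li c1.rj (by omega) a3.1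
  have ma2 : M a ⊆ L2 := h.left_side hsw t2 c2.un c2.nl c2.nr c2.lr c2.ij (by omega) c2.fi
    c2.fj c2.li c2.rj (by omega) a3.2
  have mb2 : M b ⊆ L2 := h.left_side hsw t2 c2.un c2.nl c2.nr c2.lr c2.ij (by omega) c2.fi
    c2.fj c2.li c2.rj (by omega) b3.2
  have mb1 : M b ⊆ R1 := by
    rcases Nat.lt_or_ge j1 b with h1 | h1
    · exact h.right_side hsw t1 c1.un c1.nl c1.nr c1.lr c1.ij c1.fi
        c1.fj c1.li c1.rj h1 (by omega) b3.1
    · have h2 : b = j1 := by omega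
      rw [h2]; exact c1.rj
  have mc1 : M c ⊆ R1 := h.right_side hsw t1 c1.un c1.nl c1.nr c1.lr c1.ij c1.fi
        c1.fj c1.li c1.rj (by omega) (by omega) d3.1
  have mc2 : M c ⊆ R2 := h.right_side hsw t2 c2.un c2.nl c2.nr c2.lr c2.ij c2.fi
        c2.fj c2.li c2.rj (by omega) (by omega) d3.2
  obtain ⟨xa, hxa⟩ := (h.bc a (by omega)).1
  obtain ⟨xb, hxb⟩ := (h.bc b (by omega)).1
  obtain ⟨xc, hxc⟩ := (h.bc c (by omega)).1
  have la1 := Finset.disjoint_left.mp c1.lr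
  have la2 := Finset.disjoint_left.mp c2.lr
  have key : Disjoint R2 (S.L v1) ∧ Disjoint R2 L1 ∧ Disjoint L1 (S.L v2) := by
    rcases s1 with ⟨rfl, e1⟩ | ⟨rfl, e1⟩ <;> rcases s2 with ⟨rfl, e2⟩ | ⟨rfl, e2⟩
    · -- both sets below the cut nodes are on the left
      rcases S.laminar v1 v2 with h1 | h1 | h1
      · have h3 := S.L_sub_of_mem (h1 (S.self_mem v1))
        refine ⟨?_, c2.lr.symm.mono_right h1, c2.lx.mono_left h1⟩
        rw [Finset.disjoint_left]
        intro x hx hx'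
        rw [e2] at hx
        simp only [Finset.mem_sdiff, Finset.mem_univ, true_and] at hx
        exact hx (h3 hx')
      · exact absurd (mb1 hxb) (la1 (h1 (mb2 hxb)))
      · exact absurd (ma2 hxa) (Finset.disjoint_left.mp h1 (ma1 hxa))
    · rcases S.laminar v1 v2 with h1 | h1 | h1
      · exact absurd (h1 (ma1 hxa)) (la2 (ma2 hxa))
      · exact absurd (mc1 hxc) (la1 (h1 (mc2 hxc)))
      · exact ⟨(S.disj_L_D h1).symm, h1.symm, (S.disj_L_D h1.symm).symm⟩
    · rcases S.laminar v1 v2 with h1 | h1 | h1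
      · exact absurd (mc2 hxc) (la2 (h1 (mc1 hxc)))
      · exact absurd (h1 (ma2 hxa)) (la1 (ma1 hxa))
      · exact absurd (mb2 hxb) (Finset.disjoint_left.mp h1 (mb1 hxb))
    · rcases S.laminar v1 v2 with h1 | h1 | h1
      · exact absurd (h1 (mb1 hxb)) (la2 (mb2 hxb))
      · have h3 := S.L_sub_of_mem (h1 (S.self_mem v2))
        refine ⟨c1.rx.mono_left h1, c1.lr.symm.mono_left h1, ?_⟩
        rw [Finset.disjoint_left]
        intro x hx hx'
        rw [e1] at hx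
        simp only [Finset.mem_sdiff, Finset.mem_univ, true_and] at hx
        exact hx (h3 hx')
      · exact absurd (mc2 hxc) (Finset.disjoint_left.mp h1 (mc1 hxc))
  exact ⟨S.L v1, L1, R1, S.L v2, L2, R2, i1, j1, i2, j2, a, c,
    ⟨c1, c2, tw_bags S v1 v2 _ _ (Finset.subset_insert _ _) (Finset.subset_insert _ _),
      key.1, key.2.1, key.2.2, by omega, by omega, by omega, by omega, d2, a3.2, ma2,
      d3.1, mc1⟩⟩

/- END cre -/

end Pool.Agent.TWB
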