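import Pool.Agent.TW4.Minor

/-!
# The order of the obstructions of treewidth (MP_59b5d9_co): basic notions

All graphs live on one finite vertex type `V`; isolated vertices play no role. `KG W` is the complete
graph on `W`, `Ind G U` the graph of the edges of `G` inside `U`, `Dl G x y` is `G` minus the edge
`xy`, `Ctr G x y` is `G` with the edge `xy` contracted (`x` is kept, `y` becomes isolated).
`Sch G k` is an elimination scheme of width `k`, `TW k G` says that there is one.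
-/

namespace Pool.Agent.TWB

open Finset

variable {V : Type*}

/-- the complete graph on the vertex set `W` (the other vertices are isolated) -/
def KG (W : Finset V) : SimpleGraph V where
  Adj a b := a ≠ b ∧ a ∈ W ∧ b ∈ W
  symm := ⟨fun _ _ h => ⟨h.1.symm, h.2.2, h.2.1⟩⟩
  loopless := ⟨fun _ h => h.1 rfl⟩

/-- the edges of `G` inside `U` -/
def Ind (G : SimpleGraph V) (U : Finset V) : SimpleGraph V where
  Adj a b := G.Adj a b ∧ a ∈ U ∧ b ∈ U
  symm := ⟨fun _ _ h => ⟨h.1.symm, h.2.2, h.2.1⟩⟩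
  loopless := ⟨fun _ h => h.1.ne rfl⟩

/-- `G` minus the edge `xy` -/
def Dl (G : SimpleGraph V) (x y : V) : SimpleGraph V where
  Adj a b := G.Adj a b ∧ ¬ (a = x ∧ b = y) ∧ ¬ (a = y ∧ b = x)
  symm := ⟨fun _ _ h => ⟨h.1.symm, fun h' => h.2.2 ⟨h'.2, h'.1⟩, fun h' => h.2.1 ⟨h'.2, h'.1⟩⟩⟩
  loopless := ⟨fun _ h => h.1.ne rfl⟩

/-- `G` with the edge `xy` contracted: `x` is kept, `y` becomes isolated -/
def Ctr (G : SimpleGraph V) (x y : V) : SimpleGraph V where
  Adj a b := a ≠ b ∧ a ≠ y ∧ b ≠ y ∧ (G.Adj a b ∨ (a = x ∧ G.Adj y b) ∨ (b = x ∧ G.Adj y a))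
  symm := ⟨fun _ _ h => ⟨h.1.symm, h.2.2.1, h.2.1, by
    rcases h.2.2.2 with h' | h' | h'
    · exact Or.inl h'.symm
    · exact Or.inr (Or.inr h')
    · exact Or.inr (Or.inl h')⟩⟩
  loopless := ⟨fun _ h => h.1 rfl⟩

/-- An elimination scheme of width `k`: an order `p` of the vertices and sets `L v` of later vertices
that contain the later neighbours, with at most `k` elements, such that the later elements of
`L v` lie in `L w` for each `w ∈ L v`. -/
structure Sch (G : SimpleGraph V) (k : ℕ) where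
  p : V → ℤ
  L : V → Finset V
  inj : Function.Injective p
  lt : ∀ v w, w ∈ L v → p v < p w
  adj : ∀ v w, G.Adj v w → p v < p w → w ∈ L v
  cl : ∀ v w w', w ∈ L v → w' ∈ L v → p w < p w' → w' ∈ L w
  card : ∀ v, (L v).card ≤ k

/-- `G` has an elimination scheme of width `k` (`G` is a partial `k`-tree) -/
def TW (k : ℕ) (G : SimpleGraph V) : Prop := Nonempty (Sch G k)

/-- The set `T` is connected in `G` (and nonempty): it has no proper nonempty subset closed under
adjacency. -/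
def Cn (G : SimpleGraph V) (T : Finset V) : Prop :=
  T.Nonempty ∧ ∀ X : Finset V, X ⊆ T → X.Nonempty →
    (∀ u ∈ X, ∀ w ∈ T, G.Adj u w → w ∈ X) → X = T

section
variable [Fintype V]

open Classical in
/-- the descendants of `v` in the scheme (`v` included) -/
noncomputable def Sch.D {G : SimpleGraph V} {k : ℕ} (S : Sch G k) (v : V) : Finset V :=
  univ.filter (fun u => Relation.ReflTransGen (fun a b => b ∈ S.L a) u v)

theorem Sch.mem_D {G : SimpleGraph V} {k : ℕ} (S : Sch G k) {u v : V} :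
    u ∈ S.D v ↔ Relation.ReflTransGen (fun a b => b ∈ S.L a) u v := by
  simp [Sch.D]

end

variable [DecidableEq V]

/-- `(A, B)` is a separation of the vertex set `Ω`: `A ∪ B = Ω` and no edge of `G` joins `A \ B` and
`B \ A` -/
def Sp (G : SimpleGraph V) (Ω A B : Finset V) : Prop :=
  A ∪ B = Ω ∧ ∀ u ∈ A, u ∉ B → ∀ w ∈ B, w ∉ A → ¬ G.Adj u w

open Classical in
/-- the outer neighbours of `D` in `U` -/
noncomputable def Nb (G : SimpleGraph V) (U D : Finset V) : Finset V :=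
  U.filter (fun w => w ∉ D ∧ ∃ u ∈ D, G.Adj u w)

theorem mem_Nb {G : SimpleGraph V} {U D : Finset V} {w : V} :
    w ∈ Nb G U D ↔ w ∈ U ∧ w ∉ D ∧ ∃ u ∈ D, G.Adj u w := by
  simp [Nb]

/-- the side `A` of the separation is not a partial `k`-tree when the vertices of `A ∩ B` are made
adjacent -/
def Weak (k : ℕ) (G : SimpleGraph V) (A B : Finset V) : Prop := ¬ TW k (Ind G A ⊔ KG (A ∩ B))

/-- the union of the blocks `M a, …, M (b - 1)` -/
def MM (M : ℕ → Finset V) (a b : ℕ) : Finset V := (Finset.Ico a b).biUnion M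

theorem mem_MM {M : ℕ → Finset V} {a b : ℕ} {u : V} :
    u ∈ MM M a b ↔ ∃ i, a ≤ i ∧ i < b ∧ u ∈ M i := by
  simp [MM, and_assoc]

/-- A strip with `m` blocks `M 0, …, M (m - 1)`, cuts `C 0, …, C m` (the block `M i` lies between
the cuts `C i` and `C (i + 1)`), a set `Z` of outside vertices and rails `R a` for `a ∈ J`. -/
structure Strip (G : SimpleGraph V) (m : ℕ) (M C : ℕ → Finset V) (Z J : Finset V)
    (R : V → Finset V) : Prop where
  ne : J.Nonempty
  cl : ∀ i < m, C i ⊆ M i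
  cr : ∀ i < m, C (i + 1) ⊆ M i
  cd : ∀ i < m, Disjoint (C i) (C (i + 1))
  ov : ∀ i, i + 1 < m → M i ∩ M (i + 1) ⊆ C (i + 1)
  far : ∀ i j, i + 2 ≤ j → j < m → Disjoint (M i) (M j)
  zd : ∀ i < m, Disjoint Z (M i)
  nb : ∀ i < m, ∀ u ∈ M i, u ∉ C i → u ∉ C (i + 1) → ∀ w, G.Adj u w → w ∈ M i ∨ w ∈ Z
  nc : ∀ i, i + 1 < m → ∀ u ∈ C (i + 1), ∀ w, G.Adj u w → w ∈ M i ∨ w ∈ M (i + 1) ∨ w ∈ Z
  rd : ∀ a ∈ J, ∀ b ∈ J, a ≠ b → Disjoint (R a) (R b)
  rc : ∀ a ∈ J, ∀ i < m, Cn G (R a ∩ M i)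
  r1 : ∀ a ∈ J, ∀ i ≤ m, (R a ∩ C i).card = 1
  cc : ∀ i ≤ m, (C i).card = J.card

/-- A strip with connected blocks, such that every `z ∈ Z` is adjacent to every block. -/
structure GStrip (G : SimpleGraph V) (m : ℕ) (M C : ℕ → Finset V) (Z J : Finset V)
    (R : V → Finset V) : Prop extends Strip G m M C Z J R where
  bc : ∀ i < m, Cn G (M i)
  zb : ∀ z ∈ Z, ∀ i < m, ∃ u ∈ M i, G.Adj z u

/-- A nested chain of separations `(P i, Q i)`, `0 ≤ i ≤ N`, of order at most `K` of the vertex set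
`Ω`, with `P i \ Q i` strictly increasing; the vertices of `Ω` outside `P 0` and `Q N` have no
neighbours outside `Ω`. -/
structure SChain (G : SimpleGraph V) (Ω : Finset V) (P Q : ℕ → Finset V) (N K : ℕ) : Prop where
  sp : ∀ i ≤ N, Sp G Ω (P i) (Q i)
  mP : ∀ i < N, P i ⊆ P (i + 1)
  mQ : ∀ i < N, Q (i + 1) ⊆ Q i
  ord : ∀ i ≤ N, (P i ∩ Q i).card ≤ K
  st : ∀ i < N, ∃ u ∈ P (i + 1), u ∉ Q (i + 1) ∧ u ∈ Q i
  cl : ∀ u ∈ Ω, u ∉ P 0 → u ∉ Q N → ∀ w, G.Adj u w → w ∈ Ω

section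
variable [Fintype V]

/-- `(A, B)` is a separation all of whose refinements `(A', B')` towards `B` are weak: the side `B` is
the small side -/
def Small (k : ℕ) (G : SimpleGraph V) (A B : Finset V) : Prop :=
  Sp G univ A B ∧ ∀ A' B', Sp G univ A' B' → A ⊆ A' → B' ⊆ B → Weak k G A' B'

/-- `G` is minor-minimal without elimination scheme of width `k` -/
structure Obs (k : ℕ) (G : SimpleGraph V) : Prop where
  ntw : ¬ TW k G
  del : ∀ x y, G.Adj x y → TW k (Dl G x y)
  ctr : ∀ x y, G.Adj x y → TW k (Ctr G x y)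
  iso : ∀ v, ∃ w, G.Adj v w

/-- the inner vertices of a strip -/
def Inn (M C : ℕ → Finset V) (m : ℕ) : Finset V := MM M 0 m \ (C 0 ∪ C m)

/-- the outside of the strip with its boundary made complete is not a partial `k`-tree -/
def SW (k : ℕ) (G : SimpleGraph V) (m : ℕ) (M C : ℕ → Finset V) (Z : Finset V) : Prop :=
  ¬ TW k (Ind G (univ \ Inn M C m) ⊔ KG (C 0 ∪ C m ∪ Z))

end

end Pool.Agent.TWB
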