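import Pool.Agent.TWB.Sep

/-!
# A large family of pieces at a small set is impossible (text, section 6)
-/

namespace Pool.Agent.TWB

open Finset

variable {V : Type*} [Fintype V] [DecidableEq V]

/- MODULE faa (M) -/
omit [Fintype V] in
/-- `T` with two neighbours added is connected. -/
private theorem faa_conn {Γ : SimpleGraph V} {T : Finset V} {u v : V} (hT : Cn Γ T)
    (hu : ∃ x ∈ T, Γ.Adj u x) (hv : ∃ x ∈ T, Γ.Adj v x) : Cn Γ (insert u (insert v T)) := by
  obtain ⟨x, hx, hux⟩ := hu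
  obtain ⟨y, hy, hvy⟩ := hv
  have h1 : Cn Γ ({v} ∪ T) :=
    Cn.union_adj (cn_single Γ v) hT ⟨v, Finset.mem_singleton_self v, y, hy, hvy⟩
  have h2 : Cn Γ ({u} ∪ ({v} ∪ T)) :=
    Cn.union_adj (cn_single Γ u) h1
      ⟨u, Finset.mem_singleton_self u, x, Finset.mem_union_right _ hx, hux⟩
  rw [Finset.insert_eq, Finset.insert_eq]
  exact h2

/-- the ordered case -/
private theorem faa_aux {k : ℕ} {Γ : SimpleGraph V} (S : Sch Γ k) {u v : V}
    (hlt : S.p u < S.p v)
    (I : Finset ℕ) (T : ℕ → Finset V) (hI : k < I.card) (hc : ∀ i ∈ I, Cn Γ (T i))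
    (hd : ∀ i ∈ I, ∀ j ∈ I, i ≠ j → Disjoint (T i) (T j))
    (hu : ∀ i ∈ I, u ∉ T i ∧ ∃ x ∈ T i, Γ.Adj u x)
    (hv : ∀ i ∈ I, v ∉ T i ∧ ∃ x ∈ T i, Γ.Adj v x) : v ∈ S.L u := by
  by_contra hvL
  have hvD : v ∉ S.D u := fun h => absurd (S.D_le h) (not_le.mpr hlt)
  have key : ∀ i ∈ I, ∃ b, b ∈ T i ∧ b ∈ S.L u := by
    intro i hi
    have hcon := faa_conn (hc i hi) (hu i hi).2 (hv i hi).2
    obtain ⟨a, -, haK, b, hb, hbK, hab⟩ := hcon.exit (K := S.D u) (Finset.mem_insert_self u _)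
      (S.self_mem u) (Finset.mem_insert_of_mem (Finset.mem_insert_self v _)) hvD
    have hbL : b ∈ S.L u := by
      rcases S.D_adj haK hab with h | h
      · exact absurd h hbK
      · exact h
    refine ⟨b, ?_, hbL⟩
    rcases Finset.mem_insert.mp hb with h | h
    · exact absurd (h ▸ S.self_mem u) hbK
    · rcases Finset.mem_insert.mp h with h' | h'
      · exact absurd (h' ▸ hbL) hvL
      · exact h'
  have : Nonempty V := ⟨u⟩
  choose! f hf using key
  have hinj : Set.InjOn f (I : Set ℕ) := by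
    intro i hi j hj hij
    by_contra hne
    have h1 := (hf i hi).1
    have h2 := (hf j hj).1
    rw [← hij] at h2
    exact Finset.disjoint_left.mp (hd i hi j hj hne) h1 h2
  have hle : I.card ≤ (S.L u).card :=
    Finset.card_le_card_of_injOn f (fun i hi => (hf i hi).2) hinj
  have := S.card u
  omega

/-- Two vertices joined by more than `k` disjoint connected sets are adjacent in every completion. PROOF.
Suppose not, and let `p u < p v` (the hypotheses are symmetric). Then `v ∉ D u` and `v ∉ L u`. For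
`i ∈ I` the set `insert u (insert v (T i))` is connected, so by `Cn.exit` for `K = D u` there is an edge from a
vertex of `D u` to a vertex `w ∉ D u` of `{u, v} ∪ T i`, and `w ∈ L u` by `S.D_adj`; `w ≠ v`, `w ≠ u`, so
`w ∈ T i ∩ L u`. The sets `T i` are disjoint, so `|L u| ≥ k + 1`. -/
theorem H_of_many {k : ℕ} {Γ : SimpleGraph V} (S : Sch Γ k) {u v : V} (huv : u ≠ v)
    (I : Finset ℕ) (T : ℕ → Finset V) (hI : k < I.card) (hc : ∀ i ∈ I, Cn Γ (T i))
    (hd : ∀ i ∈ I, ∀ j ∈ I, i ≠ j → Disjoint (T i) (T j))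
    (hu : ∀ i ∈ I, u ∉ T i ∧ ∃ x ∈ T i, Γ.Adj u x)
    (hv : ∀ i ∈ I, v ∉ T i ∧ ∃ x ∈ T i, Γ.Adj v x) : v ∈ S.L u ∨ u ∈ S.L v := by
  have hne : S.p u ≠ S.p v := fun h => huv (S.inj h)
  rcases lt_or_gt_of_ne hne with h | h
  · exact Or.inl (faa_aux S h I T hI hc hd hu hv)
  · exact Or.inr (faa_aux S h I T hI hc hd hv hu)

/- END faa -/

/- MODULE fab (L) -/
/-- PROOF. Text, section 6. By `exists_comp` there are connected `F' i ⊆ F i` whose outer neighbours (in
`univ`) lie in `Z`; let `N i = Nb G univ (F' i) ⊆ Z ∩ B`. Call `(z, z')` rare if `z, z' ∈ N j` for at most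
`k + 1` indices `j < L`. If each `N i`, `i < L`, contains a rare pair then `L ≤ |Z|² (k + 1) ≤ (k + 1) ^ 3`
(map `i` to a rare pair, fibres have at most `k + 1` elements). So some `i` has no rare pair (also not
`(z, z)`). Let `Γ = Ind G (univ \ F' i)`. `F' i` is nonempty, so it has a vertex `v` with an edge `vw`
(`hO.iso`); `Γ` has fewer edges than `Dl G v w`, so there is a scheme `S` of `Γ`. For `z ≠ z'` in `N i` there
are at least `k + 1` indices `j ≠ i` with `z, z' ∈ N j`, so `H_of_many` gives `z' ∈ S.L z ∨ z ∈ S.L z'`. By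
`tw_of_H`, `TW k (Γ ⊔ KG (N i))`. But `(univ \ F' i, F' i ∪ N i)` is a separation of `G` with intersection `N i`,
`A ⊆ univ \ F' i`, `F' i ∪ N i ⊆ B` (the neighbours of a vertex of `B \ A` are in `B`), so it is weak. -/
theorem fam_false {k L : ℕ} {G : SimpleGraph V} {A B : Finset V} (hO : Obs k G)
    (hs : Small k G A B) (Z : Finset V) (F : ℕ → Finset V) (hZ : Z.card ≤ k + 1)
    (hF : ∀ i < L, (F i).Nonempty ∧ F i ⊆ B ∧ Disjoint (F i) A ∧
      ∀ u ∈ F i, ∀ w, G.Adj u w → w ∈ F i ∨ w ∈ Z)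
    (hd : ∀ i < L, ∀ j < L, i ≠ j → Disjoint (F i) (F j)) (hL : (k + 1) ^ 3 < L) : False := by
  classical
  have hFne : ∀ i : ℕ, ∃ K : Finset V, i < L → (K ⊆ F i ∧ K.Nonempty ∧ Cn G K ∧
      ∀ u ∈ K, ∀ w ∈ F i, G.Adj u w → w ∈ K) := by
    intro i
    by_cases hi : i < L
    · obtain ⟨v, hv⟩ := (hF i hi).1
      obtain ⟨K, hK1, hK2, hK3, hK4⟩ := exists_comp G hv
      exact ⟨K, fun _ => ⟨hK1, ⟨v, hK2⟩, hK3, hK4⟩⟩
    · exact ⟨∅, fun h => absurd h hi⟩
  choose F' hF' using hFne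
  set N : ℕ → Finset V := fun i => Nb G univ (F' i) with hN
  have hNmem : ∀ i w, w ∈ N i ↔ w ∉ F' i ∧ ∃ u ∈ F' i, G.Adj u w := by
    intro i w
    rw [hN]
    simp only [mem_Nb, mem_univ, true_and]
  have hNZ : ∀ i < L, N i ⊆ Z := by
    intro i hi w hw
    rw [hNmem] at hw
    obtain ⟨hw1, u, hu, huw⟩ := hw
    rcases (hF i hi).2.2.2 u ((hF' i hi).1 hu) w huw with h | h
    · exact absurd ((hF' i hi).2.2.2 u hu w h huw) hw1
    · exact h
  have hNB : ∀ i < L, N i ⊆ B := by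
    intro i hi w hw
    rw [hNmem] at hw
    obtain ⟨hw1, u, hu, huw⟩ := hw
    by_contra hwB
    have huF := (hF' i hi).1 hu
    have hwA : w ∈ A := by
      have h1 : w ∈ A ∪ B := by
        rw [hs.1.1]
        exact mem_univ w
      exact (mem_union.1 h1).resolve_right hwB
    exact hs.1.2 w hwA hwB u ((hF i hi).2.1 huF)
      (fun h => disjoint_left.1 (hF i hi).2.2.1 huF h) huw.symm
  have hd' : ∀ i < L, ∀ j < L, i ≠ j → Disjoint (F' i) (F' j) := fun i hi j hj hij =>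
    disjoint_of_subset_left (hF' i hi).1 (disjoint_of_subset_right (hF' j hj).1 (hd i hi j hj hij))
  set I : V × V → Finset ℕ := fun q => (range L).filter fun j => q.1 ∈ N j ∧ q.2 ∈ N j with hI
  obtain ⟨i, hi, hrare⟩ : ∃ i < L, ∀ z ∈ N i, ∀ z' ∈ N i, k + 1 < (I (z, z')).card := by
    by_contra hcon
    push Not at hcon
    have hsub : range L ⊆ ((Z ×ˢ Z).filter fun q => (I q).card ≤ k + 1).biUnion I := by
      intro i hi
      rw [mem_range] at hi
      obtain ⟨z, hz, z', hz', hc⟩ := hcon i hi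
      rw [mem_biUnion]
      refine ⟨(z, z'), mem_filter.2 ⟨mem_product.2 ⟨hNZ i hi hz, hNZ i hi hz'⟩, hc⟩, ?_⟩
      rw [hI]
      exact mem_filter.2 ⟨mem_range.2 hi, hz, hz'⟩
    have h1 : L ≤ (k + 1) ^ 3 := by
      calc L = (range L).card := (card_range L).symm
        _ ≤ _ := card_le_card hsub
        _ ≤ ∑ q ∈ (Z ×ˢ Z).filter (fun q => (I q).card ≤ k + 1), (I q).card := card_biUnion_le
        _ ≤ ∑ _q ∈ (Z ×ˢ Z).filter (fun q => (I q).card ≤ k + 1), (k + 1) :=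
            sum_le_sum fun q hq => (mem_filter.1 hq).2
        _ = ((Z ×ˢ Z).filter (fun q => (I q).card ≤ k + 1)).card * (k + 1) := by
            rw [sum_const, smul_eq_mul]
        _ ≤ (Z ×ˢ Z).card * (k + 1) := Nat.mul_le_mul_right _ (card_filter_le _ _)
        _ = Z.card * Z.card * (k + 1) := by rw [card_product]
        _ ≤ (k + 1) * (k + 1) * (k + 1) := Nat.mul_le_mul_right _ (Nat.mul_le_mul hZ hZ)
        _ = (k + 1) ^ 3 := by ring
    omega
  obtain ⟨v, hv⟩ := (hF' i hi).2.1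
  obtain ⟨w, hvw⟩ := hO.iso v
  have hΓ : TW k (Ind G (univ \ F' i)) := by
    refine (hO.del v w hvw).mono ?_
    intro a b hab
    obtain ⟨h1, h2, h3⟩ := hab
    rw [mem_sdiff] at h2 h3
    refine ⟨h1, ?_, ?_⟩
    · rintro ⟨rfl, _⟩
      exact h2.2 hv
    · rintro ⟨_, rfl⟩
      exact h3.2 hv
  obtain ⟨S⟩ := hΓ
  have hmany : ∀ z ∈ N i, ∀ z' ∈ N i, z ≠ z' → z' ∈ S.L z ∨ z ∈ S.L z' := by
    intro z hz z' hz' hzz
    have hc := hrare z hz z' hz'
    have hΓadj : ∀ j < L, j ≠ i → ∀ y ∈ N i, y ∈ N j → y ∉ F' j ∧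
        ∃ x ∈ F' j, (Ind G (univ \ F' i)).Adj y x := by
      intro j hj hji y hyi hyj
      rw [hNmem] at hyi hyj
      obtain ⟨h1, x, hx, hxy⟩ := hyj
      refine ⟨h1, x, hx, hxy.symm, mem_sdiff.2 ⟨mem_univ _, hyi.1⟩, mem_sdiff.2 ⟨mem_univ _, ?_⟩⟩
      exact disjoint_left.1 (hd' j hj i hi hji) hx
    refine H_of_many S hzz ((I (z, z')).erase i) F' ?_ ?_ ?_ ?_ ?_
    · have h0 := pred_card_le_card_erase (s := I (z, z')) (a := i)
      omega
    · intro j hj
      rw [mem_erase, hI, mem_filter, mem_range] at hj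
      refine (hF' j hj.2.1).2.2.1.mono_adj ?_
      intro a ha b hb hab
      exact ⟨hab, mem_sdiff.2 ⟨mem_univ _, disjoint_left.1 (hd' j hj.2.1 i hi hj.1) ha⟩,
        mem_sdiff.2 ⟨mem_univ _, disjoint_left.1 (hd' j hj.2.1 i hi hj.1) hb⟩⟩
    · intro j hj j' hj' hjj
      rw [mem_erase, hI, mem_filter, mem_range] at hj hj'
      exact hd' j hj.2.1 j' hj'.2.1 hjj
    · intro j hj
      rw [mem_erase, hI, mem_filter, mem_range] at hj
      exact hΓadj j hj.2.1 hj.1 z hz hj.2.2.1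
    · intro j hj
      rw [mem_erase, hI, mem_filter, mem_range] at hj
      exact hΓadj j hj.2.1 hj.1 z' hz' hj.2.2.2
  have htw : TW k (Ind G (univ \ F' i) ⊔ KG (N i)) := by
    refine tw_of_H S ?_
    intro a b hab
    rcases hab with hab | hab
    · exact S.H hab
    · exact hmany a hab.2.1 b hab.2.2 hab.1
  have hint : (univ \ F' i) ∩ (F' i ∪ N i) = N i := by
    ext x
    rw [mem_inter, mem_sdiff, mem_union]
    constructor
    · rintro ⟨⟨_, h1⟩, h2 | h2⟩
      · exact absurd h2 h1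
      · exact h2
    · intro h
      exact ⟨⟨mem_univ _, ((hNmem i x).1 h).1⟩, Or.inr h⟩
  have hweak := hs.2 (univ \ F' i) (F' i ∪ N i) ⟨?_, ?_⟩ ?_ ?_
  · unfold Weak at hweak
    rw [hint] at hweak
    exact hweak htw
  · ext x
    simp only [mem_union, mem_sdiff, mem_univ, true_and, iff_true]
    by_cases hx : x ∈ F' i
    · exact Or.inr (Or.inl hx)
    · exact Or.inl hx
  · intro u hu huB y hy hyA huy
    rw [mem_sdiff] at hu hyA
    have hyF : y ∈ F' i := by
      by_contra h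
      exact hyA ⟨mem_univ _, h⟩
    exact huB (mem_union_right _ ((hNmem i u).2 ⟨hu.2, y, hyF, huy.symm⟩))
  · intro x hx
    rw [mem_sdiff]
    exact ⟨mem_univ _, fun h => disjoint_left.1 (hF i hi).2.2.1 ((hF' i hi).1 h) hx⟩
  · exact union_subset (((hF' i hi).1).trans (hF i hi).2.1) (hNB i hi)

/- END fab -/

end Pool.Agent.TWB
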