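import Pool.Agent.TWB.Sep

/-!
# From a chain of separations to a strip or a family of pieces (text, sections 5 and 6)
-/

namespace Pool.Agent.TWB

open Finset

variable {V : Type*} [DecidableEq V]

/- MODULE lea (M) -/
/-- The interval lemma. PROOF. Claim: if `a + b ^ j ≤ N` and `B < Φ a (a + b ^ j) + j` then the conclusion
holds. Induction on `j`. `j = 0`: `hB a (a + 1)` is a contradiction. `j + 1`: put `n' = b ^ j`. If the `b`
consecutive intervals of length `n'` all have the value of `Φ a (a + b * n')`, done. Otherwise one of them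
has a larger value (`hmono`), apply the induction hypothesis to it. The claim for `a = 0`, `j = B + 1`. -/
theorem level (Φ : ℕ → ℕ → ℕ) (b B N : ℕ) (hb : 1 ≤ b) (hN : b ^ (B + 1) ≤ N)
    (hmono : ∀ a c a' c', a ≤ a' → a' < c' → c' ≤ c → c ≤ N → Φ a c ≤ Φ a' c')
    (hB : ∀ a c, a < c → c ≤ N → Φ a c ≤ B) :
    ∃ a n', 1 ≤ n' ∧ a + b * n' ≤ N ∧
      ∀ s < b, Φ (a + s * n') (a + (s + 1) * n') = Φ a (a + b * n') := by
  have key : ∀ j a : ℕ, a + b ^ j ≤ N → B < Φ a (a + b ^ j) + j →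
      ∃ a n', 1 ≤ n' ∧ a + b * n' ≤ N ∧
        ∀ s < b, Φ (a + s * n') (a + (s + 1) * n') = Φ a (a + b * n') := by
    intro j
    induction j with
    | zero =>
      intro a h1 h2
      rw [pow_zero] at h1 h2
      have := hB a (a + 1) (Nat.lt_succ_self a) h1
      omega
    | succ j ih =>
      intro a h1 h2
      rw [pow_succ, mul_comm] at h1 h2
      have hn' : 1 ≤ b ^ j := Nat.one_le_pow _ _ hb
      by_cases hall : ∀ s < b,
          Φ (a + s * b ^ j) (a + (s + 1) * b ^ j) = Φ a (a + b * b ^ j)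
      · exact ⟨a, b ^ j, hn', h1, hall⟩
      · push Not at hall
        obtain ⟨s, hs, hne⟩ := hall
        have e1 : a + (s + 1) * b ^ j ≤ a + b * b ^ j :=
          Nat.add_le_add_left (Nat.mul_le_mul_right _ hs) _
        have e2 : a + (s + 1) * b ^ j = a + s * b ^ j + b ^ j := by ring
        have e3 := hmono a (a + b * b ^ j) (a + s * b ^ j) (a + (s + 1) * b ^ j)
          (Nat.le_add_right _ _) (by rw [e2]; omega) e1 h1
        refine ih (a + s * b ^ j) (by rw [← e2]; omega) ?_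
        rw [← e2]
        omega
  refine key (B + 1) 0 (by simpa using hN) (by omega)

/-- least order of a separation of `Ω` between the separations number `a` and `c` -/
noncomputable def lam (G : SimpleGraph V) (Ω : Finset V) (P Q : ℕ → Finset V) (a c : ℕ) : ℕ :=
  sInf {n | ∃ P' Q', Sp G Ω P' Q' ∧ P a ⊆ P' ∧ P' ⊆ P c ∧ Q c ⊆ Q' ∧ Q' ⊆ Q a ∧
    (P' ∩ Q').card = n}

/-- A system of `L + 1` separations `(P' s, Q' s)` of `Ω` of the same order `lm`, which is the least order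
of a separation between the first and the last, with pairwise intersections of the cuts inside `Z`. -/
structure Cuts (G : SimpleGraph V) (Ω : Finset V) (P Q : ℕ → Finset V) (N L lm : ℕ)
    (P' Q' : ℕ → Finset V) (Z : Finset V) : Prop where
  sp : ∀ s ≤ L, Sp G Ω (P' s) (Q' s)
  mP : ∀ s < L, P' s ⊆ P' (s + 1)
  mQ : ∀ s < L, Q' (s + 1) ⊆ Q' s
  ord : ∀ s ≤ L, (P' s ∩ Q' s).card = lm
  min : ∀ P'' Q'', Sp G Ω P'' Q'' → P' 0 ⊆ P'' → P'' ⊆ P' L → Q' L ⊆ Q'' → Q'' ⊆ Q' 0 →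
    lm ≤ (P'' ∩ Q'').card
  zs : ∀ s ≤ L, Z ⊆ P' s ∩ Q' s
  zi : ∀ s t, s < t → t ≤ L → (P' s ∩ Q' s) ∩ (P' t ∩ Q' t) ⊆ Z
  st : ∀ s < L, ∃ u ∈ P' (s + 1), u ∉ Q' (s + 1) ∧ u ∈ Q' s
  p0 : P 0 ⊆ P' 0
  qN : Q N ⊆ Q' L

/- END lea -/

/- MODULE pha (M) -/
omit [DecidableEq V] in
private theorem pha_mono {D : ℕ → Finset V} {N : ℕ} (h : ∀ i < N, D i ⊆ D (i + 1)) :
    ∀ j, j ≤ N → ∀ i ≤ j, D i ⊆ D j := by
  intro j
  induction j with
  | zero =>
    intro _ i hi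
    rw [Nat.le_zero.1 hi]
  | succ j ih =>
    intro hj i hi
    rcases Nat.lt_or_ge i (j + 1) with h' | h'
    · exact (ih (by omega) i (by omega)).trans (h j (by omega))
    · rw [le_antisymm hi h']

omit [DecidableEq V] in
private theorem pha_anti {D : ℕ → Finset V} {N : ℕ} (h : ∀ i < N, D (i + 1) ⊆ D i) :
    ∀ j, j ≤ N → ∀ i ≤ j, D j ⊆ D i := by
  intro j
  induction j with
  | zero =>
    intro _ i hi
    rw [Nat.le_zero.1 hi]
  | succ j ih =>
    intro hj i hi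
    rcases Nat.lt_or_ge i (j + 1) with h' | h'
    · exact (h j (by omega)).trans (ih (by omega) i (by omega))
    · rw [le_antisymm hi h']

/-- PROOF. induction -/
theorem SChain.monoP {G : SimpleGraph V} {Ω : Finset V} {P Q : ℕ → Finset V} {N K : ℕ}
    (h : SChain G Ω P Q N K) {a c : ℕ} (hac : a ≤ c) (hc : c ≤ N) : P a ⊆ P c := by
  exact pha_mono h.mP c hc a hac

/-- PROOF. induction -/
theorem SChain.monoQ {G : SimpleGraph V} {Ω : Finset V} {P Q : ℕ → Finset V} {N K : ℕ}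
    (h : SChain G Ω P Q N K) {a c : ℕ} (hac : a ≤ c) (hc : c ≤ N) : Q c ⊆ Q a := by
  exact pha_anti h.mQ c hc a hac

/-- PROOF. The set is nonempty (`(P a, Q a)`), `Nat.sInf_mem`. -/
theorem SChain.lam_attained {G : SimpleGraph V} {Ω : Finset V} {P Q : ℕ → Finset V} {N K : ℕ}
    (h : SChain G Ω P Q N K) {a c : ℕ} (hac : a ≤ c) (hc : c ≤ N) :
    ∃ P' Q', Sp G Ω P' Q' ∧ P a ⊆ P' ∧ P' ⊆ P c ∧ Q c ⊆ Q' ∧ Q' ⊆ Q a ∧
      (P' ∩ Q').card = lam G Ω P Q a c := by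
  have hne : {n | ∃ P' Q', Sp G Ω P' Q' ∧ P a ⊆ P' ∧ P' ⊆ P c ∧ Q c ⊆ Q' ∧ Q' ⊆ Q a ∧
      (P' ∩ Q').card = n}.Nonempty :=
    ⟨(P a ∩ Q a).card, P a, Q a, h.sp a (hac.trans hc), Subset.rfl, h.monoP hac hc,
      h.monoQ hac hc, Subset.rfl, rfl⟩
  exact Nat.sInf_mem hne

/-- PROOF. `Nat.sInf_le` -/
theorem lam_le {G : SimpleGraph V} {Ω : Finset V} {P Q : ℕ → Finset V} {a c : ℕ}
    {P' Q' : Finset V} (h : Sp G Ω P' Q') (h1 : P a ⊆ P') (h2 : P' ⊆ P c) (h3 : Q c ⊆ Q')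
    (h4 : Q' ⊆ Q a) : lam G Ω P Q a c ≤ (P' ∩ Q').card := by
  exact Nat.sInf_le ⟨P', Q', h, h1, h2, h3, h4, rfl⟩

/-- PROOF. `lam_le` with `(P a, Q a)`, `h.ord`. -/
theorem SChain.lam_le_K {G : SimpleGraph V} {Ω : Finset V} {P Q : ℕ → Finset V} {N K : ℕ}
    (h : SChain G Ω P Q N K) {a c : ℕ} (hac : a ≤ c) (hc : c ≤ N) : lam G Ω P Q a c ≤ K := by
  exact (lam_le (h.sp a (hac.trans hc)) Subset.rfl (h.monoP hac hc) (h.monoQ hac hc)
    Subset.rfl).trans (h.ord a (hac.trans hc))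

/-- PROOF. A separation between number `a'` and `c'` is one between number `a` and `c`. -/
theorem SChain.lam_mono {G : SimpleGraph V} {Ω : Finset V} {P Q : ℕ → Finset V} {N K : ℕ}
    (h : SChain G Ω P Q N K) {a c a' c' : ℕ} (h1 : a ≤ a') (h2 : a' ≤ c') (h3 : c' ≤ c)
    (h4 : c ≤ N) : lam G Ω P Q a c ≤ lam G Ω P Q a' c' := by
  obtain ⟨P', Q', g1, g2, g3, g4, g5, g6⟩ := h.lam_attained h2 (h3.trans h4)
  rw [← g6]
  exact lam_le g1 ((h.monoP h1 (by omega)).trans g2) (g3.trans (h.monoP h3 h4))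
    ((h.monoQ h3 h4).trans g4) (g5.trans (h.monoQ h1 (by omega)))

/-- PROOF. If `v ∈ P a` and `v ∈ Q c` then `v ∈ P a'` and `v ∈ Q a'`, and the same for `c'`. -/
theorem SChain.z_mono {G : SimpleGraph V} {Ω : Finset V} {P Q : ℕ → Finset V} {N K : ℕ}
    (h : SChain G Ω P Q N K) {a c a' c' : ℕ} (h1 : a ≤ a') (h2 : a' ≤ c') (h3 : c' ≤ c)
    (h4 : c ≤ N) : P a ∩ Q c ⊆ P a' ∩ Q c' := by
  exact inter_subset_inter (h.monoP h1 (by omega)) (h.monoQ h3 h4)

/- END pha -/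

/- MODULE phb (L) -/
/-- Phase 1, choice of the cuts. PROOF. `level` with `b = 2 * L + 1`, `B = 2 * K` and
`Φ a c = lam G Ω P Q a c + (P a ∩ Q c).card` (note `P a ∩ Q c ⊆ P a ∩ Q a`, at most `K` elements) gives `a`,
`n'`. With `I s = [a + s n', a + (s + 1) n']` all `lam` of the `I s` are equal to `lm := lam a (a + b n')`, and
all sets `P (a + s n') ∩ Q (a + (s + 1) n')` are equal to `Z := P a ∩ Q (a + b n')` (`lam_mono`, `z_mono`, equal
cardinality). For `s ≤ L` take `(P' s, Q' s)` from `lam_attained` for the interval `I (2 s)`. Between `I (2 s)`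
and `I (2 s + 2)` lies `I (2 s + 1)`, of length `n' ≥ 1`: this gives `mP`, `mQ`, and `st` (take `u` from `h.st` for
an index in `I (2 s + 1)`: `u ∈ P (i + 1) ⊆ P' (s + 1)`, `u ∉ Q (i + 1) ⊇ Q' (s + 1)`, `u ∈ Q i ⊆ Q' s`).
`min`: a separation between the first and the last is between number `a` and number `a + b n'`. `zs`:
`P a ⊆ P' s`, `Q (a + b n') ⊆ Q' s`. `zi`: `v ∈ P' s ⊆ P (a + (2 s + 1) n')` and `v ∈ Q' t ⊆ Q (a + (2 s + 2) n')`, so
`v` is in the set of `I (2 s + 1)`, which is `Z`. -/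
theorem exists_cuts {G : SimpleGraph V} {Ω : Finset V} {P Q : ℕ → Finset V} {N K L : ℕ}
    (h : SChain G Ω P Q N K) (hN : (2 * L + 1) ^ (2 * K + 1) ≤ N) :
    ∃ lm Z P' Q', lm ≤ K ∧ Cuts G Ω P Q N L lm P' Q' Z := by
  classical
  have hcard : ∀ a c, a ≤ c → c ≤ N → (P a ∩ Q c).card ≤ K := fun a c hac hc =>
    (card_le_card (inter_subset_inter Subset.rfl (h.monoQ hac hc))).trans
      (h.ord a (hac.trans hc))
  obtain ⟨a, n', hn', han, hΦ⟩ := level (fun a c => lam G Ω P Q a c + (P a ∩ Q c).card)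
    (2 * L + 1) (2 * K) N (by omega) hN
    (fun a c a' c' h1 h2 h3 h4 => Nat.add_le_add (h.lam_mono h1 h2.le h3 h4)
      (card_le_card (h.z_mono h1 h2.le h3 h4)))
    (fun a c h1 h2 => by
      have := h.lam_le_K h1.le h2
      have := hcard a c h1.le h2
      show lam G Ω P Q a c + (P a ∩ Q c).card ≤ 2 * K
      omega)
  -- the end points
  have hmul : ∀ s, s ≤ 2 * L + 1 → a + s * n' ≤ a + (2 * L + 1) * n' := fun s hs =>
    Nat.add_le_add_left (Nat.mul_le_mul_right _ hs) _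
  have hstep : ∀ s t, s ≤ t → a + s * n' ≤ a + t * n' := fun s t hs =>
    Nat.add_le_add_left (Nat.mul_le_mul_right _ hs) _
  have hkey : ∀ s, s < 2 * L + 1 →
      lam G Ω P Q (a + s * n') (a + (s + 1) * n') = lam G Ω P Q a (a + (2 * L + 1) * n') ∧
      P (a + s * n') ∩ Q (a + (s + 1) * n') = P a ∩ Q (a + (2 * L + 1) * n') := by
    intro s hs
    have e := hΦ s hs
    have m1 := h.lam_mono (a := a) (c := a + (2 * L + 1) * n') (a' := a + s * n')
      (c' := a + (s + 1) * n') (Nat.le_add_right _ _) (hstep _ _ (Nat.le_succ s))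
      (hmul _ hs) han
    have m2 := h.z_mono (a := a) (c := a + (2 * L + 1) * n') (a' := a + s * n')
      (c' := a + (s + 1) * n') (Nat.le_add_right _ _) (hstep _ _ (Nat.le_succ s))
      (hmul _ hs) han
    have m3 := card_le_card m2
    refine ⟨by omega, (eq_of_subset_of_card_le m2 (by omega)).symm⟩
  have hex : ∀ s, ∃ P' Q' : Finset V, s ≤ L → (Sp G Ω P' Q' ∧ P (a + (2 * s) * n') ⊆ P' ∧
      P' ⊆ P (a + (2 * s + 1) * n') ∧ Q (a + (2 * s + 1) * n') ⊆ Q' ∧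
      Q' ⊆ Q (a + (2 * s) * n') ∧
      (P' ∩ Q').card = lam G Ω P Q a (a + (2 * L + 1) * n')) := by
    intro s
    by_cases hs : s ≤ L
    · obtain ⟨P', Q', g⟩ := h.lam_attained (hstep (2 * s) (2 * s + 1) (Nat.le_succ _))
        ((hmul (2 * s + 1) (by omega)).trans han)
      rw [(hkey (2 * s) (by omega)).1] at g
      exact ⟨P', Q', fun _ => g⟩
    · exact ⟨∅, ∅, fun h' => absurd h' hs⟩
  choose P' Q' hPQ using hex
  refine ⟨lam G Ω P Q a (a + (2 * L + 1) * n'), P a ∩ Q (a + (2 * L + 1) * n'), P', Q',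
    h.lam_le_K (Nat.le_add_right _ _) han, ?_⟩
  -- between
  have hN' : ∀ s, s ≤ 2 * L + 1 → a + s * n' ≤ N := fun s hs => (hmul s hs).trans han
  have hPm : ∀ s t, s ≤ t → t ≤ 2 * L + 1 → P (a + s * n') ⊆ P (a + t * n') := fun s t h1 h2 =>
    h.monoP (hstep s t h1) (hN' t h2)
  have hQm : ∀ s t, s ≤ t → t ≤ 2 * L + 1 → Q (a + t * n') ⊆ Q (a + s * n') := fun s t h1 h2 =>
    h.monoQ (hstep s t h1) (hN' t h2)
  have hP1 : ∀ s t, s < t → t ≤ L → P' s ⊆ P (a + (2 * t) * n') := fun s t h1 h2 =>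
    (hPQ s (by omega)).2.2.1.trans (hPm _ _ (by omega) (by omega))
  have hQ1 : ∀ s t, s < t → t ≤ L → Q' t ⊆ Q (a + (2 * s + 1) * n') := fun s t h1 h2 =>
    (hPQ t h2).2.2.2.2.1.trans (hQm _ _ (by omega) (by omega))
  refine ⟨fun s hs => (hPQ s hs).1, ?_, ?_, fun s hs => (hPQ s hs).2.2.2.2.2, ?_, ?_, ?_, ?_,
    ?_, ?_⟩
  · intro s hs
    exact (hP1 s (s + 1) (by omega) (by omega)).trans (hPQ (s + 1) (by omega)).2.1
  · intro s hs
    exact (hQ1 s (s + 1) (by omega) (by omega)).trans (hPQ s (by omega)).2.2.2.1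
  · intro P'' Q'' h1 h2 h3 h4 h5
    refine lam_le h1 ?_ ?_ ?_ ?_
    · refine Subset.trans ?_ h2
      have := (hPQ 0 (Nat.zero_le _)).2.1
      simpa using this
    · exact h3.trans (hPQ L le_rfl).2.2.1
    · exact (hPQ L le_rfl).2.2.2.1.trans h4
    · refine h5.trans ?_
      have := (hPQ 0 (Nat.zero_le _)).2.2.2.2.1
      simpa using this
  · intro s hs
    refine subset_inter ?_ ?_
    · refine inter_subset_left.trans (Subset.trans ?_ (hPQ s hs).2.1)
      exact h.monoP (Nat.le_add_right _ _) (hN' _ (by omega))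
    · refine inter_subset_right.trans (Subset.trans ?_ (hPQ s hs).2.2.2.1)
      exact hQm _ _ (by omega) le_rfl
  · intro s t hst ht v hv
    rw [← (hkey (2 * s + 1) (by omega)).2]
    obtain ⟨hv1, hv2⟩ := mem_inter.1 hv
    refine mem_inter.2 ⟨(hPQ s (by omega)).2.2.1 (mem_inter.1 hv1).1, ?_⟩
    have := (hPQ t ht).2.2.2.2.1 (mem_inter.1 hv2).2
    exact hQm (2 * s + 1 + 1) (2 * t) (by omega) (by omega) this
  · intro s hs
    have hlt : a + (2 * s + 1) * n' < N := by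
      have h1 := hN' (2 * s + 2) (by omega)
      have h2 : (2 * s + 1) * n' < (2 * s + 2) * n' := Nat.mul_lt_mul_of_pos_right (by omega) hn'
      omega
    obtain ⟨u, hu1, hu2, hu3⟩ := h.st (a + (2 * s + 1) * n') hlt
    have hle : a + (2 * s + 1) * n' + 1 ≤ a + (2 * (s + 1)) * n' := by
      have h2 : (2 * s + 1) * n' < (2 * s + 2) * n' := Nat.mul_lt_mul_of_pos_right (by omega) hn'
      have h3 : 2 * (s + 1) = 2 * s + 2 := by ring
      rw [h3]
      omega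
    refine ⟨u, ?_, ?_, ?_⟩
    · exact (hPQ (s + 1) (by omega)).2.1 (h.monoP hle (hN' _ (by omega)) hu1)
    · intro hc
      exact hu2 (h.monoQ hle (hN' _ (by omega)) ((hPQ (s + 1) (by omega)).2.2.2.2.1 hc))
    · exact (hPQ s (by omega)).2.2.2.1 hu3
  · refine Subset.trans ?_ (hPQ 0 (Nat.zero_le _)).2.1
    exact h.monoP (Nat.zero_le _) (hN' _ (by omega))
  · refine Subset.trans ?_ (hPQ L le_rfl).2.2.2.1
    exact h.monoQ (hN' _ (by omega)) le_rfl

/- END phb -/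

/- MODULE phc (L) -/
/-- The rails. PROOF. `menger2` in `U = P' L ∩ Q' 0` for the sets `P' 0 ∩ Q' 0` and `P' L ∩ Q' L`. A separation
`(P'', Q'')` of `U` of order `< lm` with `P' 0 ∩ Q' 0 ⊆ P''`, `P' L ∩ Q' L ⊆ Q''` gives by `sandwich` a separation
of `Ω` of the same order between the first and the last one, against `min`. So there are the disjoint
connected sets `R a`, `a ∈ P' 0 ∩ Q' 0`. Each of them meets each `P' s ∩ Q' s`: it has a vertex in
`P' 0 ⊆ P' s` and one in `Q' L ⊆ Q' s` (`Cn.meet`). As there are `lm = |P' s ∩ Q' s|` disjoint ones, each meets it in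
exactly one vertex. -/
theorem Cuts.rails [Fintype V] {G : SimpleGraph V} {Ω : Finset V} {P Q : ℕ → Finset V}
    {N L lm : ℕ} {P' Q' : ℕ → Finset V} {Z : Finset V} (h : Cuts G Ω P Q N L lm P' Q' Z) :
    ∃ R : V → Finset V, (∀ a ∈ P' 0 ∩ Q' 0, a ∈ R a ∧ R a ⊆ P' L ∩ Q' 0 ∧ Cn G (R a) ∧
        ∀ s ≤ L, (R a ∩ (P' s ∩ Q' s)).card = 1) ∧
      ∀ a ∈ P' 0 ∩ Q' 0, ∀ b ∈ P' 0 ∩ Q' 0, a ≠ b → Disjoint (R a) (R b) := by
  have mP0 : ∀ s ≤ L, P' 0 ⊆ P' s := by
    intro s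
    induction s with
    | zero => intro _; exact Finset.Subset.refl _
    | succ s ih =>
      intro hs
      exact (ih (by omega)).trans (h.mP s (by omega))
  have mQ0 : ∀ s ≤ L, Q' s ⊆ Q' 0 := by
    intro s
    induction s with
    | zero => intro _; exact Finset.Subset.refl _
    | succ s ih =>
      intro hs
      exact (h.mQ s (by omega)).trans (ih (by omega))
  have mQL : ∀ d s, s + d = L → Q' L ⊆ Q' s := by
    intro d
    induction d with
    | zero => intro s hs; simp at hs; subst hs; exact Finset.Subset.refl _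
    | succ d ih =>
      intro s hs
      exact (ih (s + 1) (by omega)).trans (h.mQ s (by omega))
  have hA : P' 0 ∩ Q' 0 ⊆ P' L ∩ Q' 0 := by
    intro u hu
    rw [mem_inter] at hu ⊢
    exact ⟨mP0 L le_rfl hu.1, hu.2⟩
  have hB : P' L ∩ Q' L ⊆ P' L ∩ Q' 0 := by
    intro u hu
    rw [mem_inter] at hu ⊢
    exact ⟨hu.1, mQ0 L le_rfl hu.2⟩
  rcases menger2 G (P' L ∩ Q' 0) (P' 0 ∩ Q' 0) (P' L ∩ Q' L) hA hB with
    ⟨T, hT, hdis⟩ | ⟨P2, Q2, hsp, hAP, hBQ, hcard⟩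
  · refine ⟨T, ?_, hdis⟩
    intro a ha
    obtain ⟨h1, h2, h3, -, -⟩ := hT a ha
    refine ⟨h1, h2, h3, ?_⟩
    intro s hs
    have hmeet : ∀ b ∈ P' 0 ∩ Q' 0, 1 ≤ (T b ∩ (P' s ∩ Q' s)).card := by
      intro b hb
      obtain ⟨g1, g2, g3, g4, -⟩ := hT b hb
      have hΩ : ∀ u ∈ T b, u ∈ P' s ∨ u ∈ Q' s := by
        intro u hu
        have h5 : u ∈ P' L := (mem_inter.1 (g2 hu)).1
        have h6 : u ∈ Ω := by
          rw [← (h.sp L le_rfl).1]
          exact mem_union_left _ h5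
        rw [← (h.sp s hs).1] at h6
        exact mem_union.1 h6
      obtain ⟨u, hu, hu1, hu2⟩ := g3.meet (P := P' s) (Q := Q' s) hΩ (by
        intro u hu huQ w hw hwP
        refine (h.sp s hs).2 u ?_ huQ w ?_ hwP
        · rcases hΩ u hu with h' | h'
          · exact h'
          · exact absurd h' huQ
        · rcases hΩ w hw with h' | h'
          · exact absurd h' hwP
          · exact h')
        ⟨b, mem_inter.2 ⟨g1, mP0 s hs (mem_inter.1 hb).1⟩⟩
        (by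
          obtain ⟨w, hw⟩ := g4
          rw [mem_inter, mem_inter] at hw
          exact ⟨w, mem_inter.2 ⟨hw.1, mQL (L - s) s (by omega) hw.2.2⟩⟩)
      exact Finset.card_pos.2 ⟨u, mem_inter.2 ⟨hu, mem_inter.2 ⟨hu1, hu2⟩⟩⟩
    have hsum : ∑ b ∈ P' 0 ∩ Q' 0, (T b ∩ (P' s ∩ Q' s)).card ≤ (P' s ∩ Q' s).card := by
      rw [← Finset.card_biUnion]
      · apply Finset.card_le_card
        intro u hu
        obtain ⟨b, -, hb⟩ := mem_biUnion.1 hu
        exact (mem_inter.1 hb).2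
      · intro b hb c hc hbc
        have := hdis b hb c hc hbc
        exact (this.mono inter_subset_left inter_subset_left)
    have hc1 := h.ord s hs
    have hc2 := h.ord 0 (Nat.zero_le _)
    by_contra hne
    have hlt : ∑ b ∈ P' 0 ∩ Q' 0, 1 < ∑ b ∈ P' 0 ∩ Q' 0, (T b ∩ (P' s ∩ Q' s)).card := by
      refine Finset.sum_lt_sum hmeet ⟨a, ha, ?_⟩
      have := hmeet a ha
      omega
    rw [← Finset.card_eq_sum_ones] at hlt
    omega
  · exfalso
    have hsw := sandwich (h.sp 0 (Nat.zero_le _)) (h.sp L le_rfl) (mP0 L le_rfl) (mQ0 L le_rfl)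
      hsp hAP hBQ
    have hP2 : P2 ⊆ P' L ∩ Q' 0 := by
      rw [← hsp.1]; exact subset_union_left
    have hQ2 : Q2 ⊆ P' L ∩ Q' 0 := by
      rw [← hsp.1]; exact subset_union_right
    have := h.min _ _ hsw.1 subset_union_right
      (union_subset (hP2.trans inter_subset_left) (mP0 L le_rfl)) subset_union_right
      (union_subset (hQ2.trans inter_subset_right) (mQ0 L le_rfl))
    rw [hsw.2] at this
    have h0 := h.ord 0 (Nat.zero_le _)
    omega

/- END phc -/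

/- MODULE phd (L) -/
private theorem phd_monoP {G : SimpleGraph V} {Ω : Finset V} {P Q : ℕ → Finset V}
    {N L lm : ℕ} {P' Q' : ℕ → Finset V} {Z : Finset V} (h : Cuts G Ω P Q N L lm P' Q' Z) :
    ∀ t, t ≤ L → ∀ s ≤ t, P' s ⊆ P' t := by
  intro t
  induction t with
  | zero => intro _ s hs; rw [Nat.le_zero.1 hs]
  | succ t ih =>
    intro ht s hs
    rcases Nat.lt_or_ge s (t + 1) with h' | h'
    · exact (ih (by omega) s (by omega)).trans (h.mP t (by omega))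
    · rw [le_antisymm hs h']

private theorem phd_monoQ {G : SimpleGraph V} {Ω : Finset V} {P Q : ℕ → Finset V}
    {N L lm : ℕ} {P' Q' : ℕ → Finset V} {Z : Finset V} (h : Cuts G Ω P Q N L lm P' Q' Z) :
    ∀ t, t ≤ L → ∀ s ≤ t, Q' t ⊆ Q' s := by
  intro t
  induction t with
  | zero => intro _ s hs; rw [Nat.le_zero.1 hs]
  | succ t ih =>
    intro ht s hs
    rcases Nat.lt_or_ge s (t + 1) with h' | h'
    · exact (h.mQ t (by omega)).trans (ih (by omega) s (by omega))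
    · rw [le_antisymm hs h']

/-- membership of `Ω` -/
private theorem phd_om {G : SimpleGraph V} {Ω A B : Finset V} (h : Sp G Ω A B) {u : V}
    (hu : u ∈ Ω) : u ∈ A ∨ u ∈ B := by
  rw [← h.1] at hu
  exact mem_union.1 hu

/-- The strip. PROOF. `Cuts.rails`; `J = (P' 0 ∩ Q' 0) \ Z`. The rail `R z` of `z ∈ Z` meets each cut in `z`, so
the rails `R a`, `a ∈ J`, avoid `Z` and meet `C s = (P' s ∩ Q' s) \ Z` in one vertex. `|C s| = lm - |Z| = |J| ≥ 1`.
`cd`: `zi`. `cl`, `cr`: `P' s ⊆ P' (s + 1)`, `Q' (s + 1) ⊆ Q' s`. `ov`: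
`P' (s + 1) ∩ Q' (s + 1)`. `far`: a common vertex of `M i` and `M j`, `i + 2 ≤ j`, is in `P' (i + 1)` and in
`Q' j ⊆ Q' (i + 1)`, in `P' (i + 1) ⊆ P' j` and `Q' j`, so it is in the cuts number `i + 1 < j`, hence in `Z`. `nb`,
`nc`: a vertex `u` of `M i` that is not in `C 0`, `C L` is outside `P 0` (else it would be in `P' 0 ∩ Q' 0`:
`u ∈ Q' i ⊆ Q' 0`, so in `C 0`) and outside `Q N`, so its neighbours are in `Ω` by `hcl`. If
`u ∉ Q' (i + 1)` then they are in `P' (i + 1)`; if `u ∉ P' i` then they are in `Q' i`. For `u ∈ C (i + 1)`,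
`i + 1 < L`: `u ∉ Q' (i + 2)` and `u ∉ P' i` (disjoint cuts), so the neighbours are in `P' (i + 2) ∩ Q' i`, and each
vertex of this set outside `Z` is in `M i` or `M (i + 1)`. `rc`: `Cn.restrict` twice (`R a ∩ P' (s + 1)`, then
`∩ Q' s`), and `R a ∩ M s = R a ∩ P' (s + 1) ∩ Q' s` as `R a` avoids `Z`. -/
theorem Cuts.strip [Fintype V] {G : SimpleGraph V} {Ω : Finset V} {P Q : ℕ → Finset V}
    {N L lm : ℕ} {P' Q' : ℕ → Finset V} {Z : Finset V} (h : Cuts G Ω P Q N L lm P' Q' Z)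
    (hL : 1 ≤ L)
    (hcl : ∀ u ∈ Ω, u ∉ P 0 → u ∉ Q N → ∀ w, G.Adj u w → w ∈ Ω) (hZ : Z.card < lm) :
    ∃ J R, Strip G L (fun s => (P' (s + 1) ∩ Q' s) \ Z) (fun s => (P' s ∩ Q' s) \ Z) Z J R ∧
      J.card + Z.card = lm := by
  classical
  have hP := phd_monoP h
  have hQ := phd_monoQ h
  obtain ⟨R, hR, hRd⟩ := h.rails
  have hZ0 := h.zs 0 (Nat.zero_le _)
  have hcard0 : ((P' 0 ∩ Q' 0) \ Z).card + Z.card = lm := by
    rw [card_sdiff_add_card_eq_card hZ0]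
    exact h.ord 0 (Nat.zero_le _)
  have hOm : ∀ s ≤ L, P' s ⊆ Ω ∧ Q' s ⊆ Ω := by
    intro s hs
    rw [← (h.sp s hs).1]
    exact ⟨subset_union_left, subset_union_right⟩
  -- closedness for vertices inside
  have hcl' : ∀ s < L, ∀ u, u ∈ P' (s + 1) → u ∈ Q' s → (u ∉ P' 0) → (u ∉ Q' L) →
      ∀ w, G.Adj u w → w ∈ Ω := by
    intro s hs u hu1 hu2 h0 hL' w hw
    exact hcl u ((hOm (s + 1) (by omega)).1 hu1) (fun hc => h0 (h.p0 hc)) (fun hc => hL' (h.qN hc)) w hw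
  -- neighbours
  have hnP : ∀ s ≤ L, ∀ u w, u ∈ Ω → w ∈ Ω → u ∉ Q' s → G.Adj u w → w ∈ P' s := by
    intro s hs u w hu hw huQ huw
    rcases phd_om (h.sp s hs) hu with hu' | hu'
    · rcases phd_om (h.sp s hs) hw with hw' | hw'
      · exact hw'
      · by_contra hwP
        exact (h.sp s hs).2 u hu' huQ w hw' hwP huw
    · exact absurd hu' huQ
  have hnQ : ∀ s ≤ L, ∀ u w, u ∈ Ω → w ∈ Ω → u ∉ P' s → G.Adj u w → w ∈ Q' s := by
    intro s hs u w hu hw huP huw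
    rcases phd_om (h.sp s hs) hu with hu' | hu'
    · exact absurd hu' huP
    · rcases phd_om (h.sp s hs) hw with hw' | hw'
      · by_contra hwQ
        exact (h.sp s hs).2 w hw' hwQ u hu' huP huw.symm
      · exact hw'
  -- rails of J avoid Z
  have hRZ : ∀ a ∈ (P' 0 ∩ Q' 0) \ Z, Disjoint (R a) Z := by
    intro a ha
    obtain ⟨ha1, ha2⟩ := mem_sdiff.1 ha
    rw [disjoint_left]
    intro z hz hzZ
    have hz0 := hZ0 hzZ
    have hne : a ≠ z := by rintro rfl; exact ha2 hzZ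
    exact disjoint_left.1 (hRd a ha1 z hz0 hne) hz (hR z hz0).1
  have hRs : ∀ a ∈ (P' 0 ∩ Q' 0) \ Z, ∀ s, R a ∩ ((P' s ∩ Q' s) \ Z) = R a ∩ (P' s ∩ Q' s) := by
    intro a ha s
    ext u
    simp only [mem_inter, mem_sdiff]
    constructor
    · rintro ⟨h1, h2, _⟩; exact ⟨h1, h2⟩
    · rintro ⟨h1, h2⟩; exact ⟨h1, h2, disjoint_left.1 (hRZ a ha) h1⟩
  refine ⟨(P' 0 ∩ Q' 0) \ Z, R, ?_, hcard0⟩
  constructor
  · -- ne
    rw [← card_pos]
    omega
  · -- cl
    intro s hs u hu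
    simp only [mem_sdiff, mem_inter] at hu ⊢
    exact ⟨⟨h.mP s hs hu.1.1, hu.1.2⟩, hu.2⟩
  · -- cr
    intro s hs u hu
    simp only [mem_sdiff, mem_inter] at hu ⊢
    exact ⟨⟨hu.1.1, h.mQ s hs hu.1.2⟩, hu.2⟩
  · -- cd
    intro s hs
    rw [disjoint_left]
    intro u hu hu'
    simp only [mem_sdiff] at hu hu'
    exact hu.2 (h.zi s (s + 1) (by omega) (by omega) (mem_inter.2 ⟨hu.1, hu'.1⟩))
  · -- ov
    intro s hs u hu
    simp only [mem_sdiff, mem_inter] at hu ⊢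
    exact ⟨⟨hu.1.1.1, hu.2.1.2⟩, hu.1.2⟩
  · -- far
    intro i j hij hj
    rw [disjoint_left]
    intro u hu hu'
    simp only [mem_sdiff, mem_inter] at hu hu'
    refine hu.2 (h.zi (i + 1) j (by omega) (by omega) ?_)
    simp only [mem_inter]
    exact ⟨⟨hu.1.1, hQ j (by omega) (i + 1) (by omega) hu'.1.2⟩,
      ⟨hP j (by omega) (i + 1) (by omega) hu.1.1, hu'.1.2⟩⟩
  · -- zd
    intro s _
    rw [disjoint_left]
    intro u hu hu'
    exact (mem_sdiff.1 hu').2 hu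
  · -- nb
    intro i hi u hu h0 h1 w hw
    simp only [mem_sdiff, mem_inter, not_and, not_not] at hu h0 h1
    have huP : u ∉ P' i := fun hc => hu.2 (h0 ⟨hc, hu.1.2⟩)
    have huQ : u ∉ Q' (i + 1) := fun hc => hu.2 (h1 ⟨hu.1.1, hc⟩)
    have huΩ : u ∈ Ω := (hOm (i + 1) (by omega)).1 hu.1.1
    have hwΩ : w ∈ Ω := hcl' i hi u hu.1.1 hu.1.2 (fun hc => huP (hP i (by omega) 0 (by omega) hc))
      (fun hc => huQ (hQ L le_rfl (i + 1) (by omega) hc)) w hw
    by_cases hwZ : w ∈ Z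
    · exact Or.inr hwZ
    · left
      simp only [mem_sdiff, mem_inter]
      exact ⟨⟨hnP (i + 1) (by omega) u w huΩ hwΩ huQ hw, hnQ i (by omega) u w huΩ hwΩ huP hw⟩, hwZ⟩
  · -- nc
    intro i hi u hu w hw
    simp only [mem_sdiff, mem_inter] at hu
    have huP : u ∉ P' i := by
      intro hc
      exact hu.2 (h.zi i (i + 1) (by omega) (by omega) (by
        simp only [mem_inter]
        exact ⟨⟨hc, h.mQ i (by omega) hu.1.2⟩, hu.1⟩))
    have huQ : u ∉ Q' (i + 2) := by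
      intro hc
      exact hu.2 (h.zi (i + 1) (i + 2) (by omega) (by omega) (by
        simp only [mem_inter]
        exact ⟨hu.1, ⟨h.mP (i + 1) (by omega) hu.1.1, hc⟩⟩))
    have huΩ : u ∈ Ω := (hOm (i + 1) (by omega)).1 hu.1.1
    have hwΩ : w ∈ Ω := hcl' i (by omega) u hu.1.1 (h.mQ i (by omega) hu.1.2)
      (fun hc => huP (hP i (by omega) 0 (by omega) hc))
      (fun hc => huQ (hQ L le_rfl (i + 2) (by omega) hc)) w hw
    have hwP := hnP (i + 2) (by omega) u w huΩ hwΩ huQ hw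
    have hwQ := hnQ i (by omega) u w huΩ hwΩ huP hw
    by_cases hwZ : w ∈ Z
    · exact Or.inr (Or.inr hwZ)
    · by_cases hw1 : w ∈ P' (i + 1)
      · left
        simp only [mem_sdiff, mem_inter]
        exact ⟨⟨hw1, hwQ⟩, hwZ⟩
      · right; left
        have hw2 : w ∈ Q' (i + 1) := (phd_om (h.sp (i + 1) (by omega)) hwΩ).resolve_left hw1
        simp only [mem_sdiff, mem_inter]
        exact ⟨⟨hwP, hw2⟩, hwZ⟩
  · -- rd
    intro a ha b hb hab
    exact hRd a (mem_sdiff.1 ha).1 b (mem_sdiff.1 hb).1 hab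
  · -- rc
    intro a ha s hs
    have ha' := (mem_sdiff.1 ha).1
    obtain ⟨_, hRsub, hRc, hR1⟩ := hR a ha'
    have hRΩ : R a ⊆ Ω := hRsub.trans (inter_subset_left.trans (hOm L le_rfl).1)
    obtain ⟨y, hy⟩ := card_eq_one.1 (hR1 (s + 1) (by omega))
    obtain ⟨x, hx⟩ := card_eq_one.1 (hR1 s (by omega))
    have hy' : y ∈ R a ∩ (P' (s + 1) ∩ Q' (s + 1)) := by rw [hy]; exact mem_singleton_self _
    have hx' : x ∈ R a ∩ (P' s ∩ Q' s) := by rw [hx]; exact mem_singleton_self _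
    simp only [mem_inter] at hx' hy'
    have c1 : Cn G (R a ∩ P' (s + 1)) := by
      refine hRc.restrict (Q := Q' (s + 1)) (fun u hu => phd_om (h.sp (s + 1) (by omega)) (hRΩ hu))
        ?_ hy'.1 hy'.2.1 hy'.2.2 ?_
      · intro u hu huQ w hw hwP huw
        exact hwP (hnP (s + 1) (by omega) u w (hRΩ hu) (hRΩ hw) huQ huw)
      · intro u hu huP huQ
        have : u ∈ R a ∩ (P' (s + 1) ∩ Q' (s + 1)) := by
          simp only [mem_inter]; exact ⟨hu, huP, huQ⟩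
        rw [hy] at this
        exact mem_singleton.1 this
    have c2 : Cn G (R a ∩ P' (s + 1) ∩ Q' s) := by
      refine c1.restrict (Q := P' s) ?_ ?_ (y := x) ?_ hx'.2.2 hx'.2.1 ?_
      · intro u hu
        exact (phd_om (h.sp s (by omega)) (hRΩ (mem_inter.1 hu).1)).symm
      · intro u hu huP w hw hwQ huw
        exact hwQ (hnQ s (by omega) u w (hRΩ (mem_inter.1 hu).1) (hRΩ (mem_inter.1 hw).1) huP huw)
      · exact mem_inter.2 ⟨hx'.1, h.mP s hs hx'.2.1⟩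
      · intro u hu huQ huP
        have : u ∈ R a ∩ (P' s ∩ Q' s) := by
          simp only [mem_inter]; exact ⟨(mem_inter.1 hu).1, huP, huQ⟩
        rw [hx] at this
        exact mem_singleton.1 this
    have e : R a ∩ ((P' (s + 1) ∩ Q' s) \ Z) = R a ∩ P' (s + 1) ∩ Q' s := by
      ext u
      simp only [mem_inter, mem_sdiff]
      constructor
      · rintro ⟨h1, ⟨h2, h3⟩, _⟩; exact ⟨⟨h1, h2⟩, h3⟩
      · rintro ⟨⟨h1, h2⟩, h3⟩; exact ⟨h1, ⟨h2, h3⟩, disjoint_left.1 (hRZ a ha) h1⟩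
    simp only [e]
    exact c2
  · -- r1
    intro a ha s hs
    simp only [hRs a ha s]
    exact (hR a (mem_sdiff.1 ha).1).2.2.2 s hs
  · -- cc
    intro s hs
    have h1 : ((P' s ∩ Q' s) \ Z).card + Z.card = lm := by
      rw [card_sdiff_add_card_eq_card (h.zs s hs)]
      exact h.ord s hs
    omega

/- END phd -/

/- MODULE phe (M) -/
private theorem phe_monoP {G : SimpleGraph V} {Ω : Finset V} {P Q : ℕ → Finset V}
    {N L lm : ℕ} {P' Q' : ℕ → Finset V} {Z : Finset V} (h : Cuts G Ω P Q N L lm P' Q' Z)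
    {s t : ℕ} (hst : s ≤ t) (ht : t ≤ L) : P' s ⊆ P' t := by
  induction t, hst using Nat.le_induction with
  | base => exact Finset.Subset.refl _
  | succ t hst ih => exact (ih (by omega)).trans (h.mP t (by omega))

private theorem phe_monoQ {G : SimpleGraph V} {Ω : Finset V} {P Q : ℕ → Finset V}
    {N L lm : ℕ} {P' Q' : ℕ → Finset V} {Z : Finset V} (h : Cuts G Ω P Q N L lm P' Q' Z)
    {s t : ℕ} (hst : s ≤ t) (ht : t ≤ L) : Q' t ⊆ Q' s := by
  induction t, hst using Nat.le_induction with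
  | base => exact Finset.Subset.refl _
  | succ t hst ih => exact (h.mQ t (by omega)).trans (ih (by omega))

/-- The inner vertices of the strip. PROOF. `u ∈ P' (s + 1) ∩ Q' s ⊆ P' L ∩ Q' 0`; if `u ∈ P 0 ⊆ P' 0` then `u` is
in the cut number 0; if `u ∈ Q N ⊆ Q' L` then in the cut number `L`. -/
theorem Cuts.inner {G : SimpleGraph V} {Ω : Finset V} {P Q : ℕ → Finset V}
    {N L lm : ℕ} {P' Q' : ℕ → Finset V} {Z : Finset V} (h : Cuts G Ω P Q N L lm P' Q' Z)
    {s : ℕ} (hs : s < L) {u : V} (hu : u ∈ (P' (s + 1) ∩ Q' s) \ Z)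
    (h0 : u ∉ (P' 0 ∩ Q' 0) \ Z) (hL : u ∉ (P' L ∩ Q' L) \ Z) :
    u ∈ Ω ∧ u ∉ P 0 ∧ u ∉ Q N := by
  obtain ⟨hu1, huZ⟩ := Finset.mem_sdiff.mp hu
  obtain ⟨huP, huQ⟩ := Finset.mem_inter.mp hu1
  refine ⟨?_, fun hP0 => h0 ?_, fun hQN => hL ?_⟩
  · rw [← (h.sp (s + 1) (by omega)).1]
    exact Finset.mem_union_left _ huP
  · exact Finset.mem_sdiff.mpr ⟨Finset.mem_inter.mpr
      ⟨h.p0 hP0, phe_monoQ h (Nat.zero_le s) (by omega) huQ⟩, huZ⟩
  · exact Finset.mem_sdiff.mpr ⟨Finset.mem_inter.mpr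
      ⟨phe_monoP h (show s + 1 ≤ L by omega) (le_refl L) huP, h.qN hQN⟩, huZ⟩

/-- The family of pieces (all cuts are equal to `Z`). PROOF. `P' s ∩ Q' s = Z` for all `s` (`zs`, `ord`).
Nonempty: `st`. Let `u ∈ F s`. Then `u ∉ Z`, so `u ∈ Q' s \ P' s`; if `u ∈ P 0 ⊆ P' 0 ⊆ P' s`, contradiction; if
`u ∈ Q N ⊆ Q' (s + 1)`, contradiction. A neighbour `w` is in `Ω` (`hcl`), not in `Q' (s + 1) \ P' (s + 1)` and
not in `P' s \ Q' s`, so `w ∈ P' (s + 1) ∩ Q' s`: it is in `F s` or in a cut. Disjoint: `F s ⊆ P' (s + 1) \ Q' (s + 1)`,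
and `F t` for `t > s` avoids `P' t \ Q' t ⊇ P' (s + 1) \ Q' (s + 1)`. -/
theorem Cuts.fam {G : SimpleGraph V} {Ω : Finset V} {P Q : ℕ → Finset V}
    {N L lm : ℕ} {P' Q' : ℕ → Finset V} {Z : Finset V} (h : Cuts G Ω P Q N L lm P' Q' Z)
    (hcl : ∀ u ∈ Ω, u ∉ P 0 → u ∉ Q N → ∀ w, G.Adj u w → w ∈ Ω) (hZ : lm ≤ Z.card) :
    ∃ F : ℕ → Finset V, (∀ s < L, (F s).Nonempty ∧ F s ⊆ Ω ∧
        ∀ u ∈ F s, u ∉ P 0 ∧ u ∉ Q N ∧ ∀ w, G.Adj u w → w ∈ F s ∨ w ∈ Z) ∧
      ∀ s < L, ∀ t < L, s ≠ t → Disjoint (F s) (F t) := by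
  have hcut : ∀ s ≤ L, P' s ∩ Q' s = Z := fun s hs =>
    (Finset.eq_of_subset_of_card_le (h.zs s hs) (by rw [h.ord s hs]; exact hZ)).symm
  have hcut' : ∀ s ≤ L, ∀ u, u ∈ P' s → u ∈ Q' s → u ∈ Z := fun s hs u h1 h2 => by
    rw [← hcut s hs]
    exact Finset.mem_inter.mpr ⟨h1, h2⟩
  have hdis : ∀ s < L, ∀ t < L, s < t →
      Disjoint ((P' (s + 1) ∩ Q' s) \ Z) ((P' (t + 1) ∩ Q' t) \ Z) := by
    intro s hs t ht hst
    rw [Finset.disjoint_left]
    intro x hx hy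
    obtain ⟨hx1, hxZ⟩ := Finset.mem_sdiff.mp hx
    obtain ⟨hy1, -⟩ := Finset.mem_sdiff.mp hy
    exact hxZ (hcut' t ht.le x
      (phe_monoP h (show s + 1 ≤ t by omega) ht.le (Finset.mem_inter.mp hx1).1)
      (Finset.mem_inter.mp hy1).2)
  refine ⟨fun s => (P' (s + 1) ∩ Q' s) \ Z, ?_, ?_⟩
  · intro s hs
    refine ⟨?_, ?_, ?_⟩
    · obtain ⟨u, hu1, hu2, hu3⟩ := h.st s hs
      refine ⟨u, Finset.mem_sdiff.mpr ⟨Finset.mem_inter.mpr ⟨hu1, hu3⟩, fun huZ => hu2 ?_⟩⟩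
      rw [← hcut (s + 1) (by omega)] at huZ
      exact (Finset.mem_inter.mp huZ).2
    · intro u hu
      rw [← (h.sp s hs.le).1]
      exact Finset.mem_union_right _ (Finset.mem_inter.mp (Finset.mem_sdiff.mp hu).1).2
    · intro u hu
      obtain ⟨hu1, huZ⟩ := Finset.mem_sdiff.mp hu
      obtain ⟨huP, huQ⟩ := Finset.mem_inter.mp hu1
      have huΩ : u ∈ Ω := by
        rw [← (h.sp s hs.le).1]
        exact Finset.mem_union_right _ huQ
      have huP' : u ∉ P' s := fun hp => huZ (hcut' s hs.le u hp huQ)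
      have huQ' : u ∉ Q' (s + 1) := fun hq => huZ (hcut' (s + 1) (by omega) u huP hq)
      have hP0 : u ∉ P 0 := fun hp => huP' (phe_monoP h (Nat.zero_le s) hs.le (h.p0 hp))
      have hQN : u ∉ Q N := fun hq =>
        huQ' (phe_monoQ h (show s + 1 ≤ L by omega) (le_refl L) (h.qN hq))
      refine ⟨hP0, hQN, fun w hw => ?_⟩
      have hwΩ : w ∈ Ω := hcl u huΩ hP0 hQN w hw
      have hwQ : w ∈ Q' s := by
        by_contra hwQ
        have hwP : w ∈ P' s := by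
          rw [← (h.sp s hs.le).1] at hwΩ
          rcases Finset.mem_union.mp hwΩ with h' | h'
          · exact h'
          · exact absurd h' hwQ
        exact (h.sp s hs.le).2 w hwP hwQ u huQ huP' hw.symm
      have hwP : w ∈ P' (s + 1) := by
        by_contra hwP
        have hwQ1 : w ∈ Q' (s + 1) := by
          rw [← (h.sp (s + 1) (by omega)).1] at hwΩ
          rcases Finset.mem_union.mp hwΩ with h' | h'
          · exact absurd h' hwP
          · exact h'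
        exact (h.sp (s + 1) (by omega)).2 u huP huQ' w hwQ1 hwP hw
      by_cases hwZ : w ∈ Z
      · exact Or.inr hwZ
      · exact Or.inl (Finset.mem_sdiff.mpr ⟨Finset.mem_inter.mpr ⟨hwP, hwQ⟩, hwZ⟩)
  · intro s hs t ht hne
    rcases lt_or_gt_of_ne hne with hst | hst
    · exact hdis s hs t ht hst
    · exact (hdis t ht s hs hst).symm

/- END phe -/

end Pool.Agent.TWB
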