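import Pool.Agent.TWB.Strip
import Pool.Agent.TWB.PhA

/-!
# Connected blocks (text, section 7)
-/

namespace Pool.Agent.TWB

open Finset

variable {V : Type*} [DecidableEq V]

/- MODULE pha2 (M) -/
/-- The component of the rail `R a1` in the blocks `[a, c)`, the rails in it and its neighbours in `Z`.
PROOF. `exists_comp` in `U = MM M a c` for a vertex of the (nonempty, connected) set `R a1 ∩ MM M a c`;
`Cn.sub_of_closed`. -/
theorem Strip.exists_K {G : SimpleGraph V} {m : ℕ} {M C : ℕ → Finset V} {Z J : Finset V}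
    {R : V → Finset V} (h : Strip G m M C Z J R) {a1 : V} (ha1 : a1 ∈ J) {a c : ℕ}
    (hac : a < c) (hc : c ≤ m) :
    ∃ K, K ⊆ MM M a c ∧ R a1 ∩ MM M a c ⊆ K ∧ Cn G K ∧
      ∀ u ∈ K, ∀ w ∈ MM M a c, G.Adj u w → w ∈ K := by
  have hr : Cn G (R a1 ∩ MM M a c) := h.rail_MM ha1 hac hc
  obtain ⟨v, hv⟩ := hr.1
  obtain ⟨K, hKU, hvK, hKc, hKcl⟩ := exists_comp G (U := MM M a c) (v := v) (mem_inter.1 hv).2
  exact ⟨K, hKU,
    hr.sub_of_closed (fun u _ huK w hw hadj => hKcl u huK w (mem_inter.1 hw).2 hadj)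
      ⟨v, mem_inter.2 ⟨hv, hvK⟩⟩, hKc, hKcl⟩

/-- A set `K` as in `exists_K` for `[a, c)` contains every such set for a smaller interval. PROOF. The set
`K'` is connected, lies in `MM M a c`, and shares the rail `R a1` with `K`: `Cn.sub_of_closed`. -/
theorem Strip.K_mono {G : SimpleGraph V} {m : ℕ} {M C : ℕ → Finset V} {Z J : Finset V}
    {R : V → Finset V} (h : Strip G m M C Z J R) {a1 : V} (ha1 : a1 ∈ J) {a c a' c' : ℕ}
    (h1 : a ≤ a') (h2 : a' < c') (h3 : c' ≤ c) (hc : c ≤ m) {K K' : Finset V}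
    (hK1 : R a1 ∩ MM M a c ⊆ K) (hK2 : ∀ u ∈ K, ∀ w ∈ MM M a c, G.Adj u w → w ∈ K)
    (hK' : K' ⊆ MM M a' c') (hK'1 : R a1 ∩ MM M a' c' ⊆ K') (hK'2 : Cn G K') : K' ⊆ K := by
  have hsub : MM M a' c' ⊆ MM M a c := by
    intro u hu
    rw [mem_MM] at hu ⊢
    obtain ⟨i, hi1, hi2, hi3⟩ := hu
    exact ⟨i, h1.trans hi1, lt_of_lt_of_le hi2 h3, hi3⟩
  obtain ⟨v, hv⟩ := (h.rail_MM ha1 h2 (h3.trans hc)).1
  have hv' := mem_inter.1 hv
  refine hK'2.sub_of_closed (fun u _ huK w hw hadj => hK2 u huK w (hsub (hK' hw)) hadj)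
    ⟨v, mem_inter.2 ⟨hK'1 hv, hK1 (mem_inter.2 ⟨hv'.1, hsub hv'.2⟩)⟩⟩

/- END pha2 -/

/- MODULE phb2 (L) -/
omit [DecidableEq V] in
private theorem phb2_MM [DecidableEq V] {M : ℕ → Finset V} {a c a' c' : ℕ} (h1 : a ≤ a') (h2 : c' ≤ c) :
    MM M a' c' ⊆ MM M a c := by
  intro u hu
  rw [mem_MM] at hu ⊢
  obtain ⟨i, hi1, hi2, hi3⟩ := hu
  exact ⟨i, h1.trans hi1, lt_of_lt_of_le hi2 h2, hi3⟩

/-- Phase 2. PROOF. Fix `a1 ∈ J` and choose for `a < c ≤ m` the set `K a c` of `exists_K`; put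
`J' a c = {b ∈ J | R b ∩ MM M a c ⊆ K a c}` and `Z' a c = {z ∈ Z | ∃ u ∈ K a c, G.Adj z u}`. If
`[a', c') ⊆ [a, c)` then `K a' c' ⊆ K a c` (`K_mono`), `J' a' c' ⊆ J' a c` (the rail piece in the larger interval is
connected (`rail_MM`), contains the smaller one and so meets `K a c`; `Cn.sub_of_closed`), `Z' a' c' ⊆ Z' a c`.
`Φ a c := K0 - (|J' a c| + |Z' a c|)`, where `|J'| + |Z'| ≥ 1` (`a1 ∈ J'`), so `Φ ≤ K0 - 1`. `level` with `b = r`,
`B = K0 - 1`, `N = m`: there are `r` consecutive intervals `I s = [a + s n', a + (s + 1) n')` with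
`J' (I s) = J'` and `Z' (I s) = Z'`, those of the union. New strip: blocks `K (I s)`, cuts
`C (a + s n') ∩ ⋃ (b ∈ J'), R b`, `Z'`, `J'`, `R`. Remark (*): a vertex `u ∈ K (I s)` in a cut `C (a + s n')` or
`C (a + (s + 1) n')` lies on some rail `b` (`cover`), whose piece in `I s` is connected and meets `K (I s)`, so
`b ∈ J'` and `u` is in the new cut. `cl`, `cr`: a vertex of a new cut is on a rail of `J'`, whose piece is in
`K (I s)`. `cd`, `far`, `zd`: `cuts_disj`, `MM_disj`, `Z_MM`. `ov`: `MM_inter` and (*). `nb`: by (*) `u` is not in an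
end cut of `I s`, so by `MM_nb` `w ∈ MM ∪ Z`; in the first case `w ∈ K (I s)`, in the second `w ∈ Z'`. `nc`: the
same with `MM_nb` for the union of two consecutive intervals. `rc`: `R b ∩ K (I s) = R b ∩ MM (I s)`. `bc`:
`K` is connected. `zb`: definition of `Z'`. Last statement: `u ∈ C 0 ⊆ M 0` and `u ∈ K (I s) ⊆ MM (I s)` imply
`a + s n' = 0` (`cut_block`), so `s = 0`, `a = 0`, and `u` is in the new cut number 0 by (*). -/
theorem exists_gstrip {G : SimpleGraph V} {m r K0 : ℕ} {M C : ℕ → Finset V} {Z J : Finset V}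
    {R : V → Finset V} (h : Strip G m M C Z J R) (hK : J.card + Z.card ≤ K0) (hr : 1 ≤ r)
    (hm : r ^ K0 ≤ m) :
    ∃ M' C' Z' J', GStrip G r M' C' Z' J' R ∧ Z' ⊆ Z ∧ (∀ i < r, M' i ⊆ MM M 0 m) ∧
      ∀ i < r, ∀ u ∈ M' i, u ∉ C' 0 → u ∉ C' r → u ∉ C 0 ∧ u ∉ C m := by
  classical
  obtain ⟨a1, ha1⟩ := h.ne
  have hex : ∀ a c : ℕ, ∃ K : Finset V, a < c → c ≤ m → (K ⊆ MM M a c ∧ R a1 ∩ MM M a c ⊆ K ∧
      Cn G K ∧ ∀ u ∈ K, ∀ w ∈ MM M a c, G.Adj u w → w ∈ K) := by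
    intro a c
    by_cases hac : a < c ∧ c ≤ m
    · obtain ⟨K, hK'⟩ := h.exists_K ha1 hac.1 hac.2
      exact ⟨K, fun _ _ => hK'⟩
    · exact ⟨∅, fun h1 h2 => absurd ⟨h1, h2⟩ hac⟩
  choose K hKK using hex
  set J' : ℕ → ℕ → Finset V := fun a c => J.filter fun b => R b ∩ MM M a c ⊆ K a c with hJ'
  set Z' : ℕ → ℕ → Finset V := fun a c => Z.filter fun z => ∃ u ∈ K a c, G.Adj z u with hZ'
  -- a rail that meets `K a c` lies in it
  have hrail : ∀ a c b, a < c → c ≤ m → b ∈ J → (R b ∩ MM M a c ∩ K a c).Nonempty →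
      b ∈ J' a c := by
    intro a c b hac hc hb hne
    rw [hJ', mem_filter]
    refine ⟨hb, ?_⟩
    refine (h.rail_MM hb hac hc).sub_of_closed ?_ hne
    intro u _ huK w hw huw
    exact (hKK a c hac hc).2.2.2 u huK w (mem_inter.1 hw).2 huw
  have hKm : ∀ a c a' c', a ≤ a' → a' < c' → c' ≤ c → c ≤ m → K a' c' ⊆ K a c := by
    intro a c a' c' h1 h2 h3 h4
    have g1 := hKK a c (by omega) h4
    have g2 := hKK a' c' h2 (by omega)
    exact h.K_mono ha1 h1 h2 h3 h4 g1.2.1 g1.2.2.2 g2.1 g2.2.1 g2.2.2.1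
  have hJm : ∀ a c a' c', a ≤ a' → a' < c' → c' ≤ c → c ≤ m → J' a' c' ⊆ J' a c := by
    intro a c a' c' h1 h2 h3 h4 b hb
    have hb' := hb
    rw [hJ', mem_filter] at hb'
    refine hrail a c b (by omega) h4 hb'.1 ?_
    obtain ⟨u, hu⟩ := (h.rail_MM hb'.1 h2 (by omega)).1
    refine ⟨u, mem_inter.2 ⟨mem_inter.2 ⟨(mem_inter.1 hu).1, ?_⟩, ?_⟩⟩
    · exact phb2_MM h1 h3 (mem_inter.1 hu).2
    · exact hKm a c a' c' h1 h2 h3 h4 (hb'.2 hu)
  have hZm : ∀ a c a' c', a ≤ a' → a' < c' → c' ≤ c → c ≤ m → Z' a' c' ⊆ Z' a c := by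
    intro a c a' c' h1 h2 h3 h4 z hz
    rw [hZ', mem_filter] at hz ⊢
    obtain ⟨hz1, u, hu, hzu⟩ := hz
    exact ⟨hz1, u, hKm a c a' c' h1 h2 h3 h4 hu, hzu⟩
  have hle : ∀ a c, (J' a c).card + (Z' a c).card ≤ K0 := by
    intro a c
    exact (Nat.add_le_add (card_filter_le _ _) (card_filter_le _ _)).trans hK
  have hpos : ∀ a c, a < c → c ≤ m → 1 ≤ (J' a c).card := by
    intro a c h1 h2
    rw [Nat.succ_le_iff, card_pos]
    refine ⟨a1, ?_⟩
    rw [hJ', mem_filter]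
    exact ⟨ha1, (hKK a c h1 h2).2.1⟩
  have hK0 : 1 ≤ K0 := by
    have : 1 ≤ J.card := card_pos.2 h.ne
    omega
  obtain ⟨a, n', hn', hanm, heq⟩ := level
    (fun a c => K0 - ((J' a c).card + (Z' a c).card)) r (K0 - 1) m hr
    (by rw [Nat.sub_add_cancel hK0]; exact hm)
    (by
      intro a c a' c' h1 h2 h3 h4
      have g1 := card_le_card (hJm a c a' c' h1 h2 h3 h4)
      have g2 := card_le_card (hZm a c a' c' h1 h2 h3 h4)
      have g3 := hle a c
      show K0 - _ ≤ K0 - _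
      omega)
    (by
      intro a c h1 h2
      have g1 := hpos a c h1 h2
      show K0 - _ ≤ K0 - 1
      omega)
  have hA : ∀ s, s < r → a + s * n' < a + (s + 1) * n' := by
    intro s _
    have : (s + 1) * n' = s * n' + n' := by ring
    omega
  have hAr : ∀ s t, s ≤ t → a + s * n' ≤ a + t * n' := by
    intro s t hst
    have := Nat.mul_le_mul_right n' hst
    omega
  have hAm : ∀ s, s ≤ r → a + s * n' ≤ m := fun s hs => (hAr s r hs).trans hanm
  have hAa : ∀ s, a ≤ a + s * n' := fun s => Nat.le_add_right _ _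
  have hJe : ∀ s < r, J' (a + s * n') (a + (s + 1) * n') = J' a (a + r * n') ∧
      Z' (a + s * n') (a + (s + 1) * n') = Z' a (a + r * n') := by
    intro s hs
    have g := heq s hs
    have g1 := hJm a (a + r * n') (a + s * n') (a + (s + 1) * n') (hAa s) (hA s hs)
      (hAr (s + 1) r hs) hanm
    have g2 := hZm a (a + r * n') (a + s * n') (a + (s + 1) * n') (hAa s) (hA s hs)
      (hAr (s + 1) r hs) hanm
    have g3 := card_le_card g1
    have g4 := card_le_card g2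
    have g5 := hle a (a + r * n')
    have g6 := hle (a + s * n') (a + (s + 1) * n')
    change K0 - ((J' (a + s * n') (a + (s + 1) * n')).card +
      (Z' (a + s * n') (a + (s + 1) * n')).card) =
      K0 - ((J' a (a + r * n')).card + (Z' a (a + r * n')).card) at g
    exact ⟨eq_of_subset_of_card_le g1 (by omega), eq_of_subset_of_card_le g2 (by omega)⟩
  set J1 := J' a (a + r * n') with hJ1
  set Z1 := Z' a (a + r * n') with hZ1
  have hJ1J : J1 ⊆ J := filter_subset _ _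
  have hZ1Z : Z1 ⊆ Z := filter_subset _ _
  -- cut vertices in the new blocks lie on rails of `J1`
  have hstar : ∀ s < r, ∀ u ∈ K (a + s * n') (a + (s + 1) * n'), ∀ i ≤ m, u ∈ C i →
      u ∈ J1.biUnion R := by
    intro s hs u hu i hi huC
    obtain ⟨b, hb, hub⟩ := h.cover hi huC
    have g := hKK _ _ (hA s hs) (hAm (s + 1) hs)
    have g1 : b ∈ J' (a + s * n') (a + (s + 1) * n') :=
      hrail _ _ b (hA s hs) (hAm (s + 1) hs) hb
        ⟨u, mem_inter.2 ⟨mem_inter.2 ⟨hub, g.1 hu⟩, hu⟩⟩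
    rw [(hJe s hs).1] at g1
    exact mem_biUnion.2 ⟨b, g1, hub⟩
  have hrl : ∀ s < r, ∀ b ∈ J1, R b ∩ MM M (a + s * n') (a + (s + 1) * n') ⊆
      K (a + s * n') (a + (s + 1) * n') := by
    intro s hs b hb
    rw [← (hJe s hs).1, hJ', mem_filter] at hb
    exact hb.2
  have hcl : ∀ s < r, C (a + s * n') ∩ J1.biUnion R ⊆ K (a + s * n') (a + (s + 1) * n') := by
    intro s hs u hu
    obtain ⟨hu1, hu2⟩ := mem_inter.1 hu
    obtain ⟨b, hb, hub⟩ := mem_biUnion.1 hu2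
    exact hrl s hs b hb (mem_inter.2 ⟨hub, h.cut_MM (hA s hs) (hAm (s + 1) hs) le_rfl
      (hA s hs).le hu1⟩)
  have hcr : ∀ s < r, C (a + (s + 1) * n') ∩ J1.biUnion R ⊆
      K (a + s * n') (a + (s + 1) * n') := by
    intro s hs u hu
    obtain ⟨hu1, hu2⟩ := mem_inter.1 hu
    obtain ⟨b, hb, hub⟩ := mem_biUnion.1 hu2
    exact hrl s hs b hb (mem_inter.2 ⟨hub, h.cut_MM (hA s hs) (hAm (s + 1) hs)
      (hA s hs).le le_rfl hu1⟩)
  refine ⟨fun s => K (a + s * n') (a + (s + 1) * n'), fun s => C (a + s * n') ∩ J1.biUnion R,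
    Z1, J1, ⟨⟨?_, hcl, hcr, ?_, ?_, ?_, ?_, ?_, ?_, ?_, ?_, ?_, ?_⟩, ?_, ?_⟩, hZ1Z, ?_, ?_⟩
  · -- ne
    have g := hpos a (a + r * n') (by
      have := hA 0 hr
      have := hAr 1 r hr
      omega) hanm
    exact card_pos.1 g
  · -- cd
    intro s hs
    exact disjoint_of_subset_left inter_subset_left (disjoint_of_subset_right
      inter_subset_left (h.cuts_disj (hA s hs) (hAm (s + 1) hs)))
  · -- ov
    intro s hs u hu
    obtain ⟨hu1, hu2⟩ := mem_inter.1 hu
    have g1 := (hKK _ _ (hA s (by omega)) (hAm (s + 1) (by omega))).1 hu1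
    have g2 := (hKK _ _ (hA (s + 1) hs) (hAm (s + 2) hs)).1 hu2
    have g3 := h.MM_inter (a := a + s * n') (hAm (s + 2) hs) (mem_inter.2 ⟨g1, g2⟩)
    exact mem_inter.2 ⟨g3, hstar s (by omega) u hu1 _ (hAm (s + 1) (by omega)) g3⟩
  · -- far
    intro s t hst ht
    have g1 := (hKK _ _ (hA s (by omega)) (hAm (s + 1) (by omega))).1
    have g2 := (hKK _ _ (hA t ht) (hAm (t + 1) ht)).1
    refine disjoint_of_subset_left g1 (disjoint_of_subset_right g2 ?_)
    refine h.MM_disj ?_ (hAm (t + 1) ht)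
    exact lt_of_lt_of_le (hA (s + 1) (by omega)) (hAr (s + 2) t hst)
  · -- zd
    intro s hs
    exact disjoint_of_subset_left hZ1Z (disjoint_of_subset_right
      (hKK _ _ (hA s hs) (hAm (s + 1) hs)).1 (h.Z_MM (hAm (s + 1) hs)))
  · -- nb
    intro s hs u hu hu0 hu1 w huw
    have g := hKK _ _ (hA s hs) (hAm (s + 1) hs)
    have g0 : u ∉ C (a + s * n') := fun h' => hu0 (mem_inter.2 ⟨h',
      hstar s hs u hu _ (hAm s (by omega)) h'⟩)
    have g1 : u ∉ C (a + (s + 1) * n') := fun h' => hu1 (mem_inter.2 ⟨h',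
      hstar s hs u hu _ (hAm (s + 1) hs) h'⟩)
    rcases h.MM_nb (hAm (s + 1) hs) (g.1 hu) g0 g1 huw with h' | h'
    · exact Or.inl (g.2.2.2 u hu w h' huw)
    · right
      rw [← (hJe s hs).2, hZ', mem_filter]
      exact ⟨h', u, hu, huw.symm⟩
  · -- nc
    intro s hs u hu w huw
    have hus := hcr s (by omega) hu
    have hus' := hcl (s + 1) hs hu
    have g := hKK _ _ (hA s (by omega)) (hAm (s + 1) (by omega))
    have g' := hKK _ _ (hA (s + 1) hs) (hAm (s + 2) hs)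
    have huC := (mem_inter.1 hu).1
    have hlt1 := hA s (by omega)
    have hlt2 := hA (s + 1) hs
    have g0 : u ∉ C (a + s * n') := fun h' =>
      disjoint_left.1 (h.cuts_disj hlt1 (hAm (s + 1) (by omega))) h' huC
    have g1 : u ∉ C (a + (s + 1 + 1) * n') := fun h' =>
      disjoint_left.1 (h.cuts_disj hlt2 (hAm (s + 2) hs)) huC h'
    have g2 : u ∈ MM M (a + s * n') (a + (s + 1 + 1) * n') :=
      h.cut_MM (hlt1.trans hlt2) (hAm (s + 2) hs) hlt1.le hlt2.le huC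
    rcases h.MM_nb (hAm (s + 2) hs) g2 g0 g1 huw with h' | h'
    · rw [mem_MM] at h'
      obtain ⟨i, hi1, hi2, hi3⟩ := h'
      rcases Nat.lt_or_ge i (a + (s + 1) * n') with h'' | h''
      · exact Or.inl (g.2.2.2 u hus w (mem_MM.2 ⟨i, hi1, h'', hi3⟩) huw)
      · exact Or.inr (Or.inl (g'.2.2.2 u hus' w (mem_MM.2 ⟨i, h'', hi2, hi3⟩) huw))
    · right
      right
      rw [← (hJe s (by omega)).2, hZ', mem_filter]
      exact ⟨h', u, hus, huw.symm⟩
  · -- rd
    intro b hb b' hb' hbb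
    exact h.rd b (hJ1J hb) b' (hJ1J hb') hbb
  · -- rc
    intro b hb s hs
    have g := hKK _ _ (hA s hs) (hAm (s + 1) hs)
    have g1 : R b ∩ K (a + s * n') (a + (s + 1) * n') =
        R b ∩ MM M (a + s * n') (a + (s + 1) * n') := by
      refine Subset.antisymm (inter_subset_inter Subset.rfl g.1) ?_
      exact subset_inter inter_subset_left (hrl s hs b hb)
    show Cn G (R b ∩ K (a + s * n') (a + (s + 1) * n'))
    rw [g1]
    exact h.rail_MM (hJ1J hb) (hA s hs) (hAm (s + 1) hs)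
  · -- r1
    intro b hb s hs
    have g1 : R b ∩ (C (a + s * n') ∩ J1.biUnion R) = R b ∩ C (a + s * n') := by
      refine Subset.antisymm (inter_subset_inter Subset.rfl inter_subset_left) ?_
      intro u hu
      obtain ⟨hu1, hu2⟩ := mem_inter.1 hu
      exact mem_inter.2 ⟨hu1, mem_inter.2 ⟨hu2, mem_biUnion.2 ⟨b, hb, hu1⟩⟩⟩
    show (R b ∩ (C (a + s * n') ∩ J1.biUnion R)).card = 1
    rw [g1]
    exact h.r1 b (hJ1J hb) _ (hAm s hs)
  · -- cc
    intro s hs
    have g1 : C (a + s * n') ∩ J1.biUnion R = J1.biUnion fun b => R b ∩ C (a + s * n') := by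
      ext u
      simp only [mem_inter, mem_biUnion]
      constructor
      · rintro ⟨h1, b, hb, hub⟩
        exact ⟨b, hb, hub, h1⟩
      · rintro ⟨b, hb, hub, h1⟩
        exact ⟨h1, b, hb, hub⟩
    show (C (a + s * n') ∩ J1.biUnion R).card = J1.card
    rw [g1, card_biUnion]
    · rw [sum_congr rfl fun b hb => h.r1 b (hJ1J hb) _ (hAm s hs), sum_const, smul_eq_mul,
        mul_one]
    · intro b hb b' hb' hbb
      exact disjoint_of_subset_left inter_subset_left (disjoint_of_subset_right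
        inter_subset_left (h.rd b (hJ1J hb) b' (hJ1J hb') hbb))
  · -- bc
    intro s hs
    exact (hKK _ _ (hA s hs) (hAm (s + 1) hs)).2.2.1
  · -- zb
    intro z hz s hs
    rw [← (hJe s hs).2, hZ', mem_filter] at hz
    exact hz.2
  · -- blocks
    intro s hs
    exact ((hKK _ _ (hA s hs) (hAm (s + 1) hs)).1).trans
      (phb2_MM (Nat.zero_le _) (hAm (s + 1) hs))
  · -- ends
    intro s hs u hu hu0 hur
    have g := hKK _ _ (hA s hs) (hAm (s + 1) hs)
    have g1 := g.1 hu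
    rw [mem_MM] at g1
    obtain ⟨j, hj1, hj2, hj3⟩ := g1
    have hAs := hAm (s + 1) hs
    refine ⟨fun h' => ?_, fun h' => ?_⟩
    · have g2 := h.cut_block (Nat.zero_le m) (by omega) h' hj3
      have g3 : a = 0 := by omega
      have g4 : s * n' = 0 := by omega
      refine hu0 (mem_inter.2 ⟨?_, hstar s hs u hu 0 (Nat.zero_le m) h'⟩)
      show u ∈ C (a + 0 * n')
      rw [g3, Nat.zero_mul]
      exact h'
    · have g2 := h.cut_block le_rfl (by omega) h' hj3
      have g3 : a + (s + 1) * n' = m := by omega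
      have g4 : a + r * n' = m := by
        have := hAr (s + 1) r hs
        omega
      refine hur (mem_inter.2 ⟨?_, hstar s hs u hu m le_rfl h'⟩)
      show u ∈ C (a + r * n')
      rw [g4]
      exact h'

/- END phb2 -/

end Pool.Agent.TWB
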