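import Pool.Agent.TWB.Pock

/-!
# From a chain of sets to a chain of separations of `G` (text, section 4)
-/

namespace Pool.Agent.TWB

open Finset

variable {V : Type*} [Fintype V] [DecidableEq V]

/- MODULE rua (M) -/
/-- A run without changes at the special vertices. PROOF. `f i := |D i ∩ X| + |E i ∩ X|` is monotone and at
most `2σ`. Among the `2σ + 2` values `f (j * N1)`, `j ≤ 2σ + 1`, two consecutive ones are equal; on that
interval `f` is constant, so `D i ∩ X` and `E i ∩ X` are constant. -/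
theorem exists_run {D E : ℕ → Finset V} {X : Finset V} {N1 σ : ℕ} (hσ : X.card ≤ σ)
    (hD : ∀ i < (2 * σ + 1) * N1, D i ⊆ D (i + 1)) (hE : ∀ i < (2 * σ + 1) * N1, E i ⊆ E (i + 1)) :
    ∃ a, a + N1 ≤ (2 * σ + 1) * N1 ∧
      ∀ i ≤ N1, ∀ s ∈ X, (s ∈ D (a + i) ↔ s ∈ D a) ∧ (s ∈ E (a + i) ↔ s ∈ E a) := by
  have mono : ∀ (F : ℕ → Finset V), (∀ i < (2 * σ + 1) * N1, F i ⊆ F (i + 1)) →
      ∀ i j, i ≤ j → j ≤ (2 * σ + 1) * N1 → F i ⊆ F j := by
    intro F hF i j hij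
    induction j, hij using Nat.le_induction with
    | base => intro _; exact Finset.Subset.refl _
    | succ j hij ih =>
      intro hj
      exact (ih (Nat.le_of_succ_le hj)).trans (hF j hj)
  have key : ∃ j ≤ 2 * σ, (D ((j + 1) * N1) ∩ X).card + (E ((j + 1) * N1) ∩ X).card
      ≤ (D (j * N1) ∩ X).card + (E (j * N1) ∩ X).card := by
    by_contra hno
    push Not at hno
    have hind : ∀ j, j ≤ 2 * σ + 1 → j ≤ (D (j * N1) ∩ X).card + (E (j * N1) ∩ X).card := by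
      intro j
      induction j with
      | zero => intro _; exact Nat.zero_le _
      | succ j ih =>
        intro hj
        have h1 := ih (Nat.le_of_succ_le hj)
        have h2 := hno j (Nat.le_of_succ_le_succ hj)
        omega
    have h1 := hind (2 * σ + 1) le_rfl
    have h2 : (D ((2 * σ + 1) * N1) ∩ X).card ≤ X.card :=
      Finset.card_le_card Finset.inter_subset_right
    have h3 : (E ((2 * σ + 1) * N1) ∩ X).card ≤ X.card :=
      Finset.card_le_card Finset.inter_subset_right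
    omega
  obtain ⟨j, hj, hle⟩ := key
  have hb : j * N1 + N1 ≤ (2 * σ + 1) * N1 := by
    calc j * N1 + N1 = (j + 1) * N1 := by ring
      _ ≤ (2 * σ + 1) * N1 := Nat.mul_le_mul_right _ (Nat.succ_le_succ hj)
  refine ⟨j * N1, hb, ?_⟩
  intro i hi s hs
  have e1 : (j + 1) * N1 = j * N1 + N1 := by ring
  rw [e1] at hle
  have hDm : D (j * N1) ⊆ D (j * N1 + i) := mono D hD _ _ (Nat.le_add_right _ _) (by omega)
  have hEm : E (j * N1) ⊆ E (j * N1 + i) := mono E hE _ _ (Nat.le_add_right _ _) (by omega)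
  have hDn : D (j * N1 + i) ⊆ D (j * N1 + N1) := mono D hD _ _ (by omega) hb
  have hEn : E (j * N1 + i) ⊆ E (j * N1 + N1) := mono E hE _ _ (by omega) hb
  have c1 := Finset.card_le_card (Finset.inter_subset_inter_right hDm (u := X))
  have c2 := Finset.card_le_card (Finset.inter_subset_inter_right hEm (u := X))
  have c3 := Finset.card_le_card (Finset.inter_subset_inter_right hDn (u := X))
  have c4 := Finset.card_le_card (Finset.inter_subset_inter_right hEn (u := X))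
  have q1 : D (j * N1) ∩ X = D (j * N1 + i) ∩ X :=
    Finset.eq_of_subset_of_card_le (Finset.inter_subset_inter_right hDm) (by omega)
  have q2 : E (j * N1) ∩ X = E (j * N1 + i) ∩ X :=
    Finset.eq_of_subset_of_card_le (Finset.inter_subset_inter_right hEm) (by omega)
  constructor
  · constructor
    · intro h
      have : s ∈ D (j * N1) ∩ X := by rw [q1]; exact Finset.mem_inter.2 ⟨h, hs⟩
      exact (Finset.mem_inter.1 this).1
    · exact fun h => hDm h
  · constructor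
    · intro h
      have : s ∈ E (j * N1) ∩ X := by rw [q2]; exact Finset.mem_inter.2 ⟨h, hs⟩
      exact (Finset.mem_inter.1 this).1
    · exact fun h => hEm h

/- END rua -/

/- MODULE rub (M) -/
omit [Fintype V] [DecidableEq V] in
private theorem rub_mono {D : ℕ → Finset V} {N : ℕ} (h : ∀ i < N, D i ⊆ D (i + 1)) :
    ∀ j, j ≤ N → ∀ i ≤ j, D i ⊆ D j := by
  intro j
  induction j with
  | zero =>
    intro _ i hi
    rw [Nat.le_zero.1 hi]
  | succ j ih =>
    intro hj i hi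
    rcases Nat.lt_or_ge i (j + 1) with h' | h'
    · exact (ih (by omega) i (by omega)).trans (h j (by omega))
    · rw [le_antisymm hi h']

omit [Fintype V] in
private theorem rub_anti {Q : ℕ → Finset V} {N : ℕ} (h : ∀ i < N, Q (i + 1) ⊆ Q i) :
    ∀ j, j ≤ N → ∀ i ≤ j, Q j ⊆ Q i := by
  intro j
  induction j with
  | zero =>
    intro _ i hi
    rw [Nat.le_zero.1 hi]
  | succ j ih =>
    intro hj i hi
    rcases Nat.lt_or_ge i (j + 1) with h' | h'
    · exact (h j (by omega)).trans (ih (by omega) i (by omega))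
    · rw [le_antisymm hi h']

omit [Fintype V] in
private theorem rub_cl {Γ : SimpleGraph V} {B' D D' : Finset V} (h : D ⊆ D') :
    D ∪ Nb Γ B' D ⊆ D' ∪ Nb Γ B' D' := by
  intro w hw
  rcases mem_union.1 hw with h' | h'
  · exact mem_union_left _ (h h')
  · by_cases hwD : w ∈ D'
    · exact mem_union_left _ hwD
    · rw [mem_Nb] at h'
      obtain ⟨h1, h2, u, hu, huw⟩ := h'
      exact mem_union_right _ (mem_Nb.2 ⟨h1, hwD, u, h hu, huw⟩)

/-- The chain of separations of a chain of sets. PROOF. Write `N[D] = D ∪ Nb Γ B' D`, which is monotone in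
`D ⊆ B'`. `sp`: `P i ∪ Q i = Ω`; a vertex of `P i` outside `Q i` is in `D i`, and its neighbours in `B'` are
in `N[D i]`. `ord`: `P i ∩ Q i = Nb Γ B' (D i) \ D 0`. `st`: a vertex of `D (i + 1) \ D i`. `cl`: a vertex
of `Ω` outside `Q N` is in `D N`, and if it is outside `P 0` it has no neighbour in `D 0` (else it would be in
`N[D 0] \ D 0 = P 0`); its neighbours in `B'` are in `N[D N]`. -/
theorem schain_base {k N : ℕ} {Γ : SimpleGraph V} {B' : Finset V} {D : ℕ → Finset V}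
    (h1 : ∀ i ≤ N, D i ⊆ B') (h2 : ∀ i < N, D i ⊂ D (i + 1))
    (h3 : ∀ i ≤ N, (Nb Γ B' (D i)).card ≤ k) :
    SChain (Ind Γ B') ((D N ∪ Nb Γ B' (D N)) \ D 0) (fun i => (D i ∪ Nb Γ B' (D i)) \ D 0)
      (fun i => ((D N ∪ Nb Γ B' (D N)) \ D 0) \ D i) N k := by
  have hm := rub_mono fun i hi => (h2 i hi).1
  have hPΩ : ∀ i ≤ N, (D i ∪ Nb Γ B' (D i)) \ D 0 ⊆ (D N ∪ Nb Γ B' (D N)) \ D 0 :=
    fun i hi => sdiff_subset_sdiff (rub_cl (hm N le_rfl i hi)) Subset.rfl
  refine ⟨?_, ?_, ?_, ?_, ?_, ?_⟩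
  · intro i hi
    refine ⟨?_, ?_⟩
    · ext u
      rw [mem_union]
      constructor
      · rintro (h | h)
        · exact hPΩ i hi h
        · exact (mem_sdiff.1 h).1
      · intro h
        by_cases hu : u ∈ D i
        · exact Or.inl (mem_sdiff.2 ⟨mem_union_left _ hu, (mem_sdiff.1 h).2⟩)
        · exact Or.inr (mem_sdiff.2 ⟨h, hu⟩)
    · intro u hu huQ w hw hwP huw
      have huD : u ∈ D i := by
        by_contra h
        exact huQ (mem_sdiff.2 ⟨hPΩ i hi hu, h⟩)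
      obtain ⟨hw1, hw2⟩ := mem_sdiff.1 hw
      exact hwP (mem_sdiff.2 ⟨mem_union_right _ (mem_Nb.2 ⟨huw.2.2, hw2, u, huD, huw.1⟩),
        (mem_sdiff.1 hw1).2⟩)
  · intro i hi
    exact sdiff_subset_sdiff (rub_cl (h2 i hi).1) Subset.rfl
  · intro i hi
    exact sdiff_subset_sdiff Subset.rfl (h2 i hi).1
  · intro i hi
    refine (card_le_card ?_).trans (h3 i hi)
    intro u hu
    obtain ⟨hu1, hu2⟩ := mem_inter.1 hu
    rcases mem_union.1 (mem_sdiff.1 hu1).1 with h | h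
    · exact absurd h (mem_sdiff.1 hu2).2
    · exact h
  · intro i hi
    obtain ⟨u, hu, hu'⟩ := exists_of_ssubset (h2 i hi)
    have hu0 : u ∉ D 0 := fun h => hu' (hm i hi.le 0 (Nat.zero_le _) h)
    have huP : u ∈ (D (i + 1) ∪ Nb Γ B' (D (i + 1))) \ D 0 :=
      mem_sdiff.2 ⟨mem_union_left _ hu, hu0⟩
    exact ⟨u, huP, fun h => (mem_sdiff.1 h).2 hu, mem_sdiff.2 ⟨hPΩ (i + 1) hi huP, hu'⟩⟩
  · intro u hu huP huQ w huw
    have huD : u ∈ D N := by
      by_contra h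
      exact huQ (mem_sdiff.2 ⟨hu, h⟩)
    have hu0 := (mem_sdiff.1 hu).2
    rw [mem_sdiff]
    refine ⟨?_, ?_⟩
    · rw [mem_union]
      by_cases hw : w ∈ D N
      · exact Or.inl hw
      · exact Or.inr (mem_Nb.2 ⟨huw.2.2, hw, u, huD, huw.1⟩)
    · intro hw0
      exact huP (mem_sdiff.2 ⟨mem_union_right _ (mem_Nb.2 ⟨huw.2.1, hu0, w, hw0, huw.1.symm⟩),
        hu0⟩)

/-- PROOF. A vertex outside `Q i` is outside `Q N` (`mQ`). -/
theorem SChain.trans {G1 G2 : SimpleGraph V} {Ω : Finset V} {P Q : ℕ → Finset V} {N K : ℕ}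
    (h : SChain G1 Ω P Q N K) (hG : ∀ u ∈ Ω, u ∉ Q N → ∀ w ∈ Ω, G2.Adj u w → G1.Adj u w)
    (hc : ∀ u ∈ Ω, u ∉ P 0 → u ∉ Q N → ∀ w, G2.Adj u w → w ∈ Ω) :
    SChain G2 Ω P Q N K := by
  refine ⟨?_, h.mP, h.mQ, h.ord, h.st, hc⟩
  intro i hi
  refine ⟨(h.sp i hi).1, ?_⟩
  intro u hu huQ w hw hwP huw
  have huΩ : u ∈ Ω := by
    rw [← (h.sp i hi).1]
    exact mem_union_left _ hu
  have hwΩ : w ∈ Ω := by
    rw [← (h.sp i hi).1]
    exact mem_union_right _ hw
  exact (h.sp i hi).2 u hu huQ w hw hwP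
    (hG u huΩ (fun h' => huQ (rub_anti h.mQ N le_rfl i hi h')) w hwΩ huw)

/-- PROOF. trivial -/
theorem SChain.mono_ord {G : SimpleGraph V} {Ω : Finset V} {P Q : ℕ → Finset V} {N K K' : ℕ}
    (h : SChain G Ω P Q N K) (hK : K ≤ K') : SChain G Ω P Q N K' := by
  exact ⟨h.sp, h.mP, h.mQ, fun i hi => (h.ord i hi).trans hK, h.st, h.cl⟩

/-- PROOF. as `SChain.trans`; `y` lies in all intersections. -/
theorem SChain.ins {G1 G2 : SimpleGraph V} {Ω : Finset V} {P Q : ℕ → Finset V} {N K : ℕ}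
    (h : SChain G1 Ω P Q N K) {y : V} (hy : y ∉ Ω)
    (hG : ∀ u ∈ Ω, u ∉ Q N → ∀ w ∈ Ω, G2.Adj u w → G1.Adj u w)
    (hc : ∀ u ∈ Ω, u ∉ P 0 → u ∉ Q N → ∀ w, G2.Adj u w → w ∈ Ω ∨ w = y) :
    SChain G2 (insert y Ω) (fun i => insert y (P i)) (fun i => insert y (Q i)) N (K + 1) := by
  have hPΩ : ∀ i ≤ N, P i ⊆ Ω := fun i hi => by
    rw [← (h.sp i hi).1]
    exact subset_union_left
  have hQΩ : ∀ i ≤ N, Q i ⊆ Ω := fun i hi => by
    rw [← (h.sp i hi).1]
    exact subset_union_right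
  refine ⟨?_, fun i hi => insert_subset_insert _ (h.mP i hi),
    fun i hi => insert_subset_insert _ (h.mQ i hi), ?_, ?_, ?_⟩
  · intro i hi
    refine ⟨?_, ?_⟩
    · rw [← insert_union_distrib, (h.sp i hi).1]
    · intro u hu huQ w hw hwP huw
      rw [mem_insert, not_or] at huQ hwP
      have hu' : u ∈ P i := (mem_insert.1 hu).resolve_left huQ.1
      have hw' : w ∈ Q i := (mem_insert.1 hw).resolve_left hwP.1
      exact (h.sp i hi).2 u hu' huQ.2 w hw' hwP.2
        (hG u (hPΩ i hi hu') (fun h' => huQ.2 (rub_anti h.mQ N le_rfl i hi h')) w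
          (hQΩ i hi hw') huw)
  · intro i hi
    rw [← insert_inter_distrib]
    exact (card_insert_le _ _).trans (Nat.add_le_add_right (h.ord i hi) 1)
  · intro i hi
    obtain ⟨u, hu1, hu2, hu3⟩ := h.st i hi
    refine ⟨u, mem_insert_of_mem hu1, ?_, mem_insert_of_mem hu3⟩
    rw [mem_insert, not_or]
    exact ⟨fun h' => hy (h' ▸ hPΩ (i + 1) hi hu1), hu2⟩
  · intro u hu huP huQ w huw
    rw [mem_insert, not_or] at huP huQ
    have hu' : u ∈ Ω := (mem_insert.1 hu).resolve_left huP.1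
    rcases hc u hu' huP.2 huQ.2 w huw with h' | h'
    · exact mem_insert_of_mem h'
    · exact mem_insert.2 (Or.inl h')

/- END rub -/

/- MODULE ruc (L) -/
/-- From the pocket situation to a chain of separations of `G`. PROOF. `chain_or_bound` with
`N0 = (2 * ℓ + 5) * N1 = (2 * (ℓ + 2) + 1) * N1` (`A ∩ B' = A ∩ B` as `y ∉ A`) gives the sets `D i`.
`exists_run` for `E i = D i ∪ Nb Γ B' (D i)` and the special vertices `X = (A ∩ B) ∪ {x, y}`
(`σ = ℓ + 2`) gives `a`. Put `D' i := D (a + i)`, `i ≤ N1`, and apply `schain_base` (graph `Ind Γ B'`, order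
`k`). If `u ∈ Ω`, `u ∉ Q N1` then `u ∈ D' N1 \ D' 0`, so `u` is not special: `u ∉ A`, `u ≠ x, y`, and all
`G`-neighbours of `u` are in `B`. Let `G.Adj u w`.
Case `Γ = Dl G x y`, `B' = B`: `uw` is an edge of `Ind Γ B`. `SChain.trans` (and the field `cl` of
`schain_base`). Case `Γ = Ctr G x y`, `B' = B.erase y`: if `w ≠ y` then `uw` is an edge of `Ind Γ B'`; if `w = y`
then `Γ.Adj u x`, `x ∈ B'`, so `x ∈ N[D' N1]`. If `x ∈ Ω`: `SChain.ins` with `y` (`y ∉ B' ⊇ Ω`). If `x ∉ Ω`: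
`SChain.trans`: for `w ∈ Ω` we have `w ≠ y`; and if `u ∉ P 0` then `w ≠ y`, since `w = y` gives
`x ∈ N[D' N1] \ Ω`, so `x ∈ D' 0` and `u ∈ N[D' 0] \ D' 0 = P 0`. (In both cases the order becomes at most
`k + 1`.) The last statement: `u ∈ D' N1 \ D' 0` is not special, `Ω ⊆ B' ∪ {y} ⊆ B`. For `SChain.ins`: `y` itself is
in `insert y (P 0)`. -/
theorem exists_schain {k ℓ Fs N1 : ℕ} {G Γ : SimpleGraph V} {A B B' : Finset V} {x y : V}
    (hs : Sp G univ A B) (h : Pk k ℓ Fs G Γ A B B' x y) (hl : (A ∩ B).card ≤ ℓ)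
    (hbig : (Fs + ℓ) * (1 + ℓ * ((2 * ℓ + 5) * N1)) < (B' \ A).card) :
    ∃ Ω P Q, SChain G Ω P Q N1 (k + 1) ∧ Ω ⊆ B ∧
      ∀ u ∈ Ω, u ∉ P 0 → u ∉ Q N1 → u ∉ A := by
  obtain ⟨S⟩ := h.tw
  have hB'B : B' ⊆ B := by
    rcases h.alt with ⟨_, h1⟩ | ⟨_, h1⟩
    · rw [h1]
    · rw [h1]; exact Finset.erase_subset _ _
  have hl' : (A ∩ B').card ≤ ℓ :=
    (Finset.card_le_card (Finset.inter_subset_inter_left hB'B)).trans hl
  obtain ⟨D, hD1, hD2, hD3⟩ := chain_or_bound S h.ntw hl' h.pk hbig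
  have hN0 : (2 * (ℓ + 2) + 1) * N1 = (2 * ℓ + 5) * N1 := by ring
  have hXc : ((A ∩ B) ∪ {x, y}).card ≤ ℓ + 2 := by
    calc ((A ∩ B) ∪ {x, y}).card ≤ (A ∩ B).card + ({x, y} : Finset V).card :=
          Finset.card_union_le _ _
      _ ≤ ℓ + 2 := Nat.add_le_add hl Finset.card_le_two
  have hEmono : ∀ i < (2 * (ℓ + 2) + 1) * N1,
      D i ∪ Nb Γ B' (D i) ⊆ D (i + 1) ∪ Nb Γ B' (D (i + 1)) := by
    intro i hi w hw
    rw [hN0] at hi
    have hsub := (hD2 i hi).1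
    rcases Finset.mem_union.1 hw with hw | hw
    · exact Finset.mem_union_left _ (hsub hw)
    · rw [mem_Nb] at hw
      obtain ⟨hwB, _, u, hu, huw⟩ := hw
      by_cases hwD : w ∈ D (i + 1)
      · exact Finset.mem_union_left _ hwD
      · exact Finset.mem_union_right _ (mem_Nb.2 ⟨hwB, hwD, u, hsub hu, huw⟩)
  obtain ⟨a, ha, hrun⟩ := exists_run (N1 := N1) hXc
    (fun i hi => (hD2 i (by rw [hN0] at hi; exact hi)).1) hEmono
  rw [hN0] at ha
  have hbase := schain_base (k := k) (N := N1) (Γ := Γ) (B' := B') (D := fun i => D (a + i))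
    (fun i hi => hD1 (a + i) (by omega)) (fun i hi => hD2 (a + i) (by omega))
    (fun i hi => hD3 (a + i) (by omega))
  set Ω : Finset V := (D (a + N1) ∪ Nb Γ B' (D (a + N1))) \ D (a + 0) with hΩ
  set P : ℕ → Finset V := fun i => (D (a + i) ∪ Nb Γ B' (D (a + i))) \ D (a + 0) with hP
  set Q : ℕ → Finset V := fun i => Ω \ D (a + i) with hQ
  have hch : SChain (Ind Γ B') Ω P Q N1 k := hbase
  have hΩB' : Ω ⊆ B' := by
    intro w hw
    rw [hΩ, Finset.mem_sdiff] at hw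
    rcases Finset.mem_union.1 hw.1 with h1 | h1
    · exact hD1 (a + N1) (by omega) h1
    · exact (mem_Nb.1 h1).1
  have hspec : ∀ u ∈ Ω, u ∉ Q N1 → u ∉ A ∧ u ≠ x ∧ u ≠ y := by
    intro u hu huQ
    have h1 : u ∈ D (a + N1) := by
      by_contra h2
      exact huQ (Finset.mem_sdiff.2 ⟨hu, h2⟩)
    have h0 : u ∉ D (a + 0) := (Finset.mem_sdiff.1 hu).2
    have hX : u ∉ (A ∩ B) ∪ {x, y} := by
      intro hX
      exact h0 ((hrun N1 le_rfl u hX).1.1 h1)
    refine ⟨fun hA => hX ?_, fun hx => hX ?_, fun hy => hX ?_⟩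
    · exact Finset.mem_union_left _ (Finset.mem_inter.2 ⟨hA, hB'B (hΩB' hu)⟩)
    · rw [hx]; simp
    · rw [hy]; simp
  have hnb : ∀ u ∈ Ω, u ∉ Q N1 → ∀ w, G.Adj u w → w ∈ B := by
    intro u hu huQ w huw
    by_contra hwB
    have hwA : w ∈ A := by
      have h1 : w ∈ A ∪ B := by rw [hs.1]; exact Finset.mem_univ _
      rcases Finset.mem_union.1 h1 with h1 | h1
      · exact h1
      · exact absurd h1 hwB
    exact hs.2 w hwA hwB u (hB'B (hΩB' hu)) (hspec u hu huQ).1 huw.symm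
  rcases h.alt with ⟨hΓ, hBB⟩ | ⟨hΓ, hBB⟩
  · have hadj : ∀ u ∈ Ω, u ∉ Q N1 → ∀ w, G.Adj u w → (Ind Γ B').Adj u w := by
      intro u hu huQ w huw
      obtain ⟨_, h2, h3⟩ := hspec u hu huQ
      refine ⟨?_, hΩB' hu, ?_⟩
      · rw [hΓ]
        exact ⟨huw, fun h4 => h2 h4.1, fun h4 => h3 h4.1⟩
      · rw [hBB]; exact hnb u hu huQ w huw
    have hS := SChain.mono_ord (SChain.trans (G2 := G) hch
      (fun u hu huQ w _ huw => hadj u hu huQ w huw)
      (fun u hu huP huQ w huw => hch.cl u hu huP huQ w (hadj u hu huQ w huw)))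
      (Nat.le_succ k)
    exact ⟨Ω, P, Q, hS, hΩB'.trans hB'B, fun u hu _ huQ => (hspec u hu huQ).1⟩
  · have hyΩ : y ∉ Ω := by
      intro hy
      have := hΩB' hy
      rw [hBB] at this
      exact Finset.notMem_erase _ _ this
    have hadj : ∀ u ∈ Ω, u ∉ Q N1 → ∀ w, w ≠ y → G.Adj u w → (Ind Γ B').Adj u w := by
      intro u hu huQ w hwy huw
      obtain ⟨_, h2, h3⟩ := hspec u hu huQ
      refine ⟨?_, hΩB' hu, ?_⟩
      · rw [hΓ]
        exact ⟨huw.ne, h3, hwy, Or.inl huw⟩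
      · rw [hBB]; exact Finset.mem_erase.2 ⟨hwy, hnb u hu huQ w huw⟩
    have hS := SChain.ins (G2 := G) hch hyΩ
      (fun u hu huQ w hw huw => hadj u hu huQ w (fun h1 => hyΩ (h1 ▸ hw)) huw)
      (fun u hu huP huQ w huw => by
        by_cases hwy : w = y
        · exact Or.inr hwy
        · exact Or.inl (hch.cl u hu huP huQ w (hadj u hu huQ w hwy huw)))
    refine ⟨_, _, _, hS, ?_, ?_⟩
    · intro w hw
      rcases Finset.mem_insert.1 hw with h1 | h1
      · rw [h1]; exact h.yB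
      · exact hB'B (hΩB' h1)
    · intro u hu _ huQ
      rcases Finset.mem_insert.1 hu with h1 | h1
      · exact absurd (Finset.mem_insert.2 (Or.inl h1)) huQ
      · exact (hspec u h1 fun h2 => huQ (Finset.mem_insert_of_mem h2)).1

/- END ruc -/

end Pool.Agent.TWB
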