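import Pool.Agent.TWB.Mid
import Pool.Agent.TWB.PhB
import Pool.Agent.TWB.Fam
import Pool.Agent.TWB.Run

/-!
# The strip theorem, the recursion and the bound (text, sections 8 to 10)
-/

namespace Pool.Agent.TWB

open Finset

variable {V : Type*} [Fintype V] [DecidableEq V]

/- MODULE fia (M) -/
/-- The middle lemma for `G / xy`, `xy` a rail edge inside the block `i0`. PROOF. `GStrip.ctr`, `SW.ctr`
(`y ∈ Inn M C m`, as `y` is in no cut, `cut_block`), `exists_mid`. -/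
theorem mid_ctr {k : ℕ} {G : SimpleGraph V} (hO : Obs k G) {M C : ℕ → Finset V}
    {Z J : Finset V} {R : V → Finset V} (h : GStrip G (20 * k + 17) M C Z J R)
    (hsw : SW k G (20 * k + 17) M C Z) {i0 : ℕ} (hi0 : i0 < 20 * k + 17) {a x y : V}
    (ha : a ∈ J) (hxy : G.Adj x y) (hxa : x ∈ R a) (hya : y ∈ R a) (hx : x ∈ M i0)
    (hy : y ∈ M i0) (hx0 : x ∉ C i0) (hy0 : y ∉ C i0) (hx1 : x ∉ C (i0 + 1))
    (hy1 : y ∉ C (i0 + 1)) :
    ∃ n O1 O2, MidOut k (Ctr G x y) (fun i => (M i).erase y) C Z n O1 O2 := by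
  have hyI : y ∈ Inn M C (20 * k + 17) := by
    unfold Inn
    rw [mem_sdiff, mem_union, mem_MM]
    refine ⟨⟨i0, Nat.zero_le _, hi0, hy⟩, ?_⟩
    rintro (hc | hc)
    · rcases h.toStrip.cut_block (Nat.zero_le _) hi0 hc hy with h' | h'
      · exact hy0 (h' ▸ hc)
      · exact absurd h' (Nat.succ_ne_zero _)
    · rcases h.toStrip.cut_block le_rfl hi0 hc hy with h' | h'
      · exact absurd h' hi0.ne
      · exact hy1 (h' ▸ hc)
  exact exists_mid (hO.ctr x y hxy) (h.ctr hi0 ha hxy hxa hya hx hy hx0 hy0 hx1 hy1)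
    (hsw.ctr hyI)

/- END fia -/

/- MODULE fib (L) -/
private theorem fib_erase (M : ℕ → Finset V) (a b : ℕ) (y : V) :
    MM (fun i => (M i).erase y) a b = (MM M a b).erase y := by
  ext u
  rw [mem_MM, Finset.mem_erase, mem_MM]
  constructor
  · rintro ⟨i, h1, h2, h3⟩
    exact ⟨(Finset.mem_erase.1 h3).1, i, h1, h2, (Finset.mem_erase.1 h3).2⟩
  · rintro ⟨h0, i, h1, h2, h3⟩
    exact ⟨i, h1, h2, Finset.mem_erase.2 ⟨h0, h3⟩⟩

private theorem fib_K {c O Y Z : Finset V} {y u : V} (h : u ∈ c ∪ Y ∪ Z) (hY : Y = O.erase y) :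
    u ∈ c ∪ O ∪ Z := by
  rcases Finset.mem_union.1 h with h | h
  · rcases Finset.mem_union.1 h with h | h
    · exact Finset.mem_union_left _ (Finset.mem_union_left _ h)
    · refine Finset.mem_union_left _ (Finset.mem_union_right _ ?_)
      rw [hY] at h
      exact (Finset.mem_erase.1 h).2
  · exact Finset.mem_union_right _ h

private theorem fib_up {M : ℕ → Finset V} {O Z : Finset V} {a b : ℕ} {y u : V}
    (h : u ∈ O.erase y ∪ Z ∪ MM M a b) (hu : u ≠ y) :
    u ∈ O ∪ Z ∪ MM (fun i => (M i).erase y) a b := by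
  rw [fib_erase]
  rcases Finset.mem_union.1 h with h | h
  · rcases Finset.mem_union.1 h with h | h
    · exact Finset.mem_union_left _ (Finset.mem_union_left _ (Finset.mem_erase.1 h).2)
    · exact Finset.mem_union_left _ (Finset.mem_union_right _ h)
  · exact Finset.mem_union_right _ (Finset.mem_erase.2 ⟨hu, h⟩)

/-- The end of section 8. PROOF. Let `b0 = 8k + 7`, `b1 = 12k + 9`, `D1 = O1.erase y`, `D2 = O2.erase y`,
`Y = (O1 ∩ O2).erase y = D1 ∩ D2` (`|Y| ≤ n ≤ n'`). Three graphs: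
`H1 = Ind G (D1 ∪ Z ∪ MM M b0 i0) ⊔ KG (C i0 ∪ Y ∪ Z)`: its edges are edges of the graph `o.h1 i0` (the vertices
`x, y ∈ M i0 \ (C i0 ∪ C (i0 + 1))` are not in `MM M b0 i0`, so `(MM M b0 i0)` is the union of the erased blocks; the
`G`-edges inside `D1 ∪ Z ∪ MM M b0 i0` avoid `y`, so they are edges of `Ctr G x y`). `H3 = Ind G (D2 ∪ Z ∪ MM M (i0 + 1) b1) ⊔
KG (C (i0 + 1) ∪ Y ∪ Z)` from `o.h3 (i0 + 1)`. `H2 = Ind G (M i0 ∪ Z) ⊔ KG (C i0 ∪ Y ∪ Z) ⊔ KG (C (i0 + 1) ∪ Y ∪ Z)`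
from `o'.h2 Y` with `j = i0`, `j' = i0 + 1` (`MM M i0 (i0 + 1) = M i0`; `x', y'` are in `M i0'` away from its cuts, so they are
not in `M i0` and the `G`-edges inside `M i0 ∪ Z` are edges of `Ctr G x' y'`; `Y` is disjoint from
`MM M b0 b1 ∪ Z` by `o.oo`, `o.z1` — `o.oo` is for the erased blocks, and `y ∉ Y`).
`tw_glue` for `H1`, `H2` with `U1 = D1 ∪ Z ∪ MM M b0 i0`, `U2 = M i0 ∪ Y ∪ Z`: the intersection is `C i0 ∪ Y ∪ Z` (`o.o1`:
`D1 ∩ M i0 ⊆ C b0`, which is in `M i0` only if `i0 = b0`; `MM_inter`). Then `tw_glue` for `H1 ⊔ H2`, `H3` with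
`U1 ∪ U2` and `U3 = D2 ∪ Z ∪ MM M (i0 + 1) b1`: intersection `C (i0 + 1) ∪ Y ∪ Z`. Every edge `uv` of `G` is in `H1`, `H2` or
`H3`: if `u` (or `v`) is in `MM M b0 b1 \ (C b0 ∪ C b1)`, it is in no end cut of the strip, and `v ∈ Z`, or `u, v` are in one
block (`edge_block`), which is in `[b0, b1)` (a block outside `[b0, b1)` containing `u` would give `u ∈ C b0` or
`u ∈ C b1`). If both are outside this set (then `u, v ≠ y`, since `y` is inside, and also `≠ x`), use `o.cov` for the edge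
`uv` of `Ctr G x y`. So `TW k G`, contradiction. -/
theorem two_edges {k : ℕ} {G : SimpleGraph V} (hO : Obs k G) {M C : ℕ → Finset V}
    {Z J : Finset V} {R : V → Finset V} (h : GStrip G (20 * k + 17) M C Z J R)
    {i0 i0' : ℕ} (hi : 8 * k + 7 ≤ i0) (hi' : i0 < 12 * k + 9) (hne : i0' ≠ i0)
    (hi0' : i0' < 20 * k + 17) {x y x' y' : V} (hx : x ∈ M i0)
    (hy : y ∈ M i0) (hx0 : x ∉ C i0) (hy0 : y ∉ C i0) (hx1 : x ∉ C (i0 + 1))
    (hy1 : y ∉ C (i0 + 1)) (hx' : x' ∈ M i0') (hy' : y' ∈ M i0') (hx0' : x' ∉ C i0')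
    (hy0' : y' ∉ C i0') (hx1' : x' ∉ C (i0' + 1)) (hy1' : y' ∉ C (i0' + 1))
    {n n' : ℕ} {O1 O2 O1' O2' : Finset V} (hn : n ≤ n')
    (o : MidOut k (Ctr G x y) (fun i => (M i).erase y) C Z n O1 O2)
    (o' : MidOut k (Ctr G x' y') (fun i => (M i).erase y') C Z n' O1' O2') : False := by
  have hS := h.toStrip
  -- positions of the two special vertices
  have hyo : ∀ j < 20 * k + 17, y ∈ M j → j = i0 := by
    intro j hj hyj
    rcases lt_trichotomy j i0 with hlt | heq | hgt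
    · obtain ⟨h1, h2⟩ := hS.block_block hlt (by omega) hyj hy
      exact absurd (by rw [h1]; exact h2) hy0
    · exact heq
    · obtain ⟨h1, h2⟩ := hS.block_block hgt hj hy hyj
      exact absurd h2 hy1
  have hyo' : ∀ j < 20 * k + 17, y' ∈ M j → j = i0' := by
    intro j hj hyj
    rcases lt_trichotomy j i0' with hlt | heq | hgt
    · obtain ⟨h1, h2⟩ := hS.block_block hlt (by omega) hyj hy'
      exact absurd (by rw [h1]; exact h2) hy0'
    · exact heq
    · obtain ⟨h1, h2⟩ := hS.block_block hgt hj hy' hyj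
      exact absurd h2 hy1'
  have hyZ : y ∉ Z := fun hz => Finset.disjoint_left.1 (hS.zd i0 (by omega)) hz hy
  have hyZ' : y' ∉ Z := fun hz => Finset.disjoint_left.1 (hS.zd i0' hi0') hz hy'
  have hyM0 : y' ∉ M i0 := fun hm => hne (hyo' i0 (by omega) hm).symm
  have hyC : ∀ j ≤ 20 * k + 17, y ∉ C j := by
    intro j hj hc
    rcases hS.cut_block hj (by omega : i0 < 20 * k + 17) hc hy with h1 | h1
    · exact hy0 (by rw [h1]; exact hc)
    · exact hy1 (by rw [h1]; exact hc)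
  -- the erased unions
  have hoz1 := o.z1
  have hoz2 := o.z2
  have ho1 : ∀ u, u ∈ O1 → u ≠ y → u ∈ MM M (8 * k + 7) (12 * k + 9) → u ∈ C (8 * k + 7) := by
    intro u hu hne' hm
    rw [← o.o1, fib_erase]
    exact Finset.mem_inter.2 ⟨hu, Finset.mem_erase.2 ⟨hne', hm⟩⟩
  have ho2 : ∀ u, u ∈ O2 → u ≠ y → u ∈ MM M (8 * k + 7) (12 * k + 9) → u ∈ C (12 * k + 9) := by
    intro u hu hne' hm
    rw [← o.o2, fib_erase]
    exact Finset.mem_inter.2 ⟨hu, Finset.mem_erase.2 ⟨hne', hm⟩⟩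
  have hC1 : C (8 * k + 7) ⊆ O1 := by
    rw [← o.o1]
    exact Finset.inter_subset_left
  have hC2 : C (12 * k + 9) ⊆ O2 := by
    rw [← o.o2]
    exact Finset.inter_subset_left
  have hmM : ∀ u j, 8 * k + 7 ≤ j → j < 12 * k + 9 → u ∈ M j →
      u ∈ MM M (8 * k + 7) (12 * k + 9) := fun u j h1 h2 h3 => mem_MM.2 ⟨j, h1, h2, h3⟩
  obtain ⟨D1, hD1⟩ : ∃ D, D = O1.erase y := ⟨_, rfl⟩
  obtain ⟨D2, hD2⟩ : ∃ D, D = O2.erase y := ⟨_, rfl⟩
  obtain ⟨Y, hY⟩ : ∃ D, D = (O1 ∩ O2).erase y := ⟨_, rfl⟩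
  have mD1 : ∀ u, u ∈ D1 ↔ u ≠ y ∧ u ∈ O1 := fun u => by rw [hD1, Finset.mem_erase]
  have mD2 : ∀ u, u ∈ D2 ↔ u ≠ y ∧ u ∈ O2 := fun u => by rw [hD2, Finset.mem_erase]
  have mY : ∀ u, u ∈ Y ↔ u ≠ y ∧ u ∈ O1 ∧ u ∈ O2 := fun u => by
    rw [hY, Finset.mem_erase, Finset.mem_inter]
  have hCi0 : ∀ u ∈ C i0, u ∈ M i0 := fun u hu => hS.cl i0 (by omega) hu
  have hCi1 : ∀ u ∈ C (i0 + 1), u ∈ M i0 := fun u hu => hS.cr i0 (by omega) hu
  have hy1M : y ∉ MM M (8 * k + 7) i0 := by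
    intro hm
    obtain ⟨j, _, h2, h3⟩ := mem_MM.1 hm
    have := hyo j (by omega) h3
    omega
  have hy2M : y ∉ MM M (i0 + 1) (12 * k + 9) := by
    intro hm
    obtain ⟨j, h1, h2, h3⟩ := mem_MM.1 hm
    have := hyo j (by omega) h3
    omega
  -- the three vertex sets
  obtain ⟨U1, hU1⟩ : ∃ U, U = D1 ∪ Z ∪ MM M (8 * k + 7) i0 := ⟨_, rfl⟩
  obtain ⟨U2, hU2⟩ : ∃ U, U = M i0 ∪ Y ∪ Z := ⟨_, rfl⟩
  obtain ⟨U3, hU3⟩ : ∃ U, U = D2 ∪ Z ∪ MM M (i0 + 1) (12 * k + 9) := ⟨_, rfl⟩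
  have mU1 : ∀ u, u ∈ U1 ↔ (u ∈ D1 ∨ u ∈ Z) ∨ u ∈ MM M (8 * k + 7) i0 := fun u => by
    rw [hU1, Finset.mem_union, Finset.mem_union]
  have mU2 : ∀ u, u ∈ U2 ↔ (u ∈ M i0 ∨ u ∈ Y) ∨ u ∈ Z := fun u => by
    rw [hU2, Finset.mem_union, Finset.mem_union]
  have mU3 : ∀ u, u ∈ U3 ↔ (u ∈ D2 ∨ u ∈ Z) ∨ u ∈ MM M (i0 + 1) (12 * k + 9) := fun u => by
    rw [hU3, Finset.mem_union, Finset.mem_union]
  have hyU1 : y ∉ U1 := by
    rw [mU1]
    rintro ((h1 | h1) | h1)
    · exact ((mD1 y).1 h1).1 rfl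
    · exact hyZ h1
    · exact hy1M h1
  have hyU3 : y ∉ U3 := by
    rw [mU3]
    rintro ((h1 | h1) | h1)
    · exact ((mD2 y).1 h1).1 rfl
    · exact hyZ h1
    · exact hy2M h1
  -- the three graphs
  have t1 : TW k (Ind G U1 ⊔ KG (C i0 ∪ Y ∪ Z)) := by
    refine TW.mono (o.h1 i0 hi hi'.le) ?_
    intro a b hab
    rcases hab with hab | hab
    · left
      obtain ⟨h1, h2, h3⟩ := hab
      have ha : a ≠ y := fun h => hyU1 (h ▸ h2)
      have hb : b ≠ y := fun h => hyU1 (h ▸ h3)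
      refine ⟨⟨h1.ne, ha, hb, Or.inl h1⟩, fib_up (by rwa [← hD1, ← hU1]) ha,
        fib_up (by rwa [← hD1, ← hU1]) hb⟩
    · right
      obtain ⟨h1, h2, h3⟩ := hab
      refine ⟨h1, ?_, ?_⟩
      · exact fib_K h2 hY
      · exact fib_K h3 hY
  have t3 : TW k (Ind G U3 ⊔ KG (C (i0 + 1) ∪ Y ∪ Z)) := by
    refine TW.mono (o.h3 (i0 + 1) (by omega) (by omega)) ?_
    intro a b hab
    rcases hab with hab | hab
    · left
      obtain ⟨h1, h2, h3⟩ := hab
      have ha : a ≠ y := fun h => hyU3 (h ▸ h2)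
      have hb : b ≠ y := fun h => hyU3 (h ▸ h3)
      refine ⟨⟨h1.ne, ha, hb, Or.inl h1⟩, fib_up (by rwa [← hD2, ← hU3]) ha,
        fib_up (by rwa [← hD2, ← hU3]) hb⟩
    · right
      obtain ⟨h1, h2, h3⟩ := hab
      refine ⟨h1, ?_, ?_⟩
      · exact fib_K h2 hY
      · exact fib_K h3 hY
  have t2 : TW k (Ind G (M i0 ∪ Z) ⊔ KG (C i0 ∪ Y ∪ Z) ⊔ KG (C (i0 + 1) ∪ Y ∪ Z)) := by
    have hYc : Y.card ≤ n' := by
      refine le_trans ?_ hn
      rw [hY, ← o.card]
      exact Finset.card_le_card (Finset.erase_subset _ _)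
    have hYd : Disjoint Y (MM (fun i => (M i).erase y') (8 * k + 7) (12 * k + 9) ∪ Z) := by
      rw [Finset.disjoint_left]
      intro u hu hm
      obtain ⟨h1, h2, h3⟩ := (mY u).1 hu
      rcases Finset.mem_union.1 hm with h4 | h4
      · rw [fib_erase] at h4
        have h5 := (Finset.mem_erase.1 h4).2
        refine Finset.disjoint_left.1 o.oo (Finset.mem_inter.2 ⟨h2, h3⟩) ?_
        rw [fib_erase]
        exact Finset.mem_erase.2 ⟨h1, h5⟩
      · exact Finset.disjoint_left.1 hoz1 h4 h2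
    refine TW.mono (o'.h2 Y hYc hYd i0 (i0 + 1) hi (by omega) (by omega)) ?_
    intro a b hab
    rcases hab with (hab | hab) | hab
    · left; left
      obtain ⟨h1, h2, h3⟩ := hab
      have hup : ∀ u, u ∈ M i0 ∪ Z → u ≠ y' ∧
          u ∈ MM (fun i => (M i).erase y') i0 (i0 + 1) ∪ Z := by
        intro u hu
        rcases Finset.mem_union.1 hu with h4 | h4
        · have h5 : u ≠ y' := fun h => hyM0 (h ▸ h4)
          exact ⟨h5, Finset.mem_union_left _ (mem_MM.2 ⟨i0, le_rfl, by omega,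
            Finset.mem_erase.2 ⟨h5, h4⟩⟩)⟩
        · exact ⟨fun h => hyZ' (h ▸ h4), Finset.mem_union_right _ h4⟩
      exact ⟨⟨h1.ne, (hup a h2).1, (hup b h3).1, Or.inl h1⟩, (hup a h2).2, (hup b h3).2⟩
    · left; right
      exact hab
    · right
      exact hab
  -- first gluing
  have hI1 : ∀ u, u ∈ U1 → u ∈ U2 → u ∈ C i0 ∪ Y ∪ Z := by
    intro u h1 h2
    rw [mU1] at h1
    rw [mU2] at h2
    rw [Finset.mem_union, Finset.mem_union]
    by_cases hz : u ∈ Z
    · exact Or.inr hz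
    by_cases hyy : u ∈ Y
    · exact Or.inl (Or.inr hyy)
    have hm : u ∈ M i0 := by
      rcases h2 with (h2 | h2) | h2
      · exact h2
      · exact absurd h2 hyy
      · exact absurd h2 hz
    refine Or.inl (Or.inl ?_)
    rcases h1 with (h1 | h1) | h1
    · obtain ⟨h3, h4⟩ := (mD1 u).1 h1
      have h5 := ho1 u h4 h3 (hmM u i0 hi hi' hm)
      rcases hS.cut_block (by omega) (by omega) h5 hm with h6 | h6
      · rw [h6]
        exact h5
      · omega
    · exact absurd h1 hz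
    · obtain ⟨j, h3, h4, h5⟩ := mem_MM.1 h1
      obtain ⟨h6, h7⟩ := hS.block_block h4 (by omega) h5 hm
      rw [h6]
      exact h7
  have hK1 : ∀ u ∈ C i0 ∪ Y ∪ Z, u ∈ U1 := by
    intro u hu
    rw [mU1]
    rcases Finset.mem_union.1 hu with hu | hu
    · rcases Finset.mem_union.1 hu with hu | hu
      · rcases eq_or_lt_of_le hi with h1 | h1
        · refine Or.inl (Or.inl ((mD1 u).2 ⟨?_, ?_⟩))
          · intro h2
            exact hyC i0 (by omega) (h2 ▸ hu)
          · exact hC1 (by rw [h1]; exact hu)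
        · exact Or.inr (hS.cut_MM h1 (by omega) (by omega) le_rfl hu)
      · obtain ⟨h1, h2, h3⟩ := (mY u).1 hu
        exact Or.inl (Or.inl ((mD1 u).2 ⟨h1, h2⟩))
    · exact Or.inl (Or.inr hu)
  have hK2 : ∀ u ∈ C i0 ∪ Y ∪ Z, u ∈ U2 := by
    intro u hu
    rw [mU2]
    rcases Finset.mem_union.1 hu with hu | hu
    · rcases Finset.mem_union.1 hu with hu | hu
      · exact Or.inl (Or.inl (hCi0 u hu))
      · exact Or.inl (Or.inr hu)
    · exact Or.inr hu
  have hK2' : ∀ u ∈ C (i0 + 1) ∪ Y ∪ Z, u ∈ U2 := by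
    intro u hu
    rw [mU2]
    rcases Finset.mem_union.1 hu with hu | hu
    · rcases Finset.mem_union.1 hu with hu | hu
      · exact Or.inl (Or.inl (hCi1 u hu))
      · exact Or.inl (Or.inr hu)
    · exact Or.inr hu
  have hK3 : ∀ u ∈ C (i0 + 1) ∪ Y ∪ Z, u ∈ U3 := by
    intro u hu
    rw [mU3]
    rcases Finset.mem_union.1 hu with hu | hu
    · rcases Finset.mem_union.1 hu with hu | hu
      · rcases eq_or_lt_of_le (by omega : i0 + 1 ≤ 12 * k + 9) with h1 | h1
        · refine Or.inl (Or.inl ((mD2 u).2 ⟨?_, ?_⟩))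
          · intro h2
            exact hyC (i0 + 1) (by omega) (h2 ▸ hu)
          · exact hC2 (by rw [← h1]; exact hu)
        · exact Or.inr (hS.cut_MM h1 (by omega) le_rfl (by omega) hu)
      · obtain ⟨h1, h2, h3⟩ := (mY u).1 hu
        exact Or.inl (Or.inl ((mD2 u).2 ⟨h1, h3⟩))
    · exact Or.inl (Or.inr hu)
  have t12 : TW k ((Ind G U1 ⊔ KG (C i0 ∪ Y ∪ Z)) ⊔
      (Ind G (M i0 ∪ Z) ⊔ KG (C i0 ∪ Y ∪ Z) ⊔ KG (C (i0 + 1) ∪ Y ∪ Z))) := by
    refine tw_glue (U1 := U1) (U2 := U2) t1 t2 ?_ ?_ ?_ ?_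
    · intro a b hab
      rcases hab with hab | hab
      · exact hab.2.1
      · exact hK1 a hab.2.1
    · intro a b hab
      rcases hab with (hab | hab) | hab
      · have h1 := hab.2.1
        rw [mU2]
        rcases Finset.mem_union.1 h1 with h2 | h2
        · exact Or.inl (Or.inl h2)
        · exact Or.inr h2
      · exact hK2 a hab.2.1
      · exact hK2' a hab.2.1
    · intro a ha b hb hne'
      right
      exact ⟨hne', hI1 a (Finset.mem_inter.1 ha).1 (Finset.mem_inter.1 ha).2,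
        hI1 b (Finset.mem_inter.1 hb).1 (Finset.mem_inter.1 hb).2⟩
    · intro a ha b hb hne'
      left; right
      exact ⟨hne', hI1 a (Finset.mem_inter.1 ha).1 (Finset.mem_inter.1 ha).2,
        hI1 b (Finset.mem_inter.1 hb).1 (Finset.mem_inter.1 hb).2⟩
  -- second gluing
  have hI2 : ∀ u, u ∈ U1 ∪ U2 → u ∈ U3 → u ∈ C (i0 + 1) ∪ Y ∪ Z := by
    intro u h1 h2
    rw [Finset.mem_union, mU1, mU2] at h1
    rw [mU3] at h2
    rw [Finset.mem_union, Finset.mem_union]
    by_cases hz : u ∈ Z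
    · exact Or.inr hz
    by_cases hyy : u ∈ Y
    · exact Or.inl (Or.inr hyy)
    refine Or.inl (Or.inl ?_)
    have h1' : u ∈ D1 ∨ u ∈ MM M (8 * k + 7) i0 ∨ u ∈ M i0 := by
      rcases h1 with ((h1 | h1) | h1) | ((h1 | h1) | h1)
      · exact Or.inl h1
      · exact absurd h1 hz
      · exact Or.inr (Or.inl h1)
      · exact Or.inr (Or.inr h1)
      · exact absurd h1 hyy
      · exact absurd h1 hz
    have h2' : u ∈ D2 ∨ u ∈ MM M (i0 + 1) (12 * k + 9) := by
      rcases h2 with (h2 | h2) | h2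
      · exact Or.inl h2
      · exact absurd h2 hz
      · exact Or.inr h2
    rcases h2' with h2 | h2
    · obtain ⟨h3, h4⟩ := (mD2 u).1 h2
      rcases h1' with h1 | h1 | h1
      · exact absurd ((mY u).2 ⟨h3, ((mD1 u).1 h1).2, h4⟩) hyy
      · obtain ⟨j, h5, h6, h7⟩ := mem_MM.1 h1
        have h8 := ho2 u h4 h3 (hmM u j h5 (by omega) h7)
        rcases hS.cut_block (by omega) (by omega) h8 h7 with h9 | h9 <;> omega
      · have h8 := ho2 u h4 h3 (hmM u i0 hi hi' h1)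
        rcases hS.cut_block (by omega) (by omega) h8 h1 with h9 | h9
        · omega
        · rw [h9]
          exact h8
    · obtain ⟨j, h5, h6, h7⟩ := mem_MM.1 h2
      rcases h1' with h1 | h1 | h1
      · obtain ⟨h3, h4⟩ := (mD1 u).1 h1
        have h8 := ho1 u h4 h3 (hmM u j (by omega) h6 h7)
        rcases hS.cut_block (by omega) (by omega) h8 h7 with h9 | h9 <;> omega
      · obtain ⟨j', h3, h4, h8⟩ := mem_MM.1 h1
        obtain ⟨h9, _⟩ := hS.block_block (by omega : j' < j) (by omega) h8 h7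
        omega
      · exact (hS.block_block (by omega : i0 < j) (by omega) h1 h7).2
  have t123 : TW k (((Ind G U1 ⊔ KG (C i0 ∪ Y ∪ Z)) ⊔
      (Ind G (M i0 ∪ Z) ⊔ KG (C i0 ∪ Y ∪ Z) ⊔ KG (C (i0 + 1) ∪ Y ∪ Z))) ⊔
      (Ind G U3 ⊔ KG (C (i0 + 1) ∪ Y ∪ Z))) := by
    refine tw_glue (U1 := U1 ∪ U2) (U2 := U3) t12 t3 ?_ ?_ ?_ ?_
    · intro a b hab
      rcases hab with (hab | hab) | ((hab | hab) | hab)
      · exact Finset.mem_union_left _ hab.2.1
      · exact Finset.mem_union_left _ (hK1 a hab.2.1)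
      · refine Finset.mem_union_right _ ?_
        have h1 := hab.2.1
        rw [mU2]
        rcases Finset.mem_union.1 h1 with h2 | h2
        · exact Or.inl (Or.inl h2)
        · exact Or.inr h2
      · exact Finset.mem_union_right _ (hK2 a hab.2.1)
      · exact Finset.mem_union_right _ (hK2' a hab.2.1)
    · intro a b hab
      rcases hab with hab | hab
      · exact hab.2.1
      · exact hK3 a hab.2.1
    · intro a ha b hb hne'
      right; right
      exact ⟨hne', hI2 a (Finset.mem_inter.1 ha).1 (Finset.mem_inter.1 ha).2,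
        hI2 b (Finset.mem_inter.1 hb).1 (Finset.mem_inter.1 hb).2⟩
    · intro a ha b hb hne'
      right
      exact ⟨hne', hI2 a (Finset.mem_inter.1 ha).1 (Finset.mem_inter.1 ha).2,
        hI2 b (Finset.mem_inter.1 hb).1 (Finset.mem_inter.1 hb).2⟩
  -- every edge of `G` is in one of the three graphs
  have hcov : ∀ u w, G.Adj u w → (u ∈ U1 ∧ w ∈ U1) ∨ (u ∈ M i0 ∪ Z ∧ w ∈ M i0 ∪ Z) ∨
      (u ∈ U3 ∧ w ∈ U3) := by
    -- blocks
    have hblock : ∀ j, 8 * k + 7 ≤ j → j < 12 * k + 9 → ∀ u w, (u ∈ M j ∨ u ∈ Z) →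
        (w ∈ M j ∨ w ∈ Z) → (u ∈ U1 ∧ w ∈ U1) ∨ (u ∈ M i0 ∪ Z ∧ w ∈ M i0 ∪ Z) ∨
          (u ∈ U3 ∧ w ∈ U3) := by
      intro j hj1 hj2 u w hu hw
      rcases lt_trichotomy j i0 with hlt | heq | hgt
      · left
        rw [mU1, mU1]
        constructor
        · rcases hu with hu | hu
          · exact Or.inr (mem_MM.2 ⟨j, hj1, hlt, hu⟩)
          · exact Or.inl (Or.inr hu)
        · rcases hw with hw | hw
          · exact Or.inr (mem_MM.2 ⟨j, hj1, hlt, hw⟩)
          · exact Or.inl (Or.inr hw)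
      · right; left
        subst heq
        exact ⟨Finset.mem_union.2 hu, Finset.mem_union.2 hw⟩
      · right; right
        rw [mU3, mU3]
        constructor
        · rcases hu with hu | hu
          · exact Or.inr (mem_MM.2 ⟨j, hgt, hj2, hu⟩)
          · exact Or.inl (Or.inr hu)
        · rcases hw with hw | hw
          · exact Or.inr (mem_MM.2 ⟨j, hgt, hj2, hw⟩)
          · exact Or.inl (Or.inr hw)
    have hinner : ∀ u w, G.Adj u w →
        u ∈ MM M (8 * k + 7) (12 * k + 9) \ (C (8 * k + 7) ∪ C (12 * k + 9)) →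
        (u ∈ U1 ∧ w ∈ U1) ∨ (u ∈ M i0 ∪ Z ∧ w ∈ M i0 ∪ Z) ∨ (u ∈ U3 ∧ w ∈ U3) := by
      intro u w huw hu
      obtain ⟨hu1, hu2⟩ := Finset.mem_sdiff.1 hu
      rw [Finset.mem_union, not_or] at hu2
      obtain ⟨i, hi1, hi2, hui⟩ := mem_MM.1 hu1
      by_cases hwZ : w ∈ Z
      · exact hblock i hi1 hi2 u w (Or.inl hui) (Or.inr hwZ)
      have hc0 : u ∉ C 0 := by
        intro hc
        rcases hS.cut_block (by omega) (by omega) hc hui with h9 | h9 <;> omega
      have hcm : u ∉ C (20 * k + 17) := by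
        intro hc
        rcases hS.cut_block le_rfl (by omega) hc hui with h9 | h9 <;> omega
      obtain ⟨j, hj, huj, hwj⟩ := hS.edge_block (by omega : i < 20 * k + 17) hui hc0 hcm huw hwZ
      have hj1 : 8 * k + 7 ≤ j := by
        by_contra hlt
        obtain ⟨h1, h2⟩ := hS.block_block (by omega : j < i) (by omega) huj hui
        have h3 : j + 1 = 8 * k + 7 := by omega
        exact hu2.1 (by rw [← h3]; exact h2)
      have hj2 : j < 12 * k + 9 := by
        by_contra hlt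
        obtain ⟨h1, h2⟩ := hS.block_block (by omega : i < j) (by omega) hui huj
        have h3 : i + 1 = 12 * k + 9 := by omega
        exact hu2.2 (by rw [← h3]; exact h2)
      exact hblock j hj1 hj2 u w (Or.inl huj) (Or.inl hwj)
    intro u w huw
    by_cases hu : u ∈ MM M (8 * k + 7) (12 * k + 9) \ (C (8 * k + 7) ∪ C (12 * k + 9))
    · exact hinner u w huw hu
    by_cases hw : w ∈ MM M (8 * k + 7) (12 * k + 9) \ (C (8 * k + 7) ∪ C (12 * k + 9))
    · rcases hinner w u huw.symm hw with h1 | h1 | h1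
      · exact Or.inl ⟨h1.2, h1.1⟩
      · exact Or.inr (Or.inl ⟨h1.2, h1.1⟩)
      · exact Or.inr (Or.inr ⟨h1.2, h1.1⟩)
    have hyin : y ∈ MM M (8 * k + 7) (12 * k + 9) \ (C (8 * k + 7) ∪ C (12 * k + 9)) := by
      refine Finset.mem_sdiff.2 ⟨hmM y i0 hi hi' hy, ?_⟩
      rw [Finset.mem_union, not_or]
      exact ⟨hyC _ (by omega), hyC _ (by omega)⟩
    have huy : u ≠ y := fun h' => hu (h' ▸ hyin)
    have hwy : w ≠ y := fun h' => hw (h' ▸ hyin)
    have hback : ∀ v, v ∉ MM M (8 * k + 7) (12 * k + 9) \ (C (8 * k + 7) ∪ C (12 * k + 9)) →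
        v ∉ MM (fun i => (M i).erase y) (8 * k + 7) (12 * k + 9) \
          (C (8 * k + 7) ∪ C (12 * k + 9)) := by
      intro v hv hv'
      rw [fib_erase] at hv'
      obtain ⟨h1, h2⟩ := Finset.mem_sdiff.1 hv'
      exact hv (Finset.mem_sdiff.2 ⟨(Finset.mem_erase.1 h1).2, h2⟩)
    rcases o.cov u w ⟨huw.ne, huy, hwy, Or.inl huw⟩ (hback u hu) (hback w hw) with h1 | h1
    · left
      rw [mU1, mU1, mD1, mD1]
      exact ⟨Or.inl ((Finset.mem_union.1 h1.1).imp_left fun h2 => ⟨huy, h2⟩),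
        Or.inl ((Finset.mem_union.1 h1.2).imp_left fun h2 => ⟨hwy, h2⟩)⟩
    · right; right
      rw [mU3, mU3, mD2, mD2]
      exact ⟨Or.inl ((Finset.mem_union.1 h1.1).imp_left fun h2 => ⟨huy, h2⟩),
        Or.inl ((Finset.mem_union.1 h1.2).imp_left fun h2 => ⟨hwy, h2⟩)⟩
  refine hO.ntw (TW.mono t123 ?_)
  intro u w huw
  rcases hcov u w huw with h1 | h1 | h1
  · exact Or.inl (Or.inl (Or.inl ⟨huw, h1.1, h1.2⟩))
  · exact Or.inl (Or.inr (Or.inl (Or.inl ⟨huw, h1.1, h1.2⟩)))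
  · exact Or.inr (Or.inl ⟨huw, h1.1, h1.2⟩)

/- END fib -/

/- MODULE fic (M) -/
/-- The strip theorem. PROOF. `GStrip.coarse` and `Strip.rail_edge` with `t = 3`, `m = 20k + 17`
(`60 k + 51 = 3 * (20 k + 17)`); `SW` for the coarse strip: `Inn` and the end cuts are the same sets
(`MM` of the triples is `MM M 0 (60k + 51)`). Take the rail edges in the blocks `i0 = 8k + 7` and `i0' = 8k + 8`
(`< 12k + 9`), apply `mid_ctr` to both, and `two_edges` in the order `n ≤ n'`. -/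
theorem strip_false {k : ℕ} {G : SimpleGraph V} (hO : Obs k G) {M C : ℕ → Finset V}
    {Z J : Finset V} {R : V → Finset V} (h : GStrip G (60 * k + 51) M C Z J R)
    (hsw : SW k G (60 * k + 51) M C Z) : False := by
  have h60 : 60 * k + 51 = 3 * (20 * k + 17) := by ring
  rw [h60] at h hsw
  have h' := h.coarse (t := 3) (by norm_num)
  have hMM : MM (fun i => MM M (3 * i) (3 * i + 3)) 0 (20 * k + 17) =
      MM M 0 (3 * (20 * k + 17)) := by
    ext u
    rw [mem_MM, mem_MM]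
    constructor
    · rintro ⟨i, _, h2, h3⟩
      obtain ⟨j, h4, h5, h6⟩ := mem_MM.1 h3
      exact ⟨j, Nat.zero_le _, by omega, h6⟩
    · rintro ⟨j, _, h2, h3⟩
      exact ⟨j / 3, Nat.zero_le _, by omega, mem_MM.2 ⟨j, by omega, by omega, h3⟩⟩
  have hsw' : SW k G (20 * k + 17) (fun i => MM M (3 * i) (3 * i + 3)) (fun i => C (3 * i)) Z := by
    unfold SW Inn at hsw ⊢
    rw [hMM]
    exact hsw
  obtain ⟨a, ha, x, y, hxy, hxa, hya, hx, hy, hx0, hy0, hx1, hy1⟩ :=
    h.toStrip.rail_edge (i := 8 * k + 7) (by omega)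
  obtain ⟨a', ha', x', y', hxy', hxa', hya', hx', hy', hx0', hy0', hx1', hy1'⟩ :=
    h.toStrip.rail_edge (i := 8 * k + 8) (by omega)
  obtain ⟨n, O1, O2, o⟩ := mid_ctr hO h' hsw' (i0 := 8 * k + 7) (by omega) ha hxy hxa hya hx hy
    hx0 hy0 hx1 hy1
  obtain ⟨n', O1', O2', o'⟩ := mid_ctr hO h' hsw' (i0 := 8 * k + 8) (by omega) ha' hxy' hxa' hya'
    hx' hy' hx0' hy0' hx1' hy1'
  rcases le_total n n' with hn | hn
  · exact two_edges hO h' (i0 := 8 * k + 7) (i0' := 8 * k + 8) le_rfl (by omega) (by omega)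
      (by omega) hx hy hx0 hy0 hx1 hy1 hx' hy' hx0' hy0' hx1' hy1' hn o o'
  · exact two_edges hO h' (i0 := 8 * k + 8) (i0' := 8 * k + 7) (by omega) (by omega) (by omega)
      (by omega) hx' hy' hx0' hy0' hx1' hy1' hx hy hx0 hy0 hx1 hy1 hn o' o

/-- the number of blocks needed in phase 1 -/
def LL (k : ℕ) : ℕ := (60 * k + 51) ^ (k + 1)

/-- the length of a chain that is impossible -/
def NN (k : ℕ) : ℕ := (2 * LL k + 1) ^ (2 * (k + 1) + 1)

/- END fic -/

/- MODULE fid (M) -/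
/-- PROOF. `(k + 1) ^ 3 < (60 k + 51) ^ (k + 1)`: for `k = 0`, `k = 1` by computation, for `k ≥ 2` from
`(60 k + 51) ^ 3 ≤ (60 k + 51) ^ (k + 1)`. -/
theorem LL_gt (k : ℕ) : (k + 1) ^ 3 < LL k := by
  unfold LL
  rcases Nat.lt_or_ge k 2 with hk | hk
  · interval_cases k <;> norm_num
  · calc (k + 1) ^ 3 < (60 * k + 51) ^ 3 := Nat.pow_lt_pow_left (by omega) (by norm_num)
      _ ≤ (60 * k + 51) ^ (k + 1) := Nat.pow_le_pow_right (by omega) (by omega)

/-- A long chain of separations on the small side is impossible. PROOF. `exists_cuts` (`K = k + 1`,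
`L = LL k`). If `lm ≤ |Z|`: `Cuts.fam` and `fam_false` (`|Z| ≤ lm ≤ k + 1`, as `Z` is in a cut; `LL_gt`; the pieces avoid
`A` by `hA` and `F s ⊆ Ω ⊆ B`). Otherwise `Cuts.strip`, then `exists_gstrip` with `r = 60k + 51`, `K0 = k + 1`
(`|J| + |Z| = lm ≤ k + 1`), `sw_of_small` (the blocks are in `Ω ⊆ B`; an inner vertex of the new strip is an inner
vertex of the old one, so it is not in `P 0`, `Q N` by `Cuts.inner`, hence not in `A`) and `strip_false`. -/
theorem schain_false {k : ℕ} {G : SimpleGraph V} {A B Ω : Finset V} {P Q : ℕ → Finset V}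
    (hO : Obs k G) (hs : Small k G A B) (h : SChain G Ω P Q (NN k) (k + 1)) (hB : Ω ⊆ B)
    (hA : ∀ u ∈ Ω, u ∉ P 0 → u ∉ Q (NN k) → u ∉ A) : False := by
  have hL1 : 1 ≤ LL k := by
    have := LL_gt k
    omega
  obtain ⟨lm, Z, P', Q', hlm, hc⟩ := exists_cuts (L := LL k) h le_rfl
  have hZlm : Z.card ≤ lm := by
    rw [← hc.ord 0 (Nat.zero_le _)]
    exact Finset.card_le_card (hc.zs 0 (Nat.zero_le _))
  have hZΩ : Z ⊆ Ω := by
    intro u hu
    have h1 := hc.zs 0 (Nat.zero_le _) hu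
    rw [← (hc.sp 0 (Nat.zero_le _)).1]
    exact Finset.mem_union_left _ (Finset.mem_inter.1 h1).1
  rcases Nat.lt_or_ge Z.card lm with hZ | hZ
  · obtain ⟨J, R, hst, hJ⟩ := hc.strip hL1 h.cl hZ
    obtain ⟨M', C', Z', J', hg, hZ', hM', hlast⟩ :=
      exists_gstrip (r := 60 * k + 51) (K0 := k + 1) hst (by omega) (by omega) le_rfl
    have hMΩ : ∀ s < LL k, (P' (s + 1) ∩ Q' s) \ Z ⊆ Ω := by
      intro s hs u hu
      rw [← (hc.sp (s + 1) hs).1]
      exact Finset.mem_union_left _ (Finset.mem_inter.1 (Finset.mem_sdiff.1 hu).1).1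
    have hsw : SW k G (60 * k + 51) M' C' Z' := by
      refine sw_of_small hs hg.toStrip (by omega) ?_ ((hZ'.trans hZΩ).trans hB) ?_
      · intro u hu
        obtain ⟨i, -, hi, hui⟩ := mem_MM.1 hu
        obtain ⟨s, -, hs', hus⟩ := mem_MM.1 (hM' i hi hui)
        exact hB (hMΩ s hs' hus)
      · rw [Finset.disjoint_left]
        intro u hu
        unfold Inn at hu
        rw [Finset.mem_sdiff, Finset.mem_union, not_or] at hu
        obtain ⟨hu1, hu2, hu3⟩ := hu
        obtain ⟨i, -, hi, hui⟩ := mem_MM.1 hu1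
        obtain ⟨h0, h1⟩ := hlast i hi u hui hu2 hu3
        obtain ⟨s, -, hs', hus⟩ := mem_MM.1 (hM' i hi hui)
        obtain ⟨a1, a2, a3⟩ := hc.inner hs' hus h0 h1
        exact hA u a1 a2 a3
    exact strip_false hO hg hsw
  · obtain ⟨F, hF, hd⟩ := hc.fam h.cl hZ
    refine fam_false hO hs Z F (by omega) (fun i hi => ?_) hd (LL_gt k)
    obtain ⟨h1, h2, h3⟩ := hF i hi
    refine ⟨h1, h2.trans hB, ?_, fun u hu => (h3 u hu).2.2⟩
    rw [Finset.disjoint_left]
    intro u hu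
    exact hA u (h2 hu) (h3 u hu).1 (h3 u hu).2.1

/-- the bound for the small sides of order at most `ℓ` -/
def fB (k : ℕ) : ℕ → ℕ
  | 0 => 0
  | ℓ + 1 => 1 + (2 * fB k ℓ + 2 * (ℓ + 1)) * (1 + (ℓ + 1) * ((2 * (ℓ + 1) + 5) * NN k))

/- END fid -/

/- MODULE fie (M) -/
/-- PROOF. Induction on `ℓ`. `ℓ = 0`: `small_zero`. `ℓ + 1`: if `B \ A` is empty, trivial. Otherwise `exists_pk` with
`F = fB k ℓ` (an order `< ℓ + 1` is `≤ ℓ`) gives the pocket situation with `Fs = 2 F + (ℓ + 1)`; if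
`|B' \ A| > (Fs + (ℓ + 1)) * (1 + …)`, `exists_schain` and `schain_false` give a contradiction. And
`|B \ A| ≤ |B' \ A| + 1` in both cases of `alt`. -/
theorem small_bound {k : ℕ} {G : SimpleGraph V} (hO : Obs k G) :
    ∀ ℓ ≤ k + 1, ∀ A B, Small k G A B → (A ∩ B).card ≤ ℓ → (B \ A).card ≤ fB k ℓ := by
  intro ℓ
  induction ℓ with
  | zero =>
    intro _ A B hs h0
    rw [small_zero hO hs (Nat.le_zero.1 h0)]
    exact Nat.zero_le _
  | succ ℓ ih =>
    intro hl A B hs hc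
    by_cases hne : (B \ A).Nonempty
    · obtain ⟨Γ, B', x, y, hp⟩ := exists_pk (ℓ := ℓ + 1) (F := fB k ℓ) hO hs
        (fun A' B' h' h'' => ih (by omega) A' B' h' (by omega)) hne
      by_contra hbig
      rw [not_le] at hbig
      have h1 : (B \ A).card ≤ (B' \ A).card + 1 := by
        rcases hp.alt with h | h
        · rw [h.2]
          exact Nat.le_succ _
        · rw [h.2]
          calc (B \ A).card ≤ (insert y (B.erase y \ A)).card := by
                apply Finset.card_le_card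
                intro u hu
                rw [Finset.mem_sdiff] at hu
                by_cases huy : u = y
                · exact huy ▸ Finset.mem_insert_self _ _
                · exact Finset.mem_insert_of_mem
                    (Finset.mem_sdiff.2 ⟨Finset.mem_erase.2 ⟨huy, hu.1⟩, hu.2⟩)
            _ ≤ _ := Finset.card_insert_le _ _
      have h2 : (2 * fB k ℓ + (ℓ + 1) + (ℓ + 1)) *
          (1 + (ℓ + 1) * ((2 * (ℓ + 1) + 5) * NN k)) < (B' \ A).card := by
        have e : fB k (ℓ + 1) = 1 + (2 * fB k ℓ + (ℓ + 1) + (ℓ + 1)) *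
            (1 + (ℓ + 1) * ((2 * (ℓ + 1) + 5) * NN k)) := by
          have e' : 2 * fB k ℓ + (ℓ + 1) + (ℓ + 1) = 2 * fB k ℓ + 2 * (ℓ + 1) := by ring
          rw [e']
          rfl
        rw [e] at hbig
        omega
      obtain ⟨Ω, P, Q, hch, hΩ, hA⟩ := exists_schain hs.1 hp hc h2
      exact schain_false hO hs hch hΩ hA
    · rw [Finset.not_nonempty_iff_eq_empty] at hne
      rw [hne, Finset.card_empty]
      exact Nat.zero_le _

/- END fie -/

/- MODULE fif (L) -/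
private theorem fif_sp {k : ℕ} {G : SimpleGraph V} {x y : V} (S : Sch (Dl G x y) k)
    {U X : Finset V} (hL : ∀ u ∈ U, S.L u ⊆ X) :
    Sp G univ (insert x (univ \ U.biUnion S.D)) (insert x (U.biUnion S.D ∪ X)) := by
  constructor
  · ext u
    simp only [mem_union, mem_insert, mem_sdiff, mem_univ, true_and, iff_true]
    by_cases h : u ∈ U.biUnion S.D
    · exact Or.inr (Or.inr (Or.inl h))
    · exact Or.inl (Or.inr h)
  · intro u hu huB w hw hwA huw
    simp only [mem_insert, mem_union, not_or] at huB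
    simp only [mem_insert, mem_sdiff, mem_univ, true_and, not_or, not_not] at hwA
    obtain ⟨hux, huE, huX⟩ := huB
    obtain ⟨hwx, hwE⟩ := hwA
    rw [mem_biUnion] at hwE
    obtain ⟨v, hvU, hwv⟩ := hwE
    have hadj : (Dl G x y).Adj w u :=
      ⟨huw.symm, fun h => hwx h.1, fun h => hux h.2⟩
    rcases S.D_adj hwv hadj with h1 | h1
    · exact huE (mem_biUnion.mpr ⟨v, hvU, h1⟩)
    · exact huX (hL v hvU h1)

private theorem fif_ord {k : ℕ} {G : SimpleGraph V} {x y : V} (S : Sch (Dl G x y) k)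
    {U X : Finset V} (hX : X.card ≤ k) :
    ((insert x (univ \ U.biUnion S.D)) ∩ (insert x (U.biUnion S.D ∪ X))).card ≤ k + 1 := by
  have h1 : (insert x (univ \ U.biUnion S.D)) ∩ (insert x (U.biUnion S.D ∪ X)) ⊆
      insert x X := by
    intro u hu
    simp only [mem_inter, mem_insert, mem_union, mem_sdiff, mem_univ, true_and] at hu ⊢
    tauto
  refine (card_le_card h1).trans ((card_insert_le _ _).trans (by omega))

private theorem fif_small {k F : ℕ} {G : SimpleGraph V} {x y : V} (S : Sch (Dl G x y) k)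
    (hF : ∀ A B, Small k G A B → (A ∩ B).card ≤ k + 1 → (B \ A).card ≤ F)
    {U X : Finset V} (hX : X.card ≤ k)
    (h : Small k G (insert x (univ \ U.biUnion S.D)) (insert x (U.biUnion S.D ∪ X))) :
    (U.biUnion S.D).card ≤ F + 1 := by
  have h1 := hF _ _ h (fif_ord S hX)
  have h2 : U.biUnion S.D ⊆ insert x ((insert x (U.biUnion S.D ∪ X)) \
      (insert x (univ \ U.biUnion S.D))) := by
    intro u hu
    simp only [mem_insert, mem_sdiff, mem_union, mem_univ, true_and, not_or, not_not]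
    by_cases hux : u = x
    · exact Or.inl hux
    · exact Or.inr ⟨Or.inr (Or.inl hu), hux, hu⟩
  exact (card_le_card h2).trans ((card_insert_le _ _).trans (by omega))

private theorem fif_big {k F : ℕ} {G : SimpleGraph V} {x y : V} (hn : ¬ TW k G)
    (S : Sch (Dl G x y) k)
    (hF : ∀ A B, Small k G A B → (A ∩ B).card ≤ k + 1 → (B \ A).card ≤ F)
    {U X : Finset V} (hL : ∀ u ∈ U, S.L u ⊆ X) (hX : X.card ≤ k)
    (h : ¬ Small k G (insert x (univ \ U.biUnion S.D)) (insert x (U.biUnion S.D ∪ X))) :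
    Fintype.card V ≤ (U.biUnion S.D).card + k + (F + 1) := by
  have h0 := (small_or hn (fif_sp S hL)).resolve_left h
  have h1 := hF _ _ h0 (by rw [inter_comm]; exact fif_ord S hX)
  have h2 : (univ : Finset V) ⊆ (U.biUnion S.D) ∪ X ∪ insert x
      ((insert x (univ \ U.biUnion S.D)) \ (insert x (U.biUnion S.D ∪ X))) := by
    intro u _
    simp only [mem_insert, mem_sdiff, mem_union, mem_univ, true_and, not_or]
    tauto
  have h3 := card_le_card h2
  have h4 := card_union_le (U.biUnion S.D ∪ X) (insert x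
      ((insert x (univ \ U.biUnion S.D)) \ (insert x (U.biUnion S.D ∪ X))))
  have h5 := card_union_le (U.biUnion S.D) X
  have h6 := card_insert_le x
      ((insert x (univ \ U.biUnion S.D)) \ (insert x (U.biUnion S.D ∪ X)))
  rw [card_univ] at h3
  omega

/-- The end (text, section 10). PROOF. If `V` is empty, trivial. Otherwise take an edge `xy` (`hO.iso`) and a
scheme `S` of `Γ = Dl G x y`. For `U, X ⊆ V` with `|X| ≤ k`, `S.L u ⊆ X` for all `u ∈ U`, put
`E = U.biUnion S.D`; its `Γ`-neighbours are in `E ∪ X`, so `(A, B) = (insert x (univ \ E), insert x (E ∪ X))` is a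
separation of `G` of order at most `k + 1`. Call `(U, X)` big if `¬ Small k G A B`. Big: `Small k G B A` (`small_or`),
so `|univ \ (E ∪ X)| ≤ F + 1`. Not big: `|E| ≤ F + 1`. The pair (all `u` with `L u = ∅`, `∅`) is big: `E = univ`
(`exists_root`), and if it were small then `Ind G {x} ⊔ KG {x}`, which has no edge, would not be `TW`. Take a big
`(U, X)` with least `|E| * (card V + 1) + |U|`. If `U = ∅`: `|V| ≤ F + 1 + k`. If `|U| ≥ 2`, `u ∈ U`: `(U.erase u, X)` and
`({u}, X)` are not big, so `|E| ≤ 2 (F + 1)`, `|V| ≤ 3 (F + 1) + k`. If `U = {v}`: `E = D v`. For `w ∈ D v`, `w ≠ v`, let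
`u` be as in `exists_child`: `L u ⊆ insert v (L v)`. If `|L v| < k`, the pair (`{u ∈ D v | u ≠ v, L u ⊆ insert v (L v)}`,
`insert v (L v)`) is not big (its union is in `D v \ {v}`), so `|D v| ≤ 1 + (F + 1)`. If `|L v| = k`, then `|L u| ≤ k` gives
a `b ∈ insert v (L v)`, `b ∉ L u`; for each `b` the pair (`{u ∈ D v | u ≠ v, L u ⊆ (insert v (L v)).erase b}`,
`(insert v (L v)).erase b`) is not big, so `|D v| ≤ 1 + (k + 1) (F + 1)`. And `|V| ≤ |D v| + k + (F + 1)` (here
`X` has at most `k` elements). -/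
theorem final_bound {k F : ℕ} {G : SimpleGraph V} (hO : Obs k G)
    (hF : ∀ A B, Small k G A B → (A ∩ B).card ≤ k + 1 → (B \ A).card ≤ F) :
    Fintype.card V ≤ (k + 3) * (F + 1) + 2 * k + 4 := by
  classical
  rcases isEmpty_or_nonempty V with hV | ⟨⟨x⟩⟩
  · rw [Fintype.card_eq_zero]
    exact Nat.zero_le _
  obtain ⟨y, hxy⟩ := hO.iso x
  obtain ⟨S⟩ := hO.del x y hxy
  set N := Fintype.card V with hN
  -- the big pairs
  set Pr : ℕ → Prop := fun m => ∃ U X : Finset V, X.card ≤ k ∧ (∀ u ∈ U, S.L u ⊆ X) ∧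
    ¬ Small k G (insert x (univ \ U.biUnion S.D)) (insert x (U.biUnion S.D ∪ X)) ∧
    (U.biUnion S.D).card * (N + 1) + U.card = m with hPr
  have hex : ∃ m, Pr m := by
    refine ⟨_, univ.filter (fun u => S.L u = ∅), ∅, by simp, ?_, ?_, rfl⟩
    · intro u hu
      rw [(mem_filter.mp hu).2]
    · intro hsm
      have hE : (univ.filter (fun u => S.L u = ∅)).biUnion S.D = univ := by
        ext u
        simp only [mem_biUnion, mem_filter, mem_univ, true_and, iff_true]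
        obtain ⟨ρ, h1, h2⟩ := S.exists_root u
        exact ⟨ρ, h2, h1⟩
      have hw := hsm.2 _ _ hsm.1 Subset.rfl Subset.rfl
      apply hw
      refine TW.mono (hO.del x y hxy) fun a b hab => ?_
      rw [hE] at hab
      exfalso
      rcases hab with hab | hab
      · have h1 : a = x := by simpa using hab.2.1
        have h2 : b = x := by simpa using hab.2.2
        exact hab.1.ne (h1.trans h2.symm)
      · have h1 : a = x := by simpa using hab.2.1
        have h2 : b = x := by simpa using hab.2.2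
        exact hab.1 (h1.trans h2.symm)
  obtain ⟨U, X, hX, hL, hbig, hm⟩ := Nat.find_spec hex
  have hmin : ∀ U' X' : Finset V, X'.card ≤ k → (∀ u ∈ U', S.L u ⊆ X') →
      (U'.biUnion S.D).card * (N + 1) + U'.card < (U.biUnion S.D).card * (N + 1) + U.card →
      (U'.biUnion S.D).card ≤ F + 1 := by
    intro U' X' hX' hL' hlt
    apply fif_small S hF hX'
    by_contra hns
    rw [hm] at hlt
    exact Nat.find_min hex hlt ⟨U', X', hX', hL', hns, rfl⟩
  have hcard := fif_big hO.ntw S hF hL hX hbig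
  rw [← hN] at hcard
  have hk3 : (k + 3) * (F + 1) = (k + 1) * (F + 1) + 2 * (F + 1) := by ring
  -- smaller unions inside `D v`
  have hlt_of : ∀ v : V, U = {v} → ∀ U' : Finset V, (∀ u ∈ U', u ∈ S.D v ∧ u ≠ v) →
      (U'.biUnion S.D).card * (N + 1) + U'.card < (U.biUnion S.D).card * (N + 1) + U.card := by
    intro v hUv U' hU'
    have h1 : U'.biUnion S.D ⊆ (S.D v).erase v := by
      intro w hw
      rw [mem_biUnion] at hw
      obtain ⟨u, hu, hwu⟩ := hw
      obtain ⟨h2, h3⟩ := hU' u hu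
      rw [mem_erase]
      refine ⟨?_, S.D_trans hwu h2⟩
      rintro rfl
      have h4 := S.D_lt h2 h3
      have h5 := S.D_le hwu
      omega
    have h2 : (U'.biUnion S.D).card + 1 ≤ (S.D v).card := by
      have h3 := card_le_card h1
      have h4 := card_erase_add_one (S.self_mem v)
      omega
    have h3 : (U.biUnion S.D).card = (S.D v).card := by rw [hUv, singleton_biUnion]
    have h4 : U'.card ≤ N := by
      rw [hN]
      exact card_le_univ _
    rw [h3]
    calc (U'.biUnion S.D).card * (N + 1) + U'.card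
        < (U'.biUnion S.D).card * (N + 1) + (N + 1) := by omega
      _ = ((U'.biUnion S.D).card + 1) * (N + 1) := by ring
      _ ≤ (S.D v).card * (N + 1) := Nat.mul_le_mul_right _ h2
      _ ≤ _ := Nat.le_add_right _ _
  rcases Nat.lt_or_ge 1 U.card with h2 | h2
  · -- at least two elements
    obtain ⟨u, hu⟩ : U.Nonempty := card_pos.mp (by omega)
    have h3 : (U.erase u).biUnion S.D ⊆ U.biUnion S.D :=
      biUnion_subset_biUnion_of_subset_left _ (erase_subset _ _)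
    have h4 : ({u} : Finset V).biUnion S.D ⊆ U.biUnion S.D :=
      biUnion_subset_biUnion_of_subset_left _ (singleton_subset_iff.mpr hu)
    have h5 := hmin (U.erase u) X hX (fun w hw => hL w (mem_of_mem_erase hw)) (by
      have h6 := Nat.mul_le_mul_right (N + 1) (card_le_card h3)
      have h7 := card_erase_add_one hu
      omega)
    have h6 := hmin {u} X hX (fun w hw => by
      rw [mem_singleton] at hw
      rw [hw]
      exact hL u hu) (by
      have h6 := Nat.mul_le_mul_right (N + 1) (card_le_card h4)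
      rw [card_singleton]
      omega)
    have h7 : U.biUnion S.D ⊆ (U.erase u).biUnion S.D ∪ ({u} : Finset V).biUnion S.D := by
      intro w hw
      rw [mem_biUnion] at hw
      obtain ⟨v, hv, hwv⟩ := hw
      rw [mem_union, mem_biUnion, mem_biUnion]
      by_cases hvu : v = u
      · exact Or.inr ⟨v, mem_singleton.mpr hvu, hwv⟩
      · exact Or.inl ⟨v, mem_erase.mpr ⟨hvu, hv⟩, hwv⟩
    have h8 := (card_le_card h7).trans (card_union_le _ _)
    have h9 : F + 1 ≤ (k + 1) * (F + 1) := Nat.le_mul_of_pos_left _ (by omega)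
    omega
  rcases Nat.eq_zero_or_pos U.card with h0 | h0
  · -- no element
    rw [card_eq_zero] at h0
    rw [h0, biUnion_empty, card_empty] at hcard
    have h9 : F + 1 ≤ (k + 1) * (F + 1) := Nat.le_mul_of_pos_left _ (by omega)
    omega
  obtain ⟨v, hv⟩ := card_eq_one.mp (show U.card = 1 by omega)
  have hE : (U.biUnion S.D).card = (S.D v).card := by rw [hv, singleton_biUnion]
  have hvL : v ∉ S.L v := fun h => by
    have := S.lt v v h
    omega
  have hcL := card_insert_of_notMem hvL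
  rcases Nat.lt_or_ge (S.L v).card k with hlt | hge
  · -- less than `k` elements in `L v`
    set U1 := (S.D v).filter fun u => u ≠ v ∧ S.L u ⊆ insert v (S.L v) with hU1
    have h3 := hmin U1 (insert v (S.L v)) (by omega) (fun u hu => (mem_filter.mp hu).2.2)
      (hlt_of v hv U1 fun u hu => ⟨(mem_filter.mp hu).1, (mem_filter.mp hu).2.1⟩)
    have h4 : S.D v ⊆ insert v (U1.biUnion S.D) := by
      intro w hw
      rw [mem_insert]
      by_cases hwv : w = v
      · exact Or.inl hwv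
      · obtain ⟨u, hu1, hu2, hu3, -, hu5⟩ := S.exists_child hw hwv
        exact Or.inr (mem_biUnion.mpr ⟨u, mem_filter.mpr ⟨hu1, hu2, hu5⟩, hu3⟩)
    have h5 := (card_le_card h4).trans (card_insert_le _ _)
    have h9 : F + 1 ≤ (k + 1) * (F + 1) := Nat.le_mul_of_pos_left _ (by omega)
    omega
  · -- `k` elements in `L v`
    set W := insert v (S.L v) with hW
    have hWc : W.card = k + 1 := by
      have := S.card v
      omega
    set Ub : V → Finset V := fun b =>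
      (S.D v).filter fun u => u ≠ v ∧ S.L u ⊆ W.erase b with hUb
    have h3 : ∀ b ∈ W, ((Ub b).biUnion S.D).card ≤ F + 1 := by
      intro b hb
      refine hmin (Ub b) (W.erase b) ?_ (fun u hu => (mem_filter.mp hu).2.2)
        (hlt_of v hv (Ub b) fun u hu => ⟨(mem_filter.mp hu).1, (mem_filter.mp hu).2.1⟩)
      have := card_erase_add_one hb
      omega
    have h4 : S.D v ⊆ insert v (W.biUnion fun b => (Ub b).biUnion S.D) := by
      intro w hw
      rw [mem_insert]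
      by_cases hwv : w = v
      · exact Or.inl hwv
      · obtain ⟨u, hu1, hu2, hu3, -, hu5⟩ := S.exists_child hw hwv
        obtain ⟨b, hb, hbu⟩ : ∃ b ∈ W, b ∉ S.L u := by
          by_contra hcon
          push Not at hcon
          have h6 := card_le_card (show W ⊆ S.L u from hcon)
          have h7 := S.card u
          omega
        refine Or.inr (mem_biUnion.mpr ⟨b, hb, mem_biUnion.mpr ⟨u, mem_filter.mpr
          ⟨hu1, hu2, fun z hz => mem_erase.mpr ⟨?_, hu5 hz⟩⟩, hu3⟩⟩)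
        rintro rfl
        exact hbu hz
    have h5 := (card_le_card h4).trans (card_insert_le _ _)
    have h6 : (W.biUnion fun b => (Ub b).biUnion S.D).card ≤ (k + 1) * (F + 1) := by
      calc (W.biUnion fun b => (Ub b).biUnion S.D).card
          ≤ ∑ b ∈ W, ((Ub b).biUnion S.D).card := card_biUnion_le
        _ ≤ ∑ _b ∈ W, (F + 1) := sum_le_sum h3
        _ = (k + 1) * (F + 1) := by rw [sum_const, hWc, smul_eq_mul]
    omega

/- END fif -/

/- MODULE fig (M) -/
private theorem fig_NN (k : ℕ) : NN k ≤ (64 * (k + 1)) ^ ((k + 2) * (2 * k + 3)) := by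
  have h1 : LL k ≤ (64 * (k + 1)) ^ (k + 1) := by
    unfold LL
    exact Nat.pow_le_pow_left (by omega) _
  have h2 : 1 ≤ (64 * (k + 1)) ^ (k + 1) := Nat.one_le_pow _ _ (by omega)
  have h3 : 2 * LL k + 1 ≤ (64 * (k + 1)) ^ (k + 2) := by
    calc 2 * LL k + 1 ≤ 3 * (64 * (k + 1)) ^ (k + 1) := by omega
      _ ≤ (64 * (k + 1)) * (64 * (k + 1)) ^ (k + 1) := Nat.mul_le_mul_right _ (by omega)
      _ = (64 * (k + 1)) ^ (k + 2) := by ring
  unfold NN
  calc (2 * LL k + 1) ^ (2 * (k + 1) + 1)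
      ≤ ((64 * (k + 1)) ^ (k + 2)) ^ (2 * (k + 1) + 1) := Nat.pow_le_pow_left h3 _
    _ = (64 * (k + 1)) ^ ((k + 2) * (2 * k + 3)) := by
      rw [← pow_mul, show 2 * (k + 1) + 1 = 2 * k + 3 by ring]

private theorem fig_X (k ℓ : ℕ) (hl : ℓ ≤ k) :
    1 + (ℓ + 1) * ((2 * (ℓ + 1) + 5) * NN k) ≤
      (64 * (k + 1)) ^ ((k + 2) * (2 * k + 3) + 2) := by
  have h1 := fig_NN k
  have h0 : 1 ≤ (64 * (k + 1)) ^ ((k + 2) * (2 * k + 3)) := Nat.one_le_pow _ _ (by omega)
  have h2 : (ℓ + 1) * ((2 * (ℓ + 1) + 5) * NN k) ≤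
      (k + 1) * ((2 * k + 7) * (64 * (k + 1)) ^ ((k + 2) * (2 * k + 3))) :=
    Nat.mul_le_mul (by omega) (Nat.mul_le_mul (by omega) h1)
  calc 1 + (ℓ + 1) * ((2 * (ℓ + 1) + 5) * NN k)
      ≤ (64 * (k + 1)) ^ ((k + 2) * (2 * k + 3)) +
        (k + 1) * ((2 * k + 7) * (64 * (k + 1)) ^ ((k + 2) * (2 * k + 3))) := by omega
    _ = (1 + (k + 1) * (2 * k + 7)) * (64 * (k + 1)) ^ ((k + 2) * (2 * k + 3)) := by ring
    _ ≤ (64 * (k + 1)) ^ 2 * (64 * (k + 1)) ^ ((k + 2) * (2 * k + 3)) :=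
        Nat.mul_le_mul_right _ (by nlinarith)
    _ = (64 * (k + 1)) ^ ((k + 2) * (2 * k + 3) + 2) := by
        rw [← pow_add, add_comm 2]

private theorem fig_fB (k : ℕ) : ∀ ℓ ≤ k + 1,
    fB k ℓ ≤ (64 * (k + 1)) ^ (((k + 2) * (2 * k + 3) + 3) * ℓ) := by
  intro ℓ
  induction ℓ with
  | zero => intro _; simp [fB]
  | succ ℓ ih =>
    intro hl
    have h1 := ih (by omega)
    have h2 := fig_X k ℓ (by omega)
    have h0 : 1 ≤ (64 * (k + 1)) ^ (((k + 2) * (2 * k + 3) + 3) * ℓ) :=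
      Nat.one_le_pow _ _ (by omega)
    have h0' : 1 ≤ (64 * (k + 1)) ^ ((k + 2) * (2 * k + 3) + 2) :=
      Nat.one_le_pow _ _ (by omega)
    have h3 : 2 * fB k ℓ + 2 * (ℓ + 1) ≤
        (2 * k + 4) * (64 * (k + 1)) ^ (((k + 2) * (2 * k + 3) + 3) * ℓ) := by
      have : 2 * (ℓ + 1) ≤ (2 * k + 2) * (64 * (k + 1)) ^ (((k + 2) * (2 * k + 3) + 3) * ℓ) := by
        calc 2 * (ℓ + 1) ≤ (2 * k + 2) * 1 := by omega
          _ ≤ _ := Nat.mul_le_mul_left _ h0
      calc 2 * fB k ℓ + 2 * (ℓ + 1)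
          ≤ 2 * (64 * (k + 1)) ^ (((k + 2) * (2 * k + 3) + 3) * ℓ) +
            (2 * k + 2) * (64 * (k + 1)) ^ (((k + 2) * (2 * k + 3) + 3) * ℓ) := by omega
        _ = _ := by ring
    have h4 : (2 * fB k ℓ + 2 * (ℓ + 1)) * (1 + (ℓ + 1) * ((2 * (ℓ + 1) + 5) * NN k)) ≤
        (2 * k + 4) * ((64 * (k + 1)) ^ (((k + 2) * (2 * k + 3) + 3) * ℓ) *
          (64 * (k + 1)) ^ ((k + 2) * (2 * k + 3) + 2)) := by
      calc _ ≤ ((2 * k + 4) * (64 * (k + 1)) ^ (((k + 2) * (2 * k + 3) + 3) * ℓ)) *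
            (64 * (k + 1)) ^ ((k + 2) * (2 * k + 3) + 2) := Nat.mul_le_mul h3 h2
        _ = _ := by ring
    have h5 : 1 ≤ (64 * (k + 1)) ^ (((k + 2) * (2 * k + 3) + 3) * ℓ) *
          (64 * (k + 1)) ^ ((k + 2) * (2 * k + 3) + 2) := Nat.mul_pos h0 h0'
    calc fB k (ℓ + 1) = 1 + (2 * fB k ℓ + 2 * (ℓ + 1)) *
          (1 + (ℓ + 1) * ((2 * (ℓ + 1) + 5) * NN k)) := rfl
      _ ≤ (2 * k + 5) * ((64 * (k + 1)) ^ (((k + 2) * (2 * k + 3) + 3) * ℓ) *
          (64 * (k + 1)) ^ ((k + 2) * (2 * k + 3) + 2)) := by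
          calc _ ≤ (64 * (k + 1)) ^ (((k + 2) * (2 * k + 3) + 3) * ℓ) *
                (64 * (k + 1)) ^ ((k + 2) * (2 * k + 3) + 2) +
                (2 * k + 4) * ((64 * (k + 1)) ^ (((k + 2) * (2 * k + 3) + 3) * ℓ) *
                (64 * (k + 1)) ^ ((k + 2) * (2 * k + 3) + 2)) := Nat.add_le_add h5 h4
            _ = _ := by ring
      _ ≤ (64 * (k + 1)) * ((64 * (k + 1)) ^ (((k + 2) * (2 * k + 3) + 3) * ℓ) *
          (64 * (k + 1)) ^ ((k + 2) * (2 * k + 3) + 2)) := Nat.mul_le_mul_right _ (by omega)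
      _ = (64 * (k + 1)) ^ (((k + 2) * (2 * k + 3) + 3) * (ℓ + 1)) := by
          rw [← pow_add, mul_comm (64 * (k + 1)), ← pow_succ]
          congr 1

/-- The numerical bound. PROOF. Put `a = 64 (k + 1) ≥ 64`, `X = 1 + (k + 1) * ((2 k + 7) * NN k)`. By induction
`fB k ℓ + k + 1 ≤ (k + 1) * (2 X) ^ ℓ` for `ℓ ≤ k + 1` (`2 (F + ℓ + 1) X + k + 2 ≤ 2 X (F + k + 1)` needs some care; a
slightly larger base, e.g. `(4 X) ^ ℓ * (k + 2)`, is fine). `60 k + 51 ≤ a`, so `LL k ≤ a ^ (k + 1)`,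
`2 * LL k + 1 ≤ 3 * a ^ (k + 1)`, `NN k ≤ 3 ^ (2 k + 3) * a ^ ((k + 1) (2 k + 3))`, `3 ^ 3 ≤ a`. The exponent needed
is about `2 k³ + 8 k² + 12 k + 8 ≤ 2 (k + 2) ^ 3`. -/
theorem numeric (k : ℕ) :
    (k + 3) * (fB k (k + 1) + 1) + 2 * k + 4 ≤ (64 * (k + 1)) ^ (2 * (k + 2) ^ 3) := by
  have h := fig_fB k (k + 1) le_rfl
  have h0 : 1 ≤ (64 * (k + 1)) ^ (((k + 2) * (2 * k + 3) + 3) * (k + 1)) :=
    Nat.one_le_pow _ _ (by omega)
  calc (k + 3) * (fB k (k + 1) + 1) + 2 * k + 4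
      ≤ (k + 3) * (2 * (64 * (k + 1)) ^ (((k + 2) * (2 * k + 3) + 3) * (k + 1))) +
        (2 * k + 4) * (64 * (k + 1)) ^ (((k + 2) * (2 * k + 3) + 3) * (k + 1)) := by
        have a1 : (k + 3) * (fB k (k + 1) + 1) ≤
          (k + 3) * (2 * (64 * (k + 1)) ^ (((k + 2) * (2 * k + 3) + 3) * (k + 1))) :=
          Nat.mul_le_mul_left _ (by omega)
        have a2 : 2 * k + 4 ≤
          (2 * k + 4) * (64 * (k + 1)) ^ (((k + 2) * (2 * k + 3) + 3) * (k + 1)) := by
          calc 2 * k + 4 = (2 * k + 4) * 1 := by ring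
            _ ≤ _ := Nat.mul_le_mul_left _ h0
        omega
    _ = (4 * k + 10) * (64 * (k + 1)) ^ (((k + 2) * (2 * k + 3) + 3) * (k + 1)) := by ring
    _ ≤ (64 * (k + 1)) * (64 * (k + 1)) ^ (((k + 2) * (2 * k + 3) + 3) * (k + 1)) :=
        Nat.mul_le_mul_right _ (by omega)
    _ = (64 * (k + 1)) ^ (((k + 2) * (2 * k + 3) + 3) * (k + 1) + 1) := by
        rw [mul_comm (64 * (k + 1)), ← pow_succ]
    _ ≤ (64 * (k + 1)) ^ (2 * (k + 2) ^ 3) := by
        apply Nat.pow_le_pow_right (by omega)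
        nlinarith

/-- PROOF. `small_bound`, `final_bound`, `numeric`. -/
theorem obs_card {k : ℕ} {G : SimpleGraph V} (hO : Obs k G) :
    Fintype.card V ≤ (64 * (k + 1)) ^ (2 * (k + 2) ^ 3) :=
  (final_bound hO fun A B hs hc => small_bound hO (k + 1) le_rfl A B hs hc).trans (numeric k)

/- END fig -/

end Pool.Agent.TWB
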