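import Pool.Agent.TWB.Tree

/-!
# Re-rooting a scheme and gluing along a clique
-/

namespace Pool.Agent.TWB

open Finset

variable {V : Type*} [Fintype V] [DecidableEq V]

/- MODULE gla (L) -/
/-- `p` is a perfect elimination order of `U` of width `k` for the symmetric relation `H`. -/
private def gla_peo (H : V → V → Prop) (k : ℕ) (U : Finset V) (p : V → ℤ) : Prop :=
  (∀ v ∈ U, ∀ w ∈ U, ∀ w' ∈ U, H v w → H v w' → p v < p w → p v < p w' → w ≠ w' → H w w') ∧
    ∀ v ∈ U, ∀ T : Finset V, T ⊆ U → (∀ w ∈ T, H v w ∧ p v < p w) → T.card ≤ k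

omit [DecidableEq V] in
private theorem gla_bound (p : V → ℤ) : ∃ M : ℤ, 0 < M ∧ ∀ v, -M < p v ∧ p v < M := by
  refine ⟨∑ v, |p v| + 1, ?_, fun v => ?_⟩
  · have : 0 ≤ ∑ v, |p v| := Finset.sum_nonneg fun v _ => abs_nonneg _
    omega
  · have h1 : |p v| ≤ ∑ v, |p v| :=
      Finset.single_le_sum (f := fun v => |p v|) (fun v _ => abs_nonneg _) (mem_univ v)
    have h2 := abs_lt.1 (show |p v| < ∑ v, |p v| + 1 by omega)
    omega

private theorem gla_reroot {k : ℕ} {H : V → V → Prop} (hs : ∀ a b, H a b → H b a)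
    (hirr : ∀ a, ¬ H a a) {p0 : V → ℤ} (hinj : Function.Injective p0) :
    ∀ (m : ℕ) (U : Finset V), U.card = m → gla_peo H k U p0 → ∀ K : Finset V, K ⊆ U →
      (∀ a ∈ K, ∀ b ∈ K, a ≠ b → H a b) →
      ∃ p : V → ℤ, Function.Injective p ∧ gla_peo H k U p ∧
        ∀ v ∈ U, v ∉ K → ∀ w ∈ K, p v < p w := by
  classical
  intro m
  induction m with
  | zero =>
    intro U hU _ K _ _
    have hU0 : U = ∅ := Finset.card_eq_zero.1 hU
    subst hU0
    refine ⟨p0, hinj, ⟨?_, ?_⟩, ?_⟩ <;> simp
  | succ m ih =>
    intro U hU hp K hKU hK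
    have hne : U.Nonempty := by
      rw [← Finset.card_pos]
      omega
    obtain ⟨v, hvU, hvmin⟩ := U.exists_min_image p0 hne
    have hvlt : ∀ w ∈ U, w ≠ v → p0 v < p0 w := fun w hw hwv =>
      lt_of_le_of_ne (hvmin w hw) fun h => hwv (hinj h).symm
    have hcard : (U.erase v).card = m := by
      rw [Finset.card_erase_of_mem hvU]
      omega
    have hp' : gla_peo H k (U.erase v) p0 := by
      refine ⟨?_, ?_⟩
      · intro u hu w hw w' hw'
        exact hp.1 u (mem_of_mem_erase hu) w (mem_of_mem_erase hw) w' (mem_of_mem_erase hw')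
      · intro u hu T hT hT'
        exact hp.2 u (mem_of_mem_erase hu) T (hT.trans (erase_subset _ _)) hT'
    have hnv : ∀ w, H v w → w ≠ v := by
      rintro w hw rfl
      exact hirr w hw
    by_cases hvK : v ∈ K
    · -- the new end is the bag of `v`
      let N : Finset V := U.filter fun w => H v w
      have hN : ∀ w, w ∈ N ↔ w ∈ U ∧ H v w := fun w => by simp [N]
      have hNU : N ⊆ U.erase v := by
        intro w hw
        rw [hN] at hw
        exact mem_erase.2 ⟨hnv w hw.2, hw.1⟩
      have hNc : ∀ a ∈ N, ∀ b ∈ N, a ≠ b → H a b := by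
        intro a ha b hb hab
        rw [hN] at ha hb
        exact hp.1 v hvU a ha.1 b hb.1 ha.2 hb.2 (hvlt a ha.1 (hnv a ha.2))
          (hvlt b hb.1 (hnv b hb.2)) hab
      have hNk : N.card ≤ k := by
        apply hp.2 v hvU N (hNU.trans (erase_subset _ _))
        intro w hw
        rw [hN] at hw
        exact ⟨hw.2, hvlt w hw.1 (hnv w hw.2)⟩
      obtain ⟨p, hpi, hpp, hpe⟩ := ih (U.erase v) hcard hp' N hNU hNc
      obtain ⟨M, hM0, hM⟩ := gla_bound p
      let e : V → ℕ := fun u => (Fintype.equivFin V u : ℕ)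
      have he : Function.Injective e := fun a b h =>
        (Fintype.equivFin V).injective (Fin.ext h)
      have hel : ∀ u, e u < Fintype.card V := fun u => (Fintype.equivFin V u).2
      let B : Finset V := insert v N
      have hKB : K ⊆ B := by
        intro w hw
        by_cases hwv : w = v
        · exact mem_insert.2 (Or.inl hwv)
        · exact mem_insert.2 (Or.inr ((hN w).2 ⟨hKU hw, hK v hvK w hw (Ne.symm hwv)⟩))
      let q : V → ℤ := fun u => if u ∈ K then M + Fintype.card V + e u else
        if u ∈ B then M + e u else p u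
      have q1 : ∀ u, u ∈ K → q u = M + Fintype.card V + e u := fun u hu => by simp [q, hu]
      have q2 : ∀ u, u ∉ K → u ∈ B → q u = M + e u := fun u hu hu' => by simp [q, hu, hu']
      have q3 : ∀ u, u ∉ B → q u = p u := fun u hu => by
        have : u ∉ K := fun h => hu (hKB h)
        simp [q, this, hu]
      have qB : ∀ u, u ∈ B → M ≤ q u := by
        intro u hu
        by_cases huK : u ∈ K
        · rw [q1 u huK]
          omega
        · rw [q2 u huK hu]
          omega
      have qlt : ∀ u, u ∉ B → ∀ w ∈ B, q u < q w := by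
        intro u hu w hw
        rw [q3 u hu]
        exact (hM u).2.trans_le (qB w hw)
      have qlate : ∀ u ∈ B, ∀ w, q u < q w → w ∈ B := by
        intro u hu w hw
        by_contra hc
        exact absurd (qlt w hc u hu) (not_lt.2 hw.le)
      have qinj : Function.Injective q := by
        intro a b hab
        by_cases ha : a ∈ B
        · by_cases hb : b ∈ B
          · by_cases haK : a ∈ K
            · by_cases hbK : b ∈ K
              · rw [q1 a haK, q1 b hbK] at hab
                exact he (by omega)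
              · rw [q1 a haK, q2 b hbK hb] at hab
                have := hel b
                omega
            · by_cases hbK : b ∈ K
              · rw [q2 a haK ha, q1 b hbK] at hab
                have := hel a
                omega
              · rw [q2 a haK ha, q2 b hbK hb] at hab
                exact he (by omega)
          · exact absurd (qlt b hb a ha) (by rw [hab]; exact lt_irrefl _)
        · by_cases hb : b ∈ B
          · exact absurd (qlt a ha b hb) (by rw [hab]; exact lt_irrefl _)
          · rw [q3 a ha, q3 b hb] at hab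
            exact hpi hab
      have hBc : ∀ a ∈ B, ∀ b ∈ B, a ≠ b → H a b := by
        intro a ha b hb hab
        rcases mem_insert.1 ha with rfl | ha
        · rcases mem_insert.1 hb with rfl | hb
          · exact absurd rfl hab
          · exact ((hN b).1 hb).2
        · rcases mem_insert.1 hb with rfl | hb
          · exact hs _ _ ((hN a).1 ha).2
          · exact hNc a ha b hb hab
      -- later neighbours of a vertex outside of the bag
      have hout : ∀ u ∈ U, u ∉ B → ∀ w ∈ U, H u w → q u < q w →
          u ∈ U.erase v ∧ w ∈ U.erase v ∧ p u < p w := by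
        intro u hu huB w hw huw hlt
        have huv : u ≠ v := fun h => huB (by rw [h]; exact mem_insert_self v N)
        have huN : u ∉ N := fun h => huB (mem_insert_of_mem h)
        have hwv : w ≠ v := by
          rintro rfl
          exact huN ((hN u).2 ⟨hu, hs _ _ huw⟩)
        refine ⟨mem_erase.2 ⟨huv, hu⟩, mem_erase.2 ⟨hwv, hw⟩, ?_⟩
        by_cases hwB : w ∈ B
        · have hwN : w ∈ N := (mem_insert.1 hwB).resolve_left hwv
          exact hpe u (mem_erase.2 ⟨huv, hu⟩) huN w hwN
        · rwa [q3 u huB, q3 w hwB] at hlt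
      refine ⟨q, qinj, ⟨?_, ?_⟩, ?_⟩
      · intro u hu w hw w' hw' h1 h2 h3 h4 h5
        by_cases huB : u ∈ B
        · exact hBc w (qlate u huB w h3) w' (qlate u huB w' h4) h5
        · obtain ⟨a1, a2, a3⟩ := hout u hu huB w hw h1 h3
          obtain ⟨b1, b2, b3⟩ := hout u hu huB w' hw' h2 h4
          exact hpp.1 u a1 w a2 w' b2 h1 h2 a3 b3 h5
      · intro u hu T hT hT'
        by_cases huB : u ∈ B
        · have hsub : T ⊆ B.erase u := by
            intro w hw
            obtain ⟨h1, h2⟩ := hT' w hw
            refine mem_erase.2 ⟨?_, qlate u huB w h2⟩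
            rintro rfl
            exact lt_irrefl _ h2
          have h1 := Finset.card_le_card hsub
          rw [Finset.card_erase_of_mem huB] at h1
          have h2 : B.card ≤ N.card + 1 := Finset.card_insert_le v N
          omega
        · rcases T.eq_empty_or_nonempty with rfl | ⟨w0, hw0⟩
          · simp
          · have hu' := (hout u hu huB w0 (hT hw0) (hT' w0 hw0).1 (hT' w0 hw0).2).1
            refine hpp.2 u hu' T ?_ ?_
            · intro w hw
              exact (hout u hu huB w (hT hw) (hT' w hw).1 (hT' w hw).2).2.1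
            · intro w hw
              exact ⟨(hT' w hw).1, (hout u hu huB w (hT hw) (hT' w hw).1 (hT' w hw).2).2.2⟩
      · intro u hu huK w hw
        by_cases huB : u ∈ B
        · rw [q2 u huK huB, q1 w hw]
          have := hel u
          omega
        · exact qlt u huB w (hKB hw)
    · -- `v` is put in front
      have hKU' : K ⊆ U.erase v := by
        intro w hw
        refine mem_erase.2 ⟨?_, hKU hw⟩
        rintro rfl
        exact hvK hw
      obtain ⟨p, hpi, hpp, hpe⟩ := ih (U.erase v) hcard hp' K hKU' hK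
      obtain ⟨M, hM0, hM⟩ := gla_bound p
      let q : V → ℤ := fun u => if u = v then -M else p u
      have q1 : q v = -M := by simp [q]
      have q2 : ∀ u, u ≠ v → q u = p u := fun u hu => by simp [q, hu]
      have qlt : ∀ u, u ≠ v → q v < q u := by
        intro u hu
        rw [q1, q2 u hu]
        exact (hM u).1
      have qinj : Function.Injective q := by
        intro a b hab
        by_cases ha : a = v
        · by_cases hb : b = v
          · rw [ha, hb]
          · subst ha
            exact absurd (qlt b hb) (by rw [hab]; exact lt_irrefl _)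
        · by_cases hb : b = v
          · subst hb
            exact absurd (qlt a ha) (by rw [hab]; exact lt_irrefl _)
          · rw [q2 a ha, q2 b hb] at hab
            exact hpi hab
      have hlate : ∀ u w, q u < q w → w ≠ v := by
        rintro u w h rfl
        by_cases huv : u = w
        · subst huv
          exact lt_irrefl _ h
        · exact absurd (qlt u huv) (not_lt.2 h.le)
      refine ⟨q, qinj, ⟨?_, ?_⟩, ?_⟩
      · intro u hu w hw w' hw' h1 h2 h3 h4 h5
        have hwv := hlate u w h3
        have hwv' := hlate u w' h4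
        by_cases huv : u = v
        · subst huv
          exact hp.1 u hu w hw w' hw' h1 h2 (hvlt w hw hwv) (hvlt w' hw' hwv') h5
        · rw [q2 u huv, q2 w hwv] at h3
          rw [q2 u huv, q2 w' hwv'] at h4
          exact hpp.1 u (mem_erase.2 ⟨huv, hu⟩) w (mem_erase.2 ⟨hwv, hw⟩) w'
            (mem_erase.2 ⟨hwv', hw'⟩) h1 h2 h3 h4 h5
      · intro u hu T hT hT'
        by_cases huv : u = v
        · subst huv
          refine hp.2 u hu T hT ?_
          intro w hw
          exact ⟨(hT' w hw).1, hvlt w (hT hw) (hlate u w (hT' w hw).2)⟩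
        · refine hpp.2 u (mem_erase.2 ⟨huv, hu⟩) T ?_ ?_
          · intro w hw
            exact mem_erase.2 ⟨hlate u w (hT' w hw).2, hT hw⟩
          · intro w hw
            have h0 := hlate u w (hT' w hw).2
            have h1 := (hT' w hw).2
            rw [q2 u huv, q2 w h0] at h1
            exact ⟨(hT' w hw).1, h1⟩
      · intro u hu huK w hw
        have hwv : w ≠ v := by
          rintro rfl
          exact hvK hw
        by_cases huv : u = v
        · subst huv
          exact qlt w hwv
        · rw [q2 u huv, q2 w hwv]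
          exact hpe u (mem_erase.2 ⟨huv, hu⟩) huK w hw

/-- Re-rooting: a clique can be made the end of the order. PROOF. Fix a scheme `S0 = (p0, L0)` of `G` and
its completion `H` (`H a b` iff `b ∈ L0 a ∨ a ∈ L0 b`). Prove by induction on `U` (a set of vertices
closed upwards in the order `p0`, i.e. remove the `p0`-least vertex first): for every clique
`K ⊆ U` of `H` there is an injective `p : V → ℤ` such that (i) `p v < p w` for `v ∈ U \ K`, `w ∈ K`;
(ii) for `v, w, w' ∈ U` with `H v w`, `H v w'`, `p v < p w`, `p v < p w'`, `w ≠ w'` also `H w w'`;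
(iii) each `v ∈ U` has at most `k` vertices `w ∈ U` with `H v w`, `p v < p w`.
Let `v` be the `p0`-least element of `U`; the `H`-neighbours of `v` in `U` are `L0 v ∩ U`, a clique with
at most `k` elements. If `v ∉ K`: take `p` for `(U \ {v}, K)` and put `v` in front. If `v ∈ K`: then
`K ⊆ {v} ∪ L0 v`. Take `p` for `(U \ {v}, L0 v ∩ U)`; the new order is: first `U \ {v} \ L0 v` in the
order `p`, then `(L0 v ∩ U) \ K`, then `K` (any order). For `w ∉ bag v` the later neighbours are the
same set as for `p`; the at most `k + 1` vertices of the bag form a clique at the end.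
Finally `U = univ`, `L v := {w | H v w ∧ p v < p w}`. -/
theorem reroot {k : ℕ} {G : SimpleGraph V} (h : TW k G) (K : Finset V)
    (hK : ∀ a ∈ K, ∀ b ∈ K, a ≠ b → G.Adj a b) :
    ∃ S : Sch G k, ∀ v, v ∉ K → ∀ w ∈ K, S.p v < S.p w := by
  classical
  obtain ⟨S0⟩ := h
  let H : V → V → Prop := fun a b => b ∈ S0.L a ∨ a ∈ S0.L b
  have hH : ∀ a b, H a b ↔ (b ∈ S0.L a ∨ a ∈ S0.L b) := fun a b => Iff.rfl
  have hs : ∀ a b, H a b → H b a := fun a b hab => Or.symm hab
  have hirr : ∀ a, ¬ H a a := by
    intro a ha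
    have : a ∈ S0.L a := by rcases ha with h | h <;> exact h
    exact lt_irrefl _ (S0.lt a a this)
  have hlate : ∀ a b, H a b → S0.p a < S0.p b → b ∈ S0.L a := by
    intro a b hab hlt
    rcases hab with h | h
    · exact h
    · exact absurd (S0.lt b a h) (not_lt.2 hlt.le)
  have hadj : ∀ a b, G.Adj a b → H a b := by
    intro a b hab
    rcases lt_trichotomy (S0.p a) (S0.p b) with h | h | h
    · exact Or.inl (S0.adj a b hab h)
    · exact absurd (S0.inj h) hab.ne
    · exact Or.inr (S0.adj b a hab.symm h)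
  have hpeo : gla_peo H k univ S0.p := by
    refine ⟨?_, ?_⟩
    · intro v _ w _ w' _ h1 h2 h3 h4 h5
      have k1 := hlate v w h1 h3
      have k2 := hlate v w' h2 h4
      rcases lt_trichotomy (S0.p w) (S0.p w') with h | h | h
      · exact Or.inl (S0.cl v w w' k1 k2 h)
      · exact absurd (S0.inj h) h5
      · exact Or.inr (S0.cl v w' w k2 k1 h)
    · intro v _ T _ hT
      refine (Finset.card_le_card ?_).trans (S0.card v)
      intro w hw
      exact hlate v w (hT w hw).1 (hT w hw).2
  obtain ⟨p, hpi, hpp, hpe⟩ := gla_reroot hs hirr S0.inj (univ : Finset V).card univ rfl hpeo K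
    (subset_univ K) (fun a ha b hb hab => hadj a b (hK a ha b hb hab))
  refine ⟨⟨p, fun v => univ.filter fun w => H v w ∧ p v < p w, hpi, ?_, ?_, ?_, ?_⟩, ?_⟩
  · intro v w hw
    exact (mem_filter.1 hw).2.2
  · intro v w hvw hlt
    exact mem_filter.2 ⟨mem_univ w, hadj v w hvw, hlt⟩
  · intro v w w' hw hw' hlt
    have h1 := (mem_filter.1 hw).2
    have h2 := (mem_filter.1 hw').2
    refine mem_filter.2 ⟨mem_univ w', ?_, hlt⟩
    refine hpp.1 v (mem_univ v) w (mem_univ w) w' (mem_univ w') h1.1 h2.1 h1.2 h2.2 ?_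
    rintro rfl
    exact lt_irrefl _ hlt
  · intro v
    refine hpp.2 v (mem_univ v) _ (filter_subset _ _) ?_
    intro w hw
    exact (mem_filter.1 hw).2
  · intro v hv w hw
    exact hpe v (mem_univ v) hv w hw

/- END gla -/

/- MODULE glb (M) -/
omit [DecidableEq V] in
private theorem glb_bound (p : V → ℤ) : ∃ M : ℤ, 0 < M ∧ ∀ v, -M < p v ∧ p v < M := by
  refine ⟨∑ v, |p v| + 1, ?_, fun v => ?_⟩
  · have : 0 ≤ ∑ v, |p v| := Finset.sum_nonneg fun v _ => abs_nonneg _
    omega
  · have h1 : |p v| ≤ ∑ v, |p v| :=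
      Finset.single_le_sum (f := fun v => |p v|) (fun v _ => abs_nonneg _) (mem_univ v)
    have h2 := abs_lt.1 (show |p v| < ∑ v, |p v| + 1 by omega)
    omega

/-- (GL) gluing along a clique. PROOF. Put `W = U1 ∩ U2`. Let `S1` be a scheme of `H1` and `S2` a scheme
of `H2` with `W` at the end (`reroot`). Order: first the vertices of `U2 \ U1` in the order of `S2`, then
all others in the order of `S1` (subtract a large constant from `S2.p` on `U2 \ U1`).
`L v := S2.L v ∩ U2` for `v ∈ U2 \ U1` and `L v := S1.L v \ (U2 \ U1)` otherwise. `adj`: an edge of `H2`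
between vertices outside `U2 \ U1` joins two vertices of `W`, which are adjacent in `H1`.
`cl` for `v ∈ U2 \ U1`, `w, w' ∈ L v`: if `w, w' ∈ U2 \ U1`, use `S2`; if `w ∈ U2 \ U1`, `w' ∈ W`, then
`w'` is later than `w` in `S2` (`W` is at the end) and `S2.cl` applies; if both are in `W` they are
adjacent in `H1`, use `S1.adj`. -/
theorem tw_glue {k : ℕ} {H1 H2 : SimpleGraph V} {U1 U2 : Finset V} (h1 : TW k H1)
    (h2 : TW k H2) (s1 : ∀ a b, H1.Adj a b → a ∈ U1) (s2 : ∀ a b, H2.Adj a b → a ∈ U2)
    (c1 : ∀ a ∈ U1 ∩ U2, ∀ b ∈ U1 ∩ U2, a ≠ b → H1.Adj a b)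
    (c2 : ∀ a ∈ U1 ∩ U2, ∀ b ∈ U1 ∩ U2, a ≠ b → H2.Adj a b) : TW k (H1 ⊔ H2) := by
  classical
  obtain ⟨S1⟩ := h1
  obtain ⟨S2, hS2⟩ := reroot h2 (U1 ∩ U2) c2
  obtain ⟨M1, hM10, hM1⟩ := glb_bound S1.p
  obtain ⟨M2, hM20, hM2⟩ := glb_bound S2.p
  let D : Finset V := U2 \ U1
  have hD : ∀ v, v ∈ D ↔ v ∈ U2 ∧ v ∉ U1 := fun v => by simp [D]
  let p : V → ℤ := fun v => if v ∈ D then S2.p v - (M1 + M2) else S1.p v
  have p1 : ∀ v, v ∈ D → p v = S2.p v - (M1 + M2) := fun v hv => by simp [p, hv]
  have p2 : ∀ v, v ∉ D → p v = S1.p v := fun v hv => by simp [p, hv]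
  have plt : ∀ v ∈ D, ∀ w, w ∉ D → p v < p w := by
    intro v hv w hw
    rw [p1 v hv, p2 w hw]
    have := (hM2 v).2
    have := (hM1 w).1
    omega
  have pD : ∀ v w, v ∉ D → p v < p w → w ∉ D := by
    intro v w hv hlt hw
    exact absurd (plt w hw v hv) (not_lt.2 hlt.le)
  let L : V → Finset V := fun v => if v ∈ D then S2.L v ∩ U2 else S1.L v \ D
  have L1 : ∀ v, v ∈ D → L v = S2.L v ∩ U2 := fun v hv => by simp [L, hv]
  have L2 : ∀ v, v ∉ D → L v = S1.L v \ D := fun v hv => by simp [L, hv]
  have hW : ∀ w, w ∈ U2 → w ∉ D → w ∈ U1 ∩ U2 := by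
    intro w hw hwD
    refine mem_inter.2 ⟨?_, hw⟩
    by_contra hc
    exact hwD ((hD w).2 ⟨hw, hc⟩)
  have hDW : ∀ w, w ∈ D → w ∉ U1 ∩ U2 := by
    intro w hw hc
    exact ((hD w).1 hw).2 (mem_inter.1 hc).1
  refine ⟨⟨p, L, ?_, ?_, ?_, ?_, ?_⟩⟩
  · intro a b hab
    by_cases ha : a ∈ D
    · by_cases hb : b ∈ D
      · rw [p1 a ha, p1 b hb] at hab
        exact S2.inj (by omega)
      · exact absurd (plt a ha b hb) (by rw [hab]; exact lt_irrefl _)
    · by_cases hb : b ∈ D
      · exact absurd (plt b hb a ha) (by rw [hab]; exact lt_irrefl _)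
      · rw [p2 a ha, p2 b hb] at hab
        exact S1.inj hab
  · intro v w hw
    by_cases hv : v ∈ D
    · rw [L1 v hv, mem_inter] at hw
      by_cases hwD : w ∈ D
      · rw [p1 v hv, p1 w hwD]
        have := S2.lt v w hw.1
        omega
      · exact plt v hv w hwD
    · rw [L2 v hv, mem_sdiff] at hw
      rw [p2 v hv, p2 w hw.2]
      exact S1.lt v w hw.1
  · intro v w hvw hlt
    by_cases hv : v ∈ D
    · rw [L1 v hv, mem_inter]
      have h2' : H2.Adj v w := by
        rcases hvw with h | h
        · exact absurd (s1 v w h) ((hD v).1 hv).2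
        · exact h
      have hwU : w ∈ U2 := s2 w v h2'.symm
      refine ⟨?_, hwU⟩
      by_cases hwD : w ∈ D
      · rw [p1 v hv, p1 w hwD] at hlt
        exact S2.adj v w h2' (by omega)
      · exact S2.adj v w h2' (hS2 v (hDW v hv) w (hW w hwU hwD))
    · have hwD := pD v w hv hlt
      rw [L2 v hv, mem_sdiff]
      rw [p2 v hv, p2 w hwD] at hlt
      refine ⟨S1.adj v w ?_ hlt, hwD⟩
      rcases hvw with h | h
      · exact h
      · exact c1 v (hW v (s2 v w h) hv) w (hW w (s2 w v h.symm) hwD) h.ne
  · intro v w w' hw hw' hlt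
    by_cases hv : v ∈ D
    · rw [L1 v hv, mem_inter] at hw hw'
      by_cases hwD : w ∈ D
      · rw [L1 w hwD, mem_inter]
        refine ⟨?_, hw'.2⟩
        by_cases hwD' : w' ∈ D
        · rw [p1 w hwD, p1 w' hwD'] at hlt
          exact S2.cl v w w' hw.1 hw'.1 (by omega)
        · exact S2.cl v w w' hw.1 hw'.1 (hS2 w (hDW w hwD) w' (hW w' hw'.2 hwD'))
      · have hwD' := pD w w' hwD hlt
        rw [L2 w hwD, mem_sdiff]
        rw [p2 w hwD, p2 w' hwD'] at hlt
        refine ⟨S1.adj w w' (c1 w (hW w hw.2 hwD) w' (hW w' hw'.2 hwD') ?_) hlt, hwD'⟩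
        rintro rfl
        exact lt_irrefl _ hlt
    · rw [L2 v hv, mem_sdiff] at hw hw'
      rw [L2 w hw.2, mem_sdiff]
      rw [p2 w hw.2, p2 w' hw'.2] at hlt
      exact ⟨S1.cl v w w' hw.1 hw'.1 hlt, hw'.2⟩
  · intro v
    by_cases hv : v ∈ D
    · rw [L1 v hv]
      exact (Finset.card_le_card inter_subset_left).trans (S2.card v)
    · rw [L2 v hv]
      exact (Finset.card_le_card sdiff_subset).trans (S1.card v)

/- END glb -/

end Pool.Agent.TWB
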