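import Pool.Agent.TWB.Conn
import Pool.Agent.TurMod.Menger

/-!
# Menger's theorem in terms of separations and connected sets
-/

namespace Pool.Agent.TWB

open Finset

variable {V : Type*} [Fintype V] [DecidableEq V]

/- MODULE mea (L) -/
private theorem mea_inU {r : V → V → Prop} {U : Finset V} (hr : ∀ a b, r a b → b ∈ U) :
    ∀ (l : List V) (a : V), a ∈ U → (a :: l).IsChain r → ∀ v ∈ a :: l, v ∈ U := by
  intro l
  induction l with
  | nil =>
    intro a ha _ v hv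
    rw [List.mem_singleton] at hv
    exact hv ▸ ha
  | cons b t ih =>
    intro a ha h v hv
    rw [List.isChain_cons_cons] at h
    rcases List.mem_cons.1 hv with h' | h'
    · exact h' ▸ ha
    · exact ih b (hr a b h.1) h.2 v h'

private theorem mea_walkU {r : V → V → Prop} {U A B : Finset V} (hr : ∀ a b, r a b → b ∈ U)
    (hA : A ⊆ U) {l : List V} (hl : TurMod.WalkAB r A B l) : ∀ v ∈ l, v ∈ U := by
  obtain ⟨hc, ⟨a, ha, hh⟩, _⟩ := hl
  cases l with
  | nil => simp at hh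
  | cons c t =>
    rw [List.head?_cons, Option.some.injEq] at hh
    subst hh
    exact mea_inU hr t c (hA ha) hc

private theorem mea_ne {r : V → V → Prop} {A B : Finset V} {l : List V}
    (hl : TurMod.WalkAB r A B l) : l ≠ [] := by
  rintro rfl
  obtain ⟨_, ⟨a, _, hh⟩, _⟩ := hl
  simp at hh

/-- Menger, first form. PROOF. Let `r a b := G.Adj a b ∧ a ∈ U ∧ b ∈ U` and let `X` be a separator
(`TurMod.Sep r A B X`) with the least number `n` of elements (`univ` is one). `TurMod.menger_rel` gives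
`n` disjoint walks from `A` to `B`; a walk `l` is a nonempty list in `U` (a one-vertex list lies in
`A ⊆ U`), `T i := l.toFinset` is connected by `cn_list`. The separation: `X ⊆ U` may be assumed
(`X ∩ U` is a separator). Let `P'` be the set of the vertices of `U \ X` reachable from `A \ X` by steps
of `r` avoiding `X`, `P := P' ∪ X`, `Q := U \ P'`. Then `P ∩ Q = X`, `A ⊆ P`, `B ⊆ Q` (as `X` is a
separator), and no edge joins `P \ Q = P'` and `Q \ P = U \ P' \ X`. -/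
theorem menger0 (G : SimpleGraph V) (U A B : Finset V) (hA : A ⊆ U) (hB : B ⊆ U) :
    ∃ (n : ℕ) (P Q : Finset V) (T : ℕ → Finset V), Sp G U P Q ∧ A ⊆ P ∧ B ⊆ Q ∧
      (P ∩ Q).card = n ∧
      (∀ i < n, T i ⊆ U ∧ Cn G (T i) ∧ (T i ∩ A).Nonempty ∧ (T i ∩ B).Nonempty) ∧
      ∀ i < n, ∀ j < n, i ≠ j → Disjoint (T i) (T j) := by
  classical
  set r : V → V → Prop := fun a b => G.Adj a b ∧ a ∈ U ∧ b ∈ U with hr
  have hrU : ∀ a b, r a b → b ∈ U := fun a b h => h.2.2
  have hne : (univ.filter (fun X : Finset V => X ⊆ U ∧ TurMod.Sep r A B X)).Nonempty := by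
    refine ⟨U, mem_filter.2 ⟨mem_univ _, Subset.rfl, ?_⟩⟩
    intro l hl
    obtain ⟨v, hv⟩ := List.exists_mem_of_ne_nil l (mea_ne hl)
    exact ⟨v, hv, mea_walkU hrU hA hl v hv⟩
  obtain ⟨X, hX, hmin⟩ := exists_min_image _ card hne
  rw [mem_filter] at hX
  obtain ⟨_, hXU, hXs⟩ := hX
  have hall : ∀ Y : Finset V, TurMod.Sep r A B Y → X.card ≤ Y.card := by
    intro Y hY
    refine (hmin (Y ∩ U) (mem_filter.2 ⟨mem_univ _, inter_subset_right, ?_⟩)).trans
      (card_le_card inter_subset_left)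
    intro l hl
    obtain ⟨v, hv, hvY⟩ := hY l hl
    exact ⟨v, hv, mem_inter.2 ⟨hvY, mea_walkU hrU hA hl v hv⟩⟩
  obtain ⟨W, hW, hWd⟩ := TurMod.menger_rel r A B X.card hall
  set P' : Finset V := U.filter (fun v => v ∉ X ∧ ∃ a ∈ A, a ∉ X ∧
    Relation.ReflTransGen (fun a b => r a b ∧ b ∉ X) a v) with hP'
  have hPX : Disjoint P' X := by
    rw [disjoint_left]
    intro v hv
    rw [hP', mem_filter] at hv
    exact hv.2.1
  have hPU : P' ⊆ U := filter_subset _ _
  refine ⟨X.card, P' ∪ X, U \ P', fun i => (W i).toFinset, ⟨?_, ?_⟩, ?_, ?_, ?_, ?_, ?_⟩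
  · ext v
    simp only [mem_union, mem_sdiff]
    constructor
    · rintro ((h | h) | h)
      · exact hPU h
      · exact hXU h
      · exact h.1
    · intro h
      by_cases h' : v ∈ P'
      · exact Or.inl (Or.inl h')
      · exact Or.inr ⟨h, h'⟩
  · intro u hu huQ w hw hwP huw
    have huP' : u ∈ P' := by
      rcases mem_union.1 hu with h | h
      · exact h
      · exact absurd (mem_sdiff.2 ⟨hXU h, fun h' => disjoint_left.1 hPX h' h⟩) huQ
    rw [mem_sdiff] at hw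
    have hwX : w ∉ X := fun h => hwP (mem_union_right _ h)
    rw [hP', mem_filter] at huP'
    obtain ⟨huU, huX, a, ha, haX, hau⟩ := huP'
    refine hw.2 ?_
    rw [hP', mem_filter]
    exact ⟨hw.1, hwX, a, ha, haX, hau.tail ⟨⟨huw, huU, hw.1⟩, hwX⟩⟩
  · intro a ha
    rw [mem_union]
    by_cases haX : a ∈ X
    · exact Or.inr haX
    · left
      rw [hP', mem_filter]
      exact ⟨hA ha, haX, a, ha, haX, Relation.ReflTransGen.refl⟩
  · intro b hb
    rw [mem_sdiff]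
    refine ⟨hB hb, ?_⟩
    intro hbP
    rw [hP', mem_filter] at hbP
    obtain ⟨_, hbX, a, ha, haX, hab⟩ := hbP
    obtain ⟨l, hl1, hl2⟩ := List.exists_isChain_cons_of_relationReflTransGen hab
    have hw : TurMod.WalkAB r A B (a :: l) := by
      refine ⟨hl1.imp fun x y h => h.1, ⟨a, ha, rfl⟩, ⟨b, hb, ?_⟩⟩
      rw [List.getLast?_eq_some_getLast (List.cons_ne_nil _ _), hl2]
    obtain ⟨v, hv, hvX⟩ := hXs _ hw
    have h1 : ∀ (l : List V) (a : V), a ∉ X → (a :: l).IsChain (fun a b => r a b ∧ b ∉ X) →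
        ∀ v ∈ a :: l, v ∉ X := by
      intro l
      induction l with
      | nil =>
        intro a ha _ v hv
        rw [List.mem_singleton] at hv
        exact hv ▸ ha
      | cons b t ih =>
        intro a ha h v hv
        rw [List.isChain_cons_cons] at h
        rcases List.mem_cons.1 hv with h' | h'
        · exact h' ▸ ha
        · exact ih b h.1.2 h.2 v h'
    exact h1 l a haX hl1 v hv hvX
  · congr 1
    ext v
    simp only [mem_inter, mem_union, mem_sdiff]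
    constructor
    · rintro ⟨h | h, h'⟩
      · exact absurd h h'.2
      · exact h
    · intro h
      exact ⟨Or.inr h, hXU h, fun h' => disjoint_left.1 hPX h' h⟩
  · intro i hi
    have hw := hW i hi
    refine ⟨?_, ?_, ?_, ?_⟩
    · intro v hv
      exact mea_walkU hrU hA hw v (List.mem_toFinset.1 hv)
    · exact cn_list (mea_ne hw) (hw.1.imp fun x y h => h.1)
    · obtain ⟨_, ⟨a, ha, hh⟩, _⟩ := hw
      exact ⟨a, mem_inter.2 ⟨List.mem_toFinset.2 (List.mem_of_mem_head? hh), ha⟩⟩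
    · obtain ⟨_, _, ⟨b, hb, hh⟩⟩ := hw
      exact ⟨b, mem_inter.2 ⟨List.mem_toFinset.2 (List.mem_of_getLast? hh), hb⟩⟩
  · intro i hi j hj hij
    exact List.disjoint_toFinset_iff_disjoint.2 (hWd i hi j hj hij)

/- END mea -/

/- MODULE meb (M) -/
omit [Fintype V] in
private theorem meb_sys {S : Finset V} {n : ℕ} {T : ℕ → Finset V}
    (hd : ∀ i < n, ∀ j < n, i ≠ j → Disjoint (T i) (T j))
    (hne : ∀ i < n, (T i ∩ S).Nonempty) (hc : S.card ≤ n) :
    ∃ g : V → ℕ, (∀ y ∈ S, g y < n ∧ y ∈ T (g y) ∧ ∀ u ∈ T (g y), u ∈ S → u = y) ∧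
      ∀ y ∈ S, ∀ z ∈ S, y ≠ z → g y ≠ g z := by
  classical
  rcases isEmpty_or_nonempty V with hV | hV
  · exact ⟨fun _ => 0, fun y => (hV.false y).elim, fun y => (hV.false y).elim⟩
  choose! f hf using hne
  have hfT : ∀ i < n, f i ∈ T i := fun i hi => (Finset.mem_inter.1 (hf i hi)).1
  have hfS : ∀ i < n, f i ∈ S := fun i hi => (Finset.mem_inter.1 (hf i hi)).2
  have huniq : ∀ i < n, ∀ j < n, ∀ u, u ∈ T i → u ∈ T j → i = j := by
    intro i hi j hj u hui huj
    by_contra hij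
    exact Finset.disjoint_left.1 (hd i hi j hj hij) hui huj
  have hinj : Set.InjOn f (Finset.range n : Set ℕ) := by
    intro i hi j hj hij
    have hi' : i < n := Finset.mem_range.1 (Finset.mem_coe.1 hi)
    have hj' : j < n := Finset.mem_range.1 (Finset.mem_coe.1 hj)
    exact huniq i hi' j hj' (f i) (hfT i hi') (hij ▸ hfT j hj')
  have himg : (Finset.range n).image f = S := by
    refine Finset.eq_of_subset_of_card_le (fun u hu => ?_) ?_
    · obtain ⟨i, hi, rfl⟩ := Finset.mem_image.1 hu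
      exact hfS i (Finset.mem_range.1 hi)
    · rw [Finset.card_image_of_injOn hinj, Finset.card_range]
      exact hc
  have hsurj : ∀ y ∈ S, ∃ i, i < n ∧ f i = y := by
    intro y hy
    rw [← himg] at hy
    obtain ⟨i, hi, hfi⟩ := Finset.mem_image.1 hy
    exact ⟨i, Finset.mem_range.1 hi, hfi⟩
  choose! g hg using hsurj
  refine ⟨g, fun y hy => ⟨(hg y hy).1, ?_, fun u hu huS => ?_⟩, fun y hy z hz hyz hgg => ?_⟩
  · have h1 := hfT (g y) (hg y hy).1
    rwa [(hg y hy).2] at h1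
  · have h1 := hfT (g u) (hg u huS).1
    rw [(hg u huS).2] at h1
    have h2 := huniq (g u) (hg u huS).1 (g y) (hg y hy).1 u h1 hu
    rw [← (hg u huS).2, h2, (hg y hy).2]
  · exact hyz (by rw [← (hg y hy).2, ← (hg z hz).2, hgg])

/-- Menger, second form: the connected sets are indexed by the vertices of the separator. PROOF. From
`menger0`: each `T i` meets `P ∩ Q` (`Cn.meet`); the `n` sets are disjoint and `|P ∩ Q| = n`, so each meets
`P ∩ Q` in exactly one vertex and every vertex of `P ∩ Q` is met. -/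
theorem menger1 (G : SimpleGraph V) (U A B : Finset V) (hA : A ⊆ U) (hB : B ⊆ U) :
    ∃ (P Q : Finset V) (T : V → Finset V), Sp G U P Q ∧ A ⊆ P ∧ B ⊆ Q ∧
      (∀ y ∈ P ∩ Q, y ∈ T y ∧ T y ⊆ U ∧ Cn G (T y) ∧ (T y ∩ A).Nonempty ∧
        (T y ∩ B).Nonempty ∧ ∀ u ∈ T y, u ∈ P → u ∈ Q → u = y) ∧
      ∀ y ∈ P ∩ Q, ∀ z ∈ P ∩ Q, y ≠ z → Disjoint (T y) (T z) := by
  obtain ⟨n, P, Q, T, hSp, hAP, hBQ, hcard, hT, hd⟩ := menger0 G U A B hA hB
  have hmeet : ∀ i < n, (T i ∩ (P ∩ Q)).Nonempty := by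
    intro i hi
    obtain ⟨hTU, hCn, ⟨a, ha⟩, ⟨b, hb⟩⟩ := hT i hi
    obtain ⟨haT, haA⟩ := Finset.mem_inter.1 ha
    obtain ⟨hbT, hbB⟩ := Finset.mem_inter.1 hb
    have hmem : ∀ u ∈ T i, u ∈ P ∨ u ∈ Q := fun u hu =>
      Finset.mem_union.1 (hSp.1.symm ▸ hTU hu)
    obtain ⟨u, huT, huP, huQ⟩ := hCn.meet hmem
      (fun u hu huQ w hw hwP => hSp.2 u ((hmem u hu).resolve_right huQ) huQ w
        ((hmem w hw).resolve_left hwP) hwP)
      ⟨a, Finset.mem_inter.2 ⟨haT, hAP haA⟩⟩ ⟨b, Finset.mem_inter.2 ⟨hbT, hBQ hbB⟩⟩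
    exact ⟨u, Finset.mem_inter.2 ⟨huT, Finset.mem_inter.2 ⟨huP, huQ⟩⟩⟩
  obtain ⟨g, hg, hg'⟩ := meb_sys hd hmeet hcard.le
  refine ⟨P, Q, fun y => T (g y), hSp, hAP, hBQ, fun y hy => ?_, fun y hy z hz hyz => ?_⟩
  · obtain ⟨h1, h2, h3⟩ := hg y hy
    obtain ⟨h4, h5, h6, h7⟩ := hT (g y) h1
    exact ⟨h2, h4, h5, h6, h7, fun u hu huP huQ => h3 u hu (Finset.mem_inter.2 ⟨huP, huQ⟩)⟩
  · exact hd (g y) (hg y hy).1 (g z) (hg z hz).1 (hg' y hy z hz hyz)

/-- Menger, third form: `A` is linked to `B`, or there is a separation of order less than `|A|`.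
PROOF. From `menger0`: if `|P ∩ Q| = n < |A|` we are done. Otherwise the `n ≥ |A|` disjoint sets `T i` all
meet `A`, so `n = |A|` and each meets `A` in exactly one vertex, every vertex once. -/
theorem menger2 (G : SimpleGraph V) (U A B : Finset V) (hA : A ⊆ U) (hB : B ⊆ U) :
    (∃ T : V → Finset V, (∀ s ∈ A, s ∈ T s ∧ T s ⊆ U ∧ Cn G (T s) ∧ (T s ∩ B).Nonempty ∧
        ∀ u ∈ T s, u ∈ A → u = s) ∧
      ∀ s ∈ A, ∀ t ∈ A, s ≠ t → Disjoint (T s) (T t)) ∨
    ∃ P Q : Finset V, Sp G U P Q ∧ A ⊆ P ∧ B ⊆ Q ∧ (P ∩ Q).card < A.card := by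
  obtain ⟨n, P, Q, T, hSp, hAP, hBQ, hcard, hT, hd⟩ := menger0 G U A B hA hB
  rcases Nat.lt_or_ge n A.card with hlt | hge
  · exact Or.inr ⟨P, Q, hSp, hAP, hBQ, by rw [hcard]; exact hlt⟩
  · left
    obtain ⟨g, hg, hg'⟩ := meb_sys hd (fun i hi => (hT i hi).2.2.1) hge
    refine ⟨fun y => T (g y), fun y hy => ?_, fun y hy z hz hyz => ?_⟩
    · obtain ⟨h1, h2, h3⟩ := hg y hy
      obtain ⟨h4, h5, h6, h7⟩ := hT (g y) h1
      exact ⟨h2, h4, h5, h7, h3⟩
    · exact hd (g y) (hg y hy).1 (g z) (hg z hz).1 (hg' y hy z hz hyz)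

/- END meb -/

end Pool.Agent.TWB
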