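import Pool.Agent.TWB.Cross

/-!
# The middle lemma (text, section 8)

`b0 = 8k + 7` and `b1 = 12k + 9` are the two ends (numbers of cuts) of the middle region.
-/

namespace Pool.Agent.TWB

open Finset

variable {V : Type*} [Fintype V] [DecidableEq V]

/-- The two connected ends `DL ⊇ M i1` and `DR ⊇ M j2`, separated from everything by `X1`, `X2`. -/
structure Ends (k : ℕ) (Γ : SimpleGraph V) (M : ℕ → Finset V) (Z X1 X2 DL DR : Finset V)
    (i1 j1 i2 j2 a c : ℕ) : Prop where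
  tw : TW k (Γ ⊔ KG X1 ⊔ KG X2)
  z1 : Z ⊆ X1
  z2 : Z ⊆ X2
  nl : ∀ u ∈ DL, ∀ w, Γ.Adj u w → w ∈ DL ∨ w ∈ X1
  nr : ∀ u ∈ DR, ∀ w, Γ.Adj u w → w ∈ DR ∨ w ∈ X2
  l1 : Disjoint DL X1
  l2 : Disjoint DL X2
  r1 : Disjoint DR X1
  r2 : Disjoint DR X2
  lr : Disjoint DL DR
  ml : M i1 ⊆ DL
  mr : M j2 ⊆ DR
  al : Disjoint DL (MM M j1 (c + 1))
  ar : Disjoint DR (MM M a (i2 + 1))
  p1 : a < i1
  p2 : i1 + 1 < j1
  p3 : j1 ≤ 8 * k + 7
  p4 : 12 * k + 9 ≤ i2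
  p5 : i2 + 1 < j2
  p6 : j2 < c
  p7 : c < 20 * k + 17

/- MODULE mia (L) -/
private theorem mia_MM_mono {M : ℕ → Finset V} {a b a' b' : ℕ} (h1 : a' ≤ a) (h2 : b ≤ b') :
    MM M a b ⊆ MM M a' b' := by
  intro x hx
  rw [mem_MM] at hx ⊢
  obtain ⟨i, hi1, hi2, hx⟩ := hx
  exact ⟨i, h1.trans hi1, lt_of_lt_of_le hi2 h2, hx⟩

/-- A connected set `D` that misses `Z` and the blocks `b` and `b'` and is not contained in the blocks
`[b, b']` misses all blocks in `[b, b']`. PROOF. Let `T = MM M b (b' + 1)`. If `D` meets `T` and is not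
inside, `Cn.exit` gives an edge from `u ∈ D ∩ T` to `w ∈ D \ T`; `u ∉ C b ⊆ M b`, `u ∉ C (b' + 1) ⊆ M b'`, so
`MM_nb` gives `w ∈ T` or `w ∈ Z`, a contradiction. -/
theorem Strip.avoid {Γ : SimpleGraph V} {m : ℕ} {M C : ℕ → Finset V} {Z J : Finset V}
    {R : V → Finset V} (h : Strip Γ m M C Z J R) {D : Finset V} (hD : Cn Γ D)
    (hZ : Disjoint D Z) {b b' : ℕ} (hbb : b ≤ b') (hb' : b' < m) (h1 : Disjoint (M b) D)
    (h2 : Disjoint (M b') D) {u : V} (hu : u ∈ D) (hu' : u ∉ MM M b (b' + 1)) :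
    Disjoint D (MM M b (b' + 1)) := by
  by_contra hnd
  rw [Finset.not_disjoint_iff] at hnd
  obtain ⟨x, hx, hxT⟩ := hnd
  obtain ⟨a, haD, haT, c, hcD, hcT, hac⟩ := hD.exit hx hxT hu hu'
  have h3 : a ∉ C b := fun h4 =>
    Finset.disjoint_left.1 h1 (h.cl b (lt_of_le_of_lt hbb hb') h4) haD
  have h4 : a ∉ C (b' + 1) := fun h5 => Finset.disjoint_left.1 h2 (h.cr b' hb' h5) haD
  rcases h.MM_nb hb' haT h3 h4 hac with h5 | h5
  · exact hcT h5
  · exact Finset.disjoint_left.1 hZ hcD h5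

/-- PROOF. `DL` := the component (`exists_comp`) of `L1` containing a vertex of `M i1`; as `M i1 ⊆ L1` is
connected, `M i1 ⊆ DL` (`Cn.sub_of_closed`). `nl`: a neighbour is in `L1 ∪ X1`. `DR` := the component of `R2`
containing `M j2`. `l1`: `lx`; `l2`: `n3`; `r1`: `n1`; `r2`: `rx`; `lr`: `n2`. `al`: `Strip.avoid` with `b = j1`,
`b' = c`: `M j1 ⊆ R1` and `M c ⊆ R1` are disjoint from `L1`; `DL` is disjoint from `Z ⊆ X1`; a vertex of `M i1` is
not in the blocks `[j1, c]`, since otherwise it would be in the cut `C (i1 + 1) = C j1 ⊆ M j1` (`block_block`).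
`ar`: in the same way with `b = a`, `b' = i2` (`M a`, `M i2 ⊆ L2`). `p2`: if `j1 = i1 + 1` then the nonempty
cut `C j1` lies in `M i1 ∩ M j1`. `p5`: the same. -/
theorem exists_ends {k : ℕ} {Γ : SimpleGraph V} {M C : ℕ → Finset V} {Z J : Finset V}
    {R : V → Finset V} (h : GStrip Γ (20 * k + 17) M C Z J R)
    {X1 L1 R1 X2 L2 R2 : Finset V} {i1 j1 i2 j2 a c : ℕ}
    (t : TwoCuts k Γ M Z X1 L1 R1 X2 L2 R2 i1 j1 i2 j2 a c) :
    ∃ DL DR, Ends k Γ M Z X1 X2 DL DR i1 j1 i2 j2 a c := by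
  have hs := h.toStrip
  have i1c : i1 < j1 := t.c1.ij
  have i2c : i2 < j2 := t.c2.ij
  have q1 := t.ai
  have q2 := t.jm
  have q3 := t.im
  have q4 := t.jc
  have q5 := t.cm
  have hL1R1 := t.c1.lr
  have hL2R2 := t.c2.lr
  -- the left end
  obtain ⟨v, hv⟩ := (h.bc i1 (by omega)).1
  have hvL : v ∈ L1 := t.c1.li hv
  obtain ⟨DL, hDL, hvD, hDc, hDcl⟩ := exists_comp Γ hvL
  have hML : M i1 ⊆ DL := (h.bc i1 (by omega)).sub_of_closed
    (fun u _ huK w hw huw => hDcl u huK w (t.c1.li hw) huw) ⟨v, Finset.mem_inter.2 ⟨hv, hvD⟩⟩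
  -- the right end
  obtain ⟨z, hz⟩ := (h.bc j2 (by omega)).1
  have hzR : z ∈ R2 := t.c2.rj hz
  obtain ⟨DR, hDR, hzD, hDc2, hDcl2⟩ := exists_comp Γ hzR
  have hMR : M j2 ⊆ DR := (h.bc j2 (by omega)).sub_of_closed
    (fun u _ huK w hw huw => hDcl2 u huK w (t.c2.rj hw) huw) ⟨z, Finset.mem_inter.2 ⟨hz, hzD⟩⟩
  refine ⟨DL, DR, ⟨t.tw, t.c1.zx, t.c2.zx, ?_, ?_, ?_, ?_, ?_, ?_, ?_, hML, hMR, ?_, ?_, t.ai, ?_,
    t.jm, t.im, ?_, t.jc, t.cm⟩⟩
  · intro u hu w huw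
    rcases t.c1.nl u (hDL hu) w huw with h1 | h1
    · exact Or.inl (hDcl u hu w h1 huw)
    · exact Or.inr h1
  · intro u hu w huw
    rcases t.c2.nr u (hDR hu) w huw with h1 | h1
    · exact Or.inl (hDcl2 u hu w h1 huw)
    · exact Or.inr h1
  · exact Finset.disjoint_of_subset_left hDL t.c1.lx
  · exact Finset.disjoint_of_subset_left hDL t.n3
  · exact Finset.disjoint_of_subset_left hDR t.n1
  · exact Finset.disjoint_of_subset_left hDR t.c2.rx
  · exact Finset.disjoint_of_subset_left hDL (Finset.disjoint_of_subset_right hDR t.n2.symm)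
  · refine hs.avoid hDc ?_ (by omega) t.cm ?_ ?_ hvD ?_
    · exact Finset.disjoint_of_subset_left hDL
        (Finset.disjoint_of_subset_right t.c1.zx t.c1.lx)
    · exact Finset.disjoint_of_subset_left t.c1.rj
        (Finset.disjoint_of_subset_right hDL hL1R1.symm)
    · exact Finset.disjoint_of_subset_left t.rc
        (Finset.disjoint_of_subset_right hDL hL1R1.symm)
    · intro hvm
      rw [mem_MM] at hvm
      obtain ⟨j, hj1, hj2, hvj⟩ := hvm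
      obtain ⟨h3, h4⟩ := hs.block_block (show i1 < j by omega) (by omega) hv hvj
      have h5 : j = j1 := by omega
      rw [h5] at hvj
      exact Finset.disjoint_left.1 hL1R1 hvL (t.c1.rj hvj)
  · refine hs.avoid hDc2 ?_ (by omega) (by omega) ?_ ?_ hzD ?_
    · exact Finset.disjoint_of_subset_left hDR
        (Finset.disjoint_of_subset_right t.c2.zx t.c2.rx)
    · exact Finset.disjoint_of_subset_left t.la
        (Finset.disjoint_of_subset_right hDR hL2R2)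
    · exact Finset.disjoint_of_subset_left t.c2.li
        (Finset.disjoint_of_subset_right hDR hL2R2)
    · intro hzm
      rw [mem_MM] at hzm
      obtain ⟨j, hj1, hj2, hzj⟩ := hzm
      obtain ⟨h3, h4⟩ := hs.block_block (show j < j2 by omega) (by omega) hzj hz
      have h5 : j = i2 := by omega
      rw [h5] at hzj
      exact Finset.disjoint_left.1 hL2R2 (t.c2.li hzj) hzR
  · by_contra hno
    have h1 : j1 = i1 + 1 := by omega
    obtain ⟨u, hu⟩ := hs.cut_ne (show i1 + 1 ≤ 20 * k + 17 by omega)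
    have h2 : u ∈ M i1 := h.cr i1 (by omega) hu
    have h3 : u ∈ M (i1 + 1) := h.cl (i1 + 1) (by omega) hu
    rw [← h1] at h3
    exact Finset.disjoint_left.1 hL1R1 (t.c1.li h2) (t.c1.rj h3)
  · by_contra hno
    have h1 : j2 = i2 + 1 := by omega
    obtain ⟨u, hu⟩ := hs.cut_ne (show i2 + 1 ≤ 20 * k + 17 by omega)
    have h2 : u ∈ M i2 := h.cr i2 (by omega) hu
    have h3 : u ∈ M (i2 + 1) := h.cl (i2 + 1) (by omega) hu
    rw [← h1] at h3
    exact Finset.disjoint_left.1 hL2R2 (t.c2.li h2) (t.c2.rj h3)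

/-- the part of the strip strictly between the blocks `i1` and `j2` -/
def Mid (M C : ℕ → Finset V) (i1 j2 : ℕ) : Finset V := MM M (i1 + 1) j2 \ (C (i1 + 1) ∪ C j2)

/-- everything outside `Mid`, `Z`, `DL`, `DR` -/
def Uo (M C : ℕ → Finset V) (Z DL DR : Finset V) (i1 j2 : ℕ) : Finset V :=
  univ \ (Mid M C i1 j2 ∪ Z ∪ DL ∪ DR)

/-- The Menger data outside the strip. -/
structure MG (Γ : SimpleGraph V) (U X1 X2 DL DR P Q : Finset V) (W : V → Finset V) : Prop where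
  sp : Sp Γ U P Q
  s1 : Nb Γ univ DL ∩ U ⊆ P
  s2 : Nb Γ univ DR ∩ U ⊆ Q
  w0 : ∀ y ∈ P ∩ Q, y ∈ W y
  wU : ∀ y ∈ P ∩ Q, W y ⊆ U
  wc : ∀ y ∈ P ∩ Q, Cn Γ (W y)
  w1 : ∀ y ∈ P ∩ Q, (W y ∩ P ∩ X1).Nonempty
  w2 : ∀ y ∈ P ∩ Q, (W y ∩ Q ∩ X2).Nonempty
  wu : ∀ y ∈ P ∩ Q, ∀ u ∈ W y, u ∈ P → u ∈ Q → u = y
  wd : ∀ y ∈ P ∩ Q, ∀ z ∈ P ∩ Q, y ≠ z → Disjoint (W y) (W z)

/-- the left part -/
def PL (M C : ℕ → Finset V) (DL P : Finset V) (i1 j2 b0 : ℕ) : Finset V :=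
  P ∪ (DL \ Mid M C i1 j2) ∪ (Mid M C i1 j2 ∩ MM M (i1 + 1) b0)

/-- the right part -/
def PR (M C : ℕ → Finset V) (DR Q : Finset V) (i1 j2 b1 : ℕ) : Finset V :=
  Q ∪ (DR \ Mid M C i1 j2) ∪ (Mid M C i1 j2 ∩ MM M b1 j2)

/- END mia -/

/- MODULE mib (M) -/
/-- PROOF. `menger1` in `U` for `Nb Γ univ DL ∩ U` and `Nb Γ univ DR ∩ U`; these are subsets of `X1`, `X2` (`nl`,
`nr`) and of `P`, `Q`. -/
theorem exists_MG {k : ℕ} {Γ : SimpleGraph V} {M : ℕ → Finset V} {Z : Finset V}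
    {X1 X2 DL DR : Finset V} {i1 j1 i2 j2 a c : ℕ}
    (e : Ends k Γ M Z X1 X2 DL DR i1 j1 i2 j2 a c) (U : Finset V) :
    ∃ P Q W, MG Γ U X1 X2 DL DR P Q W := by
  obtain ⟨P, Q, W, hsp, hA, hB, hW, hd⟩ := menger1 Γ U (Nb Γ univ DL ∩ U) (Nb Γ univ DR ∩ U)
    Finset.inter_subset_right Finset.inter_subset_right
  refine ⟨P, Q, W, ⟨hsp, hA, hB, fun y hy => (hW y hy).1, fun y hy => (hW y hy).2.1,
    fun y hy => (hW y hy).2.2.1, ?_, ?_, fun y hy => (hW y hy).2.2.2.2.2, hd⟩⟩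
  · intro y hy
    obtain ⟨u, hu⟩ := (hW y hy).2.2.2.1
    rw [Finset.mem_inter] at hu
    have h1 := (mem_Nb.1 (Finset.mem_inter.1 hu.2).1)
    obtain ⟨-, hnD, d, hd', hdu⟩ := h1
    refine ⟨u, ?_⟩
    rw [Finset.mem_inter, Finset.mem_inter]
    refine ⟨⟨hu.1, hA hu.2⟩, ?_⟩
    rcases e.nl d hd' u hdu with h2 | h2
    · exact absurd h2 hnD
    · exact h2
  · intro y hy
    obtain ⟨u, hu⟩ := (hW y hy).2.2.2.2.1
    rw [Finset.mem_inter] at hu
    have h1 := (mem_Nb.1 (Finset.mem_inter.1 hu.2).1)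
    obtain ⟨-, hnD, d, hd', hdu⟩ := h1
    refine ⟨u, ?_⟩
    rw [Finset.mem_inter, Finset.mem_inter]
    refine ⟨⟨hu.1, hB hu.2⟩, ?_⟩
    rcases e.nr d hd' u hdu with h2 | h2
    · exact absurd h2 hnD
    · exact h2

private theorem mib_Uo {M C : ℕ → Finset V} {Z DL DR : Finset V} {i1 j2 : ℕ} {x : V}
    (hx : x ∈ Uo M C Z DL DR i1 j2) :
    x ∉ Mid M C i1 j2 ∧ x ∉ Z ∧ x ∉ DL ∧ x ∉ DR := by
  unfold Uo at hx
  simp only [Finset.mem_sdiff, Finset.mem_univ, true_and, Finset.mem_union, not_or] at hx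
  exact ⟨hx.1.1.1, hx.1.1.2, hx.1.2, hx.2⟩

private theorem mib_PL {M C : ℕ → Finset V} {DL P : Finset V} {i1 j2 b0 : ℕ} {x : V} :
    x ∈ PL M C DL P i1 j2 b0 ↔ x ∈ P ∨ (x ∈ DL ∧ x ∉ Mid M C i1 j2) ∨
      (x ∈ Mid M C i1 j2 ∧ x ∈ MM M (i1 + 1) b0) := by
  unfold PL
  simp only [Finset.mem_union, Finset.mem_sdiff, Finset.mem_inter, or_assoc]

private theorem mib_PR {M C : ℕ → Finset V} {DR Q : Finset V} {i1 j2 b1 : ℕ} {x : V} :
    x ∈ PR M C DR Q i1 j2 b1 ↔ x ∈ Q ∨ (x ∈ DR ∧ x ∉ Mid M C i1 j2) ∨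
      (x ∈ Mid M C i1 j2 ∧ x ∈ MM M b1 j2) := by
  unfold PR
  simp only [Finset.mem_union, Finset.mem_sdiff, Finset.mem_inter, or_assoc]

private theorem mib_mid {k : ℕ} {Γ : SimpleGraph V} {M C : ℕ → Finset V} {Z J : Finset V}
    {R : V → Finset V} (h : Strip Γ (20 * k + 17) M C Z J R)
    {X1 X2 DL DR : Finset V} {i1 j1 i2 j2 a c : ℕ}
    (e : Ends k Γ M Z X1 X2 DL DR i1 j1 i2 j2 a c) :
    MM M (8 * k + 7) (12 * k + 9) ⊆ Mid M C i1 j2 := by
  have p1 := e.p1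
  have p2 := e.p2
  have p3 := e.p3
  have p4 := e.p4
  have p5 := e.p5
  have p6 := e.p6
  have p7 := e.p7
  intro x hx
  unfold Mid
  rw [Finset.mem_sdiff, Finset.mem_union, not_or]
  refine ⟨mia_MM_mono (by omega) (by omega) hx, ?_, ?_⟩
  · exact fun h1 => Finset.disjoint_left.1
      (h.cut_MM_disj (show 12 * k + 9 ≤ 20 * k + 17 by omega) (by omega) (Or.inl (by omega))) h1 hx
  · exact fun h1 => Finset.disjoint_left.1
      (h.cut_MM_disj (show 12 * k + 9 ≤ 20 * k + 17 by omega) (by omega) (Or.inr (by omega))) h1 hx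

/-- The strip between the two ends is outside of `Uo`. -/
private theorem mib_out {k : ℕ} {Γ : SimpleGraph V} {M C : ℕ → Finset V} {Z J : Finset V}
    {R : V → Finset V} (h : Strip Γ (20 * k + 17) M C Z J R)
    {X1 X2 DL DR : Finset V} {i1 j1 i2 j2 a c : ℕ}
    (e : Ends k Γ M Z X1 X2 DL DR i1 j1 i2 j2 a c) {x : V} (hx : x ∈ MM M (i1 + 1) j2) :
    x ∉ Uo M C Z DL DR i1 j2 := by
  have p1 := e.p1
  have p2 := e.p2
  have p3 := e.p3
  have p4 := e.p4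
  have p5 := e.p5
  have p6 := e.p6
  have p7 := e.p7
  intro hU
  obtain ⟨h1, h2, h3, h4⟩ := mib_Uo hU
  by_cases hc : x ∈ C (i1 + 1)
  · exact h3 (e.ml (h.cr i1 (by omega) hc))
  · by_cases hc' : x ∈ C j2
    · exact h4 (e.mr (h.cl j2 (by omega) hc'))
    · apply h1
      unfold Mid
      rw [Finset.mem_sdiff, Finset.mem_union, not_or]
      exact ⟨hx, hc, hc'⟩

/-- Position of the two parts. PROOF. `MM M b0 b1 ⊆ Mid` (its cuts `C (i1 + 1)`, `C j2` are far away,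
`cut_MM_disj`), `P, Q ⊆ Uo` are disjoint from `Mid`, `Z`, `DL`, `DR`; `Z ⊆ X1` is disjoint from `DL`, `Z ⊆ X2`
from `DR`. `MM_inter`, `MM_disj`, `cut_MM`. Here `b0 = 8 * k + 7`, `b1 = 12 * k + 9`. -/
theorem parts_pos {k : ℕ} {Γ : SimpleGraph V} {M C : ℕ → Finset V} {Z J : Finset V}
    {R W : V → Finset V} (h : Strip Γ (20 * k + 17) M C Z J R)
    {X1 X2 DL DR P Q : Finset V} {i1 j1 i2 j2 a c : ℕ}
    (e : Ends k Γ M Z X1 X2 DL DR i1 j1 i2 j2 a c)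
    (g : MG Γ (Uo M C Z DL DR i1 j2) X1 X2 DL DR P Q W) :
    PL M C DL P i1 j2 (8 * k + 7) ∩ PR M C DR Q i1 j2 (12 * k + 9) = P ∩ Q ∧
    PL M C DL P i1 j2 (8 * k + 7) ∩ MM M (8 * k + 7) (12 * k + 9) = C (8 * k + 7) ∧
    PR M C DR Q i1 j2 (12 * k + 9) ∩ MM M (8 * k + 7) (12 * k + 9) = C (12 * k + 9) ∧
    Disjoint Z (PL M C DL P i1 j2 (8 * k + 7)) ∧ Disjoint Z (PR M C DR Q i1 j2 (12 * k + 9)) ∧
    Disjoint (P ∩ Q) (MM M (8 * k + 7) (12 * k + 9)) := by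
  have p1 := e.p1
  have p2 := e.p2
  have p3 := e.p3
  have p4 := e.p4
  have p5 := e.p5
  have p6 := e.p6
  have p7 := e.p7
  have hMid := mib_mid h e
  have hP : ∀ x ∈ P, x ∈ Uo M C Z DL DR i1 j2 := fun x hx => by
    rw [← g.sp.1]; exact Finset.mem_union_left _ hx
  have hQ : ∀ x ∈ Q, x ∈ Uo M C Z DL DR i1 j2 := fun x hx => by
    rw [← g.sp.1]; exact Finset.mem_union_right _ hx
  have hPM : ∀ x ∈ P, x ∉ Mid M C i1 j2 := fun x hx hm => (mib_Uo (hP x hx)).1 hm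
  have hQM : ∀ x ∈ Q, x ∉ Mid M C i1 j2 := fun x hx hm => (mib_Uo (hQ x hx)).1 hm
  refine ⟨?_, ?_, ?_, ?_, ?_, ?_⟩
  · ext x
    rw [Finset.mem_inter, Finset.mem_inter, mib_PL, mib_PR]
    constructor
    · rintro ⟨h1 | ⟨h1, h1'⟩ | ⟨h1, h1'⟩, h2 | ⟨h2, h2'⟩ | ⟨h2, h2'⟩⟩
      · exact ⟨h1, h2⟩
      · exact absurd h2 (mib_Uo (hP x h1)).2.2.2
      · exact absurd h2 (hPM x h1)
      · exact absurd h1 (mib_Uo (hQ x h2)).2.2.1
      · exact absurd h2 (Finset.disjoint_left.1 e.lr h1)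
      · exact absurd h2 h1'
      · exact absurd h1 (hQM x h2)
      · exact absurd h1 h2'
      · exact absurd h2' (Finset.disjoint_left.1
          (h.MM_disj (show 8 * k + 7 < 12 * k + 9 by omega) (by omega)) h1')
    · rintro ⟨h1, h2⟩
      exact ⟨Or.inl h1, Or.inl h2⟩
  · ext x
    rw [Finset.mem_inter, mib_PL]
    constructor
    · rintro ⟨h1 | ⟨h1, h1'⟩ | ⟨h1, h1'⟩, h2⟩
      · exact absurd (hMid h2) (hPM x h1)
      · exact absurd (hMid h2) h1'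
      · exact h.MM_inter (show 12 * k + 9 ≤ 20 * k + 17 by omega) (Finset.mem_inter.2 ⟨h1', h2⟩)
    · intro hx
      have h2 : x ∈ MM M (8 * k + 7) (12 * k + 9) :=
        h.cut_MM (by omega) (by omega) le_rfl (by omega) hx
      exact ⟨Or.inr (Or.inr ⟨hMid h2, h.cut_MM (by omega) (by omega) (by omega) le_rfl hx⟩), h2⟩
  · ext x
    rw [Finset.mem_inter, mib_PR]
    constructor
    · rintro ⟨h1 | ⟨h1, h1'⟩ | ⟨h1, h1'⟩, h2⟩
      · exact absurd (hMid h2) (hQM x h1)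
      · exact absurd (hMid h2) h1'
      · exact h.MM_inter (show j2 ≤ 20 * k + 17 by omega) (Finset.mem_inter.2 ⟨h2, h1'⟩)
    · intro hx
      have h2 : x ∈ MM M (8 * k + 7) (12 * k + 9) :=
        h.cut_MM (by omega) (by omega) (by omega) le_rfl hx
      exact ⟨Or.inr (Or.inr ⟨hMid h2, h.cut_MM (by omega) (by omega) le_rfl (by omega) hx⟩), h2⟩
  · rw [Finset.disjoint_left]
    intro x hx hx'
    rw [mib_PL] at hx'
    rcases hx' with h1 | ⟨h1, h1'⟩ | ⟨h1, h1'⟩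
    · exact (mib_Uo (hP x h1)).2.1 hx
    · exact Finset.disjoint_left.1 e.l1 h1 (e.z1 hx)
    · exact Finset.disjoint_left.1 (h.Z_MM (show 8 * k + 7 ≤ 20 * k + 17 by omega)) hx h1'
  · rw [Finset.disjoint_left]
    intro x hx hx'
    rw [mib_PR] at hx'
    rcases hx' with h1 | ⟨h1, h1'⟩ | ⟨h1, h1'⟩
    · exact (mib_Uo (hQ x h1)).2.1 hx
    · exact Finset.disjoint_left.1 e.r2 h1 (e.z2 hx)
    · exact Finset.disjoint_left.1 (h.Z_MM (show j2 ≤ 20 * k + 17 by omega)) hx h1'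
  · rw [Finset.disjoint_left]
    intro x hx hx'
    exact hPM x (Finset.mem_inter.1 hx).1 (hMid hx')

/- END mib -/

/- MODULE mic (L) -/
private theorem mic_class {k : ℕ} {Γ : SimpleGraph V} {M C : ℕ → Finset V} {Z J : Finset V}
    {R W : V → Finset V} (h : Strip Γ (20 * k + 17) M C Z J R)
    {X1 X2 DL DR P Q : Finset V} {i1 j1 i2 j2 a c : ℕ}
    (e : Ends k Γ M Z X1 X2 DL DR i1 j1 i2 j2 a c)
    (g : MG Γ (Uo M C Z DL DR i1 j2) X1 X2 DL DR P Q W) {u : V}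
    (hu : u ∉ MM M (8 * k + 7) (12 * k + 9) \ (C (8 * k + 7) ∪ C (12 * k + 9))) :
    u ∈ Z ∨ u ∈ PL M C DL P i1 j2 (8 * k + 7) ∨ u ∈ PR M C DR Q i1 j2 (12 * k + 9) := by
  have p1 := e.p1
  have p2 := e.p2
  have p3 := e.p3
  have p4 := e.p4
  have p5 := e.p5
  have p6 := e.p6
  have p7 := e.p7
  by_cases hZ : u ∈ Z
  · exact Or.inl hZ
  right
  rw [mib_PL, mib_PR]
  by_cases hM : u ∈ Mid M C i1 j2
  · have h1 : u ∈ MM M (i1 + 1) j2 := by
      unfold Mid at hM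
      exact (Finset.mem_sdiff.1 hM).1
    obtain ⟨i, hi1, hi2, hui⟩ := mem_MM.1 h1
    by_cases h2 : i < 8 * k + 7
    · exact Or.inl (Or.inr (Or.inr ⟨hM, mem_MM.2 ⟨i, hi1, h2, hui⟩⟩))
    · by_cases h3 : 12 * k + 9 ≤ i
      · exact Or.inr (Or.inr (Or.inr ⟨hM, mem_MM.2 ⟨i, h3, hi2, hui⟩⟩))
      · have h4 : u ∈ MM M (8 * k + 7) (12 * k + 9) :=
          mem_MM.2 ⟨i, by omega, by omega, hui⟩
        have h5 : u ∈ C (8 * k + 7) ∪ C (12 * k + 9) := by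
          by_contra h6
          exact hu (Finset.mem_sdiff.2 ⟨h4, h6⟩)
        rcases Finset.mem_union.1 h5 with h6 | h6
        · exact Or.inl (Or.inr (Or.inr ⟨hM, h.cut_MM (by omega) (by omega) (by omega) le_rfl h6⟩))
        · exact Or.inr (Or.inr (Or.inr ⟨hM, h.cut_MM (by omega) (by omega) le_rfl (by omega) h6⟩))
  · by_cases hL : u ∈ DL
    · exact Or.inl (Or.inr (Or.inl ⟨hL, hM⟩))
    · by_cases hR : u ∈ DR
      · exact Or.inr (Or.inr (Or.inl ⟨hR, hM⟩))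
      · have h1 : u ∈ Uo M C Z DL DR i1 j2 := by
          unfold Uo
          simp only [Finset.mem_sdiff, Finset.mem_univ, true_and, Finset.mem_union, not_or]
          exact ⟨⟨⟨hM, hZ⟩, hL⟩, hR⟩
        rw [← g.sp.1] at h1
        rcases Finset.mem_union.1 h1 with h2 | h2
        · exact Or.inl (Or.inl h2)
        · exact Or.inr (Or.inl h2)

/-- no edge between `Uo` and `Mid` -/
private theorem mic_UM {k : ℕ} {Γ : SimpleGraph V} {M C : ℕ → Finset V} {Z J : Finset V}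
    {R : V → Finset V} (h : Strip Γ (20 * k + 17) M C Z J R)
    {X1 X2 DL DR : Finset V} {i1 j1 i2 j2 a c : ℕ}
    (e : Ends k Γ M Z X1 X2 DL DR i1 j1 i2 j2 a c) {u w : V}
    (hu : u ∈ Uo M C Z DL DR i1 j2) (hw : w ∈ Mid M C i1 j2) : ¬ Γ.Adj w u := by
  have p6 := e.p6
  have p7 := e.p7
  intro hadj
  unfold Mid at hw
  rw [Finset.mem_sdiff, Finset.mem_union, not_or] at hw
  rcases h.MM_nb (show j2 ≤ 20 * k + 17 by omega) hw.1 hw.2.1 hw.2.2 hadj with h1 | h1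
  · exact mib_out h e h1 hu
  · exact (mib_Uo hu).2.1 h1

/-- a vertex of the right part of `Mid` has its neighbours in the blocks from `b0 + 1` on -/
private theorem mic_nbR {k : ℕ} {Γ : SimpleGraph V} {M C : ℕ → Finset V} {Z J : Finset V}
    {R : V → Finset V} (h : Strip Γ (20 * k + 17) M C Z J R)
    {X1 X2 DL DR : Finset V} {i1 j1 i2 j2 a c : ℕ}
    (e : Ends k Γ M Z X1 X2 DL DR i1 j1 i2 j2 a c) {u w : V}
    (hw : w ∈ Mid M C i1 j2) (hw' : w ∈ MM M (12 * k + 9) j2) (hadj : Γ.Adj w u) :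
    u ∈ MM M (8 * k + 8) j2 ∨ u ∈ Z := by
  have p4 := e.p4
  have p5 := e.p5
  have p6 := e.p6
  have p7 := e.p7
  unfold Mid at hw
  rw [Finset.mem_sdiff, Finset.mem_union, not_or] at hw
  refine h.MM_nb (show j2 ≤ 20 * k + 17 by omega) (mia_MM_mono (by omega) le_rfl hw') ?_
    hw.2.2 hadj
  exact fun h1 => Finset.disjoint_left.1
    (h.cut_MM_disj (show j2 ≤ 20 * k + 17 by omega) (by omega)
      (Or.inl (show 8 * k + 8 < 12 * k + 9 by omega))) h1 hw'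

private theorem mic_nbL {k : ℕ} {Γ : SimpleGraph V} {M C : ℕ → Finset V} {Z J : Finset V}
    {R : V → Finset V} (h : Strip Γ (20 * k + 17) M C Z J R)
    {X1 X2 DL DR : Finset V} {i1 j1 i2 j2 a c : ℕ}
    (e : Ends k Γ M Z X1 X2 DL DR i1 j1 i2 j2 a c) {u w : V}
    (hw : w ∈ Mid M C i1 j2) (hw' : w ∈ MM M (i1 + 1) (8 * k + 7)) (hadj : Γ.Adj w u) :
    u ∈ MM M (i1 + 1) (8 * k + 8) ∨ u ∈ Z := by
  have p2 := e.p2
  have p3 := e.p3
  unfold Mid at hw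
  rw [Finset.mem_sdiff, Finset.mem_union, not_or] at hw
  refine h.MM_nb (show 8 * k + 8 ≤ 20 * k + 17 by omega) (mia_MM_mono le_rfl (by omega) hw')
    hw.2.1 ?_ hadj
  exact fun h1 => Finset.disjoint_left.1
    (h.cut_MM_disj (show 8 * k + 7 ≤ 20 * k + 17 by omega) (by omega)
      (Or.inr (show 8 * k + 7 < 8 * k + 8 by omega))) h1 hw'

private theorem mic_no {k : ℕ} {Γ : SimpleGraph V} {M C : ℕ → Finset V} {Z J : Finset V}
    {R W : V → Finset V} (h : Strip Γ (20 * k + 17) M C Z J R)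
    {X1 X2 DL DR P Q : Finset V} {i1 j1 i2 j2 a c : ℕ}
    (e : Ends k Γ M Z X1 X2 DL DR i1 j1 i2 j2 a c)
    (g : MG Γ (Uo M C Z DL DR i1 j2) X1 X2 DL DR P Q W) {u w : V}
    (hu : u ∈ PL M C DL P i1 j2 (8 * k + 7)) (hu' : u ∉ PR M C DR Q i1 j2 (12 * k + 9))
    (hw : w ∈ PR M C DR Q i1 j2 (12 * k + 9)) (hw' : w ∉ PL M C DL P i1 j2 (8 * k + 7)) :
    ¬ Γ.Adj u w := by
  have p1 := e.p1
  have p2 := e.p2
  have p3 := e.p3
  have p4 := e.p4
  have p5 := e.p5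
  have p6 := e.p6
  have p7 := e.p7
  have hP : ∀ x ∈ P, x ∈ Uo M C Z DL DR i1 j2 := fun x hx => by
    rw [← g.sp.1]; exact Finset.mem_union_left _ hx
  have hQ : ∀ x ∈ Q, x ∈ Uo M C Z DL DR i1 j2 := fun x hx => by
    rw [← g.sp.1]; exact Finset.mem_union_right _ hx
  intro hadj
  have huQ : u ∉ Q := fun h1 => hu' (mib_PR.2 (Or.inl h1))
  have hwP : w ∉ P := fun h1 => hw' (mib_PL.2 (Or.inl h1))
  rw [mib_PL] at hu
  rw [mib_PR] at hw
  rcases hu with h1 | ⟨h1, h1'⟩ | ⟨h1, h1'⟩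
  · rcases hw with h2 | ⟨h2, h2'⟩ | ⟨h2, h2'⟩
    · exact g.sp.2 u h1 huQ w h2 hwP hadj
    · -- u in P \ Q, w in DR
      apply huQ
      apply g.s2
      rw [Finset.mem_inter, mem_Nb]
      exact ⟨⟨Finset.mem_univ _, (mib_Uo (hP u h1)).2.2.2, w, h2, hadj.symm⟩, hP u h1⟩
    · exact mic_UM h e (hP u h1) h2 hadj.symm
  · rcases hw with h2 | ⟨h2, h2'⟩ | ⟨h2, h2'⟩
    · apply hwP
      apply g.s1
      rw [Finset.mem_inter, mem_Nb]
      exact ⟨⟨Finset.mem_univ _, (mib_Uo (hQ w h2)).2.2.1, u, h1, hadj⟩, hQ w h2⟩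
    · rcases e.nl u h1 w hadj with h3 | h3
      · exact Finset.disjoint_left.1 e.lr h3 h2
      · exact Finset.disjoint_left.1 e.r1 h2 h3
    · rcases mic_nbR h e h2 h2' hadj.symm with h3 | h3
      · exact Finset.disjoint_left.1 e.al h1 (mia_MM_mono (by omega) (by omega) h3)
      · exact Finset.disjoint_left.1 e.l1 h1 (e.z1 h3)
  · rcases hw with h2 | ⟨h2, h2'⟩ | ⟨h2, h2'⟩
    · exact mic_UM h e (hQ w h2) h1 hadj
    · rcases mic_nbL h e h1 h1' hadj with h3 | h3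
      · exact Finset.disjoint_left.1 e.ar h2 (mia_MM_mono (by omega) (by omega) h3)
      · exact Finset.disjoint_left.1 e.r2 h2 (e.z2 h3)
    · rcases mic_nbR h e h2 h2' hadj.symm with h3 | h3
      · exact Finset.disjoint_left.1
          (h.MM_disj (show 8 * k + 7 < 8 * k + 8 by omega) (by omega)) h1' h3
      · exact Finset.disjoint_left.1 (h.Z_MM (show 8 * k + 7 ≤ 20 * k + 17 by omega)) h3 h1'

/-- Coverage. PROOF. Every vertex outside the inner part of the middle region is in `PL ∪ PR ∪ Z`: it is in `Z`, or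
in `DL \ Mid`, `DR \ Mid`, `Uo = P ∪ Q`, or in `Mid`, i.e. in a block of `[i1 + 1, j2)`; if the block is in
`[b0, b1)` the vertex is in `C b0` or `C b1`, which lie in the blocks `b0 - 1` and `b1`. Let `uw` be an edge with
`u, w ∉ Z`. It remains to exclude `u ∈ PL \ PR`, `w ∈ PR \ PL`. (a) `u ∈ P \ Q`, `w ∈ Q \ P`: `g.sp`. (b) `u ∈ P \ Q`,
`w ∈ DR`: `u ∉ DR` (`u ∈ Uo`), so `u ∈ Nb Γ univ DR ∩ Uo ⊆ Q`, impossible. (c) `u ∈ P \ Q`, `w ∈ Mid ∩ MM M b1 j2`: by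
`MM_nb` for `w` and `[i1 + 1, j2)` `u ∈ MM M (i1 + 1) j2`, and `u ∉ Mid`, so `u ∈ C (i1 + 1) ⊆ M i1 ⊆ DL` or
`u ∈ C j2 ⊆ M j2 ⊆ DR`, impossible for `u ∈ Uo`. (d) `u ∈ DL \ Mid`, `w ∈ Q \ P`: as (b). (e) `u ∈ DL`, `w ∈ DR`: `e.nl`,
`e.r1`, `e.lr`. (f) `u ∈ DL \ Mid`, `w ∈ Mid ∩ MM M b1 j2`: as in (c) `u ∈ C (i1 + 1)` or `u ∈ C j2 ⊆ DR` (impossible);
`edge_block` for `w`: `u, w` are in one block `j`, `j ∈ {i1, i1 + 1}` (`cut_block`), and `w ∈ M j` and `w ∈ M j'` with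
`j' ≥ b1` contradict `block_block`. (g) `u ∈ Mid ∩ MM M (i1 + 1) b0`: symmetric for `w ∈ Q \ P`, `w ∈ DR \ Mid`; for
`w ∈ Mid ∩ MM M b1 j2` use `edge_block` and `block_block` (`b0 + 1 < b1`). -/
theorem parts_cov {k : ℕ} {Γ : SimpleGraph V} {M C : ℕ → Finset V} {Z J : Finset V}
    {R W : V → Finset V} (h : Strip Γ (20 * k + 17) M C Z J R)
    {X1 X2 DL DR P Q : Finset V} {i1 j1 i2 j2 a c : ℕ}
    (e : Ends k Γ M Z X1 X2 DL DR i1 j1 i2 j2 a c)
    (g : MG Γ (Uo M C Z DL DR i1 j2) X1 X2 DL DR P Q W) {u w : V} (huw : Γ.Adj u w)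
    (hu : u ∉ MM M (8 * k + 7) (12 * k + 9) \ (C (8 * k + 7) ∪ C (12 * k + 9)))
    (hw : w ∉ MM M (8 * k + 7) (12 * k + 9) \ (C (8 * k + 7) ∪ C (12 * k + 9))) :
    (u ∈ PL M C DL P i1 j2 (8 * k + 7) ∪ Z ∧ w ∈ PL M C DL P i1 j2 (8 * k + 7) ∪ Z) ∨
      (u ∈ PR M C DR Q i1 j2 (12 * k + 9) ∪ Z ∧ w ∈ PR M C DR Q i1 j2 (12 * k + 9) ∪ Z) := by
  have p1 := e.p1
  have p2 := e.p2
  have p3 := e.p3
  have p4 := e.p4
  have p5 := e.p5
  have p6 := e.p6
  have p7 := e.p7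
  rcases mic_class h e g hu with u1 | u1 | u1
  · -- u in Z
    rcases mic_class h e g hw with w1 | w1 | w1
    · exact Or.inl ⟨Finset.mem_union_right _ u1, Finset.mem_union_right _ w1⟩
    · exact Or.inl ⟨Finset.mem_union_right _ u1, Finset.mem_union_left _ w1⟩
    · exact Or.inr ⟨Finset.mem_union_right _ u1, Finset.mem_union_left _ w1⟩
  · rcases mic_class h e g hw with w1 | w1 | w1
    · exact Or.inl ⟨Finset.mem_union_left _ u1, Finset.mem_union_right _ w1⟩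
    · exact Or.inl ⟨Finset.mem_union_left _ u1, Finset.mem_union_left _ w1⟩
    · by_cases h1 : u ∈ PR M C DR Q i1 j2 (12 * k + 9)
      · exact Or.inr ⟨Finset.mem_union_left _ h1, Finset.mem_union_left _ w1⟩
      · by_cases h2 : w ∈ PL M C DL P i1 j2 (8 * k + 7)
        · exact Or.inl ⟨Finset.mem_union_left _ u1, Finset.mem_union_left _ h2⟩
        · exact absurd huw (mic_no h e g u1 h1 w1 h2)
  · rcases mic_class h e g hw with w1 | w1 | w1
    · exact Or.inr ⟨Finset.mem_union_left _ u1, Finset.mem_union_right _ w1⟩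
    · by_cases h1 : w ∈ PR M C DR Q i1 j2 (12 * k + 9)
      · exact Or.inr ⟨Finset.mem_union_left _ u1, Finset.mem_union_left _ h1⟩
      · by_cases h2 : u ∈ PL M C DL P i1 j2 (8 * k + 7)
        · exact Or.inl ⟨Finset.mem_union_left _ h2, Finset.mem_union_left _ w1⟩
        · exact absurd huw.symm (mic_no h e g w1 h1 u1 h2)
    · exact Or.inr ⟨Finset.mem_union_left _ u1, Finset.mem_union_left _ w1⟩

/- END mic -/

/- MODULE mid (M) -/
/-- The piece of a rail from the cut `j` to the end `DR` meets `X2`. PROOF. It is connected (`rail_MM`), contains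
the vertex of the rail in `C j2 ⊆ M j2 ⊆ DR`, and the vertex `u ∈ C j`, which is not in `DR` (`e.ar`,
`cut_MM`): `Cn.exit`, `e.nr`. -/
theorem right_piece {k : ℕ} {Γ : SimpleGraph V} {M C : ℕ → Finset V} {Z J : Finset V}
    {R : V → Finset V} (h : Strip Γ (20 * k + 17) M C Z J R)
    {X1 X2 DL DR : Finset V} {i1 j1 i2 j2 a c : ℕ}
    (e : Ends k Γ M Z X1 X2 DL DR i1 j1 i2 j2 a c) {j : ℕ} (hj0 : 8 * k + 7 ≤ j)
    (hj1 : j ≤ 12 * k + 9) {b : V} (hb : b ∈ J) :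
    Cn Γ (R b ∩ MM M j j2) ∧ (R b ∩ MM M j j2 ∩ X2).Nonempty := by
  have p1 := e.p1
  have p2 := e.p2
  have p3 := e.p3
  have p4 := e.p4
  have p5 := e.p5
  have p6 := e.p6
  have p7 := e.p7
  have hc := h.rail_MM hb (show j < j2 by omega) (show j2 ≤ 20 * k + 17 by omega)
  refine ⟨hc, ?_⟩
  obtain ⟨u, hu, huR, -⟩ := h.rail_cut (show j2 ≤ 20 * k + 17 by omega) hb
  obtain ⟨v, hv, hvR, -⟩ := h.rail_cut (show j ≤ 20 * k + 17 by omega) hb
  have h1 : u ∈ R b ∩ MM M j j2 := Finset.mem_inter.2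
    ⟨huR, h.cut_MM (by omega) (by omega) (by omega) le_rfl hu⟩
  have h2 : v ∈ R b ∩ MM M j j2 := Finset.mem_inter.2
    ⟨hvR, h.cut_MM (by omega) (by omega) le_rfl (by omega) hv⟩
  have h3 : u ∈ DR := e.mr (h.cl j2 (by omega) hu)
  have h4 : v ∉ DR := fun h5 => Finset.disjoint_left.1 e.ar h5
    (h.cut_MM (show a < i2 + 1 by omega) (by omega) (by omega) (by omega) hv)
  obtain ⟨x, -, hxD, y, hy, hyD, hxy⟩ := hc.exit h1 h3 h2 h4
  rcases e.nr x hxD y hxy with h5 | h5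
  · exact absurd h5 hyD
  · exact ⟨y, Finset.mem_inter.2 ⟨hy, h5⟩⟩

/-- the same on the left -/
theorem left_piece {k : ℕ} {Γ : SimpleGraph V} {M C : ℕ → Finset V} {Z J : Finset V}
    {R : V → Finset V} (h : Strip Γ (20 * k + 17) M C Z J R)
    {X1 X2 DL DR : Finset V} {i1 j1 i2 j2 a c : ℕ}
    (e : Ends k Γ M Z X1 X2 DL DR i1 j1 i2 j2 a c) {j : ℕ} (hj0 : 8 * k + 7 ≤ j)
    (hj1 : j ≤ 12 * k + 9) {b : V} (hb : b ∈ J) :
    Cn Γ (R b ∩ MM M (i1 + 1) j) ∧ (R b ∩ MM M (i1 + 1) j ∩ X1).Nonempty := by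
  have p1 := e.p1
  have p2 := e.p2
  have p3 := e.p3
  have p4 := e.p4
  have p5 := e.p5
  have p6 := e.p6
  have p7 := e.p7
  have hc := h.rail_MM hb (show i1 + 1 < j by omega) (show j ≤ 20 * k + 17 by omega)
  refine ⟨hc, ?_⟩
  obtain ⟨u, hu, huR, -⟩ := h.rail_cut (show i1 + 1 ≤ 20 * k + 17 by omega) hb
  obtain ⟨v, hv, hvR, -⟩ := h.rail_cut (show j ≤ 20 * k + 17 by omega) hb
  have h1 : u ∈ R b ∩ MM M (i1 + 1) j := Finset.mem_inter.2
    ⟨huR, h.cut_MM (by omega) (by omega) le_rfl (by omega) hu⟩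
  have h2 : v ∈ R b ∩ MM M (i1 + 1) j := Finset.mem_inter.2
    ⟨hvR, h.cut_MM (by omega) (by omega) (by omega) le_rfl hv⟩
  have h3 : u ∈ DL := e.ml (h.cr i1 (by omega) hu)
  have h4 : v ∉ DL := fun h5 => Finset.disjoint_left.1 e.al h5
    (h.cut_MM (show j1 < c + 1 by omega) (by omega) (by omega) (by omega) hv)
  obtain ⟨x, -, hxD, y, hy, hyD, hxy⟩ := hc.exit h1 h3 h2 h4
  rcases e.nl x hxD y hxy with h5 | h5
  · exact absurd h5 hyD
  · exact ⟨y, Finset.mem_inter.2 ⟨hy, h5⟩⟩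

/-- PROOF. `Cn.restrict` (`wu`, `wc`, `sp`). -/
theorem MG.right {Γ : SimpleGraph V} {U X1 X2 DL DR P Q : Finset V} {W : V → Finset V}
    (g : MG Γ U X1 X2 DL DR P Q W) {y : V} (hy : y ∈ P ∩ Q) : Cn Γ (W y ∩ Q) := by
  have hPQ : ∀ u ∈ W y, u ∈ P ∨ u ∈ Q := by
    intro u hu
    have h1 := g.wU y hy hu
    rw [← g.sp.1] at h1
    exact Finset.mem_union.1 h1
  obtain ⟨hyP, hyQ⟩ := Finset.mem_inter.1 hy
  refine (g.wc y hy).restrict (P := Q) (Q := P) (fun u hu => (hPQ u hu).symm) ?_ (g.w0 y hy)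
    hyQ hyP (fun u hu hQ hP => g.wu y hy u hu hP hQ)
  intro u hu huP w hw hwQ huw
  have h1 : u ∈ Q := (hPQ u hu).resolve_left huP
  have h2 : w ∈ P := (hPQ w hw).resolve_right hwQ
  exact g.sp.2 w h2 hwQ u h1 huP huw.symm

/-- PROOF. `Cn.restrict` -/
theorem MG.left {Γ : SimpleGraph V} {U X1 X2 DL DR P Q : Finset V} {W : V → Finset V}
    (g : MG Γ U X1 X2 DL DR P Q W) {y : V} (hy : y ∈ P ∩ Q) : Cn Γ (W y ∩ P) := by
  have hPQ : ∀ u ∈ W y, u ∈ P ∨ u ∈ Q := by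
    intro u hu
    have h1 := g.wU y hy hu
    rw [← g.sp.1] at h1
    exact Finset.mem_union.1 h1
  obtain ⟨hyP, hyQ⟩ := Finset.mem_inter.1 hy
  refine (g.wc y hy).restrict (P := P) (Q := Q) hPQ ?_ (g.w0 y hy)
    hyP hyQ (fun u hu hP hQ => g.wu y hy u hu hP hQ)
  intro u hu huQ w hw hwP huw
  have h1 : u ∈ P := (hPQ u hu).resolve_right huQ
  have h2 : w ∈ Q := (hPQ w hw).resolve_left hwP
  exact g.sp.2 u h1 huQ w h2 hwP huw

/- END mid -/

/- MODULE mie (L) -/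
private theorem mie_link {k : ℕ} {Γ : SimpleGraph V} {X A Cj PQ Z : Finset V}
    (htw : TW k (Γ ⊔ KG X)) (F W' : V → Finset V)
    (hC : ∀ s ∈ Cj, s ∈ F s ∧ Cn Γ (F s) ∧ (F s ∩ X).Nonempty ∧ ∀ u ∈ F s, u ∈ A → u = s)
    (hP : ∀ s ∈ PQ, s ∈ W' s ∧ Cn Γ (W' s) ∧ (W' s ∩ X).Nonempty ∧ ∀ u ∈ W' s, u ∈ A → u = s)
    (hZ : Z ⊆ X)
    (dCC : ∀ s ∈ Cj, ∀ t ∈ Cj, s ≠ t → Disjoint (F s) (F t))
    (dPP : ∀ s ∈ PQ, ∀ t ∈ PQ, s ≠ t → Disjoint (W' s) (W' t))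
    (dCP : ∀ s ∈ Cj, ∀ t ∈ PQ, Disjoint (F s) (W' t))
    (dCZ : ∀ s ∈ Cj, Disjoint (F s) Z)
    (dPZ : ∀ t ∈ PQ, Disjoint (W' t) Z)
    (hS : Cj ∪ PQ ∪ Z ⊆ A) : TW k (Ind Γ A ⊔ KG (Cj ∪ PQ ∪ Z)) := by
  classical
  set T : V → Finset V := fun s => if s ∈ Cj then F s else if s ∈ PQ then W' s else {s} with hT
  have T1 : ∀ s ∈ Cj, T s = F s := fun s hs => by rw [hT]; simp [hs]
  have T2 : ∀ s ∈ PQ, T s = W' s := fun s hs => by
    have h1 : s ∉ Cj := fun h2 =>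
      Finset.disjoint_left.1 (dCP s h2 s hs) (hC s h2).1 (hP s hs).1
    rw [hT]; simp [hs, h1]
  have T3 : ∀ s ∈ Z, T s = {s} := fun s hs => by
    have h1 : s ∉ Cj := fun h2 => Finset.disjoint_left.1 (dCZ s h2) (hC s h2).1 hs
    have h2 : s ∉ PQ := fun h3 => Finset.disjoint_left.1 (dPZ s h3) (hP s h3).1 hs
    rw [hT]; simp [h1, h2]
  refine link_tw htw hS T ?_ ?_
  · intro s hs
    rw [Finset.mem_union, Finset.mem_union] at hs
    rcases hs with (h1 | h1) | h1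
    · rw [T1 s h1]; exact hC s h1
    · rw [T2 s h1]; exact hP s h1
    · rw [T3 s h1]
      refine ⟨Finset.mem_singleton_self _, cn_single Γ s,
        ⟨s, Finset.mem_inter.2 ⟨Finset.mem_singleton_self _, hZ h1⟩⟩, ?_⟩
      intro u hu _
      exact Finset.mem_singleton.1 hu
  · intro s hs t ht hst
    rw [Finset.mem_union, Finset.mem_union] at hs ht
    rcases hs with (h1 | h1) | h1
    · rw [T1 s h1]
      rcases ht with (h2 | h2) | h2
      · rw [T1 t h2]; exact dCC s h1 t h2 hst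
      · rw [T2 t h2]; exact dCP s h1 t h2
      · rw [T3 t h2, Finset.disjoint_singleton_right]
        exact fun h3 => Finset.disjoint_left.1 (dCZ s h1) h3 h2
    · rw [T2 s h1]
      rcases ht with (h2 | h2) | h2
      · rw [T1 t h2]; exact (dCP t h2 s h1).symm
      · rw [T2 t h2]; exact dPP s h1 t h2 hst
      · rw [T3 t h2, Finset.disjoint_singleton_right]
        exact fun h3 => Finset.disjoint_left.1 (dPZ s h1) h3 h2
    · rw [T3 s h1, Finset.disjoint_singleton_left]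
      rcases ht with (h2 | h2) | h2
      · rw [T1 t h2]; exact fun h3 => Finset.disjoint_left.1 (dCZ t h2) h3 h1
      · rw [T2 t h2]; exact fun h3 => Finset.disjoint_left.1 (dPZ t h2) h3 h1
      · rw [T3 t h2, Finset.mem_singleton]; exact hst

/-- (H1). PROOF. `link_tw` for `Γ`, `X = X2` (`TW.mono` from `e.tw`), `A = PL ∪ Z ∪ MM M b0 j`,
`S = C j ∪ (P ∩ Q) ∪ Z`, with `T u = R b ∩ MM M j j2` for `u ∈ C j` on the rail `b` (`Strip.cover`, `right_piece`),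
`T y = W y ∩ Q` for `y ∈ P ∩ Q`, `T z = {z}`. `S ⊆ A`: `C j ⊆ MM M b0 j` if `b0 < j`, and `C b0 ⊆ PL` (`parts_pos`).
`T u ∩ A ⊆ {u}`: `MM M j j2` meets `MM M b0 j` in `C j`, `Z` not at all, `P` not (`MM M j j2 ⊆ Mid ∪ C j2`, `C j2 ⊆ DR`,
`P ⊆ Uo`), `DL \ Mid` not (`C j2 ⊆ DR`), and `MM M (i1 + 1) b0` in `C b0` if `j = b0`, not at all if `b0 < j`; and the
rail has one vertex in `C j`. `T y ∩ A ⊆ {y}`: `W y ∩ Q ⊆ Uo`. Disjointness: the rails are disjoint; `MM M j j2` and `Uo`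
are disjoint; `wd`. -/
theorem mid_h1 {k : ℕ} {Γ : SimpleGraph V} {M C : ℕ → Finset V} {Z J : Finset V}
    {R W : V → Finset V} (h : Strip Γ (20 * k + 17) M C Z J R)
    {X1 X2 DL DR P Q : Finset V} {i1 j1 i2 j2 a c : ℕ}
    (e : Ends k Γ M Z X1 X2 DL DR i1 j1 i2 j2 a c)
    (g : MG Γ (Uo M C Z DL DR i1 j2) X1 X2 DL DR P Q W) {j : ℕ} (hj0 : 8 * k + 7 ≤ j)
    (hj1 : j ≤ 12 * k + 9) :
    TW k (Ind Γ (PL M C DL P i1 j2 (8 * k + 7) ∪ Z ∪ MM M (8 * k + 7) j) ⊔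
      KG (C j ∪ (P ∩ Q) ∪ Z)) := by
  classical
  have p1 := e.p1
  have p2 := e.p2
  have p3 := e.p3
  have p4 := e.p4
  have p5 := e.p5
  have p6 := e.p6
  have p7 := e.p7
  have hpos := parts_pos h e g
  have hP : ∀ x ∈ P, x ∈ Uo M C Z DL DR i1 j2 := fun x hx => by
    rw [← g.sp.1]; exact Finset.mem_union_left _ hx
  have hsub : MM M j j2 ⊆ MM M (i1 + 1) j2 := mia_MM_mono (by omega) le_rfl
  have htw : TW k (Γ ⊔ KG X2) := e.tw.mono fun a b hab => by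
    rcases hab with h1 | h1
    · exact Or.inl (Or.inl h1)
    · exact Or.inr h1
  have hρ : ∀ u, ∃ b, u ∈ C j → b ∈ J ∧ u ∈ R b := by
    intro u
    by_cases hu : u ∈ C j
    · obtain ⟨b, hb, hub⟩ := h.cover (show j ≤ 20 * k + 17 by omega) hu
      exact ⟨b, fun _ => ⟨hb, hub⟩⟩
    · exact ⟨u, fun h1 => absurd h1 hu⟩
  choose ρ hρ using hρ
  have huniq : ∀ s ∈ C j, ∀ u ∈ R (ρ s), u ∈ C j → u = s := by
    intro s hs u hu huC
    obtain ⟨v, -, -, hv⟩ := h.rail_cut (show j ≤ 20 * k + 17 by omega) (hρ s hs).1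
    rw [hv u hu huC, hv s (hρ s hs).2 hs]
  refine mie_link htw (fun s => R (ρ s) ∩ MM M j j2) (fun y => W y ∩ Q) ?_ ?_ e.z2 ?_ ?_ ?_ ?_ ?_ ?_
  · intro s hs
    obtain ⟨hb, hsb⟩ := hρ s hs
    obtain ⟨hc, hx⟩ := right_piece h e hj0 hj1 hb
    refine ⟨Finset.mem_inter.2 ⟨hsb, h.cut_MM (by omega) (by omega) le_rfl (by omega) hs⟩, hc, hx,
      ?_⟩
    intro u hu huA
    obtain ⟨huR, huM⟩ := Finset.mem_inter.1 hu
    refine huniq s hs u huR ?_
    rw [Finset.mem_union, Finset.mem_union, mib_PL] at huA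
    rcases huA with ((h1 | ⟨h1, h1'⟩ | ⟨h1, h1'⟩) | h1) | h1
    · exact absurd (hP u h1) (mib_out h e (hsub huM))
    · exact absurd (mia_MM_mono (by omega) (by omega) huM)
        (Finset.disjoint_left.1 e.al h1)
    · rcases Nat.eq_or_lt_of_le hj0 with h2 | h2
      · rw [← h2] at huM ⊢
        exact h.MM_inter (show j2 ≤ 20 * k + 17 by omega) (Finset.mem_inter.2 ⟨h1', huM⟩)
      · exact absurd huM (Finset.disjoint_left.1 (h.MM_disj h2 (by omega)) h1')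
    · exact absurd huM (Finset.disjoint_left.1 (h.Z_MM (show j2 ≤ 20 * k + 17 by omega)) h1)
    · exact h.MM_inter (show j2 ≤ 20 * k + 17 by omega) (Finset.mem_inter.2 ⟨h1, huM⟩)
  · intro y hy
    obtain ⟨hyP, hyQ⟩ := Finset.mem_inter.1 hy
    refine ⟨Finset.mem_inter.2 ⟨g.w0 y hy, hyQ⟩, g.right hy, g.w2 y hy, ?_⟩
    intro u hu huA
    obtain ⟨huW, huQ⟩ := Finset.mem_inter.1 hu
    have huU := g.wU y hy huW
    rw [Finset.mem_union, Finset.mem_union, mib_PL] at huA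
    rcases huA with ((h1 | ⟨h1, h1'⟩ | ⟨h1, h1'⟩) | h1) | h1
    · exact g.wu y hy u huW h1 huQ
    · exact absurd h1 (mib_Uo huU).2.2.1
    · exact absurd h1 (mib_Uo huU).1
    · exact absurd h1 (mib_Uo huU).2.1
    · exact absurd huU (mib_out h e (mia_MM_mono (by omega) (by omega) h1))
  · intro s hs t ht hst
    have hne : ρ s ≠ ρ t := fun h1 => hst (huniq t ht s (h1 ▸ (hρ s hs).2) hs)
    exact Finset.disjoint_of_subset_left Finset.inter_subset_left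
      (Finset.disjoint_of_subset_right Finset.inter_subset_left
        (h.rd _ (hρ s hs).1 _ (hρ t ht).1 hne))
  · intro s hs t ht hst
    exact Finset.disjoint_of_subset_left Finset.inter_subset_left
      (Finset.disjoint_of_subset_right Finset.inter_subset_left (g.wd s hs t ht hst))
  · intro s hs y hy
    rw [Finset.disjoint_left]
    intro u hu hu'
    exact mib_out h e (hsub (Finset.mem_inter.1 hu).2) (g.wU y hy (Finset.mem_inter.1 hu').1)
  · intro s hs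
    rw [Finset.disjoint_left]
    intro u hu hu'
    exact Finset.disjoint_left.1 (h.Z_MM (show j2 ≤ 20 * k + 17 by omega)) hu'
      (Finset.mem_inter.1 hu).2
  · intro y hy
    rw [Finset.disjoint_left]
    intro u hu hu'
    exact (mib_Uo (g.wU y hy (Finset.mem_inter.1 hu).1)).2.1 hu'
  · intro u hu
    rw [Finset.mem_union, Finset.mem_union] at hu ⊢
    rcases hu with (h1 | h1) | h1
    · rcases Nat.eq_or_lt_of_le hj0 with h2 | h2
      · left; left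
        rw [← h2] at h1
        rw [← hpos.2.1] at h1
        exact (Finset.mem_inter.1 h1).1
      · right
        exact h.cut_MM h2 (by omega) (by omega) le_rfl h1
    · left; left
      exact mib_PL.2 (Or.inl (Finset.mem_inter.1 h1).1)
    · left; right
      exact h1

/- END mie -/

/- MODULE mif (L) -/
/-- (H3). PROOF. The mirror image of `mid_h1`: `X = X1`, `A = PR ∪ Z ∪ MM M j b1`, `T u = R b ∩ MM M (i1 + 1) j`
(`left_piece`), `T y = W y ∩ P`, `T z = {z}`. -/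
theorem mid_h3 {k : ℕ} {Γ : SimpleGraph V} {M C : ℕ → Finset V} {Z J : Finset V}
    {R W : V → Finset V} (h : Strip Γ (20 * k + 17) M C Z J R)
    {X1 X2 DL DR P Q : Finset V} {i1 j1 i2 j2 a c : ℕ}
    (e : Ends k Γ M Z X1 X2 DL DR i1 j1 i2 j2 a c)
    (g : MG Γ (Uo M C Z DL DR i1 j2) X1 X2 DL DR P Q W) {j : ℕ} (hj0 : 8 * k + 7 ≤ j)
    (hj1 : j ≤ 12 * k + 9) :
    TW k (Ind Γ (PR M C DR Q i1 j2 (12 * k + 9) ∪ Z ∪ MM M j (12 * k + 9)) ⊔
      KG (C j ∪ (P ∩ Q) ∪ Z)) := by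
  classical
  have p1 := e.p1
  have p2 := e.p2
  have p3 := e.p3
  have p4 := e.p4
  have p5 := e.p5
  have p6 := e.p6
  have p7 := e.p7
  have hpos := parts_pos h e g
  have hQ : ∀ x ∈ Q, x ∈ Uo M C Z DL DR i1 j2 := fun x hx => by
    rw [← g.sp.1]; exact Finset.mem_union_right _ hx
  have hsub : MM M (i1 + 1) j ⊆ MM M (i1 + 1) j2 := mia_MM_mono le_rfl (by omega)
  have htw : TW k (Γ ⊔ KG X1) := e.tw.mono fun a b hab => Or.inl hab
  have hρ : ∀ u, ∃ b, u ∈ C j → b ∈ J ∧ u ∈ R b := by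
    intro u
    by_cases hu : u ∈ C j
    · obtain ⟨b, hb, hub⟩ := h.cover (show j ≤ 20 * k + 17 by omega) hu
      exact ⟨b, fun _ => ⟨hb, hub⟩⟩
    · exact ⟨u, fun h1 => absurd h1 hu⟩
  choose ρ hρ using hρ
  have huniq : ∀ s ∈ C j, ∀ u ∈ R (ρ s), u ∈ C j → u = s := by
    intro s hs u hu huC
    obtain ⟨v, -, -, hv⟩ := h.rail_cut (show j ≤ 20 * k + 17 by omega) (hρ s hs).1
    rw [hv u hu huC, hv s (hρ s hs).2 hs]
  refine mie_link htw (fun s => R (ρ s) ∩ MM M (i1 + 1) j) (fun y => W y ∩ P) ?_ ?_ e.z1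
    ?_ ?_ ?_ ?_ ?_ ?_
  · intro s hs
    obtain ⟨hb, hsb⟩ := hρ s hs
    obtain ⟨hc, hx⟩ := left_piece h e hj0 hj1 hb
    refine ⟨Finset.mem_inter.2 ⟨hsb, h.cut_MM (by omega) (by omega) (by omega) le_rfl hs⟩, hc, hx,
      ?_⟩
    intro u hu huA
    obtain ⟨huR, huM⟩ := Finset.mem_inter.1 hu
    refine huniq s hs u huR ?_
    rw [Finset.mem_union, Finset.mem_union, mib_PR] at huA
    rcases huA with ((h1 | ⟨h1, h1'⟩ | ⟨h1, h1'⟩) | h1) | h1
    · exact absurd (hQ u h1) (mib_out h e (hsub huM))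
    · exact absurd (mia_MM_mono (by omega) (by omega) huM)
        (Finset.disjoint_left.1 e.ar h1)
    · rcases Nat.eq_or_lt_of_le hj1 with h2 | h2
      · rw [h2] at huM ⊢
        exact h.MM_inter (show j2 ≤ 20 * k + 17 by omega) (Finset.mem_inter.2 ⟨huM, h1'⟩)
      · exact absurd h1' (Finset.disjoint_left.1 (h.MM_disj h2 (by omega)) huM)
    · exact absurd huM (Finset.disjoint_left.1 (h.Z_MM (show j ≤ 20 * k + 17 by omega)) h1)
    · exact h.MM_inter (show 12 * k + 9 ≤ 20 * k + 17 by omega) (Finset.mem_inter.2 ⟨huM, h1⟩)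
  · intro y hy
    obtain ⟨hyP, hyQ⟩ := Finset.mem_inter.1 hy
    refine ⟨Finset.mem_inter.2 ⟨g.w0 y hy, hyP⟩, g.left hy, g.w1 y hy, ?_⟩
    intro u hu huA
    obtain ⟨huW, huP⟩ := Finset.mem_inter.1 hu
    have huU := g.wU y hy huW
    rw [Finset.mem_union, Finset.mem_union, mib_PR] at huA
    rcases huA with ((h1 | ⟨h1, h1'⟩ | ⟨h1, h1'⟩) | h1) | h1
    · exact g.wu y hy u huW huP h1
    · exact absurd h1 (mib_Uo huU).2.2.2
    · exact absurd h1 (mib_Uo huU).1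
    · exact absurd h1 (mib_Uo huU).2.1
    · exact absurd huU (mib_out h e (mia_MM_mono (by omega) (by omega) h1))
  · intro s hs t ht hst
    have hne : ρ s ≠ ρ t := fun h1 => hst (huniq t ht s (h1 ▸ (hρ s hs).2) hs)
    exact Finset.disjoint_of_subset_left Finset.inter_subset_left
      (Finset.disjoint_of_subset_right Finset.inter_subset_left
        (h.rd _ (hρ s hs).1 _ (hρ t ht).1 hne))
  · intro s hs t ht hst
    exact Finset.disjoint_of_subset_left Finset.inter_subset_left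
      (Finset.disjoint_of_subset_right Finset.inter_subset_left (g.wd s hs t ht hst))
  · intro s hs y hy
    rw [Finset.disjoint_left]
    intro u hu hu'
    exact mib_out h e (hsub (Finset.mem_inter.1 hu).2) (g.wU y hy (Finset.mem_inter.1 hu').1)
  · intro s hs
    rw [Finset.disjoint_left]
    intro u hu hu'
    exact Finset.disjoint_left.1 (h.Z_MM (show j ≤ 20 * k + 17 by omega)) hu'
      (Finset.mem_inter.1 hu).2
  · intro y hy
    rw [Finset.disjoint_left]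
    intro u hu hu'
    exact (mib_Uo (g.wU y hy (Finset.mem_inter.1 hu).1)).2.1 hu'
  · intro u hu
    rw [Finset.mem_union, Finset.mem_union] at hu ⊢
    rcases hu with (h1 | h1) | h1
    · rcases Nat.eq_or_lt_of_le hj1 with h2 | h2
      · left; left
        rw [h2] at h1
        rw [← hpos.2.2.1] at h1
        exact (Finset.mem_inter.1 h1).1
      · right
        exact h.cut_MM h2 (by omega) le_rfl (by omega) h1
    · left; left
      exact mib_PR.2 (Or.inl (Finset.mem_inter.1 h1).2)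
    · left; right
      exact h1

/- END mif -/

/- MODULE mig (L) -/
private theorem mig_inj {Y S : Finset V} (h : Y.card ≤ S.card) :
    ∃ ι : V → V, (∀ y ∈ Y, ι y ∈ S) ∧ ∀ y ∈ Y, ∀ z ∈ Y, ι y = ι z → y = z := by
  classical
  have h1 : Fintype.card Y ≤ Fintype.card S := by
    rw [Fintype.card_coe, Fintype.card_coe]
    exact h
  obtain ⟨f⟩ := Function.Embedding.nonempty_of_card_le h1
  refine ⟨fun y => if hy : y ∈ Y then (f ⟨y, hy⟩ : V) else y, ?_, ?_⟩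
  · intro y hy
    simp only [hy, dif_pos]
    exact (f ⟨y, hy⟩).2
  · intro y hy z hz hyz
    simp only [hy, hz, dif_pos] at hyz
    have h2 := f.injective (Subtype.ext hyz)
    exact congrArg Subtype.val h2

/-- (H2). PROOF. Let `ι : Y → P ∩ Q` be injective (`|Y| ≤ |P ∩ Q|`). `tw_model` for `Γ ⊔ KG X1 ⊔ KG X2` and
`U = MM M j j' ∪ Z ∪ Y` with the branch sets: `R b ∩ MM M (i1 + 1) j` for the vertex of the rail `b` in `C j`,
`R b ∩ MM M j' j2` for the vertex of the rail `b` in `C j'`, `{u}` for the other `u ∈ MM M j j'` and `u ∈ Z`, `W (ι y)` for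
`y ∈ Y`. They are connected in `Γ` (`left_piece`, `right_piece`, `wc`) and disjoint (`MM M (i1 + 1) j` and `MM M j j'` have
only `C j` in common, `MM M (i1 + 1) j` and `MM M j' j2` are disjoint (`MM_disj`), `W (ι y) ⊆ Uo` is disjoint from
`MM M (i1 + 1) j2`: this set is contained in `Mid ∪ C (i1 + 1) ∪ C j2 ⊆ Mid ∪ DL ∪ DR`). Edges of
`Ind Γ (MM M j j' ∪ Z)`: `u` is in the branch set of `u` (`Y` is disjoint from `MM M j j' ∪ Z`). Edges of
`KG (C j ∪ Y ∪ Z)`: each of these branch sets contains an element of `X1` (`left_piece`, `w1`, `Z ⊆ X1`), distinct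
ones for disjoint sets. The same for `C j'` and `X2`. -/
theorem mid_h2 {k : ℕ} {Γ : SimpleGraph V} {M C : ℕ → Finset V} {Z J : Finset V}
    {R W : V → Finset V} (h : Strip Γ (20 * k + 17) M C Z J R)
    {X1 X2 DL DR P Q : Finset V} {i1 j1 i2 j2 a c : ℕ}
    (e : Ends k Γ M Z X1 X2 DL DR i1 j1 i2 j2 a c)
    (g : MG Γ (Uo M C Z DL DR i1 j2) X1 X2 DL DR P Q W) (Y : Finset V)
    (hY : Y.card ≤ (P ∩ Q).card) (hYd : Disjoint Y (MM M (8 * k + 7) (12 * k + 9) ∪ Z))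
    {j j' : ℕ} (hj0 : 8 * k + 7 ≤ j) (hjj : j < j') (hj1 : j' ≤ 12 * k + 9) :
    TW k (Ind Γ (MM M j j' ∪ Z) ⊔ KG (C j ∪ Y ∪ Z) ⊔ KG (C j' ∪ Y ∪ Z)) := by
  classical
  have p1 := e.p1
  have p2 := e.p2
  have p3 := e.p3
  have p4 := e.p4
  have p5 := e.p5
  have p6 := e.p6
  have p7 := e.p7
  obtain ⟨ι, hι1, hι2⟩ := mig_inj hY
  have hρ : ∀ i ≤ 20 * k + 17, ∃ ρ : V → V, ∀ u ∈ C i, ρ u ∈ J ∧ u ∈ R (ρ u) := by
    intro i hi
    have h1 : ∀ u, ∃ b, u ∈ C i → b ∈ J ∧ u ∈ R b := by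
      intro u
      by_cases hu : u ∈ C i
      · obtain ⟨b, hb, hub⟩ := h.cover hi hu
        exact ⟨b, fun _ => ⟨hb, hub⟩⟩
      · exact ⟨u, fun h1 => absurd h1 hu⟩
    choose ρ hρ using h1
    exact ⟨ρ, hρ⟩
  obtain ⟨ρ, hρ1⟩ := hρ j (by omega)
  obtain ⟨ρ', hρ2⟩ := hρ j' (by omega)
  have huniq : ∀ i ≤ 20 * k + 17, ∀ b ∈ J, ∀ u ∈ R b, u ∈ C i → ∀ v ∈ R b, v ∈ C i → u = v := by
    intro i hi b hb u hu huC v hv hvC
    obtain ⟨x, -, -, hx⟩ := h.rail_cut hi hb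
    rw [hx u hu huC, hx v hv hvC]
  -- disjointness facts
  have dCC : Disjoint (C j) (C j') := h.cuts_disj hjj (by omega)
  have hCj : C j ⊆ MM M j j' := h.cut_MM hjj (by omega) le_rfl hjj.le
  have hCj' : C j' ⊆ MM M j j' := h.cut_MM hjj (by omega) hjj.le le_rfl
  have hbig : MM M j j' ⊆ MM M (8 * k + 7) (12 * k + 9) := mia_MM_mono hj0 hj1
  have hYM : ∀ y ∈ Y, y ∉ MM M j j' := fun y hy h1 =>
    Finset.disjoint_left.1 hYd hy (Finset.mem_union_left _ (hbig h1))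
  have hYZ : ∀ y ∈ Y, y ∉ Z := fun y hy h1 =>
    Finset.disjoint_left.1 hYd hy (Finset.mem_union_right _ h1)
  have hZM : ∀ z ∈ Z, z ∉ MM M j j' := fun z hz h1 =>
    Finset.disjoint_left.1 (h.Z_MM (show j' ≤ 20 * k + 17 by omega)) hz h1
  set B : V → Finset V := fun s => if s ∈ C j then R (ρ s) ∩ MM M (i1 + 1) j else
    if s ∈ C j' then R (ρ' s) ∩ MM M j' j2 else if s ∈ Y then W (ι s) else {s} with hB
  have B1 : ∀ s ∈ C j, B s = R (ρ s) ∩ MM M (i1 + 1) j := fun s hs => by rw [hB]; simp [hs]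
  have B2 : ∀ s ∈ C j', B s = R (ρ' s) ∩ MM M j' j2 := fun s hs => by
    have h1 : s ∉ C j := fun h2 => Finset.disjoint_left.1 dCC h2 hs
    rw [hB]; simp [hs, h1]
  have B3 : ∀ s ∈ Y, B s = W (ι s) := fun s hs => by
    have h1 : s ∉ C j := fun h2 => hYM s hs (hCj h2)
    have h3 : s ∉ C j' := fun h2 => hYM s hs (hCj' h2)
    rw [hB]; simp [hs, h1, h3]
  have B4 : ∀ s, s ∉ C j → s ∉ C j' → s ∉ Y → B s = {s} := fun s h1 h2 h3 => by
    rw [hB]; simp [h1, h2, h3]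
  have hself : ∀ s, s ∉ Y → s ∈ B s := by
    intro s hs
    by_cases h1 : s ∈ C j
    · rw [B1 s h1]
      exact Finset.mem_inter.2 ⟨(hρ1 s h1).2, h.cut_MM (by omega) (by omega) (by omega) le_rfl h1⟩
    · by_cases h2 : s ∈ C j'
      · rw [B2 s h2]
        exact Finset.mem_inter.2 ⟨(hρ2 s h2).2, h.cut_MM (by omega) (by omega) le_rfl (by omega) h2⟩
      · rw [B4 s h1 h2 hs]
        exact Finset.mem_singleton_self _
  have hUo : ∀ s ∈ Y, ∀ x ∈ B s, x ∈ Uo M C Z DL DR i1 j2 := fun s hs x hx => by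
    rw [B3 s hs] at hx
    exact g.wU _ (hι1 s hs) hx
  -- the branch sets of the vertices not in `Y` avoid `Uo`
  have hnU : ∀ s ∈ MM M j j' ∪ Z, ∀ x ∈ B s, x ∉ Uo M C Z DL DR i1 j2 := by
    intro s hs x hx
    by_cases h1 : s ∈ C j
    · rw [B1 s h1] at hx
      exact mib_out h e (mia_MM_mono le_rfl (by omega) (Finset.mem_inter.1 hx).2)
    · by_cases h2 : s ∈ C j'
      · rw [B2 s h2] at hx
        exact mib_out h e (mia_MM_mono (by omega) le_rfl (Finset.mem_inter.1 hx).2)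
      · rw [Finset.mem_union] at hs
        have h3 : s ∉ Y := fun h4 => by
          rcases hs with h5 | h5
          · exact hYM s h4 h5
          · exact hYZ s h4 h5
        rw [B4 s h1 h2 h3, Finset.mem_singleton] at hx
        rw [hx]
        rcases hs with h5 | h5
        · exact mib_out h e (mia_MM_mono (by omega) (by omega) h5)
        · exact fun h6 => (mib_Uo h6).2.1 h5
  have hd1 : ∀ s ∈ C j, ∀ t, t ∉ C j → t ∉ C j' → t ∈ MM M j j' ∪ Z → t ∉ Y →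
      Disjoint (B s) (B t) := by
    intro s hs t h1 h2 h3 h4
    rw [B1 s hs, B4 t h1 h2 h4, Finset.disjoint_singleton_right]
    intro h5
    have h6 := (Finset.mem_inter.1 h5).2
    rcases Finset.mem_union.1 h3 with h7 | h7
    · exact h1 (h.MM_inter (show j' ≤ 20 * k + 17 by omega) (Finset.mem_inter.2 ⟨h6, h7⟩))
    · exact Finset.disjoint_left.1 (h.Z_MM (show j ≤ 20 * k + 17 by omega)) h7 h6
  have hd2 : ∀ s ∈ C j', ∀ t, t ∉ C j → t ∉ C j' → t ∈ MM M j j' ∪ Z → t ∉ Y →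
      Disjoint (B s) (B t) := by
    intro s hs t h1 h2 h3 h4
    rw [B2 s hs, B4 t h1 h2 h4, Finset.disjoint_singleton_right]
    intro h5
    have h6 := (Finset.mem_inter.1 h5).2
    rcases Finset.mem_union.1 h3 with h7 | h7
    · exact h2 (h.MM_inter (show j2 ≤ 20 * k + 17 by omega) (Finset.mem_inter.2 ⟨h7, h6⟩))
    · exact Finset.disjoint_left.1 (h.Z_MM (show j2 ≤ 20 * k + 17 by omega)) h7 h6
  have hd3 : ∀ s ∈ C j, ∀ t ∈ C j', Disjoint (B s) (B t) := by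
    intro s hs t ht
    rw [B1 s hs, B2 t ht]
    exact Finset.disjoint_of_subset_left Finset.inter_subset_right
      (Finset.disjoint_of_subset_right Finset.inter_subset_right (h.MM_disj hjj (by omega)))
  have hd4 : ∀ s ∈ MM M j j' ∪ Z, ∀ t ∈ Y, Disjoint (B s) (B t) := by
    intro s hs t ht
    rw [Finset.disjoint_left]
    intro x hx hx'
    exact hnU s hs x hx (hUo t ht x hx')
  have hdis : ∀ s ∈ MM M j j' ∪ Z ∪ Y, ∀ t ∈ MM M j j' ∪ Z ∪ Y, s ≠ t →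
      Disjoint (B s) (B t) := by
    intro s hs t ht hst
    by_cases hsY : s ∈ Y
    · by_cases htY : t ∈ Y
      · rw [B3 s hsY, B3 t htY]
        exact g.wd _ (hι1 s hsY) _ (hι1 t htY) (fun h1 => hst (hι2 s hsY t htY h1))
      · exact (hd4 t ((Finset.mem_union.1 ht).resolve_right htY) s hsY).symm
    · have hs' := (Finset.mem_union.1 hs).resolve_right hsY
      by_cases htY : t ∈ Y
      · exact hd4 s hs' t htY
      · have ht' := (Finset.mem_union.1 ht).resolve_right htY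
        by_cases s1 : s ∈ C j
        · by_cases t1 : t ∈ C j
          · rw [B1 s s1, B1 t t1]
            have hne : ρ s ≠ ρ t := fun h1 => hst
              (huniq j (by omega) (ρ t) (hρ1 t t1).1 s (h1 ▸ (hρ1 s s1).2) s1 t (hρ1 t t1).2 t1)
            exact Finset.disjoint_of_subset_left Finset.inter_subset_left
              (Finset.disjoint_of_subset_right Finset.inter_subset_left
                (h.rd _ (hρ1 s s1).1 _ (hρ1 t t1).1 hne))
          · by_cases t2 : t ∈ C j'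
            · exact hd3 s s1 t t2
            · exact hd1 s s1 t t1 t2 ht' htY
        · by_cases s2 : s ∈ C j'
          · by_cases t1 : t ∈ C j
            · exact (hd3 t t1 s s2).symm
            · by_cases t2 : t ∈ C j'
              · rw [B2 s s2, B2 t t2]
                have hne : ρ' s ≠ ρ' t := fun h1 => hst
                  (huniq j' (by omega) (ρ' t) (hρ2 t t2).1 s (h1 ▸ (hρ2 s s2).2) s2 t
                    (hρ2 t t2).2 t2)
                exact Finset.disjoint_of_subset_left Finset.inter_subset_left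
                  (Finset.disjoint_of_subset_right Finset.inter_subset_left
                    (h.rd _ (hρ2 s s2).1 _ (hρ2 t t2).1 hne))
              · exact hd2 s s2 t t1 t2 ht' htY
          · by_cases t1 : t ∈ C j
            · exact (hd1 t t1 s s1 s2 hs' hsY).symm
            · by_cases t2 : t ∈ C j'
              · exact (hd2 t t2 s s1 s2 hs' hsY).symm
              · rw [B4 s s1 s2 hsY, B4 t t1 t2 htY, Finset.disjoint_singleton_left,
                  Finset.mem_singleton]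
                exact hst
  have hUin : ∀ s ∈ C j ∪ Y ∪ Z, s ∈ MM M j j' ∪ Z ∪ Y := by
    intro s hs
    rw [Finset.mem_union, Finset.mem_union] at hs
    rcases hs with (h1 | h1) | h1
    · exact Finset.mem_union_left _ (Finset.mem_union_left _ (hCj h1))
    · exact Finset.mem_union_right _ h1
    · exact Finset.mem_union_left _ (Finset.mem_union_right _ h1)
  have hUin' : ∀ s ∈ C j' ∪ Y ∪ Z, s ∈ MM M j j' ∪ Z ∪ Y := by
    intro s hs
    rw [Finset.mem_union, Finset.mem_union] at hs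
    rcases hs with (h1 | h1) | h1
    · exact Finset.mem_union_left _ (Finset.mem_union_left _ (hCj' h1))
    · exact Finset.mem_union_right _ h1
    · exact Finset.mem_union_left _ (Finset.mem_union_right _ h1)
  have hBZ : ∀ s ∈ Z, B s = {s} := by
    intro s hs
    exact B4 s (fun h1 => hZM s hs (hCj h1)) (fun h1 => hZM s hs (hCj' h1))
      (fun h1 => hYZ s h1 hs)
  have hX1 : ∀ s ∈ C j ∪ Y ∪ Z, ∃ x ∈ B s, x ∈ X1 := by
    intro s hs
    rw [Finset.mem_union, Finset.mem_union] at hs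
    rcases hs with (h1 | h1) | h1
    · obtain ⟨x, hx⟩ := (left_piece h e hj0 (by omega) (hρ1 s h1).1).2
      rw [B1 s h1]
      exact ⟨x, (Finset.mem_inter.1 hx).1, (Finset.mem_inter.1 hx).2⟩
    · obtain ⟨x, hx⟩ := g.w1 _ (hι1 s h1)
      rw [B3 s h1]
      exact ⟨x, (Finset.mem_inter.1 (Finset.mem_inter.1 hx).1).1, (Finset.mem_inter.1 hx).2⟩
    · rw [hBZ s h1]
      exact ⟨s, Finset.mem_singleton_self _, e.z1 h1⟩
  have hX2 : ∀ s ∈ C j' ∪ Y ∪ Z, ∃ x ∈ B s, x ∈ X2 := by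
    intro s hs
    rw [Finset.mem_union, Finset.mem_union] at hs
    rcases hs with (h1 | h1) | h1
    · obtain ⟨x, hx⟩ := (right_piece h e (by omega) hj1 (hρ2 s h1).1).2
      rw [B2 s h1]
      exact ⟨x, (Finset.mem_inter.1 hx).1, (Finset.mem_inter.1 hx).2⟩
    · obtain ⟨x, hx⟩ := g.w2 _ (hι1 s h1)
      rw [B3 s h1]
      exact ⟨x, (Finset.mem_inter.1 (Finset.mem_inter.1 hx).1).1, (Finset.mem_inter.1 hx).2⟩
    · rw [hBZ s h1]
      exact ⟨s, Finset.mem_singleton_self _, e.z2 h1⟩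
  refine tw_model e.tw (MM M j j' ∪ Z ∪ Y) ?_ B ?_ hdis ?_
  · intro s t hst
    rcases hst with (h1 | h1) | h1
    · exact Finset.mem_union_left _ h1.2.1
    · exact hUin s h1.2.1
    · exact hUin' s h1.2.1
  · intro s hs
    have hle : ∀ T : Finset V, Cn Γ T → Cn (Γ ⊔ KG X1 ⊔ KG X2) T := fun T hT =>
      hT.mono_adj fun u _ w _ huw => Or.inl (Or.inl huw)
    by_cases h1 : s ∈ C j
    · rw [B1 s h1]
      exact hle _ (left_piece h e hj0 (by omega) (hρ1 s h1).1).1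
    · by_cases h2 : s ∈ C j'
      · rw [B2 s h2]
        exact hle _ (right_piece h e (by omega) hj1 (hρ2 s h2).1).1
      · by_cases h3 : s ∈ Y
        · rw [B3 s h3]
          exact hle _ (g.wc _ (hι1 s h3))
        · rw [B4 s h1 h2 h3]
          exact cn_single _ s
  · intro s t hst
    rcases hst with (h1 | h1) | h1
    · obtain ⟨hadj, hs, ht⟩ := h1
      have hsY : s ∉ Y := fun h2 => by
        rcases Finset.mem_union.1 hs with h5 | h5
        · exact hYM s h2 h5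
        · exact hYZ s h2 h5
      have htY : t ∉ Y := fun h2 => by
        rcases Finset.mem_union.1 ht with h5 | h5
        · exact hYM t h2 h5
        · exact hYZ t h2 h5
      exact ⟨s, hself s hsY, t, hself t htY, Or.inl (Or.inl hadj)⟩
    · obtain ⟨hne, hs, ht⟩ := h1
      obtain ⟨x, hx, hxX⟩ := hX1 s hs
      obtain ⟨y, hy, hyX⟩ := hX1 t ht
      have hxy : x ≠ y := fun h2 => Finset.disjoint_left.1
        (hdis s (hUin s hs) t (hUin t ht) hne) hx (h2 ▸ hy)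
      exact ⟨x, hx, y, hy, Or.inl (Or.inr ⟨hxy, hxX, hyX⟩)⟩
    · obtain ⟨hne, hs, ht⟩ := h1
      obtain ⟨x, hx, hxX⟩ := hX2 s hs
      obtain ⟨y, hy, hyX⟩ := hX2 t ht
      have hxy : x ≠ y := fun h2 => Finset.disjoint_left.1
        (hdis s (hUin' s hs) t (hUin' t ht) hne) hx (h2 ▸ hy)
      exact ⟨x, hx, y, hy, Or.inr ⟨hxy, hxX, hyX⟩⟩

/-- The result of the middle lemma for one graph `Γ`. -/
structure MidOut (k : ℕ) (Γ : SimpleGraph V) (M C : ℕ → Finset V) (Z : Finset V) (n : ℕ)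
    (O1 O2 : Finset V) : Prop where
  card : (O1 ∩ O2).card = n
  z1 : Disjoint Z O1
  z2 : Disjoint Z O2
  o1 : O1 ∩ MM M (8 * k + 7) (12 * k + 9) = C (8 * k + 7)
  o2 : O2 ∩ MM M (8 * k + 7) (12 * k + 9) = C (12 * k + 9)
  oo : Disjoint (O1 ∩ O2) (MM M (8 * k + 7) (12 * k + 9))
  cov : ∀ u w, Γ.Adj u w →
    u ∉ MM M (8 * k + 7) (12 * k + 9) \ (C (8 * k + 7) ∪ C (12 * k + 9)) →
    w ∉ MM M (8 * k + 7) (12 * k + 9) \ (C (8 * k + 7) ∪ C (12 * k + 9)) →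
    (u ∈ O1 ∪ Z ∧ w ∈ O1 ∪ Z) ∨ (u ∈ O2 ∪ Z ∧ w ∈ O2 ∪ Z)
  h1 : ∀ j, 8 * k + 7 ≤ j → j ≤ 12 * k + 9 →
    TW k (Ind Γ (O1 ∪ Z ∪ MM M (8 * k + 7) j) ⊔ KG (C j ∪ (O1 ∩ O2) ∪ Z))
  h3 : ∀ j, 8 * k + 7 ≤ j → j ≤ 12 * k + 9 →
    TW k (Ind Γ (O2 ∪ Z ∪ MM M j (12 * k + 9)) ⊔ KG (C j ∪ (O1 ∩ O2) ∪ Z))
  h2 : ∀ Y : Finset V, Y.card ≤ n → Disjoint Y (MM M (8 * k + 7) (12 * k + 9) ∪ Z) →
    ∀ j j', 8 * k + 7 ≤ j → j < j' → j' ≤ 12 * k + 9 →
    TW k (Ind Γ (MM M j j' ∪ Z) ⊔ KG (C j ∪ Y ∪ Z) ⊔ KG (C j' ∪ Y ∪ Z))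

/- END mig -/

/- MODULE mih (S) -/
/-- The middle lemma. PROOF. `exists_twoCuts`, `exists_ends`, `exists_MG` with `U = Uo …`, then `parts_pos`,
`parts_cov`, `mid_h1`, `mid_h3`, `mid_h2`. -/
theorem exists_mid {k : ℕ} {Γ : SimpleGraph V} (hT : TW k Γ) {M C : ℕ → Finset V}
    {Z J : Finset V} {R : V → Finset V} (h : GStrip Γ (20 * k + 17) M C Z J R)
    (hsw : SW k Γ (20 * k + 17) M C Z) : ∃ n O1 O2, MidOut k Γ M C Z n O1 O2 := by
  obtain ⟨X1, L1, R1, X2, L2, R2, i1, j1, i2, j2, a, c, t⟩ := exists_twoCuts hT h hsw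
  obtain ⟨DL, DR, e⟩ := exists_ends h t
  obtain ⟨P, Q, W, g⟩ := exists_MG e (Uo M C Z DL DR i1 j2)
  have hs := h.toStrip
  obtain ⟨q1, q2, q3, q4, q5, q6⟩ := parts_pos hs e g
  refine ⟨(P ∩ Q).card, PL M C DL P i1 j2 (8 * k + 7), PR M C DR Q i1 j2 (12 * k + 9),
    ⟨by rw [q1], q4, q5, q2, q3, by rw [q1]; exact q6, ?_, ?_, ?_, ?_⟩⟩
  · intro u w huw hu hw
    exact parts_cov hs e g huw hu hw
  · intro j hj0 hj1
    rw [q1]
    exact mid_h1 hs e g hj0 hj1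
  · intro j hj0 hj1
    rw [q1]
    exact mid_h3 hs e g hj0 hj1
  · intro Y hY hYd j j' hj0 hjj hj1
    exact mid_h2 hs e g Y hY hYd hj0 hjj hj1

/- END mih -/

end Pool.Agent.TWB
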