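import Pool.Agent.TWB.Tree
import Pool.Agent.TWB.Conn

/-!
# Minors: the model lemma and the linking lemma
-/

namespace Pool.Agent.TWB

open Finset

variable {V : Type*} [Fintype V] [DecidableEq V]

/- MODULE moa (M) -/
private theorem moa_bdd {W : Type*} [Finite W] (p : W → ℤ) : ∃ b : ℤ, ∀ u, b ≤ p u := by
  obtain ⟨b, hb⟩ := (Set.finite_range p).bddBelow
  exact ⟨b, fun u => hb ⟨u, rfl⟩⟩

/-- Adding isolated vertices: if all edges of `G'` lie in `U` and the induced graph on `U` is a
partial `k`-tree then `TW k G'`. PROOF. Take a scheme of the induced graph (`tw_of_partial`, on the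
type `U`); extend the order injectively (the vertices outside `U` first, e.g. with an enumeration of `V`
shifted below all values), `L v = ∅` outside `U`. Or: the map `V → Fin (n + card V)`, ... into a larger
`k`-tree. -/
theorem tw_of_induce {k : ℕ} {G' : SimpleGraph V} (U : Finset V)
    (hU : ∀ a b, G'.Adj a b → a ∈ U)
    (h : Pool.Agent.TW4.IsPartialKTree k (G'.induce (U : Set V))) : TW k G' := by
  classical
  obtain ⟨S⟩ := tw_of_partial h
  obtain ⟨b, hb⟩ := moa_bdd S.p
  let e := Fintype.equivFin V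
  have hpin : ∀ v (hv : v ∈ U), b ≤ S.p ⟨v, hv⟩ := fun v hv => hb _
  have key : ∀ v (hv : v ∈ U) w, w ∈ (S.L ⟨v, hv⟩).map (Function.Embedding.subtype _) ↔
      ∃ hw : w ∈ U, (⟨w, hw⟩ : (U : Set V)) ∈ S.L ⟨v, hv⟩ := by
    intro v hv w
    simp only [Finset.mem_map, Function.Embedding.subtype_apply, Subtype.exists]
    constructor
    · rintro ⟨a, ha, haL, rfl⟩
      exact ⟨ha, haL⟩
    · rintro ⟨hw, hwL⟩
      exact ⟨w, hw, hwL, rfl⟩
  refine ⟨⟨fun v => if hv : v ∈ U then S.p ⟨v, hv⟩ else b - 1 - ((e v : ℕ) : ℤ),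
    fun v => if hv : v ∈ U then (S.L ⟨v, hv⟩).map (Function.Embedding.subtype _) else ∅,
    ?_, ?_, ?_, ?_, ?_⟩⟩
  · intro v w hvw
    by_cases hv : v ∈ U <;> by_cases hw : w ∈ U
    · simp only [hv, hw, dif_pos] at hvw
      exact congrArg Subtype.val (S.inj hvw)
    · simp only [hv, hw, dif_pos, dif_neg, not_false_iff] at hvw
      have := hpin v hv
      omega
    · simp only [hv, hw, dif_pos, dif_neg, not_false_iff] at hvw
      have := hpin w hw
      omega
    · simp only [hv, hw, dif_neg, not_false_iff] at hvw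
      have h1 : (e v : ℕ) = (e w : ℕ) := by omega
      exact e.injective (Fin.ext h1)
  · intro v w hw
    by_cases hv : v ∈ U
    · simp only [hv, dif_pos] at hw
      obtain ⟨hwU, hwL⟩ := (key v hv w).1 hw
      simp only [hv, hwU, dif_pos]
      exact S.lt _ _ hwL
    · simp [hv] at hw
  · intro v w hvw hlt
    have hv := hU _ _ hvw
    have hw := hU _ _ hvw.symm
    simp only [hv, hw, dif_pos] at hlt ⊢
    exact (key v hv w).2 ⟨hw, S.adj _ _ hvw hlt⟩
  · intro v w w' hw hw' hlt
    by_cases hv : v ∈ U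
    · simp only [hv, dif_pos] at hw hw'
      obtain ⟨hwU, hwL⟩ := (key v hv w).1 hw
      obtain ⟨hwU', hwL'⟩ := (key v hv w').1 hw'
      simp only [hwU, hwU', dif_pos] at hlt ⊢
      exact (key w hwU w').2 ⟨hwU', S.cl _ _ _ hwL hwL' hlt⟩
    · simp [hv] at hw
  · intro v
    by_cases hv : v ∈ U
    · simp only [hv, dif_pos, Finset.card_map]
      exact S.card _
    · simp [hv]

/-- (ML) the model lemma. PROOF. `G'.induce U` is a minor of `G` in the sense of
`Pool.Agent.TW4.IsMinor`: `f v = some w` if `v ∈ B w`, `w ∈ U` (`Cn.induce`); then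
`Pool.Agent.TW4.partial_minor`, `partial_of_tw` and `tw_of_induce`. -/
theorem tw_model {k : ℕ} {G G' : SimpleGraph V} (h : TW k G) (U : Finset V)
    (hU : ∀ a b, G'.Adj a b → a ∈ U) (B : V → Finset V) (hc : ∀ a ∈ U, Cn G (B a))
    (hd : ∀ a ∈ U, ∀ b ∈ U, a ≠ b → Disjoint (B a) (B b))
    (ha : ∀ a b, G'.Adj a b → ∃ x ∈ B a, ∃ y ∈ B b, G.Adj x y) : TW k G' := by
  classical
  refine tw_of_induce U hU (Pool.Agent.TW4.partial_minor (partial_of_tw h) ?_)
  let f : V → Option (U : Set V) := fun v =>
    if hv : ∃ w : (U : Set V), v ∈ B w then some hv.choose else none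
  have hf : ∀ (v : V) (w : (U : Set V)), f v = some w ↔ v ∈ B w := by
    intro v w
    constructor
    · intro hvw
      by_cases hv : ∃ w : (U : Set V), v ∈ B w
      · have h1 : f v = some hv.choose := dif_pos hv
        rw [h1] at hvw
        rw [← Option.some.inj hvw]
        exact hv.choose_spec
      · have h1 : f v = none := dif_neg hv
        rw [h1] at hvw
        exact absurd hvw (by simp)
    · intro hvw
      have hv : ∃ w : (U : Set V), v ∈ B w := ⟨w, hvw⟩
      have h1 : f v = some hv.choose := dif_pos hv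
      rw [h1]
      by_contra hne
      have hne' : hv.choose ≠ w := fun h => hne (by rw [h])
      have h2 := hd hv.choose hv.choose.2 w w.2 (fun h => hne' (Subtype.ext h))
      exact (Finset.disjoint_left.1 h2) hv.choose_spec hvw
  refine ⟨f, ?_, ?_⟩
  · intro w
    have h1 : {v | f v = some w} = ((B w : Finset V) : Set V) := by
      ext v
      exact hf v w
    rw [h1]
    exact (hc w w.2).induce
  · intro w w' hww
    obtain ⟨x, hx, y, hy, hxy⟩ := ha w w' hww
    exact ⟨x, y, (hf x w).2 hx, (hf y w').2 hy, hxy⟩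

/- END moa -/

/- MODULE mob (M) -/
/-- (LINK) the linking lemma. PROOF. `tw_model` with `U = A`, `B s = T s` for `s ∈ S` and `B a = {a}` for
`a ∈ A \ S`. `T s` and `{a}` are disjoint, as `T s ∩ A ⊆ {s}`. An edge of `Ind G A` between `a` and `b`
is an edge between `B a ∋ a` and `B b ∋ b`. For `s ≠ t` in `S` the sets `T s`, `T t` contain distinct
elements of `X`, which are adjacent in `KG X`. Connectedness: `Cn.mono_adj`. -/
theorem link_tw {k : ℕ} {G : SimpleGraph V} {X A S : Finset V} (h : TW k (G ⊔ KG X)) (hS : S ⊆ A)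
    (T : V → Finset V)
    (hT : ∀ s ∈ S, s ∈ T s ∧ Cn G (T s) ∧ (T s ∩ X).Nonempty ∧ ∀ u ∈ T s, u ∈ A → u = s)
    (hd : ∀ s ∈ S, ∀ t ∈ S, s ≠ t → Disjoint (T s) (T t)) : TW k (Ind G A ⊔ KG S) := by
  classical
  have hBS : ∀ s ∈ S, (if s ∈ S then T s else {s}) = T s := fun s hs => if_pos hs
  have hBn : ∀ s, s ∉ S → (if s ∈ S then T s else {s}) = {s} := fun s hs => if_neg hs
  have hmem : ∀ a, a ∈ (if a ∈ S then T a else {a} : Finset V) := by
    intro a
    by_cases ha : a ∈ S
    · rw [hBS a ha]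
      exact (hT a ha).1
    · rw [hBn a ha]
      exact Finset.mem_singleton_self a
  refine tw_model h A ?_ (fun a => if a ∈ S then T a else {a}) ?_ ?_ ?_
  · rintro a b (hab | hab)
    · exact hab.2.1
    · exact hS hab.2.1
  · intro a _
    by_cases ha : a ∈ S
    · simp only [ha, if_true]
      exact (hT a ha).2.1.mono_adj fun u _ w _ huw => Or.inl huw
    · simp only [ha, if_false]
      exact cn_single _ a
  · intro a haA b hbA hab
    by_cases ha : a ∈ S <;> by_cases hb : b ∈ S
    · simp only [ha, hb, if_true]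
      exact hd a ha b hb hab
    · simp only [ha, hb, if_true, if_false]
      rw [Finset.disjoint_singleton_right]
      intro hbT
      exact hab ((hT a ha).2.2.2 b hbT hbA).symm
    · simp only [ha, hb, if_true, if_false]
      rw [Finset.disjoint_singleton_left]
      intro haT
      exact hab ((hT b hb).2.2.2 a haT haA)
    · simp only [ha, hb, if_false]
      rw [Finset.disjoint_singleton]
      exact hab
  · rintro a b (hab | hab)
    · exact ⟨a, hmem a, b, hmem b, Or.inl hab.1⟩
    · obtain ⟨hne, haS, hbS⟩ := hab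
      simp only [haS, hbS, if_true]
      obtain ⟨x, hx⟩ := (hT a haS).2.2.1
      obtain ⟨y, hy⟩ := (hT b hbS).2.2.1
      rw [Finset.mem_inter] at hx hy
      refine ⟨x, hx.1, y, hy.1, Or.inr ⟨?_, hx.2, hy.2⟩⟩
      rintro rfl
      exact (Finset.disjoint_left.1 (hd a haS b hbS hne)) hx.1 hy.1

/- END mob -/

end Pool.Agent.TWB
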