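import Pool.Agent.TWB.Sep

/-!
# Pockets (text, section 3)
-/

namespace Pool.Agent.TWB

open Finset

variable {V : Type*} [Fintype V] [DecidableEq V]

/-- The pocket situation: `Γ` is `G - xy` (with `B' = B`) or `G / xy` (with `B' = B \ {y}`). -/
structure Pk (k ℓ Fs : ℕ) (G Γ : SimpleGraph V) (A B B' : Finset V) (x y : V) : Prop where
  adj : G.Adj x y
  xB : x ∈ B
  yB : y ∈ B
  yA : y ∉ A
  alt : (Γ = Dl G x y ∧ B' = B) ∨ (Γ = Ctr G x y ∧ B' = B.erase y)
  tw : TW k Γ
  ntw : ¬ TW k (Ind Γ A ⊔ KG (A ∩ B'))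
  pk : ∀ P Q, Sp Γ B' P Q → A ∩ B' ⊆ P → (P ∩ Q).card < ℓ → (Q \ P).card ≤ Fs

/- MODULE poa (M) -/
/-- pockets in the case of deletion. PROOF. `(A ∪ P, Q)` is a separation of `Dl G x y` with intersection
`P ∩ Q` (`A ∩ Q ⊆ A ∩ B ⊆ P`) and `Q \ (A ∪ P) = Q \ P`: an edge between `A \ B` and `Q \ P ⊆ B \ A` is
impossible by `hs`. -/
theorem pk_del {G : SimpleGraph V} {A B : Finset V} {x y : V} {ℓ Fs : ℕ} (hs : Sp G univ A B)
    (h : ∀ A1 B1, Sp (Dl G x y) univ A1 B1 → A ⊆ A1 → B1 ⊆ B → (A1 ∩ B1).card < ℓ →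
      (B1 \ A1).card ≤ Fs) :
    ∀ P Q, Sp (Dl G x y) B P Q → A ∩ B ⊆ P → (P ∩ Q).card < ℓ → (Q \ P).card ≤ Fs := by
  intro P Q hPQ hAP hc
  have hPB : P ⊆ B := fun a ha => hPQ.1 ▸ mem_union_left Q ha
  have hQB : Q ⊆ B := fun a ha => hPQ.1 ▸ mem_union_right P ha
  have hi : (A ∪ P) ∩ Q = P ∩ Q := by
    ext a
    simp only [mem_inter, mem_union]
    constructor
    · rintro ⟨h1 | h1, h2⟩
      · exact ⟨hAP (mem_inter.2 ⟨h1, hQB h2⟩), h2⟩
      · exact ⟨h1, h2⟩
    · rintro ⟨h1, h2⟩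
      exact ⟨Or.inr h1, h2⟩
  have hd : Q \ (A ∪ P) = Q \ P := by
    ext a
    simp only [mem_sdiff, mem_union]
    constructor
    · rintro ⟨h1, h2⟩
      exact ⟨h1, fun h3 => h2 (Or.inr h3)⟩
    · rintro ⟨h1, h2⟩
      refine ⟨h1, ?_⟩
      rintro (h3 | h3)
      · exact h2 (hAP (mem_inter.2 ⟨h3, hQB h1⟩))
      · exact h2 h3
  have hsp : Sp (Dl G x y) univ (A ∪ P) Q := by
    refine ⟨?_, ?_⟩
    · rw [union_assoc, hPQ.1, hs.1]
    · intro u hu huQ w hw hwA hadj
      have hwA' : w ∉ A := fun h' => hwA (mem_union_left P h')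
      have hwP : w ∉ P := fun h' => hwA (mem_union_right A h')
      by_cases huP : u ∈ P
      · exact hPQ.2 u huP huQ w hw hwP hadj
      · have huA : u ∈ A := (mem_union.1 hu).resolve_right huP
        have huB : u ∉ B := fun h' => huP (hAP (mem_inter.2 ⟨huA, h'⟩))
        exact hs.2 u huA huB w (hQB hw) hwA' hadj.1
  have := h (A ∪ P) Q hsp subset_union_left hQB (by rw [hi]; exact hc)
  rwa [hd] at this

/-- pockets in the case of contraction. PROOF. `P, Q ⊆ B \ {y}`. (1) `x ∈ P ∩ Q`: the pair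
`(A ∪ insert y P, insert y Q)` is a separation of `G` with intersection `insert y (P ∩ Q)` and difference
`Q \ P`: a `G`-edge between `u ∈ Q \ P` and a vertex `w` outside `insert y Q` has `u, w ≠ y`, so it is an
edge of `Ctr G x y` if both are in `B`; `w ∈ A \ B` is impossible by `hs`. Use `h2`. (2) `x ∈ P \ Q`: the
pair `(A ∪ insert y P, Q)` is a separation of `G` with intersection `P ∩ Q`: for `w = y` and `u ∈ Q \ P`,
`G.Adj y u` gives `(Ctr G x y).Adj x u`, `x ∈ P \ Q`, impossible. Use `h1`. (3) `x ∈ Q \ P`: `x ∉ A`; the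
pair `(A ∪ P, insert y Q)`, intersection `P ∩ Q`, difference `insert y (Q \ P)`. Use `h1`. -/
theorem pk_con {G : SimpleGraph V} {A B : Finset V} {x y : V} {ℓ Fs : ℕ} (hs : Sp G univ A B)
    (hxB : x ∈ B) (hyB : y ∈ B) (hyA : y ∉ A) (hxy : G.Adj x y)
    (h1 : ∀ A1 B1, Sp G univ A1 B1 → A ⊆ A1 → B1 ⊆ B → (A1 ∩ B1).card < ℓ →
      (B1 \ A1).card ≤ Fs)
    (h2 : ∀ A2 B2, Sp G univ A2 B2 → x ∈ A2 → x ∈ B2 → y ∈ A2 → y ∈ B2 → A ⊆ A2 → B2 ⊆ B →
      (A2 ∩ B2).card ≤ ℓ → (B2 \ A2).card ≤ Fs) :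
    ∀ P Q, Sp (Ctr G x y) (B.erase y) P Q → A ∩ B.erase y ⊆ P → (P ∩ Q).card < ℓ →
      (Q \ P).card ≤ Fs := by
  intro P Q hPQ hAP hc
  have hPB : P ⊆ B.erase y := fun a ha => hPQ.1 ▸ mem_union_left Q ha
  have hQB : Q ⊆ B.erase y := fun a ha => hPQ.1 ▸ mem_union_right P ha
  have hyP : y ∉ P := fun h' => (mem_erase.1 (hPB h')).1 rfl
  have hyQ : y ∉ Q := fun h' => (mem_erase.1 (hQB h')).1 rfl
  have hxy' : x ≠ y := hxy.ne
  have hBe : ∀ a, a ∈ B → a = y ∨ a ∈ P ∨ a ∈ Q := by
    intro a ha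
    by_cases hay : a = y
    · exact Or.inl hay
    · right
      have : a ∈ P ∪ Q := by rw [hPQ.1]; exact mem_erase.2 ⟨hay, ha⟩
      exact mem_union.1 this
  have hAPB : ∀ a, a ∈ A → a ∈ B → a ∈ P := by
    intro a ha hb
    exact hAP (mem_inter.2 ⟨ha, mem_erase.2 ⟨fun h' => hyA (h' ▸ ha), hb⟩⟩)
  have hAQ : ∀ a, a ∈ A → a ∈ Q → a ∈ P := fun a ha hq => hAPB a ha (mem_of_mem_erase (hQB hq))
  have hPA : ∀ a, a ∈ P → a ∈ B := fun a ha => mem_of_mem_erase (hPB ha)
  have hQA : ∀ a, a ∈ Q → a ∈ B := fun a ha => mem_of_mem_erase (hQB ha)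
  -- edges of `G` inside `P ∪ Q`
  have hPQe : ∀ u ∈ P, u ∉ Q → ∀ w ∈ Q, w ∉ P → ¬ G.Adj u w := by
    intro u hu huQ w hw hwP hadj
    exact hPQ.2 u hu huQ w hw hwP
      ⟨hadj.ne, fun h' => hyP (h' ▸ hu), fun h' => hyQ (h' ▸ hw), Or.inl hadj⟩
  have hxin : x ∈ P ∨ x ∈ Q := (hBe x hxB).resolve_left hxy'
  have huni : ∀ a : V, a ∈ A ∨ a = y ∨ a ∈ P ∨ a ∈ Q := by
    intro a
    have : a ∈ A ∪ B := by rw [hs.1]; exact mem_univ a
    rcases mem_union.1 this with h' | h'
    · exact Or.inl h'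
    · exact Or.inr (hBe a h')
  by_cases hxP : x ∈ P
  · by_cases hxQ : x ∈ Q
    · -- case 1
      have hi : (A ∪ insert y P) ∩ insert y Q = insert y (P ∩ Q) := by
        ext a
        simp only [mem_inter, mem_union, mem_insert]
        constructor
        · rintro ⟨h1 | h1 | h1, h2 | h2⟩
          · exact Or.inl h2
          · exact Or.inr ⟨hAQ a h1 h2, h2⟩
          · exact Or.inl h1
          · exact Or.inl h1
          · exact Or.inl h2
          · exact Or.inr ⟨h1, h2⟩
        · rintro (h1 | ⟨h1, h2⟩)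
          · exact ⟨Or.inr (Or.inl h1), Or.inl h1⟩
          · exact ⟨Or.inr (Or.inr h1), Or.inr h2⟩
      have hd : insert y Q \ (A ∪ insert y P) = Q \ P := by
        ext a
        simp only [mem_sdiff, mem_union, mem_insert]
        constructor
        · rintro ⟨h1 | h1, h2⟩
          · exact absurd (Or.inr (Or.inl h1)) h2
          · exact ⟨h1, fun h3 => h2 (Or.inr (Or.inr h3))⟩
        · rintro ⟨h1, h2⟩
          refine ⟨Or.inr h1, ?_⟩
          rintro (h3 | h3 | h3)
          · exact h2 (hAQ a h3 h1)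
          · exact hyQ (h3 ▸ h1)
          · exact h2 h3
      have hsp : Sp G univ (A ∪ insert y P) (insert y Q) := by
        refine ⟨?_, ?_⟩
        · apply eq_univ_of_forall
          intro a
          simp only [mem_union, mem_insert]
          rcases huni a with h' | h' | h' | h'
          · exact Or.inl (Or.inl h')
          · exact Or.inr (Or.inl h')
          · exact Or.inl (Or.inr (Or.inr h'))
          · exact Or.inr (Or.inr h')
        · intro u hu huQ w hw hwA hadj
          simp only [mem_union, mem_insert, not_or] at hu huQ hw hwA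
          have hwQ : w ∈ Q := hw.resolve_left hwA.2.1
          by_cases huP : u ∈ P
          · exact hPQe u huP huQ.2 w hwQ hwA.2.2 hadj
          · have huA : u ∈ A := by
              rcases hu with h' | h' | h'
              · exact h'
              · exact absurd h' huQ.1
              · exact absurd h' huP
            have huB : u ∉ B := fun h' => huP (hAPB u huA h')
            exact hs.2 u huA huB w (hQA w hwQ) hwA.1 hadj
      have hc' : ((A ∪ insert y P) ∩ insert y Q).card ≤ ℓ := by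
        rw [hi]
        have := card_insert_le y (P ∩ Q)
        omega
      have := h2 (A ∪ insert y P) (insert y Q) hsp
        (mem_union_right A (mem_insert_of_mem hxP)) (mem_insert_of_mem hxQ)
        (mem_union_right A (mem_insert_self y P)) (mem_insert_self y Q) subset_union_left
        (insert_subset hyB (fun a ha => hQA a ha)) hc'
      rwa [hd] at this
    · -- case 2
      have hi : (A ∪ insert y P) ∩ Q = P ∩ Q := by
        ext a
        simp only [mem_inter, mem_union, mem_insert]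
        constructor
        · rintro ⟨h1 | h1 | h1, h2⟩
          · exact ⟨hAQ a h1 h2, h2⟩
          · exact absurd (h1 ▸ h2) hyQ
          · exact ⟨h1, h2⟩
        · rintro ⟨h1, h2⟩
          exact ⟨Or.inr (Or.inr h1), h2⟩
      have hd : Q \ (A ∪ insert y P) = Q \ P := by
        ext a
        simp only [mem_sdiff, mem_union, mem_insert]
        constructor
        · rintro ⟨h1, h2⟩
          exact ⟨h1, fun h3 => h2 (Or.inr (Or.inr h3))⟩
        · rintro ⟨h1, h2⟩
          refine ⟨h1, ?_⟩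
          rintro (h3 | h3 | h3)
          · exact h2 (hAQ a h3 h1)
          · exact hyQ (h3 ▸ h1)
          · exact h2 h3
      have hsp : Sp G univ (A ∪ insert y P) Q := by
        refine ⟨?_, ?_⟩
        · apply eq_univ_of_forall
          intro a
          simp only [mem_union, mem_insert]
          rcases huni a with h' | h' | h' | h'
          · exact Or.inl (Or.inl h')
          · exact Or.inl (Or.inr (Or.inl h'))
          · exact Or.inl (Or.inr (Or.inr h'))
          · exact Or.inr h'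
        · intro u hu huQ w hw hwA hadj
          simp only [mem_union, mem_insert, not_or] at hu hwA
          by_cases huP : u ∈ P
          · exact hPQe u huP huQ w hw hwA.2.2 hadj
          · by_cases huy : u = y
            · subst huy
              exact hPQ.2 x hxP hxQ w hw hwA.2.2
                ⟨fun h' => hwA.2.2 (h' ▸ hxP), hxy', hwA.2.1, Or.inr (Or.inl ⟨rfl, hadj⟩)⟩
            · have huA : u ∈ A := by
                rcases hu with h' | h' | h'
                · exact h'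
                · exact absurd h' huy
                · exact absurd h' huP
              have huB : u ∉ B := fun h' => huP (hAPB u huA h')
              exact hs.2 u huA huB w (hQA w hw) hwA.1 hadj
      have := h1 (A ∪ insert y P) Q hsp subset_union_left (fun a ha => hQA a ha)
        (by rw [hi]; exact hc)
      rwa [hd] at this
  · -- case 3
    have hxQ : x ∈ Q := hxin.resolve_left hxP
    have hi : (A ∪ P) ∩ insert y Q = P ∩ Q := by
      ext a
      simp only [mem_inter, mem_union, mem_insert]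
      constructor
      · rintro ⟨h1 | h1, h2 | h2⟩
        · exact absurd (h2 ▸ h1) hyA
        · exact ⟨hAQ a h1 h2, h2⟩
        · exact absurd (h2 ▸ h1) hyP
        · exact ⟨h1, h2⟩
      · rintro ⟨h1, h2⟩
        exact ⟨Or.inr h1, Or.inr h2⟩
    have hd : Q \ P ⊆ insert y Q \ (A ∪ P) := by
      intro a
      simp only [mem_sdiff, mem_union, mem_insert]
      rintro ⟨h1, h2⟩
      refine ⟨Or.inr h1, ?_⟩
      rintro (h3 | h3)
      · exact h2 (hAQ a h3 h1)
      · exact h2 h3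
    have hsp : Sp G univ (A ∪ P) (insert y Q) := by
      refine ⟨?_, ?_⟩
      · apply eq_univ_of_forall
        intro a
        simp only [mem_union, mem_insert]
        rcases huni a with h' | h' | h' | h'
        · exact Or.inl (Or.inl h')
        · exact Or.inr (Or.inl h')
        · exact Or.inl (Or.inr h')
        · exact Or.inr (Or.inr h')
      · intro u hu huQ w hw hwA hadj
        simp only [mem_union, mem_insert, not_or] at hu huQ hw hwA
        by_cases huP : u ∈ P
        · by_cases hwy : w = y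
          · subst hwy
            exact hPQ.2 u huP huQ.2 x hxQ hxP
              ⟨fun h' => hxP (h' ▸ huP), huQ.1, hxy', Or.inr (Or.inr ⟨rfl, hadj.symm⟩)⟩
          · exact hPQe u huP huQ.2 w (hw.resolve_left hwy) hwA.2 hadj
        · have huA : u ∈ A := hu.resolve_right huP
          have huB : u ∉ B := fun h' => huP (hAPB u huA h')
          have hwB : w ∈ B := by
            rcases hw with h' | h'
            · exact h' ▸ hyB
            · exact hQA w h'
          exact hs.2 u huA huB w hwB hwA.1 hadj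
    have := h1 (A ∪ P) (insert y Q) hsp subset_union_left
      (insert_subset hyB (fun a ha => hQA a ha)) (by rw [hi]; exact hc)
    exact le_trans (card_le_card hd) this

/- END poa -/

/- MODULE pob (M) -/
/-- PROOF. Take `y ∈ B \ A` and a neighbour `x` of `y` (`hO.iso`); `x ∈ B` since no edge joins `A \ B` and
`B \ A`. `del_or_con` gives the case. `tw`: `hO.del` or `hO.ctr`. `ntw`: `hsm.2 A B` (weak), as every edge
of `G` inside `A` is an edge of `Γ` (`y ∉ A`) and `A ∩ B' = A ∩ B`; `TW.mono`. `pk`: `pk_del` or `pk_con`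
(`h1` of `pk_con` from `hF` and `Small.mono`). -/
theorem exists_pk {k ℓ F : ℕ} {G : SimpleGraph V} {A B : Finset V} (hO : Obs k G)
    (hsm : Small k G A B)
    (hF : ∀ A' B', Small k G A' B' → (A' ∩ B').card < ℓ → (B' \ A').card ≤ F)
    (hne : (B \ A).Nonempty) : ∃ Γ B' x y, Pk k ℓ (2 * F + ℓ) G Γ A B B' x y := by
  obtain ⟨y, hy⟩ := hne
  have hyB : y ∈ B := (mem_sdiff.1 hy).1
  have hyA : y ∉ A := (mem_sdiff.1 hy).2
  obtain ⟨x, hyx⟩ := hO.iso y
  have hxy : G.Adj x y := hyx.symm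
  have hxB : x ∈ B := by
    by_contra hxB
    have hxA : x ∈ A := by
      have : x ∈ A ∪ B := by rw [hsm.1.1]; exact mem_univ x
      exact (mem_union.1 this).resolve_right hxB
    exact hsm.1.2 x hxA hxB y hyB hyA hxy
  have hweak : ¬ TW k (Ind G A ⊔ KG (A ∩ B)) := hsm.2 A B hsm.1 (Subset.refl A) (Subset.refl B)
  rcases del_or_con hsm hF x y hxB hyB hxy.ne with h | h
  · refine ⟨Dl G x y, B, x, y, hxy, hxB, hyB, hyA, Or.inl ⟨rfl, rfl⟩, hO.del x y hxy, ?_, ?_⟩
    · intro ht
      refine hweak (TW.mono ht ?_)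
      intro a b hab
      rcases hab with hab | hab
      · exact Or.inl ⟨⟨hab.1, fun h' => hyA (h'.2 ▸ hab.2.2), fun h' => hyA (h'.1 ▸ hab.2.1)⟩,
          hab.2⟩
      · exact Or.inr hab
    · exact pk_del hsm.1 h
  · refine ⟨Ctr G x y, B.erase y, x, y, hxy, hxB, hyB, hyA, Or.inr ⟨rfl, rfl⟩, hO.ctr x y hxy,
      ?_, ?_⟩
    · intro ht
      have he : A ∩ B.erase y = A ∩ B := by
        ext a
        simp only [mem_inter, mem_erase]
        constructor
        · rintro ⟨h1, h2, h3⟩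
          exact ⟨h1, h3⟩
        · rintro ⟨h1, h2⟩
          exact ⟨h1, fun h' => hyA (h' ▸ h1), h2⟩
      rw [he] at ht
      refine hweak (TW.mono ht ?_)
      intro a b hab
      rcases hab with hab | hab
      · exact Or.inl ⟨⟨hab.1.ne, fun h' => hyA (h' ▸ hab.2.1), fun h' => hyA (h' ▸ hab.2.2),
          Or.inl hab.1⟩, hab.2⟩
      · exact Or.inr hab
    · refine pk_con hsm.1 hxB hyB hyA hxy ?_ h
      intro A1 B1 h1 hA hB hc
      have := hF A1 B1 (Small.mono hsm h1 hA hB) hc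
      omega

/- END pob -/

/- MODULE poc (M) -/
/-- The pocket bound. PROOF. Let `S' = A ∩ B'`, `X = insert t (S.L t) ∩ B'`. `menger2` in `U = B'` for
`S'` and `X`. If `S'` is linked to `X`, `link_tw` (graph `Γ`, `TW k (Γ ⊔ KG X)` by `tw_bag`, the set `A`,
`S'`) contradicts `hntw` (`T s ∩ A ⊆ S'`, as `T s ⊆ B'`). So there is a separation `(P, Q)` of `B'`,
`S' ⊆ P`, `X ⊆ Q`, of order `< |S'| ≤ ℓ`. Let `K = (E ∩ P) \ Q`. Then `(P \ K, Q ∪ K)` is a separation of `B'`
with the same intersection: a neighbour `w ∈ B'` of `u ∈ K` is in `P` (`(P, Q)` is a separation) and in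
`E ∪ X`; if `w ∉ Q` it is in `E ∩ P`, i.e. in `K`. So `|(Q ∪ K) \ P| + …`: `(Q ∪ K) \ (P \ K)` has at most
`Fs` elements, and `insert t E ∩ B' ⊆ Q ∪ K` has at most `Fs + |P ∩ Q| ≤ Fs + ℓ`. -/
theorem pocket_bound {k ℓ Fs : ℕ} {Γ : SimpleGraph V} (S : Sch Γ k) {A B' : Finset V}
    (hntw : ¬ TW k (Ind Γ A ⊔ KG (A ∩ B'))) (hl : (A ∩ B').card ≤ ℓ)
    (hpk : ∀ P Q, Sp Γ B' P Q → A ∩ B' ⊆ P → (P ∩ Q).card < ℓ → (Q \ P).card ≤ Fs)
    (t : V) (E : Finset V) (hES : Disjoint E (A ∩ B'))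
    (hE : ∀ u ∈ E, ∀ w, Γ.Adj u w → w ∈ E ∨ w ∈ insert t (S.L t)) :
    (insert t E ∩ B').card ≤ Fs + ℓ := by
  have hX : insert t (S.L t) ∩ B' ⊆ B' := inter_subset_right
  rcases menger2 Γ B' (A ∩ B') (insert t (S.L t) ∩ B') inter_subset_right hX with
    ⟨T, hT, hd⟩ | ⟨P, Q, hs, hA, hB, hc⟩
  · exfalso
    apply hntw
    refine link_tw (tw_bag S t (insert t (S.L t) ∩ B') inter_subset_left) inter_subset_left T ?_ hd
    intro s hs
    obtain ⟨h1, h2, h3, h4, h5⟩ := hT s hs
    exact ⟨h1, h3, h4, fun u hu huA => h5 u hu (mem_inter.2 ⟨huA, h2 hu⟩)⟩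
  · have hPB : P ⊆ B' := by
      rw [← hs.1]
      exact subset_union_left
    have hQB : Q ⊆ B' := by
      rw [← hs.1]
      exact subset_union_right
    have hK : ∀ u, u ∈ (E ∩ P) \ Q ↔ (u ∈ E ∧ u ∈ P) ∧ u ∉ Q := by
      intro u
      rw [mem_sdiff, mem_inter]
    have hint : (P \ ((E ∩ P) \ Q)) ∩ (Q ∪ ((E ∩ P) \ Q)) = P ∩ Q := by
      ext u
      rw [mem_inter, mem_sdiff, mem_union, hK, mem_inter]
      tauto
    have hsp : Sp Γ B' (P \ ((E ∩ P) \ Q)) (Q ∪ ((E ∩ P) \ Q)) := by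
      constructor
      · rw [← hs.1]
        ext u
        rw [mem_union, mem_sdiff, mem_union, hK, mem_union]
        tauto
      · intro u hu huQ w hw hwP huw
        rw [mem_sdiff] at hu hwP
        rw [mem_union] at huQ hw
        have huP := hu.1
        have huQ' : u ∉ Q := fun h => huQ (Or.inl h)
        have huK : u ∉ (E ∩ P) \ Q := hu.2
        by_cases hwP' : w ∈ P
        · have hwK : w ∈ (E ∩ P) \ Q := by
            by_contra h
            exact hwP ⟨hwP', h⟩
          rw [hK] at hwK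
          rcases hE w hwK.1.1 u huw.symm with h | h
          · exact huK ((hK u).2 ⟨⟨h, huP⟩, huQ'⟩)
          · exact huQ' (hB (mem_inter.2 ⟨h, hPB huP⟩))
        · rcases hw with h | h
          · exact hs.2 u huP huQ' w h hwP' huw
          · exact hwP' ((hK w).1 h).1.2
    have hSP : A ∩ B' ⊆ P \ ((E ∩ P) \ Q) := by
      intro u hu
      rw [mem_sdiff]
      refine ⟨hA hu, fun h => ?_⟩
      exact (Finset.disjoint_left.1 hES ((hK u).1 h).1.1) hu
    have h1 := hpk _ _ hsp hSP (by rw [hint]; omega)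
    have h2 : insert t E ∩ B' ⊆
        ((Q ∪ ((E ∩ P) \ Q)) \ (P \ ((E ∩ P) \ Q))) ∪ (P ∩ Q) := by
      intro u hu
      rw [mem_inter, mem_insert] at hu
      have huQ : u ∈ Q ∪ ((E ∩ P) \ Q) := by
        rw [mem_union, hK]
        by_cases huQ : u ∈ Q
        · exact Or.inl huQ
        · right
          rcases hu.1 with h | h
          · exfalso
            apply huQ
            apply hB
            rw [mem_inter, h]
            exact ⟨mem_insert_self _ _, h ▸ hu.2⟩
          · refine ⟨⟨h, ?_⟩, huQ⟩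
            have := hu.2
            rw [← hs.1, mem_union] at this
            exact this.resolve_right huQ
      rw [← hint, mem_union, mem_sdiff, mem_inter]
      by_cases h : u ∈ P \ ((E ∩ P) \ Q)
      · exact Or.inr ⟨h, huQ⟩
      · exact Or.inl ⟨huQ, h⟩
    have h3 := card_le_card h2
    have h4 := card_union_le ((Q ∪ ((E ∩ P) \ Q)) \ (P \ ((E ∩ P) \ Q))) (P ∩ Q)
    omega

/- END poc -/

/- MODULE pod (L) -/
/-- The lowest head above `u`. PROOF. `pocket_bound` for `t` and `E = {w ∈ D t | w ≠ t, no head t' with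
w ∈ D t' has p t' < p t}` where a head is a `t'` with `D t' ∩ S' ≠ ∅`, `S' = A ∩ B'`. `E` is disjoint from
`S'`, as each `w ∈ S'` is a head. Let `w ∈ E`, `Γ.Adj w w'`; by `S.D_adj` `w' ∈ D t` or `w' ∈ L t`. Let
`w' ∈ D t`, `w' ≠ t` and let `t'` be a head, `w' ∈ D t'`, `p t' < p t`. By `S.H`: if `w' ∈ L w` then
`w ∈ D w' ⊆ D t'`, a contradiction. If `w ∈ L w'` then `w' ∈ D w`, and `w`, `t'` are comparable
(`S.comparable`): if `w ∈ D t'` contradiction; if `t' ∈ D w` then `D t' ⊆ D w`, so `w` is a head with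
`w ∈ D w`, `p w < p t`, a contradiction. -/
theorem head_fibre {k ℓ Fs : ℕ} {Γ : SimpleGraph V} (S : Sch Γ k) {A B' : Finset V}
    (hntw : ¬ TW k (Ind Γ A ⊔ KG (A ∩ B'))) (hl : (A ∩ B').card ≤ ℓ)
    (hpk : ∀ P Q, Sp Γ B' P Q → A ∩ B' ⊆ P → (P ∩ Q).card < ℓ → (Q \ P).card ≤ Fs)
    (t : V) (E : Finset V)
    (hE : ∀ w, w ∈ E ↔ w ∈ S.D t ∧ w ≠ t ∧
      ∀ t', (S.D t' ∩ (A ∩ B')).Nonempty → w ∈ S.D t' → ¬ S.p t' < S.p t)
    (ht : (S.D t ∩ (A ∩ B')).Nonempty) :
    (insert t E ∩ B').card ≤ Fs + ℓ := by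
  have hsub : ∀ a b, b ∈ S.D a → (S.D b ∩ (A ∩ B')).Nonempty → (S.D a ∩ (A ∩ B')).Nonempty := by
    rintro a b hab ⟨s, hs⟩
    rw [mem_inter] at hs
    exact ⟨s, mem_inter.2 ⟨S.D_trans hs.1 hab, hs.2⟩⟩
  refine pocket_bound S hntw hl hpk t E ?_ ?_
  · rw [Finset.disjoint_left]
    intro w hw hwS
    obtain ⟨h1, h2, h3⟩ := (hE w).1 hw
    exact h3 w ⟨w, mem_inter.2 ⟨S.self_mem w, hwS⟩⟩ (S.self_mem w) (S.D_lt h1 h2)
  · intro u hu w huw
    obtain ⟨h1, h2, h3⟩ := (hE u).1 hu
    rcases S.D_adj h1 huw with hw | hw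
    · by_cases hwt : w = t
      · right
        rw [hwt]
        exact mem_insert_self _ _
      · left
        rw [hE]
        refine ⟨hw, hwt, fun t' ht' hwt' hlt => ?_⟩
        rcases S.H huw with h | h
        · exact h3 t' ht' (S.D_trans (S.mem_of_L h) hwt') hlt
        · have hwu : w ∈ S.D u := S.mem_of_L h
          rcases le_total (S.p u) (S.p t') with hle | hle
          · exact h3 t' ht' (S.comparable hwu hwt' hle) hlt
          · have h5 : t' ∈ S.D u := S.comparable hwt' hwu hle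
            exact h3 u (hsub u t' h5 ht') (S.self_mem u) (S.D_lt h1 h2)
    · right
      exact mem_insert_of_mem hw

/-- PROOF. Similar: `E = {w | no head t' with w ∈ D t'}` has no neighbours outside; `pocket_bound` with
any `t` (if `V` is empty the statement is trivial). -/
theorem headless {k ℓ Fs : ℕ} {Γ : SimpleGraph V} (S : Sch Γ k) {A B' : Finset V}
    (hntw : ¬ TW k (Ind Γ A ⊔ KG (A ∩ B'))) (hl : (A ∩ B').card ≤ ℓ)
    (hpk : ∀ P Q, Sp Γ B' P Q → A ∩ B' ⊆ P → (P ∩ Q).card < ℓ → (Q \ P).card ≤ Fs)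
    (E : Finset V)
    (hE : ∀ w, w ∈ E ↔ ∀ t', (S.D t' ∩ (A ∩ B')).Nonempty → w ∉ S.D t') :
    (E ∩ B').card ≤ Fs + ℓ := by
  rcases isEmpty_or_nonempty V with hV | ⟨⟨t⟩⟩
  · have : E ∩ B' = ∅ := by
      ext u
      exact (hV.false u).elim
    rw [this, card_empty]
    exact Nat.zero_le _
  · have hsub : ∀ a b, b ∈ S.D a → (S.D b ∩ (A ∩ B')).Nonempty →
        (S.D a ∩ (A ∩ B')).Nonempty := by
      rintro a b hab ⟨s, hs⟩
      rw [mem_inter] at hs
      exact ⟨s, mem_inter.2 ⟨S.D_trans hs.1 hab, hs.2⟩⟩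
    have h := pocket_bound S hntw hl hpk t E ?_ ?_
    · refine le_trans (card_le_card ?_) h
      exact inter_subset_inter_right (subset_insert _ _)
    · rw [Finset.disjoint_left]
      intro w hw hwS
      exact (hE w).1 hw w ⟨w, mem_inter.2 ⟨S.self_mem w, hwS⟩⟩ (S.self_mem w)
    · intro u hu w huw
      left
      rw [hE]
      intro t' ht' hwt'
      rcases S.D_adj hwt' huw.symm with h | h
      · exact (hE u).1 hu t' ht' h
      · have h5 : t' ∈ S.D u := S.mem_of_L h
        exact (hE u).1 hu u (hsub u t' h5 ht') (S.self_mem u)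

/- END pod -/

/- MODULE poe (L) -/
/-- A large small side gives a long chain of sets with small boundary. PROOF. For `u ∈ B' \ A` that lies in
`D t'` for some head `t'` let `τ u` be the head `t'` with `u ∈ D t'` and least `p`. The fibre of
`t` is contained in `insert t E ∩ B'` with `E` as in `head_fibre` (`u ∈ D t`; if `u ≠ t` then `u ∈ E`);
the `u` without head are counted by `headless`. So `τ` has more than `ℓ * N0` values. Each value `t` has
`D t ∩ (A ∩ B') ≠ ∅`; as `|A ∩ B'| ≤ ℓ` some `s ∈ A ∩ B'` lies in `D t` for more than `N0` values `t`.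
Sort them by `p`: `t 0, …, t N0`. By `S.comparable`, `t i ∈ D (t (i + 1))`. `D' i := S.D (t i) ∩ B'`
is increasing, strictly: a `u ∈ B' \ A` with `τ u = t (i + 1)` is in `D (t (i + 1))`, not in `D (t i)`.
`Nb Γ B' (D' i) ⊆ S.L (t i)` by `S.D_adj`. -/
theorem chain_or_bound {k ℓ Fs N0 : ℕ} {Γ : SimpleGraph V} (S : Sch Γ k) {A B' : Finset V}
    (hntw : ¬ TW k (Ind Γ A ⊔ KG (A ∩ B'))) (hl : (A ∩ B').card ≤ ℓ)
    (hpk : ∀ P Q, Sp Γ B' P Q → A ∩ B' ⊆ P → (P ∩ Q).card < ℓ → (Q \ P).card ≤ Fs)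
    (hbig : (Fs + ℓ) * (1 + ℓ * N0) < (B' \ A).card) :
    ∃ D : ℕ → Finset V, (∀ i ≤ N0, D i ⊆ B') ∧ (∀ i < N0, D i ⊂ D (i + 1)) ∧
      ∀ i ≤ N0, (Nb Γ B' (D i)).card ≤ k := by
  classical
  -- heads and the heads above a vertex
  let head : V → Prop := fun t => (S.D t ∩ (A ∩ B')).Nonempty
  let Hd : V → Finset V := fun u => univ.filter fun t => head t ∧ u ∈ S.D t
  have hτ : ∀ u, ∃ t, (Hd u).Nonempty → t ∈ Hd u ∧ ∀ t' ∈ Hd u, S.p t ≤ S.p t' := by
    intro u
    by_cases h : (Hd u).Nonempty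
    · obtain ⟨t, ht, ht'⟩ := exists_min_image (Hd u) S.p h
      exact ⟨t, fun _ => ⟨ht, ht'⟩⟩
    · exact ⟨u, fun h' => absurd h' h⟩
  choose τ hτ using hτ
  set U := B' \ A with hU
  set U1 := U.filter fun u => (Hd u).Nonempty with hU1
  set U0 := U.filter fun u => ¬ (Hd u).Nonempty with hU0
  have hUU : U1.card + U0.card = U.card := card_filter_add_card_filter_not _
  -- the vertices without head
  have h0 : U0.card ≤ Fs + ℓ := by
    refine le_trans (card_le_card ?_) (headless S hntw hl hpk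
      (univ.filter fun w => ∀ t', (S.D t' ∩ (A ∩ B')).Nonempty → w ∉ S.D t')
      (fun w => by rw [mem_filter]; exact ⟨fun h => h.2, fun h => ⟨mem_univ _, h⟩⟩))
    intro u hu
    rw [hU0, mem_filter, hU, mem_sdiff] at hu
    rw [mem_inter, mem_filter]
    refine ⟨⟨mem_univ _, fun t' ht' hut' => hu.2 ⟨t', ?_⟩⟩, hu.1.1⟩
    rw [mem_filter]
    exact ⟨mem_univ _, ht', hut'⟩
  -- the fibres of `τ`
  have hmemτ : ∀ u ∈ U1, head (τ u) ∧ u ∈ S.D (τ u) := by
    intro u hu
    rw [hU1, mem_filter] at hu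
    have := (hτ u hu.2).1
    rw [mem_filter] at this
    exact this.2
  have hminτ : ∀ u ∈ U1, ∀ t', head t' → u ∈ S.D t' → S.p (τ u) ≤ S.p t' := by
    intro u hu t' ht' hut'
    rw [hU1, mem_filter] at hu
    exact (hτ u hu.2).2 t' (mem_filter.mpr ⟨mem_univ _, ht', hut'⟩)
  set Vals := U1.image τ with hVals
  have hfib : ∀ t ∈ Vals, (U1.filter fun u => τ u = t).card ≤ Fs + ℓ := by
    intro t ht
    have hthead : head t := by
      rw [hVals, mem_image] at ht
      obtain ⟨u, hu, rfl⟩ := ht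
      exact (hmemτ u hu).1
    refine le_trans (card_le_card ?_) (head_fibre S hntw hl hpk t
      (univ.filter fun w => w ∈ S.D t ∧ w ≠ t ∧
        ∀ t', (S.D t' ∩ (A ∩ B')).Nonempty → w ∈ S.D t' → ¬ S.p t' < S.p t)
      (fun w => by rw [mem_filter]; exact ⟨fun h => h.2, fun h => ⟨mem_univ _, h⟩⟩) hthead)
    intro u hu
    rw [mem_filter] at hu
    obtain ⟨huU, hut⟩ := hu
    have huB : u ∈ B' := by
      rw [hU1, mem_filter, hU, mem_sdiff] at huU
      exact huU.1.1
    rw [mem_inter, mem_insert, mem_filter]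
    refine ⟨?_, huB⟩
    by_cases hne : u = t
    · exact Or.inl hne
    · right
      refine ⟨mem_univ _, ?_, hne, fun t' ht' hut' => ?_⟩
      · rw [← hut]
        exact (hmemτ u huU).2
      · rw [not_lt, ← hut]
        exact hminτ u huU t' ht' hut'
  have h1 : U1.card ≤ Vals.card * (Fs + ℓ) := by
    have := card_le_mul_card_image (f := τ) U1 (Fs + ℓ) hfib
    rwa [mul_comm] at this
  have hcardV : ℓ * N0 < Vals.card := by
    by_contra hcon
    rw [not_lt] at hcon
    have h2 : Vals.card * (Fs + ℓ) ≤ (ℓ * N0) * (Fs + ℓ) := Nat.mul_le_mul_right _ hcon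
    have h3 : (Fs + ℓ) * (1 + ℓ * N0) = (Fs + ℓ) + (ℓ * N0) * (Fs + ℓ) := by ring
    omega
  -- many values over one vertex of `A ∩ B'`
  have hVh : ∀ t ∈ Vals, head t := by
    intro t ht
    rw [hVals, mem_image] at ht
    obtain ⟨u, hu, rfl⟩ := ht
    exact (hmemτ u hu).1
  have hsel : ∀ t, ∃ s, t ∈ Vals → s ∈ S.D t ∧ s ∈ A ∩ B' := by
    intro t
    by_cases ht : t ∈ Vals
    · obtain ⟨s, hs⟩ := hVh t ht
      rw [mem_inter] at hs
      exact ⟨s, fun _ => hs⟩
    · exact ⟨t, fun h => absurd h ht⟩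
  choose sel hsel using hsel
  obtain ⟨s, hs, hsW⟩ := exists_lt_card_fiber_of_mul_lt_card_of_maps_to
    (s := Vals) (t := A ∩ B') (f := sel) (n := N0) (fun t ht => (hsel t ht).2)
    (lt_of_le_of_lt (Nat.mul_le_mul_right _ hl) hcardV)
  set W := Vals.filter fun t => sel t = s with hW
  have hWs : ∀ t ∈ W, head t ∧ s ∈ S.D t ∧ ∃ u ∈ U1, τ u = t := by
    intro t ht
    rw [hW, mem_filter] at ht
    refine ⟨hVh t ht.1, ?_, ?_⟩
    · rw [← ht.2]
      exact (hsel t ht.1).1
    · have := ht.1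
      rw [hVals, mem_image] at this
      exact this
  -- sort them by `p`
  have hcardP : (W.image S.p).card = W.card := card_image_of_injective _ S.inj
  let emb := (W.image S.p).orderEmbOfCardLe (show N0 + 1 ≤ (W.image S.p).card by rw [hcardP]; exact hsW)
  have hchoose : ∀ i : ℕ, ∃ t : V, ∀ hi : i < N0 + 1, t ∈ W ∧ S.p t = emb ⟨i, hi⟩ := by
    intro i
    by_cases hi : i < N0 + 1
    · have h2 : emb ⟨i, hi⟩ ∈ W.image S.p := orderEmbOfCardLe_mem _ _ _
      rw [mem_image] at h2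
      obtain ⟨t, ht, htp⟩ := h2
      exact ⟨t, fun _ => ⟨ht, htp⟩⟩
    · exact ⟨s, fun h => absurd h hi⟩
  choose tt htt using hchoose
  have hstep : ∀ i < N0, S.p (tt i) < S.p (tt (i + 1)) := by
    intro i hi
    rw [(htt i (by omega)).2, (htt (i + 1) (by omega)).2]
    exact emb.strictMono (Fin.mk_lt_mk.mpr (Nat.lt_succ_self i))
  refine ⟨fun i => S.D (tt i) ∩ B', fun i _ => inter_subset_right, fun i hi => ?_,
    fun i hi => ?_⟩
  · obtain ⟨hh1, hs1, _⟩ := hWs _ (htt i (by omega)).1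
    obtain ⟨hh2, hs2, u, hu, hut⟩ := hWs _ (htt (i + 1) (by omega)).1
    have hmem : tt i ∈ S.D (tt (i + 1)) := S.comparable hs1 hs2 (hstep i hi).le
    have hsub : S.D (tt i) ⊆ S.D (tt (i + 1)) := fun w hw => S.D_trans hw hmem
    have huB : u ∈ B' := by
      have := hu
      rw [hU1, mem_filter, hU, mem_sdiff] at this
      exact this.1.1
    have hu2 : u ∈ S.D (tt (i + 1)) := by
      rw [← hut]
      exact (hmemτ u hu).2
    rw [Finset.ssubset_iff_of_subset (inter_subset_inter_right hsub)]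
    refine ⟨u, mem_inter.mpr ⟨hu2, huB⟩, fun hcon => ?_⟩
    rw [mem_inter] at hcon
    have h3 := hminτ u hu (tt i) hh1 hcon.1
    rw [hut] at h3
    exact absurd (hstep i hi) (not_lt.mpr h3)
  · refine le_trans (card_le_card ?_) (S.card (tt i))
    intro w hw
    rw [mem_Nb] at hw
    obtain ⟨hwB, hwD, u, hu, huw⟩ := hw
    rw [mem_inter] at hu
    rcases S.D_adj hu.1 huw with h | h
    · exact absurd (mem_inter.mpr ⟨h, hwB⟩) hwD
    · exact h

/- END poe -/

end Pool.Agent.TWB
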