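import Pool.Agent.TWB.Meng
import Pool.Agent.TWB.Model
import Pool.Agent.TWB.Glue

/-!
# Separations: the sandwich lemma, `Small` sides, corners
-/

namespace Pool.Agent.TWB

open Finset

variable {V : Type*} [DecidableEq V]

/- MODULE sea (M) -/
theorem Sp.symm {G : SimpleGraph V} {Ω A B : Finset V} (h : Sp G Ω A B) : Sp G Ω B A := by
  refine ⟨by rw [union_comm]; exact h.1, ?_⟩
  intro u hu huA w hw hwB huw
  exact h.2 w hw hwB u hu huA huw.symm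

/-- corners. PROOF. Cases on membership. -/
theorem Sp.corner {G : SimpleGraph V} {Ω A1 B1 A2 B2 : Finset V} (h1 : Sp G Ω A1 B1)
    (h2 : Sp G Ω A2 B2) : Sp G Ω (A1 ∪ A2) (B1 ∩ B2) := by
  have e1 : ∀ u, (u ∈ A1 ∨ u ∈ B1) ↔ u ∈ Ω := fun u => by rw [← h1.1, mem_union]
  have e2 : ∀ u, (u ∈ A2 ∨ u ∈ B2) ↔ u ∈ Ω := fun u => by rw [← h2.1, mem_union]
  refine ⟨?_, ?_⟩
  · ext u
    have f1 := e1 u
    have f2 := e2 u
    simp only [mem_union, mem_inter]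
    tauto
  · intro u hu hu' w hw hw' huw
    rw [mem_union] at hu hw'
    rw [mem_inter] at hu' hw
    have f1 := e1 u
    have f2 := e2 u
    by_cases huB1 : u ∈ B1
    · have huB2 : u ∉ B2 := fun h => hu' ⟨huB1, h⟩
      have huA2 : u ∈ A2 := by tauto
      exact h2.2 u huA2 huB2 w hw.2 (fun h => hw' (Or.inr h)) huw
    · have huA1 : u ∈ A1 := by tauto
      exact h1.2 u huA1 huB1 w hw.1 (fun h => hw' (Or.inl h)) huw

/-- submodularity of the order. PROOF. Every `u ∈ Ω` is counted equally often on both sides (cases on the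
membership in the four sets; e.g. `Finset.card_union_add_card_inter` or sums of indicator functions). -/
theorem corner_card {Ω A1 B1 A2 B2 : Finset V} (h1 : A1 ∪ B1 = Ω) (h2 : A2 ∪ B2 = Ω) :
    ((A1 ∪ A2) ∩ (B1 ∩ B2)).card + ((A1 ∩ A2) ∩ (B1 ∪ B2)).card =
      (A1 ∩ B1).card + (A2 ∩ B2).card := by
  classical
  have e1 : ∀ u, (u ∈ A1 ∨ u ∈ B1) ↔ u ∈ Ω := fun u => by rw [← h1, mem_union]
  have e2 : ∀ u, (u ∈ A2 ∨ u ∈ B2) ↔ u ∈ Ω := fun u => by rw [← h2, mem_union]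
  have hc : ∀ S : Finset V, S ⊆ Ω → S.card = ∑ u ∈ Ω, if u ∈ S then 1 else 0 := by
    intro S hS
    rw [← card_filter, filter_mem_eq_inter, inter_eq_right.2 hS]
  have s1 : (A1 ∪ A2) ∩ (B1 ∩ B2) ⊆ Ω := fun u hu => by
    have f1 := e1 u
    simp only [mem_union, mem_inter] at hu
    tauto
  have s2 : (A1 ∩ A2) ∩ (B1 ∪ B2) ⊆ Ω := fun u hu => by
    have f1 := e1 u
    simp only [mem_union, mem_inter] at hu
    tauto
  have s3 : A1 ∩ B1 ⊆ Ω := fun u hu => by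
    have f1 := e1 u
    simp only [mem_inter] at hu
    tauto
  have s4 : A2 ∩ B2 ⊆ Ω := fun u hu => by
    have f2 := e2 u
    simp only [mem_inter] at hu
    tauto
  rw [hc _ s1, hc _ s2, hc _ s3, hc _ s4, ← sum_add_distrib, ← sum_add_distrib]
  refine sum_congr rfl fun u hu => ?_
  have f1 := (e1 u).2 hu
  have f2 := (e2 u).2 hu
  simp only [mem_union, mem_inter]
  by_cases a1 : u ∈ A1 <;> by_cases a2 : u ∈ A2 <;> by_cases b1 : u ∈ B1 <;>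
    by_cases b2 : u ∈ B2 <;> simp_all

/-- The sandwich lemma. PROOF. `P ⊆ P1 ∩ Q0`, `Q ⊆ P1 ∩ Q0`. Union: a vertex of `Ω` outside `P0` and `Q1`
lies in `Q0` and `P1`. Intersection: `P ∩ Q1 ⊆ P1 ∩ Q1 ⊆ Q`, `P0 ∩ Q ⊆ P0 ∩ Q0 ⊆ P`, and a vertex of
`P0 ∩ Q1` lies in `P1 ∩ Q1 ⊆ Q` and in `P0 ∩ Q0 ⊆ P`. Edges: let `u ∈ P ∪ P0`, `u ∉ Q ∪ Q1`,
`w ∈ Q ∪ Q1`, `w ∉ P ∪ P0`, `G.Adj u w`. If `u ∉ Q0` then `u ∈ P0 \ Q0`, `w ∈ Q0 \ P0`, impossible. So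
`u ∈ Q0`, and `u ∈ P` (if `u ∈ P0` then `u ∈ P0 ∩ Q0 ⊆ P`). In the same way `w ∈ Q`. -/
theorem sandwich {G : SimpleGraph V} {Ω P0 Q0 P1 Q1 P Q : Finset V} (h0 : Sp G Ω P0 Q0)
    (h1 : Sp G Ω P1 Q1) (hP : P0 ⊆ P1) (hQ : Q1 ⊆ Q0) (h : Sp G (P1 ∩ Q0) P Q)
    (hA : P0 ∩ Q0 ⊆ P) (hB : P1 ∩ Q1 ⊆ Q) :
    Sp G Ω (P ∪ P0) (Q ∪ Q1) ∧ (P ∪ P0) ∩ (Q ∪ Q1) = P ∩ Q := by
  have e0 : ∀ u, (u ∈ P0 ∨ u ∈ Q0) ↔ u ∈ Ω := fun u => by rw [← h0.1, mem_union]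
  have e1 : ∀ u, (u ∈ P1 ∨ u ∈ Q1) ↔ u ∈ Ω := fun u => by rw [← h1.1, mem_union]
  have e : ∀ u, (u ∈ P ∨ u ∈ Q) ↔ (u ∈ P1 ∧ u ∈ Q0) := fun u => by
    rw [← mem_union, h.1, mem_inter]
  have g1 : ∀ u, u ∈ P0 → u ∈ P1 := fun u hu => hP hu
  have g2 : ∀ u, u ∈ Q1 → u ∈ Q0 := fun u hu => hQ hu
  have g3 : ∀ u, u ∈ P0 → u ∈ Q0 → u ∈ P := fun u hu hu' => hA (mem_inter.2 ⟨hu, hu'⟩)
  have g4 : ∀ u, u ∈ P1 → u ∈ Q1 → u ∈ Q := fun u hu hu' => hB (mem_inter.2 ⟨hu, hu'⟩)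
  refine ⟨⟨?_, ?_⟩, ?_⟩
  · ext u
    have f0 := e0 u
    have f1 := e1 u
    have f := e u
    have k1 := g1 u
    have k2 := g2 u
    simp only [mem_union]
    tauto
  · intro u hu hu' w hw hw' huw
    rw [mem_union] at hu hu' hw hw'
    by_cases huQ0 : u ∈ Q0
    · have huP : u ∈ P := by
        rcases hu with h' | h'
        · exact h'
        · exact g3 u h' huQ0
      have hwQ0 : w ∈ Q0 := by
        rcases hw with h' | h'
        · exact ((e w).1 (Or.inr h')).2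
        · exact g2 w h'
      by_cases hwP1 : w ∈ P1
      · have hwQ : w ∈ Q := by
          rcases hw with h' | h'
          · exact h'
          · exact g4 w hwP1 h'
        exact h.2 u huP (fun h' => hu' (Or.inl h')) w hwQ (fun h' => hw' (Or.inl h')) huw
      · have hwQ1 : w ∈ Q1 := by
          rcases hw with h' | h'
          · exact absurd ((e w).1 (Or.inr h')).1 hwP1
          · exact h'
        exact h1.2 u ((e u).1 (Or.inl huP)).1 (fun h' => hu' (Or.inr h')) w hwQ1 hwP1 huw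
    · have huP0 : u ∈ P0 := by
        rcases hu with h' | h'
        · exact absurd ((e u).1 (Or.inl h')).2 huQ0
        · exact h'
      have hwQ0 : w ∈ Q0 := by
        rcases hw with h' | h'
        · exact ((e w).1 (Or.inr h')).2
        · exact g2 w h'
      exact h0.2 u huP0 huQ0 w hwQ0 (fun h' => hw' (Or.inr h')) huw
  · ext u
    have f := e u
    have k1 := g1 u
    have k2 := g2 u
    have k3 := g3 u
    have k4 := g4 u
    simp only [mem_union, mem_inter]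
    tauto

/-- PROOF. The only edge of `G` that is not an edge of `Dl G x y` is `xy`. -/
theorem Sp.of_del {G : SimpleGraph V} {Ω A B : Finset V} {x y : V} (h : Sp (Dl G x y) Ω A B)
    (h1 : ¬ (x ∉ B ∧ y ∉ A)) (h2 : ¬ (y ∉ B ∧ x ∉ A)) : Sp G Ω A B := by
  refine ⟨h.1, ?_⟩
  intro u hu huB w hw hwA huw
  refine h.2 u hu huB w hw hwA ⟨huw, ?_, ?_⟩
  · rintro ⟨rfl, rfl⟩
    exact h1 ⟨huB, hwA⟩
  · rintro ⟨rfl, rfl⟩
    exact h2 ⟨huB, hwA⟩

/-- PROOF. `Dl G x y` has fewer edges. -/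
theorem Sp.to_del {G : SimpleGraph V} {Ω A B : Finset V} (x y : V) (h : Sp G Ω A B) :
    Sp (Dl G x y) Ω A B := by
  exact ⟨h.1, fun u hu huB w hw hwA huw => h.2 u hu huB w hw hwA huw.1⟩

/- END sea -/

section
variable [Fintype V]

/-- `Small` is inherited. -/
theorem Small.mono {k : ℕ} {G : SimpleGraph V} {A B A' B' : Finset V} (h : Small k G A B)
    (h' : Sp G univ A' B') (hA : A ⊆ A') (hB : B' ⊆ B) : Small k G A' B' :=
  ⟨h', fun A'' B'' h'' hA'' hB'' => h.2 A'' B'' h'' (hA.trans hA'') (hB''.trans hB)⟩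

/- MODULE seb (L) -/
/-- One half of the gluing step in `tw_of_two`. -/
private theorem seb_half {k : ℕ} {G : SimpleGraph V} {A1 B1 A2 B2 P Q : Finset V}
    (h12 : B1 ⊆ A2) (t2 : TW k (Ind G A2 ⊔ KG (A2 ∩ B2)))
    (hPQ : Sp G (A2 ∩ A1) P Q) (hP : A1 ∩ B1 ⊆ P) (hQ : A2 ∩ B2 ⊆ Q) (T : V → Finset V)
    (hT : ∀ y ∈ P ∩ Q, y ∈ T y ∧ T y ⊆ A2 ∩ A1 ∧ Cn G (T y) ∧ (T y ∩ (A2 ∩ B2)).Nonempty ∧
      ∀ u ∈ T y, u ∈ P → u ∈ Q → u = y)
    (hd : ∀ y ∈ P ∩ Q, ∀ z ∈ P ∩ Q, y ≠ z → Disjoint (T y) (T z)) :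
    TW k (Ind G (P ∪ B1) ⊔ KG (P ∩ Q)) := by
  have hPU : P ⊆ A2 ∩ A1 := hPQ.1 ▸ subset_union_left
  have hQU : Q ⊆ A2 ∩ A1 := hPQ.1 ▸ subset_union_right
  have hA : P ∪ B1 ⊆ A2 := union_subset (hPU.trans inter_subset_left) h12
  have key : TW k (Ind (Ind G A2) (P ∪ B1) ⊔ KG (P ∩ Q)) := by
    refine link_tw (G := Ind G A2) (X := A2 ∩ B2) (A := P ∪ B1) (S := P ∩ Q) t2
      (inter_subset_left.trans subset_union_left) (fun y => T y ∩ Q) ?_ ?_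
    · intro y hy
      obtain ⟨h1, h2, h3, h4, h5⟩ := hT y hy
      have hyP := (mem_inter.1 hy).1
      have hyQ := (mem_inter.1 hy).2
      refine ⟨mem_inter.2 ⟨h1, hyQ⟩, ?_, ?_, ?_⟩
      · have hc : Cn G (T y ∩ Q) := by
          refine Cn.restrict (P := Q) (Q := P) h3 ?_ ?_ h1 hyQ hyP ?_
          · intro u hu
            have : u ∈ P ∪ Q := by rw [hPQ.1]; exact h2 hu
            exact (mem_union.1 this).symm
          · intro u hu huP w hw hwQ huw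
            have hwP : w ∈ P := by
              have : w ∈ P ∪ Q := by rw [hPQ.1]; exact h2 hw
              exact (mem_union.1 this).resolve_right hwQ
            have huQ : u ∈ Q := by
              have : u ∈ P ∪ Q := by rw [hPQ.1]; exact h2 hu
              exact (mem_union.1 this).resolve_left huP
            exact hPQ.2 w hwP hwQ u huQ huP huw.symm
          · intro u hu huQ huP
            exact h5 u hu huP huQ
        refine hc.mono_adj ?_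
        intro u hu w hw huw
        exact ⟨huw, (mem_inter.1 (h2 (mem_inter.1 hu).1)).1,
          (mem_inter.1 (h2 (mem_inter.1 hw).1)).1⟩
      · obtain ⟨z, hz⟩ := h4
        rw [mem_inter] at hz
        exact ⟨z, mem_inter.2 ⟨mem_inter.2 ⟨hz.1, hQ hz.2⟩, hz.2⟩⟩
      · intro u hu huA
        rw [mem_inter] at hu
        rcases mem_union.1 huA with huP | huB
        · exact h5 u hu.1 huP hu.2
        · exact h5 u hu.1 (hP (mem_inter.2 ⟨(mem_inter.1 (hQU hu.2)).2, huB⟩)) hu.2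
    · intro y hy z hz hyz
      exact (hd y hy z hz hyz).mono inter_subset_left inter_subset_left
  refine key.mono ?_
  intro a b hab
  rcases hab with h | h
  · exact Or.inl ⟨⟨h.1, hA h.2.1, hA h.2.2⟩, h.2⟩
  · exact Or.inr h

/-- The two-sided step of (S0). Two non-weak sides `A1`, `A2` that together cover everything: `TW k G`.
PROOF. Put `S1 = A1 ∩ B1`, `S2 = A2 ∩ B2`. `B1 ⊆ A2`, `B2 ⊆ A1`. `menger1` in `U = A2 ∩ A1` for `S1`, `S2`
gives `(P, Q)` and `T y`. `sandwich` for `(P0, Q0) = (B1, A1)`, `(P1, Q1) = (A2, B2)` gives that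
`(P ∪ B1, Q ∪ B2)` is a separation of `univ` with intersection `R = P ∩ Q`.
(a) `TW k (Ind G (P ∪ B1) ⊔ KG R)`: `link_tw` for the graph `Ind G A2`, `X = S2`, `A = P ∪ B1 ⊆ A2`,
`S = R`, `T' y = T y ∩ Q`: it is connected by `Cn.restrict` (for the pair `Q`, `P`; `T y ⊆ A1 ∩ A2`, so also
connected in `Ind G A2`), meets `S2 ⊆ Q` (`T y` meets `S2`), and its vertices in `P ∪ B1` are `y` only:
`Q ∩ B1 ⊆ A1 ∩ B1 = S1 ⊆ P`. Then `Ind (Ind G A2) (P ∪ B1)` and `Ind G (P ∪ B1)` have the same edges.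
(b) in the same way `TW k (Ind G (Q ∪ B2) ⊔ KG R)`. (c) `tw_glue` for the two graphs and
`U1 = P ∪ B1`, `U2 = Q ∪ B2` (intersection `R`); each edge of `G` lies in one of them. -/
theorem tw_of_two {k : ℕ} {G : SimpleGraph V} {A1 B1 A2 B2 : Finset V} (h1 : Sp G univ A1 B1)
    (h2 : Sp G univ A2 B2) (h12 : B1 ⊆ A2) (h21 : B2 ⊆ A1)
    (t1 : TW k (Ind G A1 ⊔ KG (A1 ∩ B1))) (t2 : TW k (Ind G A2 ⊔ KG (A2 ∩ B2))) : TW k G := by
  have hS1 : A1 ∩ B1 ⊆ A2 ∩ A1 := fun u hu =>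
    mem_inter.2 ⟨h12 (mem_inter.1 hu).2, (mem_inter.1 hu).1⟩
  have hS2 : A2 ∩ B2 ⊆ A2 ∩ A1 := fun u hu =>
    mem_inter.2 ⟨(mem_inter.1 hu).1, h21 (mem_inter.1 hu).2⟩
  obtain ⟨P, Q, T, hPQ, hP, hQ, hT, hd⟩ := menger1 G (A2 ∩ A1) (A1 ∩ B1) (A2 ∩ B2) hS1 hS2
  obtain ⟨hsp, hR⟩ := sandwich (P0 := B1) (Q0 := A1) (P1 := A2) (Q1 := B2) h1.symm h2 h12 h21 hPQ
    (by rw [inter_comm]; exact hP) hQ
  have ta : TW k (Ind G (P ∪ B1) ⊔ KG (P ∩ Q)) := by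
    refine seb_half h12 t2 hPQ hP hQ T ?_ hd
    intro y hy
    obtain ⟨a1, a2, a3, _, a5, a6⟩ := hT y hy
    exact ⟨a1, a2, a3, a5, a6⟩
  have tb : TW k (Ind G (Q ∪ B2) ⊔ KG (Q ∩ P)) := by
    refine seb_half (A2 := A1) (B2 := B1) (A1 := A2) (B1 := B2) h21 t1 ?_ hQ hP T ?_ ?_
    · rw [inter_comm A1 A2]
      exact hPQ.symm
    · intro y hy
      rw [inter_comm] at hy
      obtain ⟨a1, a2, a3, a4, _, a6⟩ := hT y hy
      refine ⟨a1, ?_, a3, a4, fun u hu huQ huP => a6 u hu huP huQ⟩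
      rw [inter_comm A1 A2]
      exact a2
    · intro y hy z hz hyz
      rw [inter_comm] at hy hz
      exact hd y hy z hz hyz
  rw [inter_comm Q P] at tb
  have hmem : ∀ a, a ∈ (P ∪ B1) ∩ (Q ∪ B2) → a ∈ P ∩ Q := fun a ha => by rwa [hR] at ha
  have tg := tw_glue (U1 := P ∪ B1) (U2 := Q ∪ B2) ta tb
    (by
      intro a b hab
      rcases hab with h | h
      · exact h.2.1
      · exact mem_union_left _ (mem_inter.1 h.2.1).1)
    (by
      intro a b hab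
      rcases hab with h | h
      · exact h.2.1
      · exact mem_union_left _ (mem_inter.1 h.2.1).2)
    (by
      intro a ha b hb hab
      exact Or.inr ⟨hab, hmem a ha, hmem b hb⟩)
    (by
      intro a ha b hb hab
      exact Or.inr ⟨hab, hmem a ha, hmem b hb⟩)
  refine tg.mono ?_
  intro a b hab
  have hcov : ∀ u, u ∈ P ∪ B1 ∨ u ∈ Q ∪ B2 := by
    intro u
    have : u ∈ (P ∪ B1) ∪ (Q ∪ B2) := by rw [hsp.1]; exact mem_univ u
    exact mem_union.1 this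
  by_cases ha1 : a ∈ P ∪ B1
  · by_cases hb1 : b ∈ P ∪ B1
    · exact Or.inl (Or.inl ⟨hab, ha1, hb1⟩)
    · have hb2 := (hcov b).resolve_left hb1
      by_cases ha2 : a ∈ Q ∪ B2
      · exact Or.inr (Or.inl ⟨hab, ha2, hb2⟩)
      · exact absurd hab (hsp.2 a ha1 ha2 b hb2 hb1)
  · have ha2 := (hcov a).resolve_left ha1
    by_cases hb2 : b ∈ Q ∪ B2
    · exact Or.inr (Or.inl ⟨hab, ha2, hb2⟩)
    · have hb1 := (hcov b).resolve_right hb2
      exact absurd hab.symm (hsp.2 b hb1 hb2 a ha2 ha1)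

/-- (S0). PROOF. If both fail there are `A ⊆ A1`, `B1 ⊆ B`, `B ⊆ A2`, `B2 ⊆ A` as in `tw_of_two`
(`B1 ⊆ B ⊆ A2`, `B2 ⊆ A ⊆ A1`). -/
theorem small_or {k : ℕ} {G : SimpleGraph V} (h : ¬ TW k G) {A B : Finset V}
    (hs : Sp G univ A B) : Small k G A B ∨ Small k G B A := by
  by_contra hc
  have hc1 : ¬ Small k G A B := fun h => hc (Or.inl h)
  have hc2 : ¬ Small k G B A := fun h => hc (Or.inr h)
  have e1 : ∃ A1 B1, Sp G univ A1 B1 ∧ A ⊆ A1 ∧ B1 ⊆ B ∧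
      TW k (Ind G A1 ⊔ KG (A1 ∩ B1)) := by
    by_contra hn
    apply hc1
    refine ⟨hs, fun A' B' h1 h2 h3 h4 => ?_⟩
    exact hn ⟨A', B', h1, h2, h3, h4⟩
  have e2 : ∃ A2 B2, Sp G univ A2 B2 ∧ B ⊆ A2 ∧ B2 ⊆ A ∧
      TW k (Ind G A2 ⊔ KG (A2 ∩ B2)) := by
    by_contra hn
    apply hc2
    refine ⟨hs.symm, fun A' B' h1 h2 h3 h4 => ?_⟩
    exact hn ⟨A', B', h1, h2, h3, h4⟩
  obtain ⟨A1, B1, a1, a2, a3, a4⟩ := e1
  obtain ⟨A2, B2, b1, b2, b3, b4⟩ := e2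
  exact h (tw_of_two a1 b1 (a3.trans b2) (b3.trans a2) a4 b4)

/-- (f0). PROOF. Let `v ∈ B \ A` and `G.Adj v w`; `w ∉ A`, as `A ∩ B = ∅` and no edge joins `A \ B` and
`B \ A`. So `Ind G A ⊔ KG ∅` has fewer edges than `Dl G v w`. -/
theorem small_zero {k : ℕ} {G : SimpleGraph V} (hO : Obs k G) {A B : Finset V}
    (h : Small k G A B) (h0 : (A ∩ B).card = 0) : (B \ A).card = 0 := by
  by_contra hc
  obtain ⟨v, hv⟩ : (B \ A).Nonempty := by
    rw [← Finset.card_pos]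
    omega
  rw [mem_sdiff] at hv
  have hAB : A ∩ B = ∅ := Finset.card_eq_zero.1 h0
  obtain ⟨w, hw⟩ := hO.iso v
  have hsp := h.1
  have hweak : ¬ TW k (Ind G A ⊔ KG (A ∩ B)) := h.2 A B hsp (Subset.refl _) (Subset.refl _)
  apply hweak
  refine (hO.del v w hw).mono ?_
  intro a b hab
  rcases hab with h | h
  · refine ⟨h.1, ?_, ?_⟩
    · rintro ⟨rfl, _⟩
      exact hv.2 h.2.1
    · rintro ⟨_, rfl⟩
      exact hv.2 h.2.2
  · exfalso
    have := h.2.1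
    rw [hAB] at this
    simp at this

/- END seb -/

/- MODULE sec (M) -/
omit [DecidableEq V] [Fintype V] in
private theorem sec_comm (G : SimpleGraph V) (x y : V) : Dl G x y = Dl G y x := by
  ext a b
  simp only [Dl]
  tauto

private theorem sec_aux {k ℓ F : ℕ} {G : SimpleGraph V} {A B : Finset V} (hsm : Small k G A B)
    (hF : ∀ A' B', Small k G A' B' → (A' ∩ B').card < ℓ → (B' \ A').card ≤ F) {x y : V}
    {A1 B1 A2 B2 : Finset V} (h1 : Sp (Dl G x y) univ A1 B1) (hA1 : A ⊆ A1) (hB1 : B1 ⊆ B)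
    (hc1 : (A1 ∩ B1).card < ℓ) (hm1 : 2 * F + ℓ < (B1 \ A1).card) (h2 : Sp G univ A2 B2)
    (hxA2 : x ∈ A2) (hxB2 : x ∈ B2) (hyA2 : y ∈ A2) (hyB2 : y ∈ B2) (hA2 : A ⊆ A2)
    (hB2 : B2 ⊆ B) (hc2 : (A2 ∩ B2).card ≤ ℓ) (hm2 : 2 * F + ℓ < (B2 \ A2).card)
    (hxB1 : x ∉ B1) (hyA1 : y ∉ A1) : False := by
  have hxA1 : x ∈ A1 := by
    have h : x ∈ A1 ∪ B1 := h1.1 ▸ Finset.mem_univ x
    exact (Finset.mem_union.1 h).resolve_right hxB1
  have hyB1 : y ∈ B1 := by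
    have h : y ∈ A1 ∪ B1 := h1.1 ▸ Finset.mem_univ y
    exact (Finset.mem_union.1 h).resolve_left hyA1
  have h2' : Sp (Dl G x y) univ A2 B2 := h2.to_del x y
  have s1 : Small k G (A1 ∪ A2) (B1 ∩ B2) := by
    have hy1 : y ∈ A1 ∪ A2 := Finset.mem_union_right _ hyA2
    have hy2 : y ∈ B1 ∩ B2 := Finset.mem_inter.2 ⟨hyB1, hyB2⟩
    exact hsm.mono ((h1.corner h2').of_del (fun h => h.2 hy1) (fun h => h.1 hy2))
      (hA1.trans Finset.subset_union_left) (Finset.inter_subset_left.trans hB1)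
  have s2 : Small k G (A1 ∩ A2) (B1 ∪ B2) := by
    have hx1 : x ∈ A1 ∩ A2 := Finset.mem_inter.2 ⟨hxA1, hxA2⟩
    have hx2 : x ∈ B1 ∪ B2 := Finset.mem_union_right _ hxB2
    exact hsm.mono ((h1.symm.corner h2'.symm).symm.of_del (fun h => h.1 hx2) (fun h => h.2 hx1))
      (Finset.subset_inter hA1 hA2) (Finset.union_subset hB1 hB2)
  have s3 : Small k G (A1 ∪ B2) (B1 ∩ A2) := by
    have hy1 : y ∈ A1 ∪ B2 := Finset.mem_union_right _ hyB2
    have hy2 : y ∈ B1 ∩ A2 := Finset.mem_inter.2 ⟨hyB1, hyA2⟩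
    exact hsm.mono ((h1.corner h2'.symm).of_del (fun h => h.2 hy1) (fun h => h.1 hy2))
      (hA1.trans Finset.subset_union_left) (Finset.inter_subset_left.trans hB1)
  have s4 : Small k G (B1 ∪ A2) (A1 ∩ B2) := by
    have hx1 : x ∈ B1 ∪ A2 := Finset.mem_union_right _ hxA2
    have hx2 : x ∈ A1 ∩ B2 := Finset.mem_inter.2 ⟨hxA1, hxB2⟩
    exact hsm.mono ((h1.symm.corner h2').of_del (fun h => h.1 hx2) (fun h => h.2 hx1))
      (hA2.trans Finset.subset_union_right) (Finset.inter_subset_right.trans hB2)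
  have c1 := corner_card h1.1 h2.1
  have c2 := corner_card h1.1 h2.symm.1
  rw [Finset.inter_comm B2 A2] at c2
  have n2 : ¬ ((A1 ∩ A2) ∩ (B1 ∪ B2)).card < ℓ := by
    intro hlt
    have h3 := hF _ _ s2 hlt
    have h4 : (B1 \ A1).card ≤ ((B1 ∪ B2) \ (A1 ∩ A2)).card := by
      refine Finset.card_le_card fun u hu => ?_
      simp only [Finset.mem_sdiff, Finset.mem_union, Finset.mem_inter] at hu ⊢
      tauto
    omega
  have hm := hF _ _ s1 (by omega)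
  rcases Nat.lt_or_ge ((A1 ∪ B2) ∩ (B1 ∩ A2)).card ℓ with hlt | hge
  · have h3 := hF _ _ s3 hlt
    have h4 : (B1 \ A1).card ≤ (((B1 ∩ B2) \ (A1 ∪ A2)) ∪ ((B1 ∩ A2) \ (A1 ∪ B2)) ∪
        (A2 ∩ B2)).card := by
      refine Finset.card_le_card fun u hu => ?_
      have h5 : u ∈ A2 ∪ B2 := h2.1 ▸ Finset.mem_univ u
      simp only [Finset.mem_sdiff, Finset.mem_union, Finset.mem_inter] at hu h5 ⊢
      tauto
    have h6 := Finset.card_union_le (((B1 ∩ B2) \ (A1 ∪ A2)) ∪ ((B1 ∩ A2) \ (A1 ∪ B2))) (A2 ∩ B2)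
    have h7 := Finset.card_union_le ((B1 ∩ B2) \ (A1 ∪ A2)) ((B1 ∩ A2) \ (A1 ∪ B2))
    omega
  · have h3 : ((B1 ∪ A2) ∩ (A1 ∩ B2)).card < ℓ := by
      rw [Finset.inter_comm]
      omega
    have h3' := hF _ _ s4 h3
    have h4 : (B2 \ A2).card ≤ (((B1 ∩ B2) \ (A1 ∪ A2)) ∪ ((A1 ∩ B2) \ (B1 ∪ A2)) ∪
        (A1 ∩ B1)).card := by
      refine Finset.card_le_card fun u hu => ?_
      have h5 : u ∈ A1 ∪ B1 := h1.1 ▸ Finset.mem_univ u
      simp only [Finset.mem_sdiff, Finset.mem_union, Finset.mem_inter] at hu h5 ⊢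
      tauto
    have h6 := Finset.card_union_le (((B1 ∩ B2) \ (A1 ∪ A2)) ∪ ((A1 ∩ B2) \ (B1 ∪ A2))) (A1 ∩ B1)
    have h7 := Finset.card_union_le ((B1 ∩ B2) \ (A1 ∪ A2)) ((A1 ∩ B2) \ (B1 ∪ A2))
    omega

/-- The corner lemma. PROOF. See the text, section 2. Suppose `(A1, B1)` and `(A2, B2)` violate the two
statements. If `(A1, B1)` is a separation of `G`, it is `Small` (`Small.mono`), of order `< ℓ`, and
`hF` gives a contradiction. So by `Sp.of_del` (after exchanging `x` and `y`, the statement is symmetric up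
to `Dl G x y = Dl G y x`) `x ∈ A1 \ B1` and `y ∈ B1 \ A1`. The four pairs `(A1 ∪ A2, B1 ∩ B2)`,
`(A1 ∩ A2, B1 ∪ B2)`, `(A1 ∪ B2, B1 ∩ A2)`, `(A2 ∪ B1, B2 ∩ A1)` are separations of `Dl G x y`
(`Sp.corner`, `Sp.symm`) and, as `x` or `y` is in the intersection, of `G` (`Sp.of_del`); they are all
`Small` by `Small.mono`. `corner_card` (for `(A1,B1),(A2,B2)` and for `(A1,B1),(B2,A2)`): the orders of the
first two, and of the last two, add up to less than `2ℓ`. If the second has order `< ℓ`: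
`B1 \ A1 ⊆ (B1 ∪ B2) \ (A1 ∩ A2)` has at most `F` elements. So the first has order `< ℓ`. If the third
has order `< ℓ` then `B1 \ A1 ⊆ ((B1 ∩ B2) \ (A1 ∪ A2)) ∪ ((B1 ∩ A2) \ (A1 ∪ B2)) ∪ (A2 ∩ B2)` has at
most `2F + ℓ` elements; if the fourth has, then the same for `B2 \ A2`, with `A1 ∩ B1`. -/
theorem del_or_con {k ℓ F : ℕ} {G : SimpleGraph V} {A B : Finset V} (hsm : Small k G A B)
    (hF : ∀ A' B', Small k G A' B' → (A' ∩ B').card < ℓ → (B' \ A').card ≤ F) (x y : V)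
    (hx : x ∈ B) (hy : y ∈ B) (hxy : x ≠ y) :
    (∀ A1 B1, Sp (Dl G x y) univ A1 B1 → A ⊆ A1 → B1 ⊆ B → (A1 ∩ B1).card < ℓ →
      (B1 \ A1).card ≤ 2 * F + ℓ) ∨
    (∀ A2 B2, Sp G univ A2 B2 → x ∈ A2 → x ∈ B2 → y ∈ A2 → y ∈ B2 → A ⊆ A2 → B2 ⊆ B →
      (A2 ∩ B2).card ≤ ℓ → (B2 \ A2).card ≤ 2 * F + ℓ) := by
  by_contra hcon
  rw [not_or] at hcon
  obtain ⟨hcon1, hcon2⟩ := hcon
  push Not at hcon1 hcon2
  obtain ⟨A1, B1, h1, hA1, hB1, hc1, hm1⟩ := hcon1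
  obtain ⟨A2, B2, h2, hxA2, hxB2, hyA2, hyB2, hA2, hB2, hc2, hm2⟩ := hcon2
  by_cases hc : x ∉ B1 ∧ y ∉ A1
  · exact sec_aux hsm hF h1 hA1 hB1 hc1 hm1 h2 hxA2 hxB2 hyA2 hyB2 hA2 hB2 hc2 hm2 hc.1 hc.2
  · by_cases hc' : y ∉ B1 ∧ x ∉ A1
    · exact sec_aux hsm hF (sec_comm G x y ▸ h1) hA1 hB1 hc1 hm1 h2 hyA2 hyB2 hxA2 hxB2 hA2 hB2
        hc2 hm2 hc'.1 hc'.2
    · have h3 := hF A1 B1 (hsm.mono (h1.of_del hc hc') hA1 hB1) hc1
      omega

/- END sec -/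

end

end Pool.Agent.TWB
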