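import Pool.Agent.TWB.Conn
import Pool.Agent.TWB.Sep

/-!
# Strips: basic facts
-/

namespace Pool.Agent.TWB

open Finset

variable {V : Type*} [DecidableEq V]

/- MODULE sta (M) -/
/-- PROOF. `card_eq` : the rails are disjoint, each has one vertex in `C i`, and `|C i| = |J|`, so the
union of the `R a ∩ C i`, `a ∈ J`, has `|J|` elements and is `C i`. -/
theorem Strip.cover {G : SimpleGraph V} {m : ℕ} {M C : ℕ → Finset V} {Z J : Finset V}
    {R : V → Finset V} (h : Strip G m M C Z J R) {i : ℕ} (hi : i ≤ m) {u : V} (hu : u ∈ C i) :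
    ∃ a ∈ J, u ∈ R a := by
  have h1 : (J.biUnion fun a => R a ∩ C i).card = (C i).card := by
    rw [card_biUnion]
    · rw [sum_congr rfl (fun a ha => h.r1 a ha i hi), sum_const, smul_eq_mul, mul_one, h.cc i hi]
    · intro a ha b hb hab
      exact (h.rd a ha b hb hab).mono inter_subset_left inter_subset_left
  have h2 : (J.biUnion fun a => R a ∩ C i) = C i :=
    eq_of_subset_of_card_le (biUnion_subset.mpr fun a _ => inter_subset_right) h1.ge
  rw [← h2, mem_biUnion] at hu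
  obtain ⟨a, ha, hu⟩ := hu
  exact ⟨a, ha, (mem_inter.mp hu).1⟩

/-- PROOF. `h.r1` -/
theorem Strip.rail_cut {G : SimpleGraph V} {m : ℕ} {M C : ℕ → Finset V} {Z J : Finset V}
    {R : V → Finset V} (h : Strip G m M C Z J R) {i : ℕ} (hi : i ≤ m) {a : V} (ha : a ∈ J) :
    ∃ u ∈ C i, u ∈ R a ∧ ∀ w ∈ R a, w ∈ C i → w = u := by
  obtain ⟨u, hu⟩ := card_eq_one.mp (h.r1 a ha i hi)
  have hu' : u ∈ R a ∩ C i := by rw [hu]; exact mem_singleton_self u
  rw [mem_inter] at hu'
  refine ⟨u, hu'.2, hu'.1, fun w hw hwC => ?_⟩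
  have hw' : w ∈ R a ∩ C i := mem_inter.mpr ⟨hw, hwC⟩
  rw [hu] at hw'
  exact mem_singleton.mp hw'

/-- Every cut is nonempty. -/
theorem Strip.cut_ne {G : SimpleGraph V} {m : ℕ} {M C : ℕ → Finset V} {Z J : Finset V}
    {R : V → Finset V} (h : Strip G m M C Z J R) {i : ℕ} (hi : i ≤ m) : (C i).Nonempty := by
  obtain ⟨a, ha⟩ := h.ne
  obtain ⟨u, hu, -⟩ := h.rail_cut hi ha
  exact ⟨u, hu⟩

/-- A cut vertex lies only in the two blocks next to the cut. PROOF. `C i ⊆ M i` (if `i < m`) and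
`C i ⊆ M (i - 1)` (if `0 < i`). If `j ≥ i + 2` or `j + 2 ≤ i - 1 …` use `far`; for `j = i + 1`:
`C i ∩ M (i + 1) ⊆ M i ∩ M (i + 1) ⊆ C (i + 1)`, disjoint from `C i` (`cd`); for `j = i - 2` in the same way
`C i ∩ M (i - 2) ⊆ M (i - 1) ∩ M (i - 2) ⊆ C (i - 1)`. -/
theorem Strip.cut_block {G : SimpleGraph V} {m : ℕ} {M C : ℕ → Finset V} {Z J : Finset V}
    {R : V → Finset V} (h : Strip G m M C Z J R) {i j : ℕ} (hi : i ≤ m) (hj : j < m) {u : V}
    (hu : u ∈ C i) (huj : u ∈ M j) : j = i ∨ j + 1 = i := by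
  by_contra hcon
  push Not at hcon
  obtain ⟨h1, h2⟩ := hcon
  rcases lt_or_gt_of_ne h1 with hlt | hgt
  · obtain ⟨i', rfl⟩ : ∃ i', i = i' + 1 := ⟨i - 1, by omega⟩
    have h3 : u ∈ M i' := h.cr i' (by omega) hu
    by_cases h4 : j + 2 ≤ i'
    · exact disjoint_left.mp (h.far j i' h4 (by omega)) huj h3
    · obtain rfl : i' = j + 1 := by omega
      have h5 : u ∈ C (j + 1) := h.ov j (by omega) (mem_inter.mpr ⟨huj, h3⟩)
      exact disjoint_left.mp (h.cd (j + 1) (by omega)) h5 hu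
  · have h3 : u ∈ M i := h.cl i (by omega) hu
    by_cases h4 : i + 2 ≤ j
    · exact disjoint_left.mp (h.far i j h4 hj) h3 huj
    · obtain rfl : j = i + 1 := by omega
      have h5 : u ∈ C (i + 1) := h.ov i hj (mem_inter.mpr ⟨h3, huj⟩)
      exact disjoint_left.mp (h.cd i (by omega)) hu h5

/-- PROOF. `cut_block`: a common vertex of `C i` and `C j`, `i < j`, lies in `M i` and `M (j - 1)` and (if
`j < m`) in `M j`, so `j = i + 1`, and `cd`. -/
theorem Strip.cuts_disj {G : SimpleGraph V} {m : ℕ} {M C : ℕ → Finset V} {Z J : Finset V}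
    {R : V → Finset V} (h : Strip G m M C Z J R) {i j : ℕ} (hij : i < j) (hj : j ≤ m) :
    Disjoint (C i) (C j) := by
  rw [disjoint_left]
  intro u hu huj
  obtain ⟨j', rfl⟩ : ∃ j', j = j' + 1 := ⟨j - 1, by omega⟩
  have h1 : u ∈ M j' := h.cr j' (by omega) huj
  rcases h.cut_block (by omega) (by omega) hu h1 with rfl | h2
  · exact disjoint_left.mp (h.cd j' (by omega)) hu huj
  · omega

/-- Two blocks with a common vertex are neighbours, the vertex is in the cut between them.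
PROOF. `far`, `ov`. -/
theorem Strip.block_block {G : SimpleGraph V} {m : ℕ} {M C : ℕ → Finset V} {Z J : Finset V}
    {R : V → Finset V} (h : Strip G m M C Z J R) {i j : ℕ} (hij : i < j) (hj : j < m) {u : V}
    (hu : u ∈ M i) (huj : u ∈ M j) : j = i + 1 ∧ u ∈ C (i + 1) := by
  have h1 : j = i + 1 := by
    by_contra h2
    exact disjoint_left.mp (h.far i j (by omega) hj) hu huj
  subst h1
  exact ⟨rfl, h.ov i hj (mem_inter.mpr ⟨hu, huj⟩)⟩

/- END sta -/

/- MODULE stb (M) -/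
/-- PROOF. `cl` (if `i < m`), `cr`. -/
theorem Strip.cut_MM {G : SimpleGraph V} {m : ℕ} {M C : ℕ → Finset V} {Z J : Finset V}
    {R : V → Finset V} (h : Strip G m M C Z J R) {a c i : ℕ} (hac : a < c) (hc : c ≤ m)
    (h1 : a ≤ i) (h2 : i ≤ c) : C i ⊆ MM M a c := by
  intro u hu
  rw [mem_MM]
  by_cases h3 : i < c
  · exact ⟨i, h1, h3, h.cl i (by omega) hu⟩
  · obtain ⟨i', rfl⟩ : ∃ i', i = i' + 1 := ⟨i - 1, by omega⟩
    exact ⟨i', by omega, by omega, h.cr i' (by omega) hu⟩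

/-- PROOF. `cut_block` -/
theorem Strip.cut_MM_disj {G : SimpleGraph V} {m : ℕ} {M C : ℕ → Finset V} {Z J : Finset V}
    {R : V → Finset V} (h : Strip G m M C Z J R) {a c i : ℕ} (hc : c ≤ m) (hi : i ≤ m)
    (h1 : i < a ∨ c < i) : Disjoint (C i) (MM M a c) := by
  rw [disjoint_left]
  intro u hu huM
  rw [mem_MM] at huM
  obtain ⟨j, hj1, hj2, hj⟩ := huM
  have h2 := h.cut_block hi (by omega) hu hj
  omega

/-- PROOF. `block_block` -/
theorem Strip.MM_inter {G : SimpleGraph V} {m : ℕ} {M C : ℕ → Finset V} {Z J : Finset V}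
    {R : V → Finset V} (h : Strip G m M C Z J R) {a c e : ℕ} (he : e ≤ m) :
    MM M a c ∩ MM M c e ⊆ C c := by
  intro u hu
  rw [mem_inter, mem_MM, mem_MM] at hu
  obtain ⟨⟨i, hi1, hi2, hi⟩, ⟨j, hj1, hj2, hj⟩⟩ := hu
  obtain ⟨h1, h2⟩ := h.block_block (by omega) (by omega) hi hj
  have h3 : i + 1 = c := by omega
  rwa [h3] at h2

/-- PROOF. `far` -/
theorem Strip.MM_disj {G : SimpleGraph V} {m : ℕ} {M C : ℕ → Finset V} {Z J : Finset V}
    {R : V → Finset V} (h : Strip G m M C Z J R) {a c e f : ℕ} (hce : c < e) (hf : f ≤ m) :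
    Disjoint (MM M a c) (MM M e f) := by
  rw [disjoint_left]
  intro u hu hu'
  rw [mem_MM] at hu hu'
  obtain ⟨i, hi1, hi2, hi⟩ := hu
  obtain ⟨j, hj1, hj2, hj⟩ := hu'
  obtain ⟨h1, -⟩ := h.block_block (by omega) (by omega) hi hj
  omega

/-- PROOF. `zd` -/
theorem Strip.Z_MM {G : SimpleGraph V} {m : ℕ} {M C : ℕ → Finset V} {Z J : Finset V}
    {R : V → Finset V} (h : Strip G m M C Z J R) {a c : ℕ} (hc : c ≤ m) :
    Disjoint Z (MM M a c) := by
  rw [disjoint_left]
  intro u hu hu'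
  rw [mem_MM] at hu'
  obtain ⟨i, hi1, hi2, hi⟩ := hu'
  exact disjoint_left.mp (h.zd i (by omega)) hu hi

/-- An edge at a vertex of the strip outside the first and the last cut lies in one block or goes to
`Z`. PROOF. If `u` is in no cut of `M i`: `nb`. If `u ∈ C (i + 1)`, `i + 1 < m`, use `nc`; if `u ∈ C i`, `0 < i`, use
`nc` for `i - 1`. -/
theorem Strip.edge_block {G : SimpleGraph V} {m : ℕ} {M C : ℕ → Finset V} {Z J : Finset V}
    {R : V → Finset V} (h : Strip G m M C Z J R) {i : ℕ} (hi : i < m) {u w : V}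
    (hu : u ∈ M i) (h0 : u ∉ C 0) (hm : u ∉ C m) (hw : G.Adj u w) (hwZ : w ∉ Z) :
    ∃ j < m, u ∈ M j ∧ w ∈ M j := by
  by_cases h1 : u ∈ C i
  · have hi0 : i ≠ 0 := by
      rintro rfl
      exact h0 h1
    obtain ⟨i', rfl⟩ : ∃ i', i = i' + 1 := ⟨i - 1, by omega⟩
    rcases h.nc i' hi u h1 w hw with h2 | h2 | h2
    · exact ⟨i', by omega, h.cr i' (by omega) h1, h2⟩
    · exact ⟨i' + 1, hi, hu, h2⟩
    · exact absurd h2 hwZ
  · by_cases h2 : u ∈ C (i + 1)
    · have him : i + 1 ≠ m := by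
        intro h3
        rw [h3] at h2
        exact hm h2
      rcases h.nc i (by omega) u h2 w hw with h3 | h3 | h3
      · exact ⟨i, hi, hu, h3⟩
      · exact ⟨i + 1, by omega, h.cl (i + 1) (by omega) h2, h3⟩
      · exact absurd h3 hwZ
    · rcases h.nb i hi u hu h1 h2 w hw with h3 | h3
      · exact ⟨i, hi, hu, h3⟩
      · exact absurd h3 hwZ

/-- The neighbours of a vertex of a union of blocks outside its two end cuts. PROOF. `u ∈ M i`,
`a ≤ i < c`. If `u` is in `C 0` then `i = 0`, `a = 0` (`cut_block`), so `u ∈ C a`, excluded; the same for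
`C m`. By `edge_block` `u, w ∈ M j`. If `a ≤ j < c` fine. If `j < a`: then `u ∈ M j ∩ M i`, so `i = j + 1 = a` and
`u ∈ C a` (`block_block`), excluded. The same for `c ≤ j`. -/
theorem Strip.MM_nb {G : SimpleGraph V} {m : ℕ} {M C : ℕ → Finset V} {Z J : Finset V}
    {R : V → Finset V} (h : Strip G m M C Z J R) {a c : ℕ} (hc : c ≤ m) {u w : V}
    (hu : u ∈ MM M a c) (ha : u ∉ C a) (hc' : u ∉ C c) (hw : G.Adj u w) :
    w ∈ MM M a c ∨ w ∈ Z := by
  by_cases hwZ : w ∈ Z
  · exact Or.inr hwZ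
  left
  rw [mem_MM] at hu
  obtain ⟨i, hi1, hi2, hi⟩ := hu
  have h0 : u ∉ C 0 := by
    intro h1
    rcases h.cut_block (Nat.zero_le _) (by omega) h1 hi with h2 | h2
    · have h3 : a = 0 := by omega
      rw [h3] at ha
      exact ha h1
    · omega
  have hm : u ∉ C m := by
    intro h1
    rcases h.cut_block le_rfl (by omega) h1 hi with h2 | h2
    · omega
    · have h3 : c = m := by omega
      rw [h3] at hc'
      exact hc' h1
  obtain ⟨j, hj, huj, hwj⟩ := h.edge_block (by omega) hi h0 hm hw hwZ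
  rw [mem_MM]
  refine ⟨j, ?_, ?_, hwj⟩
  · by_contra h1
    obtain ⟨h2, h3⟩ := h.block_block (show j < i by omega) (by omega) huj hi
    have h4 : j + 1 = a := by omega
    rw [h4] at h3
    exact ha h3
  · by_contra h1
    obtain ⟨h2, h3⟩ := h.block_block (show i < j by omega) hj hi huj
    have h4 : i + 1 = c := by omega
    rw [h4] at h3
    exact hc' h3

/-- Rails in unions of blocks are connected. PROOF. `cn_MM` for the sets `R a ∩ M i`, consecutive ones
share the vertex of the rail in `C (i + 1)`. -/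
theorem Strip.rail_MM {G : SimpleGraph V} {m : ℕ} {M C : ℕ → Finset V} {Z J : Finset V}
    {R : V → Finset V} (h : Strip G m M C Z J R) {a : V} (ha : a ∈ J) {b c : ℕ} (hbc : b < c)
    (hc : c ≤ m) : Cn G (R a ∩ MM M b c) := by
  have h1 : R a ∩ MM M b c = MM (fun i => R a ∩ M i) b c := by
    ext u
    simp only [mem_inter, mem_MM]
    constructor
    · rintro ⟨h1, i, h2, h3, h4⟩
      exact ⟨i, h2, h3, h1, h4⟩
    · rintro ⟨i, h2, h3, h1, h4⟩
      exact ⟨h1, i, h2, h3, h4⟩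
  rw [h1]
  refine cn_MM hbc (fun i _ hi => h.rc a ha i (by omega)) fun i _ hi => ?_
  obtain ⟨u, hu, huR, -⟩ := h.rail_cut (show i + 1 ≤ m by omega) ha
  exact ⟨u, mem_inter.mpr ⟨mem_inter.mpr ⟨huR, h.cr i (by omega) hu⟩,
    mem_inter.mpr ⟨huR, h.cl (i + 1) (by omega) hu⟩⟩⟩

/- END stb -/

/- MODULE stc (M) -/
/-- Joining `t` consecutive blocks. PROOF. Fields: `cut_MM`, `cuts_disj`, `MM_inter`, `MM_disj`, `Z_MM`,
`MM_nb`, and for `nc` (a vertex of the cut between two unions is no end cut of their union) `MM_nb` for the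
union of both; `rail_MM`. -/
theorem Strip.coarse {G : SimpleGraph V} {m t : ℕ} {M C : ℕ → Finset V} {Z J : Finset V}
    {R : V → Finset V} (ht : 1 ≤ t) (h : Strip G (t * m) M C Z J R) :
    Strip G m (fun i => MM M (t * i) (t * i + t)) (fun i => C (t * i)) Z J R := by
  have hle : ∀ i, i < m → t * i + t ≤ t * m := by
    intro i hi
    calc t * i + t = t * (i + 1) := by ring
      _ ≤ t * m := Nat.mul_le_mul_left _ hi
  have hsucc : ∀ i, t * (i + 1) = t * i + t := fun i => by ring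
  refine ⟨h.ne, ?_, ?_, ?_, ?_, ?_, ?_, ?_, ?_, h.rd, ?_, ?_, ?_⟩
  · intro i hi
    exact h.cut_MM (by omega) (hle i hi) le_rfl (by omega)
  · intro i hi
    show C (t * (i + 1)) ⊆ _
    rw [hsucc]
    exact h.cut_MM (by omega) (hle i hi) (by omega) le_rfl
  · intro i hi
    show Disjoint (C (t * i)) (C (t * (i + 1)))
    rw [hsucc]
    exact h.cuts_disj (by omega) (hle i hi)
  · intro i hi
    show MM M (t * i) (t * i + t) ∩ MM M (t * (i + 1)) (t * (i + 1) + t) ⊆ C (t * (i + 1))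
    rw [hsucc i]
    have h1 := hle (i + 1) hi
    rw [hsucc i] at h1
    exact h.MM_inter h1
  · intro i j hij hj
    have h1 : t * i + t < t * j := by
      calc t * i + t < t * i + t + t := by omega
        _ = t * (i + 2) := by ring
        _ ≤ t * j := Nat.mul_le_mul_left _ hij
    exact h.MM_disj h1 (hle j hj)
  · intro i hi
    exact h.Z_MM (hle i hi)
  · intro i hi u hu h1 h2 w hw
    have h2 : u ∉ C (t * i + t) := by
      rw [← hsucc]
      exact h2
    exact h.MM_nb (hle i hi) hu h1 h2 hw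
  · intro i hi u hu w hw
    have hu : u ∈ C (t * i + t) := by
      rw [← hsucc]
      exact hu
    have h1 : t * i + t + t ≤ t * m := by
      have h2 := hle (i + 1) hi
      rwa [hsucc i] at h2
    have h2 : u ∈ MM M (t * i) (t * i + t + t) := h.cut_MM (by omega) h1 (by omega) (by omega) hu
    have h3 : u ∉ C (t * i) := fun h4 =>
      disjoint_left.mp (h.cuts_disj (show t * i < t * i + t by omega) (by omega)) h4 hu
    have h4 : u ∉ C (t * i + t + t) := fun h5 =>
      disjoint_left.mp (h.cuts_disj (show t * i + t < t * i + t + t by omega) h1) hu h5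
    show w ∈ MM M (t * i) (t * i + t) ∨ w ∈ MM M (t * (i + 1)) (t * (i + 1) + t) ∨ w ∈ Z
    rw [hsucc]
    rcases h.MM_nb h1 h2 h3 h4 hw with h5 | h5
    · rw [mem_MM] at h5
      obtain ⟨j, hj1, hj2, hj⟩ := h5
      by_cases h6 : j < t * i + t
      · exact Or.inl (mem_MM.mpr ⟨j, hj1, h6, hj⟩)
      · exact Or.inr (Or.inl (mem_MM.mpr ⟨j, by omega, hj2, hj⟩))
    · exact Or.inr (Or.inr h5)
  · intro a ha i hi
    exact h.rail_MM ha (by omega) (hle i hi)
  · intro a ha i hi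
    exact h.r1 a ha (t * i) (Nat.mul_le_mul_left _ hi)
  · intro i hi
    exact h.cc (t * i) (Nat.mul_le_mul_left _ hi)

/-- PROOF. `Strip.coarse`; `cn_MM` (consecutive blocks share a nonempty cut). -/
theorem GStrip.coarse {G : SimpleGraph V} {m t : ℕ} {M C : ℕ → Finset V} {Z J : Finset V}
    {R : V → Finset V} (ht : 1 ≤ t) (h : GStrip G (t * m) M C Z J R) :
    GStrip G m (fun i => MM M (t * i) (t * i + t)) (fun i => C (t * i)) Z J R := by
  have hle : ∀ i, i < m → t * i + t ≤ t * m := by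
    intro i hi
    calc t * i + t = t * (i + 1) := by ring
      _ ≤ t * m := Nat.mul_le_mul_left _ hi
  refine ⟨h.toStrip.coarse ht, ?_, ?_⟩
  · intro i hi
    have h1 := hle i hi
    refine cn_MM (by omega) (fun j _ hj => h.bc j (by omega)) fun j _ hj => ?_
    obtain ⟨u, hu⟩ := h.toStrip.cut_ne (show j + 1 ≤ t * m by omega)
    exact ⟨u, mem_inter.mpr ⟨h.cr j (by omega) hu, h.cl (j + 1) (by omega) hu⟩⟩
  · intro z hz i hi
    have h1 := hle i hi
    obtain ⟨u, hu, hzu⟩ := h.zb z hz (t * i) (by omega)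
    exact ⟨u, mem_MM.mpr ⟨t * i, le_rfl, by omega, hu⟩, hzu⟩

/-- In a strip of joined triples each block contains an edge of a rail away from its two cuts. PROOF. In
the middle block `M (3 i + 1)` the rail piece `R a ∩ M (3 i + 1)` is connected and contains the two
distinct vertices of the rail in `C (3 i + 1)` and `C (3 i + 2)`, so it contains an edge `xy`
(`Cn.exit` with `K = {the first}`); `M (3 i + 1)` is disjoint from `C (3 i)` and `C (3 i + 3)`
(`cut_block`). -/
theorem Strip.rail_edge {G : SimpleGraph V} {m : ℕ} {M C : ℕ → Finset V} {Z J : Finset V}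
    {R : V → Finset V} (h : Strip G (3 * m) M C Z J R) {i : ℕ} (hi : i < m) :
    ∃ a ∈ J, ∃ x y, G.Adj x y ∧ x ∈ R a ∧ y ∈ R a ∧ x ∈ MM M (3 * i) (3 * i + 3) ∧
      y ∈ MM M (3 * i) (3 * i + 3) ∧ x ∉ C (3 * i) ∧ y ∉ C (3 * i) ∧ x ∉ C (3 * (i + 1)) ∧
      y ∉ C (3 * (i + 1)) := by
  obtain ⟨a, ha⟩ := h.ne
  obtain ⟨u, hu, huR, huu⟩ := h.rail_cut (show 3 * i + 1 ≤ 3 * m by omega) ha
  obtain ⟨w, hw, hwR, -⟩ := h.rail_cut (show 3 * i + 2 ≤ 3 * m by omega) ha
  have hM : ∀ v ∈ M (3 * i + 1), v ∈ MM M (3 * i) (3 * i + 3) ∧ v ∉ C (3 * i) ∧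
      v ∉ C (3 * (i + 1)) := by
    intro v hv
    refine ⟨mem_MM.mpr ⟨3 * i + 1, by omega, by omega, hv⟩, fun h1 => ?_, fun h1 => ?_⟩
    · have := h.cut_block (by omega) (by omega) h1 hv
      omega
    · have := h.cut_block (by omega) (by omega) h1 hv
      omega
  have huw : w ∉ ({u} : Finset V) := by
    rw [mem_singleton]
    rintro rfl
    exact disjoint_left.mp (h.cd (3 * i + 1) (by omega)) hu hw
  obtain ⟨x, hx, -, y, hy, -, hxy⟩ := (h.rc a ha (3 * i + 1) (by omega)).exit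
    (mem_inter.mpr ⟨huR, h.cl (3 * i + 1) (by omega) hu⟩) (mem_singleton_self u)
    (mem_inter.mpr ⟨hwR, h.cr (3 * i + 1) (by omega) hw⟩) huw
  rw [mem_inter] at hx hy
  obtain ⟨hx1, hx2, hx3⟩ := hM x hx.2
  obtain ⟨hy1, hy2, hy3⟩ := hM y hy.2
  exact ⟨a, ha, x, y, hxy, hx.1, hy.1, hx1, hy1, hx2, hy2, hx3, hy3⟩

/- END stc -/

/- MODULE std (L) -/
/-- Contracting a rail edge inside a block. PROOF. Let `M' := ` the new blocks (`y` is in no other block and
in no cut). `cl`, `cr`, `cd`, `ov`, `far`, `zd`: `y` is in no cut. `nb`/`nc`: an edge of `Ctr G x y` at `u`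
(`u ≠ y`) to `w ≠ y` is an edge of `G`, or `w = x` and `uy` is an edge of `G`, or `u = x` and `yw` is an edge of
`G`. In the second case `u` is a neighbour of `y`, which is inside the block `i0` (`nb` for `y`), so
`u ∈ M i0 ∪ Z`, and `x ∈ M i0`; in the third case `w ∈ M i0 ∪ Z` and `u = x ∈ M i0`, and `x` is in no other block.
`rd`: subsets. `rc`: `(R b).erase y ∩ M' i = (R b ∩ M i).erase y`: for `i = i0`, `b = a` use `cn_ctr` (`x, y ∈ R a ∩ M i0`),
otherwise `y` is not in it, `cn_ctr'`. `r1`, `cc`: `y` is in no cut. `bc`: `cn_ctr`, `cn_ctr'`. `zb`: if the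
neighbour of `z` in the block is `y` take `x`. -/
theorem GStrip.ctr {G : SimpleGraph V} {m : ℕ} {M C : ℕ → Finset V} {Z J : Finset V}
    {R : V → Finset V} (h : GStrip G m M C Z J R) {i0 : ℕ} (hi0 : i0 < m) {a x y : V}
    (ha : a ∈ J) (hxy : G.Adj x y) (hxa : x ∈ R a) (hya : y ∈ R a) (hx : x ∈ M i0)
    (hy : y ∈ M i0) (hx0 : x ∉ C i0) (hy0 : y ∉ C i0) (hx1 : x ∉ C (i0 + 1))
    (hy1 : y ∉ C (i0 + 1)) :
    GStrip (Ctr G x y) m (fun i => (M i).erase y) C Z J (fun b => (R b).erase y) := by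
  classical
  have hs := h.toStrip
  have hne : x ≠ y := hxy.ne
  -- x and y are in no cut
  have hcut : ∀ v ∈ M i0, v ∉ C i0 → v ∉ C (i0 + 1) → ∀ i ≤ m, v ∉ C i := by
    intro v hv h0 h1 i hi hc
    rcases hs.cut_block hi hi0 hc hv with h' | h'
    · exact h0 (h' ▸ hc)
    · exact h1 (h' ▸ hc)
  have hyC := hcut y hy hy0 hy1
  have hxC := hcut x hx hx0 hx1
  -- x and y are in no other block
  have hblk : ∀ v ∈ M i0, v ∉ C i0 → v ∉ C (i0 + 1) → ∀ i < m, v ∈ M i → i = i0 := by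
    intro v hv h0 h1 i hi hvi
    rcases lt_trichotomy i i0 with h' | h' | h'
    · obtain ⟨h2, h3⟩ := hs.block_block h' hi0 hvi hv
      rw [← h2] at h3
      exact absurd h3 h0
    · exact h'
    · obtain ⟨h2, h3⟩ := hs.block_block h' hi hv hvi
      exact absurd h3 h1
  have hyM := hblk y hy hy0 hy1
  have hxM := hblk x hx hx0 hx1
  have hyZ : y ∉ Z := fun hc => disjoint_left.1 (h.zd i0 hi0) hc hy
  have hxZ : x ∉ Z := fun hc => disjoint_left.1 (h.zd i0 hi0) hc hx
  have hnx := h.nb i0 hi0 x hx hx0 hx1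
  have hny := h.nb i0 hi0 y hy hy0 hy1
  have hCe : ∀ i ≤ m, ∀ u ∈ C i, u ≠ y := by
    rintro i hi u hu rfl
    exact hyC i hi hu
  have hRe : ∀ b ∈ J, ∀ i, (R b).erase y ∩ (M i).erase y = (R b ∩ M i).erase y := by
    intro b _ i
    ext u
    simp only [mem_inter, mem_erase]
    tauto
  refine ⟨⟨h.ne, ?_, ?_, h.cd, ?_, ?_, ?_, ?_, ?_, ?_, ?_, ?_, h.cc⟩, ?_, ?_⟩
  · intro i hi u hu
    exact mem_erase.2 ⟨hCe i (by omega) u hu, h.cl i hi hu⟩
  · intro i hi u hu
    exact mem_erase.2 ⟨hCe (i + 1) (by omega) u hu, h.cr i hi hu⟩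
  · intro i hi u hu
    simp only [mem_inter, mem_erase] at hu
    exact h.ov i hi (mem_inter.2 ⟨hu.1.2, hu.2.2⟩)
  · intro i j hij hj
    exact (h.far i j hij hj).mono (erase_subset _ _) (erase_subset _ _)
  · intro i hi
    exact (h.zd i hi).mono_right (erase_subset _ _)
  · -- nb
    intro i hi u hu h0 h1 w hw
    obtain ⟨huw, huy, hwy, hadj⟩ := hw
    have hu' := (mem_erase.1 hu).2
    have key : w ∈ M i ∨ w ∈ Z := by
      rcases hadj with h' | ⟨rfl, h'⟩ | ⟨rfl, h'⟩
      · exact h.nb i hi u hu' h0 h1 w h'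
      · rw [hxM i hi hu']
        exact hny w h'
      · rcases hny u h' with h2 | h2
        · -- u ∈ M i0, u ∈ M i
          rcases lt_trichotomy i i0 with h3 | h3 | h3
          · obtain ⟨h4, h5⟩ := hs.block_block h3 hi0 hu' h2
            exact absurd h5 h1
          · left; rw [h3]; exact hx
          · obtain ⟨h4, h5⟩ := hs.block_block h3 hi h2 hu'
            rw [← h4] at h5
            exact absurd h5 h0
        · exact absurd hu' (disjoint_left.1 (h.zd i hi) h2)
    rcases key with h' | h'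
    · exact Or.inl (mem_erase.2 ⟨hwy, h'⟩)
    · exact Or.inr h'
  · -- nc
    intro i hi u hu w hw
    obtain ⟨huw, huy, hwy, hadj⟩ := hw
    have key : w ∈ M i ∨ w ∈ M (i + 1) ∨ w ∈ Z := by
      rcases hadj with h' | ⟨rfl, h'⟩ | ⟨rfl, h'⟩
      · exact h.nc i hi u hu w h'
      · exact absurd hu (hxC (i + 1) (by omega))
      · rcases hny u h' with h2 | h2
        · rcases hs.cut_block (i := i + 1) (by omega) hi0 hu h2 with h3 | h3
          · right; left; rw [← h3]; exact hx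
          · left
            have : i = i0 := by omega
            rw [this]; exact hx
        · exact absurd (h.cr i (by omega) hu) (disjoint_left.1 (h.zd i (by omega)) h2)
    rcases key with h' | h' | h'
    · exact Or.inl (mem_erase.2 ⟨hwy, h'⟩)
    · exact Or.inr (Or.inl (mem_erase.2 ⟨hwy, h'⟩))
    · exact Or.inr (Or.inr h')
  · intro b hb c hc hbc
    exact (h.rd b hb c hc hbc).mono (erase_subset _ _) (erase_subset _ _)
  · -- rc
    intro b hb i hi
    simp only [hRe b hb i]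
    by_cases hyy : y ∈ R b ∩ M i
    · have hyb := mem_inter.1 hyy
      have e1 : i = i0 := hyM i hi hyb.2
      have e2 : b = a := by
        by_contra hba
        exact disjoint_left.1 (h.rd b hb a ha hba) hyb.1 hya
      subst e1 e2
      exact cn_ctr (h.rc b hb i hi) (mem_inter.2 ⟨hxa, hx⟩) hyy hne
    · exact cn_ctr' (h.rc b hb i hi) hyy
  · -- r1
    intro b hb i hi
    have e : (R b).erase y ∩ C i = R b ∩ C i := by
      ext u
      simp only [mem_inter, mem_erase]
      constructor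
      · rintro ⟨⟨_, h1⟩, h2⟩; exact ⟨h1, h2⟩
      · rintro ⟨h1, h2⟩; exact ⟨⟨hCe i hi u h2, h1⟩, h2⟩
    simp only [e]
    exact h.r1 b hb i hi
  · -- bc
    intro i hi
    by_cases hyy : y ∈ M i
    · have e1 : i = i0 := hyM i hi hyy
      subst e1
      exact cn_ctr (h.bc i hi) hx hyy hne
    · exact cn_ctr' (h.bc i hi) hyy
  · -- zb
    intro z hz i hi
    obtain ⟨u, hu, hzu⟩ := h.zb z hz i hi
    have hzy : z ≠ y := by rintro rfl; exact hyZ hz
    by_cases huy : u = y
    · subst huy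
      have e1 : i = i0 := hyM i hi hu
      subst e1
      refine ⟨x, mem_erase.2 ⟨hne, hx⟩, ?_, hzy, hne, Or.inr (Or.inr ⟨rfl, hzu.symm⟩)⟩
      rintro rfl
      exact hxZ hz
    · exact ⟨u, mem_erase.2 ⟨huy, hu⟩, hzu.ne, hzy, huy, Or.inl hzu⟩

/- END std -/

section
variable [Fintype V]

/- MODULE ste (S) -/
/-- PROOF. `Inn (fun i => (M i).erase y) C m = (Inn M C m).erase y`. All edges of `G` inside
`univ \ Inn M C m` avoid `y`, so they are edges of `Ctr G x y`; `TW.mono`. -/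
theorem SW.ctr {k : ℕ} {G : SimpleGraph V} {m : ℕ} {M C : ℕ → Finset V} {Z : Finset V}
    (h : SW k G m M C Z) {x y : V} (hy : y ∈ Inn M C m) :
    SW k (Ctr G x y) m (fun i => (M i).erase y) C Z := by
  intro ht
  apply h
  refine ht.mono ?_
  intro a b hab
  have hsub : ∀ u, u ∉ Inn M C m → u ∉ Inn (fun i => (M i).erase y) C m := by
    intro u hu hu'
    apply hu
    simp only [Inn, mem_sdiff, mem_MM, mem_erase] at hu' ⊢
    obtain ⟨⟨i, h1, h2, h3⟩, h4⟩ := hu'
    exact ⟨⟨i, h1, h2, h3.2⟩, h4⟩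
  rcases hab with hab | hab
  · left
    obtain ⟨h1, h2, h3⟩ := hab
    have h2' : a ∉ Inn M C m := by simpa using h2
    have h3' : b ∉ Inn M C m := by simpa using h3
    refine ⟨⟨h1.ne, ?_, ?_, Or.inl h1⟩, ?_, ?_⟩
    · rintro rfl; exact h2' hy
    · rintro rfl; exact h3' hy
    · simpa using hsub a h2'
    · simpa using hsub b h3'
  · right
    exact hab

/-- PROOF. `(univ \ Inn M C m, MM M 0 m ∪ Z)` is a separation of `G` (`Strip.MM_nb`) with intersection
`C 0 ∪ C m ∪ Z`, `A ⊆ univ \ Inn M C m`, `MM M 0 m ∪ Z ⊆ B`; it is weak. -/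
theorem sw_of_small {k : ℕ} {G : SimpleGraph V} {A B : Finset V} (hs : Small k G A B) {m : ℕ}
    {M C : ℕ → Finset V} {Z J : Finset V} {R : V → Finset V} (h : Strip G m M C Z J R)
    (hm : 1 ≤ m) (hB : MM M 0 m ⊆ B) (hZ : Z ⊆ B) (hA : Disjoint (Inn M C m) A) :
    SW k G m M C Z := by
  have hI : ∀ u, u ∈ Inn M C m ↔ u ∈ MM M 0 m ∧ u ∉ C 0 ∧ u ∉ C m := by
    intro u
    simp only [Inn, mem_sdiff, mem_union, not_or]
  have hsp : Sp G univ (univ \ Inn M C m) (MM M 0 m ∪ Z) := by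
    refine ⟨?_, ?_⟩
    · ext u
      simp only [mem_union, mem_sdiff, mem_univ, true_and, iff_true]
      by_cases hu : u ∈ Inn M C m
      · exact Or.inr (Or.inl ((hI u).1 hu).1)
      · exact Or.inl hu
    · intro u _ hu' w _ hw' hadj
      have hw : w ∈ Inn M C m := by simpa using hw'
      obtain ⟨h1, h2, h3⟩ := (hI w).1 hw
      have := h.MM_nb le_rfl h1 h2 h3 hadj.symm
      exact hu' (mem_union.2 this)
  have hw := hs.2 _ _ hsp (by
    intro u hu
    simp only [mem_sdiff, mem_univ, true_and]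
    intro hu'
    exact Finset.disjoint_left.1 hA hu' hu) (Finset.union_subset hB hZ)
  have hint : (univ \ Inn M C m) ∩ (MM M 0 m ∪ Z) = C 0 ∪ C m ∪ Z := by
    ext u
    simp only [mem_inter, mem_sdiff, mem_univ, true_and, mem_union]
    constructor
    · rintro ⟨h1, h2 | h2⟩
      · by_contra hc
        push Not at hc
        exact h1 ((hI u).2 ⟨h2, hc.1.1, hc.1.2⟩)
      · exact Or.inr h2
    · rintro ((h1 | h1) | h1)
      · refine ⟨fun hu => ((hI u).1 hu).2.1 h1, Or.inl ?_⟩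
        exact h.cut_MM (by omega) le_rfl le_rfl (by omega) h1
      · refine ⟨fun hu => ((hI u).1 hu).2.2 h1, Or.inl ?_⟩
        exact h.cut_MM (by omega) le_rfl (by omega) le_rfl h1
      · refine ⟨fun hu => ?_, Or.inr h1⟩
        exact Finset.disjoint_left.1 (h.Z_MM le_rfl) h1 ((hI u).1 hu).1
  rw [Weak, hint] at hw
  exact hw

/- END ste -/

end

end Pool.Agent.TWB
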