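import Pool.Agent.TWB.Defs

/-!
# Elimination schemes: basic facts and the forest of a scheme
-/

namespace Pool.Agent.TWB

open Finset

variable {V : Type*}

/- MODULE taa (S) -/
/-- PROOF. `V → ℤ` order and sets of the same scheme. -/
theorem tw_of_H {k : ℕ} {G G' : SimpleGraph V} (S : Sch G k)
    (h : ∀ a b, G'.Adj a b → b ∈ S.L a ∨ a ∈ S.L b) : TW k G' := by
  classical
  refine ⟨⟨S.p, S.L, S.inj, S.lt, ?_, S.cl, S.card⟩⟩
  intro v w hvw hlt
  rcases h v w hvw with h1 | h1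
  · exact h1
  · exact absurd (S.lt w v h1) (not_lt.2 hlt.le)

/-- adjacent vertices of `G` are adjacent in the completion. PROOF. `S.adj`, `S.inj`. -/
theorem Sch.H {k : ℕ} {G : SimpleGraph V} (S : Sch G k) {a b : V} (h : G.Adj a b) :
    b ∈ S.L a ∨ a ∈ S.L b := by
  rcases lt_trichotomy (S.p a) (S.p b) with h1 | h1 | h1
  · exact Or.inl (S.adj a b h h1)
  · exact absurd (S.inj h1) h.ne
  · exact Or.inr (S.adj b a h.symm h1)

/-- PROOF. The same scheme. -/
theorem TW.mono {k : ℕ} {G G' : SimpleGraph V} (h : TW k G')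
    (hle : ∀ a b, G.Adj a b → G'.Adj a b) : TW k G := by
  obtain ⟨S⟩ := h
  exact tw_of_H S fun a b hab => S.H (hle a b hab)

/-- two elements of a bag are adjacent in the completion. PROOF. `S.cl`, `S.inj`. -/
theorem Sch.H_of_bag {k : ℕ} {G : SimpleGraph V} [DecidableEq V] (S : Sch G k) {v a b : V}
    (ha : a ∈ insert v (S.L v)) (hb : b ∈ insert v (S.L v)) (hab : a ≠ b) :
    b ∈ S.L a ∨ a ∈ S.L b := by
  rcases Finset.mem_insert.1 ha with ha | ha
  · rcases Finset.mem_insert.1 hb with hb | hb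
    · exact absurd (ha.trans hb.symm) hab
    · left; rw [ha]; exact hb
  · rcases Finset.mem_insert.1 hb with hb | hb
    · right; rw [hb]; exact ha
    · rcases lt_trichotomy (S.p a) (S.p b) with h1 | h1 | h1
      · exact Or.inl (S.cl v a b ha hb h1)
      · exact absurd (S.inj h1) hab
      · exact Or.inr (S.cl v b a hb ha h1)

/-- (T6) cliques inside bags may be added. PROOF. `tw_of_H`, `Sch.H`, `Sch.H_of_bag`. -/
theorem tw_bags {k : ℕ} {G : SimpleGraph V} [DecidableEq V] (S : Sch G k) (v w : V)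
    (X Y : Finset V) (hX : X ⊆ insert v (S.L v)) (hY : Y ⊆ insert w (S.L w)) :
    TW k (G ⊔ KG X ⊔ KG Y) := by
  refine tw_of_H S fun a b hab => ?_
  rcases hab with (hab | hab) | hab
  · exact S.H hab
  · exact S.H_of_bag (hX hab.2.1) (hX hab.2.2) hab.1
  · exact S.H_of_bag (hY hab.2.1) (hY hab.2.2) hab.1

/-- PROOF. `tw_bags` with `Y = ∅`, `TW.mono`. -/
theorem tw_bag {k : ℕ} {G : SimpleGraph V} [DecidableEq V] (S : Sch G k) (v : V)
    (X : Finset V) (hX : X ⊆ insert v (S.L v)) : TW k (G ⊔ KG X) := by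
  refine (tw_bags S v v X ∅ hX (Finset.empty_subset _)).mono fun a b hab => ?_
  exact Or.inl hab

/- END taa -/

/- MODULE tab (S) -/
private theorem tab_cl {G : SimpleGraph V} {p : V → ℤ} {v w w' : V}
    (hw : w ∈ Pool.Agent.TW4.Qs G p v) (hw' : w' ∈ Pool.Agent.TW4.Qs G p v)
    (hlt : p w < p w') : w' ∈ Pool.Agent.TW4.Qs G p w := by
  obtain ⟨hw, x, hx, hxw⟩ := hw
  obtain ⟨hw', x', hx', hxw'⟩ := hw'
  refine ⟨hlt, x', ?_, hxw'⟩
  have hxw2 : Pool.Agent.TW4.Comp G p w x :=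
    Pool.Agent.TW4.Comp.step Pool.Agent.TW4.Comp.refl hxw.symm (lt_of_le_of_lt hx.le hw)
  have back : ∀ y, Pool.Agent.TW4.Comp G p v y → Pool.Agent.TW4.Comp G p w y →
      Pool.Agent.TW4.Comp G p w v := by
    intro y hy
    induction hy with
    | refl => exact fun h => h
    | @step a b ha hab _ ih =>
      intro hb
      exact ih (Pool.Agent.TW4.Comp.step hb hab.symm (lt_of_le_of_lt ha.le hw))
  have hwv : Pool.Agent.TW4.Comp G p w v := back x hx hxw2
  have fwd : ∀ y, Pool.Agent.TW4.Comp G p v y → Pool.Agent.TW4.Comp G p w y := by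
    intro y hy
    induction hy with
    | refl => exact hwv
    | @step a b ha hab hlt' ih => exact Pool.Agent.TW4.Comp.step ih hab (hlt'.trans hw)
  exact fwd x' hx'

/-- PROOF. `Pool.Agent.TW4.width_of_partial` gives an order `p` with
`(Pool.Agent.TW4.Qs G p v).encard ≤ k`; put `L v := ` the finset of `Qs G p v` (`V` is finite); `adj`
and `cl` are proved as in the proof of `Pool.Agent.TW4.partial_of_width`. -/
theorem tw_of_partial {k : ℕ} [Finite V] {G : SimpleGraph V}
    (h : Pool.Agent.TW4.IsPartialKTree k G) : TW k G := by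
  classical
  have := Fintype.ofFinite V
  obtain ⟨p, hp⟩ := Pool.Agent.TW4.width_of_partial h
  have hm : ∀ v w, w ∈ (Set.toFinite (Pool.Agent.TW4.Qs G p v)).toFinset ↔
      w ∈ Pool.Agent.TW4.Qs G p v := fun v w => Set.Finite.mem_toFinset _
  refine ⟨⟨p, fun v => (Set.toFinite (Pool.Agent.TW4.Qs G p v)).toFinset, hp.1, ?_, ?_, ?_, ?_⟩⟩
  · intro v w hw
    exact ((hm v w).1 hw).1
  · intro v w hvw hlt
    exact (hm v w).2 ⟨hlt, v, Pool.Agent.TW4.Comp.refl, hvw⟩
  · intro v w w' hw hw' hlt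
    rw [hm] at hw hw' ⊢
    exact tab_cl hw hw' hlt
  · intro v
    have h1 := hp.2 v
    have h2 : (Pool.Agent.TW4.Qs G p v).encard
        = ((Set.toFinite (Pool.Agent.TW4.Qs G p v)).toFinset.card : ℕ∞) :=
      (Set.toFinite (Pool.Agent.TW4.Qs G p v)).encard_eq_coe_toFinset_card
    rw [h2] at h1
    exact_mod_cast h1

/-- PROOF. `Pool.Agent.TW4.partial_of_scheme` with `L v` as a set. -/
theorem partial_of_tw {k : ℕ} [Finite V] {G : SimpleGraph V} (h : TW k G) :
    Pool.Agent.TW4.IsPartialKTree k G := by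
  obtain ⟨S⟩ := h
  refine Pool.Agent.TW4.partial_of_scheme G S.p (fun v => (S.L v : Set V)) S.inj
    (fun v w hw => S.lt v w (Finset.mem_coe.1 hw))
    (fun v w hvw hlt => Finset.mem_coe.2 (S.adj v w hvw hlt))
    (fun v w w' hw hw' hlt => Finset.mem_coe.2
      (S.cl v w w' (Finset.mem_coe.1 hw) (Finset.mem_coe.1 hw') hlt)) ?_
  intro v
  rw [Set.encard_coe_eq_coe_finsetCard]
  exact_mod_cast S.card v

/- END tab -/

section
variable [Fintype V]

/- MODULE tac (M) -/
/-- PROOF. reflexivity -/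
theorem Sch.self_mem {k : ℕ} {G : SimpleGraph V} (S : Sch G k) (v : V) : v ∈ S.D v := by
  exact (S.mem_D).2 Relation.ReflTransGen.refl

/-- PROOF. one step -/
theorem Sch.mem_of_L {k : ℕ} {G : SimpleGraph V} (S : Sch G k) {v w : V} (h : w ∈ S.L v) :
    v ∈ S.D w := by
  exact (S.mem_D).2 (Relation.ReflTransGen.single h)

/-- PROOF. transitivity -/
theorem Sch.D_trans {k : ℕ} {G : SimpleGraph V} (S : Sch G k) {u v w : V} (h : u ∈ S.D v)
    (h' : v ∈ S.D w) : u ∈ S.D w := by
  exact (S.mem_D).2 (((S.mem_D).1 h).trans ((S.mem_D).1 h'))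

/-- PROOF. induction along the path (`S.lt`) -/
theorem Sch.D_le {k : ℕ} {G : SimpleGraph V} (S : Sch G k) {u v : V} (h : u ∈ S.D v) :
    S.p u ≤ S.p v := by
  have h1 := (S.mem_D).1 h
  induction h1 with
  | refl => exact le_rfl
  | @tail b c hb hbc ih => exact (ih ((S.mem_D).2 hb)).trans (S.lt b c hbc).le

/-- PROOF. `D_le`, `S.inj` -/
theorem Sch.D_lt {k : ℕ} {G : SimpleGraph V} (S : Sch G k) {u v : V} (h : u ∈ S.D v)
    (hne : u ≠ v) : S.p u < S.p v := by
  exact lt_of_le_of_ne (S.D_le h) fun h1 => hne (S.inj h1)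

/-- PROOF. `D_le` and `S.lt` -/
theorem Sch.disj_DL {k : ℕ} {G : SimpleGraph V} (S : Sch G k) (v : V) :
    Disjoint (S.D v) (S.L v) := by
  rw [Finset.disjoint_left]
  intro x hx hx'
  exact absurd (S.D_le hx) (not_le.2 (S.lt v x hx'))

/-- (T1) PROOF. Induction along the path `u → a → … → v` (`Relation.ReflTransGen.head_induction_on`):
let `a ∈ L u` with `a ∈ D v`, `L a ⊆ D v ∪ L v`, and `w ∈ L u`. If `w = a` fine; if `p a < p w`
then `w ∈ L a` by `S.cl`; if `p w < p a` then `a ∈ L w` so `w ∈ D a ⊆ D v`. -/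
theorem Sch.L_sub {k : ℕ} {G : SimpleGraph V} (S : Sch G k) {u v w : V}
    (h : u ∈ S.D v) (hw : w ∈ S.L u) : w ∈ S.D v ∨ w ∈ S.L v := by
  have h1 := (S.mem_D).1 h
  clear h
  induction h1 using Relation.ReflTransGen.head_induction_on generalizing w with
  | refl => exact Or.inr hw
  | @head a c hac hcv ih =>
    have hac' : c ∈ S.L a := hac
    have hcD : c ∈ S.D v := (S.mem_D).2 hcv
    rcases lt_trichotomy (S.p w) (S.p c) with h2 | h2 | h2
    · left
      exact S.D_trans (S.mem_of_L (S.cl a w c hw hac' h2)) hcD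
    · left
      rw [S.inj h2]
      exact hcD
    · exact ih (S.cl a c w hac' hw h2)

/-- (T1) PROOF. If `w ∈ L u` use `L_sub`; if `u ∈ L w` then `w ∈ D u ⊆ D v`. -/
theorem Sch.D_H {k : ℕ} {G : SimpleGraph V} (S : Sch G k) {u v w : V}
    (h : u ∈ S.D v) (hw : w ∈ S.L u ∨ u ∈ S.L w) : w ∈ S.D v ∨ w ∈ S.L v := by
  rcases hw with hw | hw
  · exact S.L_sub h hw
  · exact Or.inl (S.D_trans (S.mem_of_L hw) h)

/-- (T1) PROOF. `Sch.H`, `Sch.D_H` -/
theorem Sch.D_adj {k : ℕ} {G : SimpleGraph V} (S : Sch G k) {u v w : V}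
    (h : u ∈ S.D v) (hw : G.Adj u w) : w ∈ S.D v ∨ w ∈ S.L v := by
  exact S.D_H h (S.H hw)

/- END tac -/

/- MODULE tad (M) -/
/-- (T2) PROOF. Strong induction on the number of vertices later than `u` (or on the path lengths): if
`u = v` then `h'` is the claim. If `u = w` then `p w ≤ p v ≤ p w`, so `v = w`. Otherwise there are
`a, b ∈ L u` with `a ∈ D v`, `b ∈ D w`. If `a = b` use the induction hypothesis for `a`. If
`p a < p b` then `b ∈ L a` by `S.cl`, hence `a ∈ D w`, induction hypothesis for `a`. If `p b < p a`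
then `a ∈ L b`, so `b ∈ D v`, induction hypothesis for `b`. -/
theorem Sch.comparable {k : ℕ} {G : SimpleGraph V} (S : Sch G k) {u v w : V} (h : u ∈ S.D v)
    (h' : u ∈ S.D w) (hle : S.p v ≤ S.p w) : v ∈ S.D w := by
  have h1 := (S.mem_D).1 h
  have h2 := (S.mem_D).1 h'
  clear h h'
  -- induction on the number of later vertices
  obtain ⟨N, hN⟩ : ∃ N : ℕ, (Finset.univ.filter fun x => S.p u < S.p x).card = N := ⟨_, rfl⟩
  induction N using Nat.strong_induction_on generalizing u with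
  | _ N ih =>
    have hstep : ∀ a, a ∈ S.L u → Relation.ReflTransGen (fun a b => b ∈ S.L a) a v →
        Relation.ReflTransGen (fun a b => b ∈ S.L a) a w → v ∈ S.D w := by
      intro a ha hav haw
      refine ih _ ?_ hav haw rfl
      rw [← hN]
      refine Finset.card_lt_card ?_
      rw [Finset.ssubset_iff_of_subset]
      · exact ⟨a, by simpa using S.lt u a ha, by simp⟩
      · intro x hx
        rw [Finset.mem_filter] at hx ⊢
        exact ⟨hx.1, (S.lt u a ha).trans hx.2⟩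
    rcases Relation.ReflTransGen.cases_head h1 with h3 | ⟨a, hua, hav⟩
    · rw [← h3]; exact (S.mem_D).2 h2
    · rcases Relation.ReflTransGen.cases_head h2 with h4 | ⟨b, hub, hbw⟩
      · -- u = w
        have h5 : S.p w < S.p a := by rw [← h4]; exact S.lt u a hua
        have h6 : S.p a ≤ S.p v := S.D_le ((S.mem_D).2 hav)
        exact absurd hle (not_le.2 (h5.trans_le h6))
      · have hua' : a ∈ S.L u := hua
        have hub' : b ∈ S.L u := hub
        rcases lt_trichotomy (S.p a) (S.p b) with h5 | h5 | h5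
        · have h6 : b ∈ S.L a := S.cl u a b hua' hub' h5
          exact hstep a hua' hav (Relation.ReflTransGen.head h6 hbw)
        · have h6 : a = b := S.inj h5
          exact hstep a hua' hav (h6 ▸ hbw)
        · have h6 : a ∈ S.L b := S.cl u b a hub' hua' h5
          exact hstep b hub' (Relation.ReflTransGen.head h6 hav) hbw

/-- laminarity. PROOF. a common element and `comparable` (`le_total`) -/
theorem Sch.laminar {k : ℕ} {G : SimpleGraph V} (S : Sch G k) (v w : V) :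
    S.D v ⊆ S.D w ∨ S.D w ⊆ S.D v ∨ Disjoint (S.D v) (S.D w) := by
  by_cases hd : Disjoint (S.D v) (S.D w)
  · exact Or.inr (Or.inr hd)
  · rw [Finset.not_disjoint_iff] at hd
    obtain ⟨u, hu, hu'⟩ := hd
    rcases le_total (S.p v) (S.p w) with h1 | h1
    · left
      intro x hx
      exact S.D_trans hx (S.comparable hu hu' h1)
    · right; left
      intro x hx
      exact S.D_trans hx (S.comparable hu' hu h1)

/-- (T3) PROOF. If `x ∈ L v ∩ D w` then `v ∈ D x ⊆ D w`, and `v ∈ D v`. -/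
theorem Sch.disj_L_D {k : ℕ} {G : SimpleGraph V} (S : Sch G k) {v w : V}
    (h : Disjoint (S.D v) (S.D w)) : Disjoint (S.L v) (S.D w) := by
  rw [Finset.disjoint_left] at h ⊢
  intro x hx hx'
  exact h (S.self_mem v) (S.D_trans (S.mem_of_L hx) hx')

/-- PROOF. `D_trans` and `L_sub`. -/
theorem Sch.L_sub_of_mem [DecidableEq V] {k : ℕ} {G : SimpleGraph V} (S : Sch G k) {v w : V}
    (h : v ∈ S.D w) : S.L v ⊆ S.D w ∪ S.L w := by
  intro x hx
  exact Finset.mem_union.2 (S.L_sub h hx)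

/-- (T4) PROOF. Let `u` be the element of `{u ∈ D v | u ≠ v ∧ w ∈ D u}` (it contains `w`) with the
greatest `p`. For `y ∈ L u`: `w ∈ D y`, and `y ∈ D v ∪ L v`; if `y ∈ D v`, `y ≠ v`, then `y` belongs to
the set and `p u < p y`, a contradiction. So `L u ⊆ insert v (L v)`. As `u ∈ D v`, `u ≠ v`, the path
from `u` to `v` starts with some `a ∈ L u`, `a ∈ D v`, so `a = v` (`a ∈ L v` is impossible by
`disj_DL`). -/
theorem Sch.exists_child [DecidableEq V] {k : ℕ} {G : SimpleGraph V} (S : Sch G k) {v w : V}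
    (h : w ∈ S.D v) (hne : w ≠ v) :
    ∃ u, u ∈ S.D v ∧ u ≠ v ∧ w ∈ S.D u ∧ v ∈ S.L u ∧ S.L u ⊆ insert v (S.L v) := by
  have hne' : (Finset.univ.filter fun u => u ∈ S.D v ∧ u ≠ v ∧ w ∈ S.D u).Nonempty :=
    ⟨w, by simp [h, hne, S.self_mem w]⟩
  obtain ⟨u, hu, hmax⟩ := Finset.exists_max_image _ S.p hne'
  rw [Finset.mem_filter] at hu
  obtain ⟨-, huv, hne2, hwu⟩ := hu
  have hL : ∀ y ∈ S.L u, y ∈ S.D v → y = v := by
    intro y hy hyv
    by_contra hyne
    have h1 := hmax y (by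
      rw [Finset.mem_filter]
      exact ⟨Finset.mem_univ _, hyv, hyne, S.D_trans hwu (S.mem_of_L hy)⟩)
    exact absurd h1 (not_le.2 (S.lt u y hy))
  have hLs : S.L u ⊆ insert v (S.L v) := by
    intro y hy
    rcases S.L_sub huv hy with h1 | h1
    · rw [hL y hy h1]; exact Finset.mem_insert_self _ _
    · exact Finset.mem_insert_of_mem h1
  refine ⟨u, huv, hne2, hwu, ?_, hLs⟩
  rcases Relation.ReflTransGen.cases_head ((S.mem_D).1 huv) with h1 | ⟨a, hua, hav⟩
  · exact absurd h1 hne2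
  · have hua' : a ∈ S.L u := hua
    rw [← hL a hua' ((S.mem_D).2 hav)]
    exact hua'

/-- (T5) PROOF. Take `ρ` with `u ∈ D ρ` and `p ρ` maximal; if `x ∈ L ρ` then `u ∈ D x`, `p ρ < p x`. -/
theorem Sch.exists_root {k : ℕ} {G : SimpleGraph V} (S : Sch G k) (u : V) :
    ∃ ρ, u ∈ S.D ρ ∧ S.L ρ = ∅ := by
  classical
  have hne' : (Finset.univ.filter fun x => u ∈ S.D x).Nonempty := ⟨u, by simp [S.self_mem u]⟩
  obtain ⟨ρ, hρ, hmax⟩ := Finset.exists_max_image _ S.p hne'
  rw [Finset.mem_filter] at hρ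
  refine ⟨ρ, hρ.2, ?_⟩
  by_contra hL
  obtain ⟨x, hx⟩ := Finset.nonempty_iff_ne_empty.2 hL
  have h1 := hmax x (by
    rw [Finset.mem_filter]
    exact ⟨Finset.mem_univ _, S.D_trans hρ.2 (S.mem_of_L hx)⟩)
  exact absurd h1 (not_le.2 (S.lt ρ x hx))

/- END tad -/

end

end Pool.Agent.TWB
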